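import Pool.Agent.H99.Trib.Defs

/-!
# The 35-state automaton reading digit words over `{0,1,2}`

`dls 0 s` is the state reached on the digit word `s` (most significant digit first); the output
`ou (dls 0 s)` is the letter of the Tribonacci word at position `sval s` (proved in `Delta.lean`).
-/

namespace Pool.H99.Trib

/-- value of a digit word (most significant digit first, arbitrary digits) -/
def sval : List ℕ → ℕ
  | [] => 0
  | d :: w => d * W w.length + sval w

/-- binary word as digit word -/
def bits (w : List Bool) : List ℕ := w.map Bool.toNat

/-- digitwise sum of two binary words (of the same length) -/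
def zs (u w : List Bool) : List ℕ := List.zipWith (fun a b => a.toNat + b.toNat) u w

abbrev Q := Fin 35

/-- packed transition table: entry `y` of row `a` is `dl y a` (6 bits per entry) -/
def rowT : ℕ → ℕ
  | 0 => 322336826640365713627549761971051846239309654062077527554285760
  | 1 => 345229635307241747900591068921284276081557933586905113070694657
  | _ => 602768258445255248598302462785474225310951148863457926725271874

/-- transition function -/
def dl (y : Q) (a : ℕ) : Q := Fin.ofNat 35 ((rowT a >>> (6 * y.val)) % 64)

/-- output function -/
def ou (y : Q) : ℕ := (74111824912025928196 >>> (2 * y.val)) % 4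

/-- run on a digit word -/
def dls (y : Q) (s : List ℕ) : Q := s.foldl dl y

theorem dls_nil (y : Q) : dls y [] = y := rfl

theorem dls_cons (y : Q) (a : ℕ) (s : List ℕ) : dls y (a :: s) = dls (dl y a) s := rfl

theorem dls_append (y : Q) (s t : List ℕ) : dls y (s ++ t) = dls (dls y s) t := by
  simp [dls, List.foldl_append]

/-- The vector of states attached to a binary word `x`: entry `m` is the state reached on the
sum of `x` and of the word of the first `m` digits of `cs`, right aligned. -/
def vec0 (cs : ℕ → Bool) (m : ℕ) : Q := dls 0 ((List.range m).map fun i => (cs i).toNat)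

def vecStep (cs : ℕ → Bool) (v : ℕ → Q) (a : Bool) : ℕ → Q
  | 0 => dl (v 0) a.toNat
  | (m + 1) => dl (v m) (a.toNat + (cs m).toNat)

def vec (cs : ℕ → Bool) (x : List Bool) : ℕ → Q := x.foldl (vecStep cs) (vec0 cs)

/-- the first `M` digits of `cs` as a word -/
def pref (cs : ℕ → Bool) (M : ℕ) : List Bool := (List.range M).map cs

/-- two start states are not merged by the sum of `u` and `w` -/
def Unsync (u w : List Bool) : Prop := ∃ p q : Q, dls p (zs u w) ≠ dls q (zs u w)

example : ou (dls 0 [1,0,2,1,1,2]) = tribWord (sval [1,0,2,1,1,2]) := by decide

end Pool.H99.Trib
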