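import Pool.Agent.H99.Trib.Normal

/-!
# Average order of the state complexity
-/

namespace Pool.H99.Trib

open Filter

open Classical in
theorem average_lower (β lam : ℝ) (hβ : 0 < β) (hβ3 : β ^ 3 = β ^ 2 + β + 1) (h0 : 0 < lam)
    (h : lam ^ 4 = 2 * lam + 1) (ε : ℝ) (hε : 0 < ε) :
    ∀ᶠ N : ℕ in atTop, (N : ℝ) * Real.log N ^ (Real.log β / Real.log (β / lam) - ε) ≤
      ∑ c ∈ Finset.range N, (s c : ℝ) := by
  set θ : ℝ := Real.log β / Real.log (β / lam) with hθ
  have h1 := typical_lower β lam hβ hβ3 h0 h (ε / 2) (by linarith)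
  have h2 : ∀ᶠ N : ℕ in atTop, (((Finset.range N).filter fun c =>
      (s c : ℝ) < Real.log N ^ (θ - ε / 2)).card : ℝ) / N < 1 / 2 :=
    h1.eventually (gt_mem_nhds (by norm_num))
  have h3 : Tendsto (fun N : ℕ => Real.log N) atTop atTop :=
    Real.tendsto_log_atTop.comp tendsto_natCast_atTop_atTop
  have h4 : Tendsto (fun N : ℕ => Real.log N ^ (ε / 2)) atTop atTop :=
    (tendsto_rpow_atTop (by linarith)).comp h3
  filter_upwards [h2, h4.eventually_ge_atTop 2, h3.eventually_ge_atTop 1,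
    eventually_ge_atTop 1] with N hN2 hN4 hN3 hN1
  have hN0 : (0 : ℝ) < N := by exact_mod_cast hN1
  have hlog : 0 < Real.log N := by linarith
  set A := (Finset.range N).filter fun c => (s c : ℝ) < Real.log N ^ (θ - ε / 2) with hA
  set B := (Finset.range N).filter fun c => ¬ (s c : ℝ) < Real.log N ^ (θ - ε / 2) with hB
  have hcard : A.card + B.card = N := by
    have := Finset.card_filter_add_card_filter_not (s := Finset.range N)
      (fun c => (s c : ℝ) < Real.log N ^ (θ - ε / 2))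
    rw [Finset.card_range] at this
    exact this
  have hcard' : (A.card : ℝ) + B.card = N := by exact_mod_cast hcard
  rw [div_lt_iff₀ hN0] at hN2
  have hBc : (N : ℝ) / 2 ≤ B.card := by linarith
  have hp : 0 < Real.log N ^ (θ - ε / 2) := Real.rpow_pos_of_pos hlog _
  have hsum : (B.card : ℝ) * Real.log N ^ (θ - ε / 2) ≤ ∑ c ∈ Finset.range N, (s c : ℝ) := by
    calc (B.card : ℝ) * Real.log N ^ (θ - ε / 2) = ∑ c ∈ B, Real.log N ^ (θ - ε / 2) := by
          rw [Finset.sum_const, nsmul_eq_mul]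
      _ ≤ ∑ c ∈ B, (s c : ℝ) := by
          refine Finset.sum_le_sum fun c hc => ?_
          rw [hB, Finset.mem_filter] at hc
          exact not_lt.1 hc.2
      _ ≤ ∑ c ∈ Finset.range N, (s c : ℝ) :=
          Finset.sum_le_sum_of_subset_of_nonneg (Finset.filter_subset _ _)
            fun c _ _ => Nat.cast_nonneg _
  have hsplit : Real.log N ^ (θ - ε / 2) = Real.log N ^ (θ - ε) * Real.log N ^ (ε / 2) := by
    rw [← Real.rpow_add hlog]
    congr 1
    ring
  have hp2 : 0 < Real.log N ^ (θ - ε) := Real.rpow_pos_of_pos hlog _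
  calc (N : ℝ) * Real.log N ^ (θ - ε) ≤ (N : ℝ) / 2 * (Real.log N ^ (θ - ε) *
        Real.log N ^ (ε / 2)) := by
        have : Real.log N ^ (θ - ε) * 2 ≤ Real.log N ^ (θ - ε) * Real.log N ^ (ε / 2) :=
          mul_le_mul_of_nonneg_left hN4 hp2.le
        nlinarith
    _ = (N : ℝ) / 2 * Real.log N ^ (θ - ε / 2) := by rw [hsplit]
    _ ≤ (B.card : ℝ) * Real.log N ^ (θ - ε / 2) := mul_le_mul_of_nonneg_right hBc hp.le
    _ ≤ _ := hsum

end Pool.H99.Trib
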