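import Mathlib

/-!
# A sequential counting argument

`R` is a relation between words of equal length, `V n` a finite set of words of length `n`.
A word `u` is cut into blocks `U_t` of lengths `bl t`, and three windows `A_t, B_t, C_t` of a word
`d` (the second one starting `h`, the third one `h + g` places after the first one) must satisfy
`R U_t A_t`, `R U_t B_t`, `R U_t C_t`. The block lengths have a period `k` of total length `g`.
-/

set_option linter.unusedSectionVars false

namespace Pool.H99.Trib.Chain

variable (R : List Bool → List Bool → Prop) (V : ℕ → Finset (List Bool))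

open Classical in
/-- number of common neighbours -/
noncomputable def nn (A B : List Bool) : ℕ := ((V A.length).filter fun U => R U A ∧ R U B).card

open Classical in
/-- number of ways to continue by `r` blocks, starting with the block number `t`; `D` (of length
`h + g`) is the part of `d` between the beginning of the first window and the beginning of the
third window -/
noncomputable def cnt (h : ℕ) (bl : ℕ → ℕ) : ℕ → ℕ → List Bool → ℕ
  | 0, _, _ => 1
  | r + 1, t, D => ∑ U ∈ (V (bl t)).filter
        (fun U => R U (D.take (bl t)) ∧ R U ((D.drop h).take (bl t))),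
      ∑ C ∈ (V (bl t)).filter (fun C => R U C), cnt h bl r (t + 1) (D.drop (bl t) ++ C)

/-- product of the numbers of common neighbours of the next `m` pairs of blocks inside `D` -/
noncomputable def om (h : ℕ) (bl : ℕ → ℕ) : ℕ → ℕ → List Bool → ℕ
  | 0, _, _ => 1
  | m + 1, t, D => nn R V (D.take (bl t)) ((D.drop h).take (bl t)) *
      om h bl m (t + 1) (D.drop (bl t))

theorem Chain_om_append (h : ℕ) (bl : ℕ → ℕ) (C : List Bool) : ∀ (m t : ℕ) (E : List Bool),
    h + ∑ s ∈ Finset.range m, bl (t + s) ≤ E.length →
      om R V h bl m t (E ++ C) = om R V h bl m t E := by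
  intro m
  induction m with
  | zero => intro t E _; rfl
  | succ m ih =>
    intro t E hE
    rw [Finset.sum_range_succ'] at hE
    have e0 : ∀ s, bl (t + (s + 1)) = bl (t + 1 + s) := fun s => by congr 1; omega
    simp only [e0, add_zero] at hE
    have h1 : bl t ≤ E.length := by omega
    have h2 : h ≤ E.length := by omega
    have h3 : bl t ≤ (E.drop h).length := by rw [List.length_drop]; omega
    have e1 : (E ++ C).take (bl t) = E.take (bl t) := List.take_append_of_le_length h1
    have e2 : (E ++ C).drop h = E.drop h ++ C := List.drop_append_of_le_length h2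
    have e3 : (E.drop h ++ C).take (bl t) = (E.drop h).take (bl t) :=
      List.take_append_of_le_length h3
    have e4 : (E ++ C).drop (bl t) = E.drop (bl t) ++ C := List.drop_append_of_le_length h1
    unfold om
    rw [e1, e2, e3, e4, ih (t + 1) (E.drop (bl t)) (by rw [List.length_drop]; omega)]

theorem Chain_om_last (h : ℕ) (bl : ℕ → ℕ) : ∀ (m t : ℕ) (D : List Bool),
    om R V h bl (m + 1) t D = om R V h bl m t D *
      nn R V ((D.drop (∑ s ∈ Finset.range m, bl (t + s))).take (bl (t + m)))
        ((D.drop (h + ∑ s ∈ Finset.range m, bl (t + s))).take (bl (t + m))) := by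
  intro m
  induction m with
  | zero => intro t D; simp [om]
  | succ m ih =>
    intro t D
    have e0 : ∀ s, bl (t + 1 + s) = bl (t + (s + 1)) := fun s => by congr 1; omega
    have e1 : om R V h bl (m + 1 + 1) t D = nn R V (D.take (bl t)) ((D.drop h).take (bl t)) *
      om R V h bl (m + 1) (t + 1) (D.drop (bl t)) := rfl
    have e2 : om R V h bl (m + 1) t D = nn R V (D.take (bl t)) ((D.drop h).take (bl t)) *
      om R V h bl m (t + 1) (D.drop (bl t)) := rfl
    rw [e1, ih (t + 1) (D.drop (bl t)), e2, List.drop_drop, List.drop_drop, mul_assoc,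
      Finset.sum_range_succ']
    simp only [e0, add_zero]
    have e3 : bl t + ∑ s ∈ Finset.range m, bl (t + (s + 1)) =
        ∑ s ∈ Finset.range m, bl (t + (s + 1)) + bl t := by omega
    have e4 : bl t + (h + ∑ s ∈ Finset.range m, bl (t + (s + 1))) =
        h + (∑ s ∈ Finset.range m, bl (t + (s + 1)) + bl t) := by omega
    rw [e3, e4]

theorem Chain_sum_period (k g : ℕ) (bl : ℕ → ℕ) (hper : ∀ t, bl (t + k) = bl t)
    (hg : ∑ s ∈ Finset.range k, bl s = g) (t : ℕ) : ∑ s ∈ Finset.range k, bl (t + s) = g := by
  induction t with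
  | zero => rw [← hg]; exact Finset.sum_congr rfl fun s _ => by rw [zero_add]
  | succ t ih =>
    have h1 : ∑ s ∈ Finset.range (k + 1), bl (t + s) = g + bl t := by
      rw [Finset.sum_range_succ, ih, hper]
    rw [Finset.sum_range_succ'] at h1
    have e0 : ∀ s, bl (t + (s + 1)) = bl (t + 1 + s) := fun s => by congr 1; omega
    simp only [e0, add_zero] at h1
    omega

/-- main inequality -/
theorem cnt_le (hV : ∀ n, ∀ w ∈ V n, w.length = n) (h g k : ℕ) (bl : ℕ → ℕ)
    (hper : ∀ t, bl (t + k) = bl t) (hk : 1 ≤ k) (hg : ∑ s ∈ Finset.range k, bl s = g)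
    (hlen : ∀ t, bl t ≤ h) (P a : ℕ → ℝ) (hP0 : ∀ n, 0 ≤ P n) (ha0 : ∀ n, 0 ≤ a n)
    (hP : by classical exact ∀ U D : List Bool, U.length = D.length →
      ∑ C ∈ (V U.length).filter (fun C => R U C), (nn R V D C : ℝ) ≤ P U.length)
    (ha : by classical exact ∀ U : List Bool,
      (((V U.length).filter fun C => R U C).card : ℝ) ≤ a U.length)
    (r t : ℕ) (D : List Bool) (hD : D.length = h + g) :
    (cnt R V h bl r t D : ℝ) ≤
      (∏ s ∈ Finset.range (r - k), P (bl (t + s))) *
      (∏ s ∈ Finset.Ico (r - k) r, a (bl (t + s))) * om R V h bl (min k r) t D := by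
  classical
  induction r generalizing t D with
  | zero => simp [cnt, om]
  | succ r ih =>
    set b := bl t with hb
    have hbh : b ≤ h := hlen t
    have hsum : ∑ s ∈ Finset.range k, bl (t + s) = g := Chain_sum_period k g bl hper hg t
    obtain ⟨k', rfl⟩ : ∃ k', k = k' + 1 := ⟨k - 1, by omega⟩
    have e0 : ∀ s, bl (t + (s + 1)) = bl (t + 1 + s) := fun s => by congr 1; omega
    rw [Finset.sum_range_succ'] at hsum
    simp only [e0, add_zero] at hsum
    rw [← hb] at hsum
    have hbD : b ≤ D.length := by omega
    have hdl : (D.drop b).length = h + g - b := by rw [List.length_drop, hD]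
    -- the constant of the induction hypothesis
    set K : ℝ := (∏ s ∈ Finset.range (r - (k' + 1)), P (bl (t + 1 + s))) *
      (∏ s ∈ Finset.Ico (r - (k' + 1)) r, a (bl (t + 1 + s))) with hK
    have hK0 : 0 ≤ K := mul_nonneg (Finset.prod_nonneg fun _ _ => hP0 _)
      (Finset.prod_nonneg fun _ _ => ha0 _)
    have hcnt : (cnt R V h bl (r + 1) t D : ℝ) =
        ∑ U ∈ (V b).filter (fun U => R U (D.take b) ∧ R U ((D.drop h).take b)),
        ∑ C ∈ (V b).filter (fun C => R U C), (cnt R V h bl r (t + 1) (D.drop b ++ C) : ℝ) := by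
      simp only [cnt, ← hb]
      push_cast
      rfl
    have hnn : (nn R V (D.take b) ((D.drop h).take b)) =
        ((V b).filter (fun U => R U (D.take b) ∧ R U ((D.drop h).take b))).card := by
      unfold nn
      rw [List.length_take, min_eq_left hbD]
    have hCl : ∀ C ∈ V b, (D.drop b ++ C).length = h + g := by
      intro C hC
      rw [List.length_append, hdl, hV b C hC]
      omega
    rw [hcnt]
    rcases Nat.lt_or_ge r (k' + 1) with hr | hr
    · -- few blocks
      have m1 : min (k' + 1) r = r := min_eq_right hr.le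
      have m2 : min (k' + 1) (r + 1) = r + 1 := min_eq_right hr
      have z1 : r + 1 - (k' + 1) = 0 := by omega
      have z2 : r - (k' + 1) = 0 := by omega
      have hsr : ∑ s ∈ Finset.range r, bl (t + 1 + s) ≤ ∑ s ∈ Finset.range k', bl (t + 1 + s) := by
        refine Finset.sum_le_sum_of_subset ?_
        intro x hx
        rw [Finset.mem_range] at hx ⊢
        omega
      have hin : ∀ U ∈ (V b).filter (fun U => R U (D.take b) ∧ R U ((D.drop h).take b)),
          ∑ C ∈ (V b).filter (fun C => R U C), (cnt R V h bl r (t + 1) (D.drop b ++ C) : ℝ) ≤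
          a b * (K * om R V h bl r (t + 1) (D.drop b)) := by
        intro U hU
        have hUl : U.length = b := hV b U (Finset.mem_filter.1 hU).1
        calc ∑ C ∈ (V b).filter (fun C => R U C), (cnt R V h bl r (t + 1) (D.drop b ++ C) : ℝ)
            ≤ ∑ C ∈ (V b).filter (fun C => R U C), K * om R V h bl r (t + 1) (D.drop b) := by
              refine Finset.sum_le_sum fun C hC => ?_
              have h1 := ih (t + 1) (D.drop b ++ C) (hCl C (Finset.mem_filter.1 hC).1)
              rw [m1, Chain_om_append R V h bl C r (t + 1) (D.drop b) (by rw [hdl]; omega)] at h1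
              exact h1
          _ = (((V b).filter (fun C => R U C)).card : ℝ) *
                (K * om R V h bl r (t + 1) (D.drop b)) := by
              rw [Finset.sum_const, nsmul_eq_mul]
          _ ≤ a b * (K * om R V h bl r (t + 1) (D.drop b)) := by
              refine mul_le_mul_of_nonneg_right ?_ (mul_nonneg hK0 (Nat.cast_nonneg _))
              have := ha U
              rw [hUl] at this
              exact this
      refine (Finset.sum_le_sum hin).trans ?_
      rw [Finset.sum_const, nsmul_eq_mul, ← hnn, m2, z1]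
      have e2 : om R V h bl (r + 1) t D = nn R V (D.take b) ((D.drop h).take b) *
        om R V h bl r (t + 1) (D.drop b) := rfl
      rw [e2, hK, z2, Finset.prod_Ico_eq_prod_range, Finset.prod_Ico_eq_prod_range]
      simp only [Nat.sub_zero, zero_add, Finset.range_zero, Finset.prod_empty, one_mul]
      rw [Finset.prod_range_succ']
      simp only [e0, add_zero]
      rw [← hb]
      push_cast
      apply le_of_eq
      ring
    · -- many blocks
      have m1 : min (k' + 1) r = k' + 1 := min_eq_left hr
      have m2 : min (k' + 1) (r + 1) = k' + 1 := min_eq_left (by omega)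
      have hin : ∀ U ∈ (V b).filter (fun U => R U (D.take b) ∧ R U ((D.drop h).take b)),
          ∑ C ∈ (V b).filter (fun C => R U C), (cnt R V h bl r (t + 1) (D.drop b ++ C) : ℝ) ≤
          P b * (K * om R V h bl k' (t + 1) (D.drop b)) := by
        intro U hU
        have hUl : U.length = b := hV b U (Finset.mem_filter.1 hU).1
        have hW : ((D.drop g).take b).length = b := by
          rw [List.length_take, List.length_drop, hD]
          omega
        calc ∑ C ∈ (V b).filter (fun C => R U C), (cnt R V h bl r (t + 1) (D.drop b ++ C) : ℝ)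
            ≤ ∑ C ∈ (V b).filter (fun C => R U C), K * om R V h bl k' (t + 1) (D.drop b) *
                (nn R V ((D.drop g).take b) C : ℝ) := by
              refine Finset.sum_le_sum fun C hC => ?_
              have hCV := (Finset.mem_filter.1 hC).1
              have hCb := hV b C hCV
              have h1 := ih (t + 1) (D.drop b ++ C) (hCl C hCV)
              have hbt : bl (t + 1 + k') = b := by
                rw [show t + 1 + k' = t + (k' + 1) by omega, hper]
              rw [m1, Chain_om_last, Chain_om_append R V h bl C k' (t + 1) (D.drop b)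
                (by rw [hdl]; omega), hbt] at h1
              have e5 : ((D.drop b ++ C).drop (∑ s ∈ Finset.range k', bl (t + 1 + s))).take b =
                  (D.drop g).take b := by
                rw [List.drop_append_of_le_length (by rw [hdl]; omega), List.drop_drop,
                  List.take_append_of_le_length (by rw [List.length_drop, hD]; omega)]
                congr 2
                omega
              have e6 : ((D.drop b ++ C).drop (h + ∑ s ∈ Finset.range k', bl (t + 1 + s))).take b =
                  C := by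
                have e7 : h + ∑ s ∈ Finset.range k', bl (t + 1 + s) = (D.drop b).length := by
                  rw [hdl]; omega
                rw [e7, List.drop_left, ← hCb, List.take_length]
              rw [e5, e6] at h1
              push_cast at h1
              calc (cnt R V h bl r (t + 1) (D.drop b ++ C) : ℝ) ≤ _ := h1
                _ = _ := by rw [hK]; ring
          _ = K * om R V h bl k' (t + 1) (D.drop b) *
                ∑ C ∈ (V b).filter (fun C => R U C), (nn R V ((D.drop g).take b) C : ℝ) := by
              rw [Finset.mul_sum]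
          _ ≤ K * om R V h bl k' (t + 1) (D.drop b) * P b := by
              refine mul_le_mul_of_nonneg_left ?_ (mul_nonneg hK0 (Nat.cast_nonneg _))
              have := hP U ((D.drop g).take b) (by rw [hW, hUl])
              rw [hUl] at this
              exact this
          _ = P b * (K * om R V h bl k' (t + 1) (D.drop b)) := by ring
      refine (Finset.sum_le_sum hin).trans ?_
      rw [Finset.sum_const, nsmul_eq_mul, ← hnn, m2]
      have e2 : om R V h bl (k' + 1) t D = nn R V (D.take b) ((D.drop h).take b) *
        om R V h bl k' (t + 1) (D.drop b) := rfl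
      have e8 : r + 1 - (k' + 1) = (r - (k' + 1)) + 1 := by omega
      rw [e2, hK, e8, Finset.prod_range_succ']
      have e9 : ∏ s ∈ Finset.Ico (r - (k' + 1) + 1) (r + 1), a (bl (t + s)) =
          ∏ s ∈ Finset.Ico (r - (k' + 1)) r, a (bl (t + 1 + s)) := by
        rw [← Finset.prod_Ico_add' (fun s => a (bl (t + s)))]
        simp only [e0]
      rw [e9]
      simp only [e0, add_zero]
      rw [← hb]
      push_cast
      apply le_of_eq
      ring

open Classical in
private theorem Chain_sum_nn (hV : ∀ n, ∀ w ∈ V n, w.length = n)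
    (hsymm : ∀ u w, R u w → R w u) (a : ℕ → ℝ) (ha0 : ∀ n, 0 ≤ a n)
    (ha : ∀ U : List Bool, (((V U.length).filter fun C => R U C).card : ℝ) ≤ a U.length)
    (A : List Bool) (b : ℕ) (hA : A.length = b) :
    ∑ B ∈ V b, (nn R V A B : ℝ) ≤ a b ^ 2 := by
  have h1 : ∑ B ∈ V b, (nn R V A B : ℝ) =
      ∑ U ∈ (V b).filter (fun U => R U A), (((V b).filter fun B => R U B).card : ℝ) := by
    have h2 : ∀ B, (nn R V A B : ℝ) = ∑ U ∈ V b, if R U A ∧ R U B then (1 : ℝ) else 0 := by
      intro B
      rw [nn, hA, Finset.card_filter]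
      push_cast
      rfl
    simp_rw [h2]
    rw [Finset.sum_comm, Finset.sum_filter]
    refine Finset.sum_congr rfl fun U _ => ?_
    by_cases hU : R U A
    · rw [if_pos hU, Finset.card_filter]
      push_cast
      refine Finset.sum_congr rfl fun B _ => ?_
      simp only [hU, true_and]
    · rw [if_neg hU]
      refine Finset.sum_eq_zero fun B _ => ?_
      rw [if_neg (fun h => hU h.1)]
  rw [h1]
  have h3 : ∀ U ∈ (V b).filter (fun U => R U A),
      (((V b).filter fun B => R U B).card : ℝ) ≤ a b := by
    intro U hU
    have hl : U.length = b := hV b U (Finset.mem_filter.1 hU).1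
    have := ha U
    rw [hl] at this
    exact this
  have h4 : (((V b).filter fun U => R U A).card : ℝ) ≤ a b := by
    have := ha A
    rw [hA] at this
    refine le_trans ?_ this
    rw [Nat.cast_le]
    refine Finset.card_le_card fun U hU => ?_
    rw [Finset.mem_filter] at hU ⊢
    exact ⟨hU.1, hsymm _ _ hU.2⟩
  calc ∑ U ∈ (V b).filter (fun U => R U A), (((V b).filter fun B => R U B).card : ℝ)
      ≤ ∑ U ∈ (V b).filter (fun U => R U A), a b := Finset.sum_le_sum h3
    _ = (((V b).filter fun U => R U A).card : ℝ) * a b := by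
        rw [Finset.sum_const, nsmul_eq_mul]
    _ ≤ a b * a b := mul_le_mul_of_nonneg_right h4 (ha0 b)
    _ = a b ^ 2 := by ring

/-- splitting the words of a sum -/
private theorem Chain_sum_split (hVs : ∀ n m, ∀ w ∈ V (n + m), w.take n ∈ V n ∧ w.drop n ∈ V m)
    (n m : ℕ) (f : List Bool → ℝ) (hf : ∀ w, 0 ≤ f w) :
    ∑ w ∈ V (n + m), f w ≤ ∑ x ∈ V n, ∑ y ∈ V m, f (x ++ y) := by
  classical
  rw [← Finset.sum_product']
  have h1 : ∑ w ∈ V (n + m), f w =
      ∑ z ∈ (V (n + m)).image (fun w => (w.take n, w.drop n)), f (z.1 ++ z.2) := by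
    rw [Finset.sum_image]
    · refine Finset.sum_congr rfl fun w _ => ?_
      rw [List.take_append_drop]
    · intro w _ w' _ h
      have h2 := (Prod.mk.inj h)
      rw [← List.take_append_drop n w, h2.1, h2.2, List.take_append_drop]
  rw [h1]
  refine Finset.sum_le_sum_of_subset_of_nonneg ?_ fun z _ _ => hf _
  intro z hz
  rw [Finset.mem_image] at hz
  obtain ⟨w, hw, rfl⟩ := hz
  exact Finset.mem_product.2 (hVs n m w hw)

private theorem Chain_om (hV : ∀ n, ∀ w ∈ V n, w.length = n)
    (hVs : ∀ n m, ∀ w ∈ V (n + m), w.take n ∈ V n ∧ w.drop n ∈ V m)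
    (h : ℕ) (bl : ℕ → ℕ) (hlen : ∀ t, bl t ≤ h) (a : ℕ → ℝ) (ha0 : ∀ n, 0 ≤ a n)
    (hnn : ∀ (A : List Bool) (b : ℕ), A.length = b → ∑ B ∈ V b, (nn R V A B : ℝ) ≤ a b ^ 2)
    (m : ℕ) : ∀ (t g : ℕ) (E : List Bool), E.length = h →
      ∑ s ∈ Finset.range m, bl (t + s) ≤ g →
      ∑ F ∈ V g, (om R V h bl m t (E ++ F) : ℝ) ≤
        (∏ s ∈ Finset.range m, a (bl (t + s)) ^ 2) *
          ((V (g - ∑ s ∈ Finset.range m, bl (t + s))).card : ℝ) := by
  induction m with
  | zero =>
    intro t g E hE hg
    simp [om]
  | succ m ih =>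
    intro t g E hE hg
    rw [Finset.sum_range_succ'] at hg
    simp only [add_zero] at hg
    set b := bl t with hb
    obtain ⟨g', rfl⟩ : ∃ g', g = b + g' := ⟨g - b, by omega⟩
    have hbh : b ≤ h := hlen t
    have hsum : ∑ s ∈ Finset.range m, bl (t + 1 + s) ≤ g' := by
      have : ∑ s ∈ Finset.range m, bl (t + 1 + s) = ∑ s ∈ Finset.range m, bl (t + (s + 1)) :=
        Finset.sum_congr rfl fun s _ => by rw [add_assoc, add_comm 1 s]
      omega
    refine (Chain_sum_split V hVs b g' (fun F => (om R V h bl (m + 1) t (E ++ F) : ℝ))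
      fun _ => Nat.cast_nonneg _).trans ?_
    have hstep : ∀ B ∈ V b, ∑ F ∈ V g', (om R V h bl (m + 1) t (E ++ (B ++ F)) : ℝ) ≤
        (nn R V (E.take b) B : ℝ) * ((∏ s ∈ Finset.range m, a (bl (t + 1 + s)) ^ 2) *
          ((V (g' - ∑ s ∈ Finset.range m, bl (t + 1 + s))).card : ℝ)) := by
      intro B hB
      have hBl : B.length = b := hV b B hB
      have hE' : (E.drop b ++ B).length = h := by
        rw [List.length_append, List.length_drop, hE, hBl]
        omega
      refine le_trans (le_of_eq ?_) (mul_le_mul_of_nonneg_left (ih (t + 1) g' _ hE' hsum)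
        (Nat.cast_nonneg _))
      rw [Finset.mul_sum]
      refine Finset.sum_congr rfl fun F _ => ?_
      rw [om]
      have e1 : (E ++ (B ++ F)).take (bl t) = E.take b :=
        List.take_append_of_le_length (by omega)
      have e2 : ((E ++ (B ++ F)).drop h).take (bl t) = B := by
        rw [← hE, List.drop_left, ← hb, ← hBl, List.take_left]
      have e3 : (E ++ (B ++ F)).drop (bl t) = E.drop b ++ B ++ F := by
        rw [List.drop_append_of_le_length (by omega), List.append_assoc]
      rw [e1, e2, e3]
      push_cast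
      rfl
    refine (Finset.sum_le_sum hstep).trans ?_
    rw [← Finset.sum_mul, Finset.prod_range_succ', Finset.sum_range_succ']
    simp only [add_zero]
    rw [← hb]
    have e4 : b + g' - (∑ s ∈ Finset.range m, bl (t + (s + 1)) + b) =
        g' - ∑ s ∈ Finset.range m, bl (t + 1 + s) := by
      have : ∑ s ∈ Finset.range m, bl (t + 1 + s) = ∑ s ∈ Finset.range m, bl (t + (s + 1)) :=
        Finset.sum_congr rfl fun s _ => by rw [add_assoc, add_comm 1 s]
      omega
    have e5 : ∏ s ∈ Finset.range m, a (bl (t + (s + 1))) ^ 2 =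
        ∏ s ∈ Finset.range m, a (bl (t + 1 + s)) ^ 2 :=
      Finset.prod_congr rfl fun s _ => by rw [add_assoc, add_comm 1 s]
    rw [e4, e5]
    have hn := hnn (E.take b) b (by rw [List.length_take, hE]; omega)
    have hp : 0 ≤ (∏ s ∈ Finset.range m, a (bl (t + 1 + s)) ^ 2) *
        ((V (g' - ∑ s ∈ Finset.range m, bl (t + 1 + s))).card : ℝ) :=
      mul_nonneg (Finset.prod_nonneg fun _ _ => sq_nonneg _) (Nat.cast_nonneg _)
    calc (∑ B ∈ V b, (nn R V (E.take b) B : ℝ)) *
          ((∏ s ∈ Finset.range m, a (bl (t + 1 + s)) ^ 2) *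
            ((V (g' - ∑ s ∈ Finset.range m, bl (t + 1 + s))).card : ℝ))
        ≤ a b ^ 2 * ((∏ s ∈ Finset.range m, a (bl (t + 1 + s)) ^ 2) *
            ((V (g' - ∑ s ∈ Finset.range m, bl (t + 1 + s))).card : ℝ)) :=
          mul_le_mul_of_nonneg_right hn hp
      _ = _ := by ring

/-- sum of the initial weights -/
theorem sum_om_le (hV : ∀ n, ∀ w ∈ V n, w.length = n)
    (hVs : ∀ n m, ∀ w ∈ V (n + m), w.take n ∈ V n ∧ w.drop n ∈ V m)
    (hsymm : ∀ u w, R u w → R w u) (h g : ℕ) (bl : ℕ → ℕ)
    (hlen : ∀ t, bl t ≤ h) (a : ℕ → ℝ) (ha0 : ∀ n, 0 ≤ a n)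
    (ha : by classical exact ∀ U : List Bool,
      (((V U.length).filter fun C => R U C).card : ℝ) ≤ a U.length)
    (m : ℕ) (hm : ∑ s ∈ Finset.range m, bl s ≤ g) :
    ∑ D ∈ V (h + g), (om R V h bl m 0 D : ℝ) ≤
      ((V h).card : ℝ) * (∏ s ∈ Finset.range m, a (bl s) ^ 2) *
        ((V (g - ∑ s ∈ Finset.range m, bl s)).card : ℝ) := by
  have hnn := Chain_sum_nn R V hV hsymm a ha0 ha
  refine (Chain_sum_split V hVs h g (fun D => (om R V h bl m 0 D : ℝ))
    fun _ => Nat.cast_nonneg _).trans ?_
  have h1 : ∀ E ∈ V h, ∑ F ∈ V g, (om R V h bl m 0 (E ++ F) : ℝ) ≤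
      (∏ s ∈ Finset.range m, a (bl s) ^ 2) *
        ((V (g - ∑ s ∈ Finset.range m, bl s)).card : ℝ) := by
    intro E hE
    have := Chain_om R V hV hVs h bl hlen a ha0 hnn m 0 g E (hV h E hE) (by simpa using hm)
    simpa using this
  refine (Finset.sum_le_sum h1).trans (le_of_eq ?_)
  rw [Finset.sum_const, nsmul_eq_mul, mul_assoc]

open Classical in
/-- the pairs `(u, d)` counted -/
noncomputable def tri (n h g : ℕ) : Finset (List Bool × List Bool) :=
  (V n ×ˢ V (h + g + n)).filter fun x => R x.1 (x.2.take n) ∧ R x.1 ((x.2.drop h).take n) ∧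
    R x.1 ((x.2.drop (h + g)).take n)

open Classical in
/-- the pairs counted, for a known beginning `D` -/
private noncomputable def Chain_T (n h g : ℕ) (D : List Bool) :
    Finset (List Bool × List Bool) :=
  (V n ×ˢ V n).filter fun x => R x.1 ((D ++ x.2).take n) ∧ R x.1 (((D ++ x.2).drop h).take n) ∧
    R x.1 (((D ++ x.2).drop (h + g)).take n)

open Classical in
private theorem Chain_T_le (hV : ∀ n, ∀ w ∈ V n, w.length = n)
    (hVs : ∀ n m, ∀ w ∈ V (n + m), w.take n ∈ V n ∧ w.drop n ∈ V m)
    (hRs : ∀ n, ∀ u w : List Bool, u.length = w.length → R u w →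
      R (u.take n) (w.take n) ∧ R (u.drop n) (w.drop n))
    (h g : ℕ) (bl : ℕ → ℕ) (hlen : ∀ t, bl t ≤ h) (hleng : ∀ t, bl t ≤ g) (ρ : ℕ) (r : ℕ) :
    ∀ (t : ℕ) (D : List Bool), D.length = h + g →
      (Chain_T R V (∑ s ∈ Finset.range r, bl (t + s) + ρ) h g D).card ≤
        cnt R V h bl r t D * (V ρ).card ^ 2 := by
  induction r with
  | zero =>
    intro t D hD
    rw [cnt, one_mul]
    refine (Finset.card_filter_le _ _).trans ?_
    rw [Finset.card_product, sq]
    simp
  | succ r ih =>
    intro t D hD
    have hsum : ∑ s ∈ Finset.range (r + 1), bl (t + s) =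
        bl t + ∑ s ∈ Finset.range r, bl (t + 1 + s) := by
      rw [Finset.sum_range_succ', add_zero, add_comm]
      congr 1
      exact Finset.sum_congr rfl fun s _ => by rw [add_assoc, add_comm 1 s]
    rw [hsum, add_assoc]
    set b := bl t with hb
    set n' := ∑ s ∈ Finset.range r, bl (t + 1 + s) + ρ with hn'
    have hbh : b ≤ h := hlen t
    have hbg : b ≤ g := hleng t
    have hcard : (Chain_T R V (b + n') h g D).card ≤
        (((V b).filter (fun U => R U (D.take b) ∧ R U ((D.drop h).take b))).sigma fun U =>
          ((V b).filter (fun C => R U C)).sigma fun C =>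
            Chain_T R V n' h g (D.drop b ++ C)).card := by
      refine Finset.card_le_card_of_injOn
        (fun x => ⟨x.1.take b, ⟨x.2.take b, (x.1.drop b, x.2.drop b)⟩⟩) ?_ ?_
      · rintro ⟨u, c⟩ hx
        simp only [Chain_T, Finset.coe_filter, Finset.mem_product, Set.mem_setOf_eq] at hx
        obtain ⟨⟨hu, hc⟩, h1, h2, h3⟩ := hx
        have hul := hV _ u hu
        have hcl := hV _ c hc
        have hsplit := hVs b n' u hu
        have hcsplit := hVs b n' c hc
        have hcb : (c.take b).length = b := hV b _ hcsplit.1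
        have hDc : D.drop b ++ c.take b ++ c.drop b = (D ++ c).drop b := by
          rw [List.append_assoc, List.take_append_drop, List.drop_append_of_le_length (by omega)]
        have key : ∀ k, k + (b + n') ≤ (D ++ c).length → R u (((D ++ c).drop k).take (b + n')) →
            R (u.take b) (((D ++ c).drop k).take b) ∧
              R (u.drop b) (((D.drop b ++ c.take b ++ c.drop b).drop k).take n') := by
          intro k hk hR
          have := hRs b u _ (by
            rw [hul, List.length_take, List.length_drop]
            omega) hR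
          rw [List.take_take, min_eq_left (by omega), List.drop_take, Nat.add_sub_cancel_left,
            List.drop_drop] at this
          rw [hDc, List.drop_drop, add_comm b k]
          exact this
        have hl : (D ++ c).length = h + g + (b + n') := by
          rw [List.length_append, hD, hcl]
        have k1 := key 0 (by omega) (by simpa using h1)
        have k2 := key h (by omega) h2
        have k3 := key (h + g) (by omega) h3
        simp only [Finset.coe_sigma, Set.mem_sigma_iff, Finset.coe_filter, Set.mem_setOf_eq,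
          Chain_T, Finset.mem_product]
        refine ⟨⟨hsplit.1, ?_, ?_⟩, ⟨hcsplit.1, ?_⟩, ⟨hsplit.2, hcsplit.2⟩, ?_, k2.2, k3.2⟩
        · have := k1.1
          rw [List.drop_zero, List.take_append_of_le_length (by omega)] at this
          exact this
        · have := k2.1
          rw [List.drop_append_of_le_length (by omega), List.take_append_of_le_length (by
            rw [List.length_drop]; omega)] at this
          exact this
        · have := k3.1
          rw [← hD, List.drop_left] at this
          exact this
        · simpa using k1.2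
      · rintro ⟨u, c⟩ _ ⟨u', c'⟩ _ hx
        simp only [Sigma.mk.injEq, heq_eq_eq, Prod.mk.injEq] at hx
        obtain ⟨h1, h2, h3, h4⟩ := hx
        have hu : u = u' := by
          rw [← List.take_append_drop b u, h1, h3, List.take_append_drop]
        have hc : c = c' := by
          rw [← List.take_append_drop b c, h2, h4, List.take_append_drop]
        rw [hu, hc]
    refine hcard.trans ?_
    rw [Finset.card_sigma, cnt, Finset.sum_mul]
    refine Finset.sum_le_sum fun U hU => ?_
    rw [Finset.card_sigma, Finset.sum_mul]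
    refine Finset.sum_le_sum fun C hC => ?_
    have hCl : C.length = b := hV b C (Finset.mem_filter.1 hC).1
    exact ih (t + 1) _ (by
      rw [List.length_append, List.length_drop, hD, hCl]
      omega)

/-- cutting into blocks -/
theorem tri_card_le (hV : ∀ n, ∀ w ∈ V n, w.length = n)
    (hVs : ∀ n m, ∀ w ∈ V (n + m), w.take n ∈ V n ∧ w.drop n ∈ V m)
    (hRs : ∀ n, ∀ u w : List Bool, u.length = w.length → R u w →
      R (u.take n) (w.take n) ∧ R (u.drop n) (w.drop n))
    (h g : ℕ) (bl : ℕ → ℕ) (hlen : ∀ t, bl t ≤ h) (hleng : ∀ t, bl t ≤ g) (r ρ : ℕ) :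
    (tri R V (∑ s ∈ Finset.range r, bl s + ρ) h g).card ≤
      ∑ D ∈ V (h + g), cnt R V h bl r 0 D * (V ρ).card ^ 2 := by
  classical
  set n := ∑ s ∈ Finset.range r, bl s + ρ with hn
  have h1 : (tri R V n h g).card ≤
      ((V (h + g)).sigma fun D => Chain_T R V n h g D).card := by
    refine Finset.card_le_card_of_injOn
      (fun x => ⟨x.2.take (h + g), (x.1, x.2.drop (h + g))⟩) ?_ ?_
    · rintro ⟨u, d⟩ hx
      simp only [tri, Finset.coe_filter, Finset.mem_product, Set.mem_setOf_eq] at hx
      obtain ⟨⟨hu, hd⟩, h1, h2, h3⟩ := hx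
      have hs := hVs (h + g) n d hd
      simp only [Finset.coe_sigma, Set.mem_sigma_iff, Finset.mem_coe, Chain_T, Finset.mem_filter,
        Finset.mem_product, List.take_append_drop]
      exact ⟨hs.1, ⟨hu, hs.2⟩, h1, h2, h3⟩
    · rintro ⟨u, d⟩ _ ⟨u', d'⟩ _ hx
      simp only [Sigma.mk.injEq, heq_eq_eq, Prod.mk.injEq] at hx
      obtain ⟨h1, h2, h3⟩ := hx
      have hd : d = d' := by
        rw [← List.take_append_drop (h + g) d, h1, h3, List.take_append_drop]
      rw [h2, hd]
  refine h1.trans ?_
  rw [Finset.card_sigma]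
  refine Finset.sum_le_sum fun D hD => ?_
  have := Chain_T_le R V hV hVs hRs h g bl hlen hleng ρ r 0 D (hV _ D hD)
  simpa using this

end Pool.H99.Trib.Chain
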