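import Pool.Agent.H99.Trib.Auto

namespace Pool.H99.Trib

theorem Greedy_sval_zeros (k : ℕ) : sval (List.replicate k 0) = 0 := by
  induction k with
  | zero => rfl
  | succ k ih => rw [List.replicate_succ, sval, ih]; simp

theorem value_append (u v : List Bool) :
    value (u ++ v) = sval (bits u ++ List.replicate v.length 0) + value v := by
  induction u with
  | nil => simp [bits, Greedy_sval_zeros]
  | cons b u ih =>
    have h1 : (u ++ v).length = (bits u ++ List.replicate v.length 0).length := by
      simp [bits]
    rw [List.cons_append, value, ih, h1]
    have h2 : bits (b :: u) ++ List.replicate v.length 0 =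
        b.toNat :: (bits u ++ List.replicate v.length 0) := rfl
    rw [h2, sval]
    ring

theorem Greedy_valid_tail {b : Bool} {w : List Bool} (h : Valid (b :: w)) : Valid w :=
  fun h' => h (List.infix_cons_iff.mpr (Or.inr h'))

theorem Greedy_valid_false {w : List Bool} (h : Valid w) : Valid (false :: w) := by
  intro h'
  rcases List.infix_cons_iff.mp h' with h1 | h1
  · exact absurd (List.cons_prefix_cons.mp h1).1 (by decide)
  · exact h h1

theorem Greedy_valid_tf {w : List Bool} (h : Valid w) : Valid (true :: false :: w) := by
  intro h'
  rcases List.infix_cons_iff.mp h' with h1 | h1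
  · exact absurd (List.cons_prefix_cons.mp (List.cons_prefix_cons.mp h1).2).1 (by decide)
  · exact Greedy_valid_false h h1

theorem Greedy_valid_ttf {w : List Bool} (h : Valid w) : Valid (true :: true :: false :: w) := by
  intro h'
  rcases List.infix_cons_iff.mp h' with h1 | h1
  · exact absurd (List.cons_prefix_cons.mp
      (List.cons_prefix_cons.mp (List.cons_prefix_cons.mp h1).2).2).1 (by decide)
  · exact Greedy_valid_tf h h1

theorem Greedy_not_ttt (w : List Bool) : ¬ Valid (true :: true :: true :: w) := fun h =>
  h ⟨[], w, rfl⟩

theorem Greedy_W_three (k : ℕ) : W (k + 3) = W (k + 2) + W (k + 1) + W k := rfl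

theorem Greedy_W_le (k : ℕ) : W k ≤ W (k + 1) := by
  match k with
  | 0 => decide
  | 1 => decide
  | (j + 2) =>
    rw [Greedy_W_three]
    omega

theorem Greedy_W_two (k : ℕ) : W (k + 1) + W k ≤ W (k + 2) := by
  match k with
  | 0 => decide
  | (j + 1) =>
    have := Greedy_W_three j
    have h : j + 1 + 2 = j + 3 := rfl
    have h' : j + 1 + 1 = j + 2 := rfl
    rw [h, h', this]
    omega

theorem Greedy_value_lt (n : ℕ) : ∀ w : List Bool, w.length ≤ n → Valid w →
    value w < W w.length := by
  induction n with
  | zero =>
    intro w hw _
    have : w = [] := List.length_eq_zero_iff.mp (by omega)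
    subst this
    decide
  | succ n ih =>
    intro w hw h
    match w, hw, h with
    | [], _, _ => decide
    | false :: w, hw, h =>
      have h1 := ih w (by simpa using hw) (Greedy_valid_tail h)
      have h2 := Greedy_W_le w.length
      have h3 : value (false :: w) = value w := by simp [value]
      rw [h3, List.length_cons]
      omega
    | [true], _, _ => decide
    | true :: false :: w, hw, h =>
      have h1 := ih w (by simp at hw; omega) (Greedy_valid_tail (Greedy_valid_tail h))
      have h2 := Greedy_W_two w.length
      have h3 : value (true :: false :: w) = W (w.length + 1) + value w := by simp [value]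
      have h4 : (true :: false :: w).length = w.length + 2 := rfl
      rw [h3, h4]
      omega
    | [true, true], _, _ => decide
    | true :: true :: false :: w, hw, h =>
      have h1 := ih w (by simp at hw; omega)
        (Greedy_valid_tail (Greedy_valid_tail (Greedy_valid_tail h)))
      have h2 := Greedy_W_three w.length
      have h3 : value (true :: true :: false :: w) =
          W (w.length + 2) + (W (w.length + 1) + value w) := by simp [value]
      have h4 : (true :: true :: false :: w).length = w.length + 3 := rfl
      rw [h3, h4]
      omega
    | true :: true :: true :: w, _, h => exact absurd h (Greedy_not_ttt w)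

theorem value_lt {w : List Bool} (h : Valid w) : value w < W w.length :=
  Greedy_value_lt w.length w le_rfl h

theorem value_inj {u v : List Bool} (hu : Valid u) (hv : Valid v) (hl : u.length = v.length)
    (h : value u = value v) : u = v := by
  induction u generalizing v with
  | nil => exact (List.length_eq_zero_iff.mp (by simpa using hl.symm)).symm
  | cons a u ih =>
    match v, hv, hl, h with
    | [], _, hl, _ => simp at hl
    | b :: v, hv, hl, h =>
      have hl' : u.length = v.length := by simpa using hl
      have h1 := value_lt (Greedy_valid_tail hu)
      have h2 := value_lt (Greedy_valid_tail hv)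
      rw [value, value, hl'] at h
      rw [hl'] at h1
      have hab : a = b := by
        cases a <;> cases b
        · rfl
        · simp at h
          omega
        · simp at h
          omega
        · rfl
      subst hab
      rw [ih (Greedy_valid_tail hu) (Greedy_valid_tail hv) hl' (by omega)]

theorem Greedy_exists_rep (M : ℕ) : (∀ n, n < W M → ∃ w : List Bool, Valid w ∧ w.length = M ∧
      value w = n) ∧
    (∀ n, n < W (M + 1) → ∃ w : List Bool, Valid w ∧ w.length = M + 1 ∧ value w = n) ∧
    (∀ n, n < W (M + 2) → ∃ w : List Bool, Valid w ∧ w.length = M + 2 ∧ value w = n) := by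
  induction M with
  | zero =>
    have hnil : Valid [] := by
      intro h
      have := List.infix_nil.mp h
      simp at this
    have h1 : Valid [true] := by
      intro h
      have := h.length_le
      simp at this
    have h11 : Valid [true, true] := by
      intro h
      have := h.length_le
      simp at this
    refine ⟨?_, ?_, ?_⟩
    · intro n hn
      have : n = 0 := by simp [W] at hn; exact hn
      subst this
      exact ⟨[], hnil, rfl, rfl⟩
    · intro n hn
      have : n = 0 ∨ n = 1 := by simp [W] at hn; omega
      rcases this with rfl | rfl
      · exact ⟨[false], Greedy_valid_false hnil, rfl, rfl⟩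
      · exact ⟨[true], h1, rfl, rfl⟩
    · intro n hn
      have : n = 0 ∨ n = 1 ∨ n = 2 ∨ n = 3 := by simp [W] at hn; omega
      rcases this with rfl | rfl | rfl | rfl
      · exact ⟨[false, false], Greedy_valid_false (Greedy_valid_false hnil), rfl, rfl⟩
      · exact ⟨[false, true], Greedy_valid_false h1, rfl, rfl⟩
      · exact ⟨[true, false], Greedy_valid_tf hnil, rfl, rfl⟩
      · exact ⟨[true, true], h11, rfl, rfl⟩
  | succ M ih =>
    obtain ⟨i0, i1, i2⟩ := ih
    refine ⟨i1, i2, ?_⟩
    intro n hn
    have h3 := Greedy_W_three M
    have hM : M + 1 + 2 = M + 3 := rfl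
    rw [hM] at hn ⊢
    by_cases h1 : n < W (M + 2)
    · obtain ⟨w, hw, hl, hv⟩ := i2 n h1
      refine ⟨false :: w, Greedy_valid_false hw, by rw [List.length_cons, hl], ?_⟩
      simp [value, hv]
    · by_cases h2 : n - W (M + 2) < W (M + 1)
      · obtain ⟨w, hw, hl, hv⟩ := i1 _ h2
        refine ⟨true :: false :: w, Greedy_valid_tf hw, by simp [hl], ?_⟩
        have e : value (true :: false :: w) = W (M + 2) + value w := by simp [value, hl]
        rw [e, hv]
        omega
      · obtain ⟨w, hw, hl, hv⟩ := i0 (n - W (M + 2) - W (M + 1)) (by omega)
        refine ⟨true :: true :: false :: w, Greedy_valid_ttf hw, by simp [hl], ?_⟩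
        have e : value (true :: true :: false :: w) = W (M + 2) + (W (M + 1) + value w) := by
          simp [value, hl]
        rw [e, hv]
        omega

theorem exists_rep {M n : ℕ} (h : n < W M) :
    ∃ w : List Bool, Valid w ∧ w.length = M ∧ value w = n := (Greedy_exists_rep M).1 n h

end Pool.H99.Trib
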