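import Pool.Agent.H99.Trib.Vectors
import Pool.Agent.H99.Trib.Greedy

namespace Pool.H99.Trib

/-- the set of vectors of valid words -/
def vecSet (cs : ℕ → Bool) (M : ℕ) : Set (Fin (M + 1) → Q) :=
  {v | ∃ x : List Bool, Valid x ∧ v = fun m : Fin (M + 1) => vec cs x m.val}

theorem Complexity_run_append {Q' : Type} (A : DFAO Q') (u w : List Bool) :
    A.run (u ++ w) = w.foldl (fun o b => o.bind fun q => A.step q b) (A.run u) := by
  unfold DFAO.run
  rw [List.foldl_append]

/-- transfer of an automaton along an equivalence -/
def Complexity_tr {Q' Q'' : Type} (A : DFAO Q') (e : Q' ≃ Q'') : DFAO Q'' where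
  start := e A.start
  step q b := (A.step (e.symm q) b).map e
  out q := A.out (e.symm q)

theorem Complexity_tr_run {Q' Q'' : Type} (A : DFAO Q') (e : Q' ≃ Q'') (w : List Bool) :
    (Complexity_tr A e).run w = (A.run w).map e := by
  have key : ∀ (w : List Bool) (o : Option Q'),
      w.foldl (fun o b => o.bind fun q => (Complexity_tr A e).step q b) (o.map e) =
        (w.foldl (fun o b => o.bind fun q => A.step q b) o).map e := by
    intro w
    induction w with
    | nil => intro o; rfl
    | cons b w ih =>
      intro o
      rw [List.foldl_cons, List.foldl_cons, ← ih]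
      congr 1
      cases o with
      | none => rfl
      | some q => simp [Complexity_tr]
  exact key w (some A.start)

theorem Complexity_valid_snoc {x : List Bool} {b : Bool} (h : Valid x)
    (h2 : ¬ ([true, true] <:+ x ∧ b = true)) : Valid (x ++ [b]) := by
  intro h3
  rw [List.infix_concat_iff] at h3
  rcases h3 with h3 | h3
  · rw [List.suffix_concat_iff] at h3
    rcases h3 with h3 | ⟨t, ht, ht2⟩
    · simp at h3
    · have h4 : ([true, true] : List Bool) ++ [true] = t ++ [b] := ht
      have h5 := List.append_inj' h4 rfl
      apply h2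
      refine ⟨?_, ?_⟩
      · rw [h5.1]; exact ht2
      · have := h5.2
        simp at this
        exact this
  · exact h h3

theorem Complexity_not_valid_snoc {x : List Bool} (h : [true, true] <:+ x) :
    ¬ Valid (x ++ [true]) := by
  intro h2
  apply h2
  obtain ⟨t, rfl⟩ := h
  exact ⟨t, [], by simp⟩

theorem Complexity_valid_left {x : List Bool} {b : Bool} (h : Valid (x ++ [b])) : Valid x := by
  intro h2
  exact h (h2.trans (List.prefix_append x [b]).isInfix)

theorem Complexity_valid_nil : Valid [] := by
  intro h
  have := h.length_le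
  simp at this

/-- the step on vectors -/
def Complexity_step (cs : ℕ → Bool) (M : ℕ) (v : Fin (M + 1) → Q) (a : Bool) : Fin (M + 1) → Q :=
  fun m => vecStep cs (fun n => if h : n < M + 1 then v ⟨n, h⟩ else 0) a m.val

theorem Complexity_step_vec (cs : ℕ → Bool) (M : ℕ) (x : List Bool) (a : Bool) :
    Complexity_step cs M (fun m => vec cs x m.val) a = fun m => vec cs (x ++ [a]) m.val := by
  funext m
  rw [vec_snoc]
  unfold Complexity_step
  obtain ⟨m, hm⟩ := m
  cases m with
  | zero => simp [vecStep]
  | succ k =>
    have hk : k < M + 1 := by omega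
    simp [vecStep, hk]

theorem Complexity_zero (cs : ℕ → Bool) {x : List Bool} (h : Valid x) :
    vec cs x 0 = 4 ↔ [true, true] <:+ x := by
  rw [vec_zero]
  exact dls_bits_eq_four h

open Classical in
/-- the automaton of the vectors -/
noncomputable def Complexity_A (cs : ℕ → Bool) (M : ℕ) : DFAO (vecSet cs M) where
  start := ⟨fun m => vec cs [] m.val, [], Complexity_valid_nil, rfl⟩
  step v b := if h : Complexity_step cs M v.1 b ∈ vecSet cs M ∧ ¬ (v.1 0 = 4 ∧ b = true) then
    some ⟨_, h.1⟩ else none
  out v := ou (v.1 (Fin.last M))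

theorem Complexity_run (cs : ℕ → Bool) (M : ℕ) (w : List Bool) :
    (∀ h : Valid w, (Complexity_A cs M).run w = some ⟨fun m => vec cs w m.val, w, h, rfl⟩) ∧
      (¬ Valid w → (Complexity_A cs M).run w = none) := by
  induction w using List.reverseRecOn with
  | nil => exact ⟨fun _ => rfl, fun h => absurd Complexity_valid_nil h⟩
  | append_singleton w b ih =>
    have hrun : (Complexity_A cs M).run (w ++ [b]) =
        ((Complexity_A cs M).run w).bind fun q => (Complexity_A cs M).step q b := by
      rw [Complexity_run_append]
      rfl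
    rw [hrun]
    by_cases hw : Valid w
    · rw [ih.1 hw]
      have hz := Complexity_zero cs hw
      by_cases h : [true, true] <:+ w ∧ b = true
      · have hnv : ¬ Valid (w ++ [b]) := by
          rw [h.2]
          exact Complexity_not_valid_snoc h.1
        refine ⟨fun h2 => absurd h2 hnv, fun _ => ?_⟩
        simp only [Option.bind_some, Complexity_A]
        rw [dif_neg]
        intro h3
        exact h3.2 ⟨hz.2 h.1, h.2⟩
      · have hv := Complexity_valid_snoc hw h
        refine ⟨fun _ => ?_, fun h2 => absurd hv h2⟩
        simp only [Option.bind_some, Complexity_A]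
        have hmem : Complexity_step cs M (fun m => vec cs w m.val) b ∈ vecSet cs M :=
          ⟨w ++ [b], hv, Complexity_step_vec cs M w b⟩
        rw [dif_pos ⟨hmem, fun h3 => h ⟨hz.1 h3.1, h3.2⟩⟩]
        congr 1
        apply Subtype.ext
        exact Complexity_step_vec cs M w b
    · rw [ih.2 hw]
      exact ⟨fun h => absurd (Complexity_valid_left h) hw, fun _ => rfl⟩

theorem Complexity_trib (cs : ℕ → Bool) (M : ℕ) : (Complexity_A cs M).IsTribonacci := by
  constructor
  · simp only [Complexity_A]
    have h1 : Complexity_step cs M (fun m => vec cs [] m.val) false = fun m => vec cs [] m.val := by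
      rw [Complexity_step_vec]
      funext m
      exact congrFun (vec_false_cons cs []) m.val
    rw [dif_pos ⟨by rw [h1]; exact ⟨[], Complexity_valid_nil, rfl⟩, by simp⟩]
    congr 1
    apply Subtype.ext
    exact h1
  · intro w hw
    by_contra h
    rw [(Complexity_run cs M w).2 h] at hw
    simp at hw

theorem Complexity_gen (cs : ℕ → Bool) (M : ℕ) :
    (Complexity_A cs M).Generates fun i => tribWord (i + value (pref cs M)) := by
  intro w hw
  refine ⟨_, (Complexity_run cs M w).1 hw, ?_⟩
  exact ou_vec cs w M

theorem Complexity_mem (cs : ℕ → Bool) (M : ℕ) : (vecSet cs M).ncard ∈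
    {n | ∃ A : DFAO (Fin n), A.IsTribonacci ∧
      A.Generates fun i => tribWord (i + value (pref cs M))} := by
  have hfin : Finite (vecSet cs M) := inferInstance
  have hcard : (vecSet cs M).ncard = Nat.card (vecSet cs M) := rfl
  rw [hcard]
  let e : vecSet cs M ≃ Fin (Nat.card (vecSet cs M)) := Finite.equivFin _
  refine ⟨Complexity_tr (Complexity_A cs M) e, ⟨?_, ?_⟩, ?_⟩
  · have h := (Complexity_trib cs M).1
    simp only [Complexity_tr, Equiv.symm_apply_apply, h, Option.map_some]
  · intro w hw
    rw [Complexity_tr_run, Option.isSome_map] at hw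
    exact (Complexity_trib cs M).2 w hw
  · intro w hw
    obtain ⟨q, hq, hq2⟩ := Complexity_gen cs M w hw
    refine ⟨e q, ?_, ?_⟩
    · rw [Complexity_tr_run, hq]
      rfl
    · simp only [Complexity_tr, Equiv.symm_apply_apply]
      exact hq2

theorem s_le (cs : ℕ → Bool) (M : ℕ) : s (value (pref cs M)) ≤ (vecSet cs M).ncard :=
  Nat.sInf_le (Complexity_mem cs M)

theorem Complexity_W (k : ℕ) : k + 1 ≤ W k := by
  induction k using Nat.strong_induction_on with
  | _ k ih =>
    match k, ih with
    | 0, _ => simp [W]
    | 1, _ => simp [W]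
    | 2, _ => simp [W]
    | (j + 3), ih =>
      have h1 := ih j (by omega)
      have h2 := ih (j + 1) (by omega)
      have h3 := ih (j + 2) (by omega)
      simp only [W]
      omega

theorem Complexity_pref (w : List Bool) : pref (fun i => w.getD i false) w.length = w := by
  unfold pref
  apply List.ext_getElem
  · simp
  · intro i h1 h2
    simp [List.getElem?_eq_getElem h2]

/-- lower bound by pairwise distinguishable words -/
theorem le_s (c : ℕ) (X : Finset (List Bool)) (hX : ∀ x ∈ X, Valid x)
    (hd : ∀ x ∈ X, ∀ y ∈ X, x ≠ y → ∃ w : List Bool, Valid (x ++ w) ∧ Valid (y ++ w) ∧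
      tribWord (value (x ++ w) + c) ≠ tribWord (value (y ++ w) + c)) : X.card ≤ s c := by
  obtain ⟨r, -, -, hr⟩ := exists_rep (M := c) (n := c) (Complexity_W c)
  have hne : {n | ∃ A : DFAO (Fin n), A.IsTribonacci ∧
      A.Generates fun i => tribWord (i + c)}.Nonempty := by
    refine ⟨(vecSet (fun i => r.getD i false) r.length).ncard, ?_⟩
    have h := Complexity_mem (fun i => r.getD i false) r.length
    rw [Complexity_pref, hr] at h
    exact h
  obtain ⟨A, -, hA⟩ := Nat.sInf_mem hne
  have hs : s c = sInf {n | ∃ A : DFAO (Fin n), A.IsTribonacci ∧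
      A.Generates fun i => tribWord (i + c)} := rfl
  rw [hs]
  have hinj : Set.InjOn A.run (X : Set (List Bool)) := by
    intro x hx y hy hxy
    by_contra hne
    obtain ⟨w, h1, h2, h3⟩ := hd x hx y hy hne
    obtain ⟨q, hq, hq2⟩ := hA _ h1
    obtain ⟨q', hq', hq2'⟩ := hA _ h2
    rw [Complexity_run_append, hxy, ← Complexity_run_append, hq'] at hq
    have hqq : q' = q := Option.some.inj hq
    exact h3 (hq2.symm.trans ((congrArg A.out hqq.symm).trans hq2'))
  have hle := Finset.card_le_card_of_injOn (s := X)
    (t := (Finset.univ : Finset (Fin _)).map Function.Embedding.some) A.run (by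
      intro x hx
      obtain ⟨q, hq, -⟩ := hA x (hX x hx)
      rw [hq]
      simp) hinj
  rwa [Finset.card_map, Finset.card_univ, Fintype.card_fin] at hle

end Pool.H99.Trib
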