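import Mathlib

/-!
# State complexity of the shifts of the Tribonacci word: definitions
-/

namespace Pool.H99.Trib

/-- The Tribonacci numbers `1, 2, 4, 7, 13, 24, ...`. -/
def W : ℕ → ℕ
  | 0 => 1
  | 1 => 2
  | 2 => 4
  | (k + 3) => W (k + 2) + W (k + 1) + W k

/-- The number represented by a binary word, most significant digit first. -/
def value : List Bool → ℕ
  | [] => 0
  | b :: w => b.toNat * W w.length + value w

/-- No three consecutive digits equal to `1`. Such words are the Tribonacci representations,
possibly with leading zeros. -/
def Valid (w : List Bool) : Prop := ¬ [true, true, true] <:+: w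

/-- The morphism `0 ↦ 01`, `1 ↦ 02`, `2 ↦ 0`. -/
def sub (w : List ℕ) : List ℕ :=
  w.flatMap fun a => if a = 0 then [0, 1] else if a = 1 then [0, 2] else [0]

/-- The Tribonacci word `0102010010201...`: letter number `n` of the `n`-th iterate of the
morphism on `0` (all later iterates have the same letter number `n`). -/
def tribWord (n : ℕ) : ℕ := (sub^[n] [0]).getD n 0

/-- A deterministic finite automaton with output over the input alphabet `{0,1}` with a partial
transition function. -/
structure DFAO (Q : Type) where
  start : Q
  step : Q → Bool → Option Q
  out : Q → ℕ

/-- The state reached on input `w`, if defined. -/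
def DFAO.run {Q : Type} (A : DFAO Q) (w : List Bool) : Option Q :=
  w.foldl (fun o b => o.bind fun q => A.step q b) (some A.start)

/-- Tribonacci DFAO: the initial state carries a self-loop on `0`, and transitions that would
create the factor `111` are undefined. -/
def DFAO.IsTribonacci {Q : Type} (A : DFAO Q) : Prop :=
  A.step A.start false = some A.start ∧ ∀ w, (A.run w).isSome → Valid w

/-- The automaton generates `h`: feeding it any Tribonacci representation of `i` leads to a
state with output `h i`. -/
def DFAO.Generates {Q : Type} (A : DFAO Q) (h : ℕ → ℕ) : Prop :=
  ∀ w, Valid w → ∃ q, A.run w = some q ∧ A.out q = h (value w)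

/-- The least number of states of a Tribonacci DFAO generating `h`. -/
noncomputable def stateComplexity (h : ℕ → ℕ) : ℕ :=
  sInf {n | ∃ A : DFAO (Fin n), A.IsTribonacci ∧ A.Generates h}

/-- State complexity of the sequence `(r(i+c))_{i≥0}`, `r` the Tribonacci word. -/
noncomputable def s (c : ℕ) : ℕ := stateComplexity fun i => tribWord (i + c)

end Pool.H99.Trib
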