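import Pool.Agent.H99.Trib.Auto

namespace Pool.H99.Trib

/-- the prefix of length `n` of the Tribonacci word -/
def pre (n : ℕ) : List ℕ := (List.range n).map tribWord

theorem length_pre (n : ℕ) : (pre n).length = n := by simp [pre]

theorem sub_append (u v : List ℕ) : sub (u ++ v) = sub u ++ sub v := by
  simp [sub, List.flatMap_append]

theorem Morph_sub_nil : sub [] = [] := rfl

theorem Morph_sub_cons (a : ℕ) (u : List ℕ) :
    sub (a :: u) = (if a = 0 then [0, 1] else if a = 1 then [0, 2] else [0]) ++ sub u := by
  simp [sub]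

theorem Morph_succ (k : ℕ) : sub^[k + 1] [0] = sub (sub^[k] [0]) :=
  Function.iterate_succ_apply' sub k [0]

theorem Morph_rec (k : ℕ) :
    sub^[k + 3] [0] = sub^[k + 2] [0] ++ sub^[k + 1] [0] ++ sub^[k] [0] := by
  induction k with
  | zero => decide
  | succ k ih =>
    rw [show k + 1 + 3 = k + 3 + 1 by ring, Morph_succ (k + 3), ih, sub_append, sub_append,
      ← Morph_succ, ← Morph_succ, ← Morph_succ, show k + 2 + 1 = k + 3 from rfl, ih]

theorem Morph_length (k : ℕ) : (sub^[k] [0]).length = W k := by
  induction k using Nat.strong_induction_on with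
  | _ k ih =>
    match k, ih with
    | 0, _ => rfl
    | 1, _ => rfl
    | 2, _ => rfl
    | (k + 3), ih =>
      rw [Morph_rec, List.length_append, List.length_append, ih (k + 2) (by omega),
        ih (k + 1) (by omega), ih k (by omega)]
      rfl

theorem Morph_lt_W (k : ℕ) : k < W k := by
  induction k using Nat.strong_induction_on with
  | _ k ih =>
    match k, ih with
    | 0, _ => decide
    | 1, _ => decide
    | 2, _ => decide
    | (k + 3), ih =>
      have h1 := ih (k + 2) (by omega)
      have h2 := ih (k + 1) (by omega)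
      have h3 : W (k + 3) = W (k + 2) + W (k + 1) + W k := rfl
      omega

theorem Morph_prefix_succ (k : ℕ) : sub^[k] [0] <+: sub^[k + 1] [0] := by
  match k with
  | 0 => exact ⟨[1], rfl⟩
  | 1 => exact ⟨[0, 2], rfl⟩
  | (k + 2) =>
    rw [show k + 2 + 1 = k + 3 by ring, Morph_rec, List.append_assoc]
    exact List.prefix_append _ _

theorem Morph_prefix {k l : ℕ} (h : k ≤ l) : sub^[k] [0] <+: sub^[l] [0] := by
  induction l, h using Nat.le_induction with
  | base => exact List.prefix_refl _
  | succ l _ ih => exact ih.trans (Morph_prefix_succ l)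

theorem Morph_getD_of_prefix {u v : List ℕ} (h : u <+: v) {i : ℕ} (hi : i < u.length) :
    u.getD i 0 = v.getD i 0 := by
  obtain ⟨t, rfl⟩ := h
  rw [List.getD_append _ _ _ _ hi]

theorem Morph_getD (k i : ℕ) (hi : i < W k) : (sub^[k] [0]).getD i 0 = tribWord i := by
  have h1 : i < (sub^[k] [0]).length := by rw [Morph_length]; exact hi
  have h2 : i < (sub^[i] [0]).length := by rw [Morph_length]; exact Morph_lt_W i
  unfold tribWord
  rw [Morph_getD_of_prefix (Morph_prefix (le_max_left k i)) h1,
    Morph_getD_of_prefix (Morph_prefix (le_max_right k i)) h2]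

/-- the `k`-th iterate is the prefix of length `W k` -/
theorem iter_eq_pre (k : ℕ) : sub^[k] [0] = pre (W k) := by
  apply List.ext_getElem
  · rw [Morph_length, length_pre]
  · intro i h1 h2
    rw [Morph_length] at h1
    have h3 := Morph_getD k i h1
    rw [List.getD_eq_getElem _ _ (by rw [Morph_length]; exact h1)] at h3
    rw [h3]
    simp [pre]

theorem Morph_pre_take {k n : ℕ} (h : k ≤ n) : (pre n).take k = pre k := by
  unfold pre
  rw [← List.map_take, List.take_range, min_eq_left h]

theorem Morph_pre_prefix {k n : ℕ} (h : k ≤ n) : pre k <+: pre n := by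
  rw [← Morph_pre_take h]
  exact List.take_prefix _ _

theorem Morph_eq_pre_of_prefix {u : List ℕ} {n : ℕ} (h : u <+: pre n) : u = pre u.length := by
  have h1 := List.prefix_iff_eq_take.1 h
  have h2 : u.length ≤ n := by
    have := h.length_le
    rwa [length_pre] at this
  rw [Morph_pre_take h2] at h1
  exact h1

/-- the Tribonacci word is a fixed point of the morphism -/
theorem sub_pre (n : ℕ) : sub (pre n) = pre (sub (pre n)).length := by
  have h1 : pre n <+: sub^[n] [0] := by
    rw [iter_eq_pre]
    exact Morph_pre_prefix (Morph_lt_W n).le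
  obtain ⟨t, ht⟩ := h1
  have h2 : sub (pre n) <+: pre (W (n + 1)) := by
    rw [← iter_eq_pre, Morph_succ, ← ht, sub_append]
    exact List.prefix_append _ _
  exact Morph_eq_pre_of_prefix h2

/-- lengths satisfy the Tribonacci recurrence, for words over `{0,1,2}` -/
theorem length_sub_three (u : List ℕ) (h : ∀ a ∈ u, a ≤ 2) :
    (sub (sub (sub u))).length = (sub (sub u)).length + (sub u).length + u.length := by
  induction u with
  | nil => rfl
  | cons a u ih =>
    have h1 := ih fun b hb => h b (List.mem_cons_of_mem _ hb)
    have ha := h a List.mem_cons_self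
    rw [Morph_sub_cons, sub_append, sub_append]
    simp only [List.length_append, List.length_cons, h1]
    interval_cases a
    · simp [sub]
      omega
    · simp [sub]
      omega
    · simp [sub]
      omega

theorem Morph_sub_le (u : List ℕ) : ∀ a ∈ sub u, a ≤ 2 := by
  intro a ha
  unfold sub at ha
  rw [List.mem_flatMap] at ha
  obtain ⟨b, _, hb⟩ := ha
  split_ifs at hb <;> simp at hb <;> omega

theorem Morph_iter_le (k : ℕ) : ∀ a ∈ sub^[k] [0], a ≤ 2 := by
  cases k with
  | zero =>
    intro a ha
    simp at ha
    omega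
  | succ k =>
    rw [Morph_succ]
    exact Morph_sub_le _

theorem tribWord_le_two (n : ℕ) : tribWord n ≤ 2 := by
  have h2 : n < (sub^[n] [0]).length := by rw [Morph_length]; exact Morph_lt_W n
  unfold tribWord
  rw [List.getD_eq_getElem _ _ h2]
  exact Morph_iter_le n _ (List.getElem_mem h2)

end Pool.H99.Trib
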