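import Pool.Agent.H99.Trib.Desc
import Pool.Agent.H99.Trib.Morph

namespace Pool.H99.Trib

theorem Delta_sval_zeros (k : ℕ) : sval (List.replicate k 0) = 0 := by
  induction k with
  | zero => rfl
  | succ k ih => rw [List.replicate_succ, sval, ih]; simp

theorem Delta_sval_append (s t : List ℕ) :
    sval (s ++ t) = sval (s ++ List.replicate t.length 0) + sval t := by
  induction s with
  | nil => simp [Delta_sval_zeros]
  | cons d s ih =>
    simp only [List.cons_append, sval, List.length_append, List.length_replicate]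
    rw [ih]
    ring

theorem Delta_sval_one (s : List ℕ) (t : ℕ) : sval (s ++ [t]) = sval (s ++ [0]) + t := by
  rw [Delta_sval_append s [t]]
  simp [sval, W]

theorem Delta_sval_two (s : List ℕ) (t : ℕ) : sval (s ++ [t, 0]) = sval (s ++ [0, 0]) + 2 * t := by
  rw [Delta_sval_append s [t, 0]]
  simp [sval, W, List.replicate]
  ring

theorem Delta_sval_three (s : List ℕ) (t : ℕ) :
    sval (s ++ [t, 0, 0]) = sval (s ++ [0, 0, 0]) + 4 * t := by
  rw [Delta_sval_append s [t, 0, 0]]
  simp [sval, W, List.replicate]
  ring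

theorem Delta_sval_rec (s : List ℕ) :
    sval (s ++ [0, 0, 0]) = sval (s ++ [0, 0]) + sval (s ++ [0]) + sval s := by
  induction s with
  | nil => simp [sval]
  | cons d s ih =>
    simp only [List.cons_append, sval, List.length_append, List.length_cons, List.length_nil,
      zero_add, Nat.reduceAdd]
    rw [ih, W]
    ring

/-- the left letter as a word -/
def Delta_ll (l : ℕ) : List ℕ := if l = 3 then [] else [l]

theorem Delta_lsub (l : ℕ) : lsub l = sub (Delta_ll l) := by
  unfold lsub Delta_ll
  split <;> simp [sub]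

/-- the invariant -/
def Delta_Inv (d : Desc) (s : List ℕ) : Prop :=
  ∃ m : ℕ, pre (sval s) = pre m ++ Delta_ll d.l ∧ (d.l = 3 → sval s = 0) ∧
    pre (sval s + 4) = pre (sval s) ++ d.w ∧
    ((sval (s ++ [0]) : ℤ) = (sub (pre (sval s))).length + d.o1) ∧
    ((sval (s ++ [0, 0]) : ℤ) = (sub (sub (pre (sval s)))).length + d.o2)

theorem Delta_pre_take {i n : ℕ} (h : i ≤ n) : (pre n).take i = pre i := by
  unfold pre
  rw [← List.map_take, List.take_range, min_eq_left h]

theorem Delta_pre_succ (n : ℕ) : pre (n + 1) = pre n ++ [tribWord n] := by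
  simp [pre, List.range_succ]

theorem Delta_pre_le_two (n : ℕ) : ∀ a ∈ pre n, a ≤ 2 := by
  intro a ha
  unfold pre at ha
  rw [List.mem_map] at ha
  obtain ⟨i, _, rfl⟩ := ha
  exact tribWord_le_two i

theorem Delta_step (d : Desc) (s : List ℕ) (t : ℕ) (hI : Delta_Inv d s) (h0 : 0 ≤ d.pos t)
    (h4 : (d.pos t).toNat + 4 ≤ d.full.length) (hl : d.l = 3 ∨ 0 < (d.pos t).toNat) :
    Delta_Inv (d.next t) (s ++ [t]) := by
  obtain ⟨m, hA, hA', hB, hC, hD⟩ := hI
  set n := sval s with hn
  set P := sub (pre m) with hP
  set R := d.full with hR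
  set k := (d.pos t).toNat with hk
  have hsn : sub (pre n) = P ++ lsub d.l := by
    rw [hA, sub_append, Delta_lsub]
  have hsn4 : sub (pre (n + 4)) = P ++ R := by
    rw [hB, sub_append, hsn, List.append_assoc, hR, Desc.full]
  set N := (sub (pre (n + 4))).length with hN
  have hpN : pre N = P ++ R := by rw [← hsn4, sub_pre (n + 4)]
  have hNl : N = P.length + R.length := by rw [hN, hsn4, List.length_append]
  have hn' : sval (s ++ [t]) = P.length + k := by
    have e1 : ((sval (s ++ [t]) : ℕ) : ℤ) = (P.length : ℤ) + d.pos t := by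
      rw [Delta_sval_one]
      push_cast
      rw [hC, hsn, List.length_append, Desc.pos]
      push_cast
      ring
    have e2 : ((k : ℕ) : ℤ) = d.pos t := by rw [hk]; exact Int.toNat_of_nonneg h0
    rw [← e2] at e1
    exact_mod_cast e1
  have hpre' : pre (P.length + k) = P ++ R.take k := by
    rw [← Delta_pre_take (n := N) (by omega), hpN, List.take_append,
      List.take_of_length_le (by omega), Nat.add_sub_cancel_left]
  have hpre4 : pre (P.length + k + 4) = P ++ R.take (k + 4) := by
    rw [← Delta_pre_take (n := N) (by omega), hpN, List.take_append,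
      List.take_of_length_le (by omega)]
    congr 2
    omega
  have hnl : (d.next t).l = if k = 0 then 3 else R.getD (k - 1) 3 := rfl
  have hnw : (d.next t).w = (R.drop k).take 4 := rfl
  have hno1 : (d.next t).o1 = d.o2 + 2 * t + (sub (lsub d.l)).length -
      (sub (R.take k)).length := rfl
  have hno2 : (d.next t).o2 = d.o2 + d.o1 + 4 * t + (sub (sub (lsub d.l))).length -
      (sub (sub (R.take k))).length := rfl
  have hl' : ∃ m' : ℕ, pre (P.length + k) = pre m' ++ Delta_ll (d.next t).l ∧
      ((d.next t).l = 3 → P.length + k = 0) := by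
    rcases Nat.eq_zero_or_pos k with hk0 | hk0
    · have hl3 : d.l = 3 := by
        rcases hl with h | h
        · exact h
        · omega
      have hn0 := hA' hl3
      have hPnil : P.length = 0 := by
        have e1 := congrArg List.length hA
        rw [List.length_append, length_pre, length_pre, hn0] at e1
        have e2 : m = 0 := by omega
        rw [hP, e2]
        rfl
      refine ⟨0, ?_, fun _ => by omega⟩
      rw [hnl, if_pos hk0, hPnil, hk0]
      rfl
    · have e1 : P.length + k = (P.length + (k - 1)) + 1 := by omega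
      have e2 := Delta_pre_succ (P.length + (k - 1))
      rw [← e1] at e2
      have hk1 : k - 1 < R.length := by omega
      have e3 : (pre (P.length + k)).getD (P.length + (k - 1)) 3 = R.getD (k - 1) 3 := by
        rw [hpre', List.getD_append_right _ _ _ _ (by omega), Nat.add_sub_cancel_left]
        rw [List.getD_eq_getElem?_getD, List.getD_eq_getElem?_getD, List.getElem?_take_of_lt (by omega)]
      have e4 : (pre (P.length + k)).getD (P.length + (k - 1)) 3 = tribWord (P.length + (k - 1)) := by
        rw [e2, List.getD_append_right _ _ _ _ (by rw [length_pre]), length_pre, Nat.sub_self]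
        rfl
      have e5 : (d.next t).l = tribWord (P.length + (k - 1)) := by
        rw [hnl, if_neg (by omega), ← e3, e4]
      have e6 : (d.next t).l ≠ 3 := by
        rw [e5]
        have := tribWord_le_two (P.length + (k - 1))
        omega
      refine ⟨P.length + (k - 1), ?_, fun h => absurd h e6⟩
      rw [e2, Delta_ll, if_neg e6, e5]
  obtain ⟨m', hm', hl3'⟩ := hl'
  refine ⟨m', ?_, ?_, ?_, ?_, ?_⟩
  · rw [hn', hm']
  · rw [hn']
    exact hl3'
  · rw [hn', hpre4, hpre', hnw, List.append_assoc, List.take_add]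
  · have e1 : s ++ [t] ++ [0] = s ++ [t, 0] := by simp
    rw [e1, hn', hpre', Delta_sval_two, hno1, sub_append, List.length_append]
    push_cast
    rw [hD, hsn, sub_append, List.length_append]
    push_cast
    ring
  · have e1 : s ++ [t] ++ [0, 0] = s ++ [t, 0, 0] := by simp
    have e2 := length_sub_three (pre n) (Delta_pre_le_two n)
    have e3 : (sub (sub (sub (pre n)))).length =
        (sub (sub P)).length + (sub (sub (lsub d.l))).length := by
      rw [hsn, sub_append, sub_append, List.length_append]
    rw [length_pre] at e2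
    rw [e1, hn', hpre', Delta_sval_three, Delta_sval_rec, hno2, sub_append, sub_append,
      List.length_append]
    push_cast
    rw [hD, hC, ← hn]
    have e4 : ((sub (sub (pre n))).length : ℤ) + (sub (pre n)).length + n =
        (sub (sub P)).length + (sub (sub (lsub d.l))).length := by
      rw [e3] at e2
      exact_mod_cast e2.symm
    linear_combination e4

theorem Delta_start : Delta_Inv ⟨3, [0, 1, 0, 2], 0, 0⟩ [] := by
  refine ⟨0, rfl, fun _ => rfl, ?_, ?_, ?_⟩
  · show pre 4 = pre 0 ++ [0, 1, 0, 2]
    decide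
  · simp [sval, pre, sub]
  · simp [sval, pre, sub]

theorem Delta_main (s : List ℕ) : (∀ d ∈ s, d ≤ 2) →
    ∃ p ∈ descs, Delta_Inv p.1 s ∧ (dls 0 s).val = p.2 := by
  induction s using List.reverseRecOn with
  | nil =>
    intro _
    exact ⟨_, descs_start, Delta_start, rfl⟩
  | append_singleton s t ih =>
    intro h
    obtain ⟨p, hp, hI, hq⟩ := ih (fun d hd => h d (by simp [hd]))
    have ht : t ≤ 2 := h t (by simp)
    have h1 := List.all_eq_true.mp descs_ok p hp
    simp only [Bool.and_eq_true] at h1
    have h2 : stepOK p t = true := by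
      interval_cases t
      · exact h1.1.1
      · exact h1.1.2
      · exact h1.2
    simp only [stepOK, Bool.and_eq_true, Bool.or_eq_true, decide_eq_true_eq] at h2
    obtain ⟨⟨⟨⟨⟨⟨⟨g1, g2⟩, g3⟩, g4⟩, g5⟩, g6⟩, g7⟩, g8⟩ := h2
    refine ⟨_, g4, Delta_step p.1 s t hI g1 g2 g3, ?_⟩
    have e1 : Fin.ofNat 35 p.2 = dls 0 s := by
      apply Fin.ext
      simp only [Fin.ofNat]
      rw [← hq]
      exact Nat.mod_eq_of_lt (dls 0 s).isLt
    simp only [e1]
    rw [dls_append]
    rfl

/-- the automaton computes the Tribonacci word on all digit words over `{0,1,2}` -/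
theorem ou_dls (s : List ℕ) (h : ∀ d ∈ s, d ≤ 2) : ou (dls 0 s) = tribWord (sval s) := by
  obtain ⟨p, hp, ⟨m, _, _, hB, _, _⟩, hq⟩ := Delta_main s h
  have h1 := List.all_eq_true.mp descs_ok p hp
  simp only [Bool.and_eq_true] at h1
  have h2 := h1.1.1
  simp only [stepOK, Bool.and_eq_true, Bool.or_eq_true, decide_eq_true_eq] at h2
  obtain ⟨⟨⟨⟨⟨⟨⟨g1, g2⟩, g3⟩, g4⟩, g5⟩, g6⟩, g7⟩, g8⟩ := h2
  have e1 : Fin.ofNat 35 p.2 = dls 0 s := by
    apply Fin.ext
    simp only [Fin.ofNat]
    rw [← hq]
    exact Nat.mod_eq_of_lt (dls 0 s).isLt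
  rw [← e1, g7]
  have e2 : (pre (sval s + 4)).getD (sval s) 3 = (pre (sval s) ++ p.1.w).getD (sval s) 3 := by
    rw [hB]
  rw [List.getD_append_right _ _ _ _ (by rw [length_pre]), length_pre, Nat.sub_self] at e2
  rw [← e2]
  simp [pre, List.getD_eq_getElem?_getD]

end Pool.H99.Trib
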