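import Pool.Agent.H99.Trib.Auto

/-!
# Local descriptions of the 35 states

A descriptor `⟨l, w, o1, o2⟩` of a digit word `s` with value `n` records the letter `l` of the
Tribonacci word at `n-1` (`3` if `n=0`), the letters `w` at `n, n+1, n+2, n+3`, and the offsets
`sval (s ++ [0]) - |sub (pre n)|` and `sval (s ++ [0,0]) - |sub (sub (pre n))|`.
-/

namespace Pool.H99.Trib

structure Desc where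
  l : ℕ
  w : List ℕ
  o1 : ℤ
  o2 : ℤ
deriving DecidableEq

/-- image of the left letter (empty at the beginning of the word) -/
def lsub (l : ℕ) : List ℕ := if l = 3 then [] else sub [l]

/-- the factor of the Tribonacci word starting at `|sub (pre (n-1))|` (at `0` if `n = 0`) -/
def Desc.full (d : Desc) : List ℕ := lsub d.l ++ sub d.w

/-- position of the new letter in `full` -/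
def Desc.pos (d : Desc) (t : ℕ) : ℤ := (lsub d.l).length + d.o1 + t

/-- the next descriptor -/
def Desc.next (d : Desc) (t : ℕ) : Desc :=
  let k := (d.pos t).toNat
  let R := d.full
  ⟨if k = 0 then 3 else R.getD (k - 1) 3, (R.drop k).take 4,
    d.o2 + 2 * t + (sub (lsub d.l)).length - (sub (R.take k)).length,
    d.o2 + d.o1 + 4 * t + (sub (sub (lsub d.l))).length - (sub (sub (R.take k))).length⟩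

/-- the 66 descriptors, with the state of the automaton -/
def descs : List (Desc × ℕ) := [
  (⟨3, [0, 1, 0, 2], 0, 0⟩, 0),
  (⟨0, [1, 0, 2, 0], 0, 0⟩, 1),
  (⟨1, [0, 2, 0, 1], 0, 1⟩, 2),
  (⟨1, [0, 2, 0, 1], 0, 0⟩, 3),
  (⟨0, [2, 0, 1, 0], 0, 0⟩, 4),
  (⟨2, [0, 1, 0, 0], 1, 2⟩, 5),
  (⟨2, [0, 1, 0, 0], 1, 1⟩, 6),
  (⟨0, [1, 0, 0, 1], 1, 1⟩, 7),
  (⟨1, [0, 0, 1, 0], 1, 2⟩, 8),
  (⟨2, [0, 1, 0, 0], 0, 0⟩, 0),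
  (⟨0, [1, 0, 0, 1], 0, 0⟩, 1),
  (⟨1, [0, 0, 1, 0], 0, 1⟩, 9),
  (⟨1, [0, 0, 1, 0], 0, 0⟩, 10),
  (⟨0, [0, 1, 0, 2], 0, 0⟩, 0),
  (⟨0, [1, 0, 2, 0], 0, (-1)⟩, 11),
  (⟨0, [1, 0, 2, 0], (-1), (-2)⟩, 12),
  (⟨1, [0, 2, 0, 1], (-1), (-1)⟩, 13),
  (⟨0, [2, 0, 1, 0], (-1), (-1)⟩, 14),
  (⟨0, [2, 0, 1, 0], (-1), (-2)⟩, 15),
  (⟨2, [0, 1, 0, 1], 0, 0⟩, 0),
  (⟨0, [1, 0, 1, 0], 0, 0⟩, 1),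
  (⟨0, [1, 0, 1, 0], 0, (-1)⟩, 11),
  (⟨1, [0, 1, 0, 2], 0, 0⟩, 0),
  (⟨2, [0, 1, 0, 1], 1, 2⟩, 5),
  (⟨2, [0, 1, 0, 1], 1, 1⟩, 6),
  (⟨0, [1, 0, 1, 0], 1, 1⟩, 7),
  (⟨1, [0, 1, 0, 2], 1, 2⟩, 5),
  (⟨1, [0, 1, 0, 2], 0, 1⟩, 16),
  (⟨2, [0, 1, 0, 0], 0, 1⟩, 16),
  (⟨0, [2, 0, 1, 0], 0, 1⟩, 17),
  (⟨0, [1, 0, 0, 1], 1, 2⟩, 18),
  (⟨0, [0, 1, 0, 2], 1, 2⟩, 5),
  (⟨0, [0, 1, 0, 2], 0, 1⟩, 16),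
  (⟨2, [0, 1, 0, 2], 1, 2⟩, 5),
  (⟨2, [0, 1, 0, 2], 0, 1⟩, 16),
  (⟨2, [0, 1, 0, 2], 0, 0⟩, 0),
  (⟨2, [0, 1, 0, 2], 1, 1⟩, 6),
  (⟨0, [1, 0, 2, 0], 1, 1⟩, 7),
  (⟨1, [0, 2, 0, 1], 1, 2⟩, 19),
  (⟨0, [0, 1, 0, 2], 1, 1⟩, 6),
  (⟨1, [0, 0, 1, 0], 1, 1⟩, 20),
  (⟨0, [2, 0, 1, 0], 0, (-1)⟩, 21),
  (⟨1, [0, 1, 0, 2], 1, 1⟩, 6),
  (⟨0, [1, 0, 0, 1], 0, (-1)⟩, 11),
  (⟨0, [1, 0, 1, 0], (-1), (-2)⟩, 12),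
  (⟨1, [0, 1, 0, 2], (-1), (-1)⟩, 13),
  (⟨0, [1, 0, 2, 0], (-1), (-1)⟩, 22),
  (⟨1, [0, 0, 1, 0], (-1), (-1)⟩, 13),
  (⟨0, [0, 1, 0, 2], (-1), (-1)⟩, 23),
  (⟨2, [0, 1, 0, 1], 0, 1⟩, 16),
  (⟨0, [1, 0, 2, 0], 1, 2⟩, 18),
  (⟨0, [2, 0, 1, 0], 1, 2⟩, 24),
  (⟨0, [1, 0, 1, 0], 1, 2⟩, 18),
  (⟨0, [0, 1, 0, 2], 0, (-1)⟩, 25),
  (⟨1, [0, 2, 0, 1], (-1), 0⟩, 26),
  (⟨0, [2, 0, 1, 0], 1, 1⟩, 27),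
  (⟨2, [0, 1, 0, 0], 2, 3⟩, 28),
  (⟨0, [1, 0, 0, 1], 2, 3⟩, 29),
  (⟨0, [0, 1, 0, 2], (-1), (-2)⟩, 30),
  (⟨1, [0, 2, 0, 1], (-1), (-2)⟩, 31),
  (⟨2, [0, 1, 0, 1], 0, (-1)⟩, 32),
  (⟨0, [1, 0, 2, 0], 0, 1⟩, 33),
  (⟨0, [1, 0, 0, 1], 0, 1⟩, 33),
  (⟨1, [0, 2, 0, 1], 1, 1⟩, 34),
  (⟨2, [0, 1, 0, 1], 2, 3⟩, 28),
  (⟨0, [1, 0, 0, 1], (-1), (-2)⟩, 12)]

/-- closure check -/
def stepOK (d : Desc × ℕ) (t : ℕ) : Bool :=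
  decide (0 ≤ d.1.pos t) && decide ((d.1.pos t).toNat + 4 ≤ d.1.full.length) &&
  (decide (d.1.l = 3) || decide (0 < (d.1.pos t).toNat)) &&
  decide ((d.1.next t, (dl (Fin.ofNat 35 d.2) t).val) ∈ descs) && decide (d.2 < 35) &&
  decide (d.1.w.length = 4) && decide (ou (Fin.ofNat 35 d.2) = d.1.w.getD 0 3) &&
  decide (d.1.l ≤ 3)

set_option maxRecDepth 100000 in
theorem descs_ok : (descs.all fun d => stepOK d 0 && stepOK d 1 && stepOK d 2) = true := by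
  decide +kernel

theorem descs_start : ((⟨3, [0, 1, 0, 2], 0, 0⟩, 0) : Desc × ℕ) ∈ descs := by
  simp [descs]

end Pool.H99.Trib
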