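import Pool.Agent.H99.Trib.Disc0

/-!
# Discrepancies between the Tribonacci word and its shifts
-/

namespace Pool.H99.Trib

theorem Disc_zs_append {a b c d : List Bool} (h : a.length = c.length) :
    zs (a ++ b) (c ++ d) = zs a c ++ zs b d := by
  unfold zs
  exact List.zipWith_append h

theorem Disc_zs_zero (u : List Bool) : zs u (List.replicate u.length false) = bits u := by
  induction u with
  | nil => rfl
  | cons a u ih =>
    rw [List.length_cons, List.replicate_succ]
    show (a.toNat + false.toNat) :: zs u (List.replicate u.length false) = a.toNat :: bits u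
    rw [ih]
    rfl

theorem Disc_bits_append (u v : List Bool) : bits (u ++ v) = bits u ++ bits v := by
  simp [bits]

theorem Disc_valid_join {y t : List Bool} (hy : Valid y) (ht : Valid t) :
    Valid (y ++ false :: t) := by
  induction y with
  | nil => exact Greedy_valid_false ht
  | cons b y ih =>
    have h1 := ih (Greedy_valid_tail hy)
    intro h2
    rw [List.cons_append, List.infix_cons_iff] at h2
    rcases h2 with h2 | h2
    · match y, h2, hy with
      | [], h2, _ =>
        simp at h2
      | [c], h2, _ =>
        simp at h2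
      | c :: d :: y, h2, hy =>
        apply hy
        simp only [List.cons_append, List.cons_prefix_cons] at h2
        obtain ⟨rfl, rfl, rfl, -⟩ := h2
        exact ⟨[], y, rfl⟩
    · exact h1 h2

theorem Disc_valid_append {y g : List Bool} (hy : Valid y) (hg : Valid (true :: true :: g)) :
    Valid (y ++ g) := by
  match g, hg with
  | [], _ => simpa using hy
  | true :: g, hg => exact absurd hg (Greedy_not_ttt g)
  | false :: g, hg =>
    exact Disc_valid_join hy (Greedy_valid_tail (Greedy_valid_tail (Greedy_valid_tail hg)))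

theorem Disc_value_zero {w : List Bool} (h : true ∉ w) : value w = 0 := by
  induction w with
  | nil => rfl
  | cons b w ih =>
    simp only [List.mem_cons, not_or] at h
    have hb : b = false := by
      cases b
      · rfl
      · exact absurd rfl h.1
    subst hb
    simp [value, ih h.2]

theorem Disc_last_one {w : List Bool} (h : true ∈ w) :
    ∃ (w1 : List Bool) (k : ℕ), w = w1 ++ true :: List.replicate k false := by
  induction w using List.reverseRecOn with
  | nil => simp at h
  | append_singleton w a ih =>
    cases a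
    · have h1 : true ∈ w := by simpa using h
      obtain ⟨w1, k, hw⟩ := ih h1
      refine ⟨w1, k + 1, ?_⟩
      rw [hw, List.append_assoc, List.cons_append, List.replicate_succ']
    · exact ⟨w, 0, by simp⟩

theorem Disc_value (y t : List Bool) : value (y ++ false :: t) =
    value (y ++ List.replicate (t.length + 1) false) + value t := by
  have h1 := value_append (y ++ [false]) t
  have h2 := value_append (y ++ [false]) (List.replicate t.length false)
  have h3 : value (List.replicate t.length false) = 0 :=
    Disc_value_zero (by simp)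
  rw [List.length_replicate, h3, add_zero] at h2
  rw [List.append_assoc, List.singleton_append] at h1 h2
  rw [List.replicate_succ, h1, h2]

theorem Disc_shift {y t η : List Bool} (h : t.length = η.length) :
    tribWord (value (y ++ false :: t) + value η) =
      ou (dls 0 (bits (y ++ [false]) ++ zs t η)) := by
  rw [ou_dls]
  · congr 1
    rw [Vectors_sval_append, sval_zs h, zs_length h, ← h]
    have h1 := value_append (y ++ [false]) t
    simp only [List.append_assoc, List.singleton_append] at h1
    rw [h1]
    ring
  · intro d hd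
    rw [List.mem_append] at hd
    rcases hd with hd | hd
    · exact Vectors_bits_le _ d hd
    · exact zs_le_two _ _ d hd

theorem Disc_valid_mono {u v w : List Bool} (h : Valid (u ++ v ++ w)) : Valid v :=
  fun h1 => h (h1.trans ⟨u, w, rfl⟩)

open Classical in
/-- words with a given prefix -/
theorem Disc_prefix (lam a : ℝ)
    (ha : ∀ k : ℕ, ∀ x ∈ GG, a * lam ^ k ≤ (fcount k x.1 x.2 : ℝ))
    (y t1 η1 η2 : List Bool) (k : ℕ) (hy : Valid y) (ht1 : Valid t1)
    (hl : t1.length = η1.length) (hη2 : η2.length = 5) (hv : Valid (η2 ++ [true])) :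
    ∃ S : Finset (List Bool), (∀ t ∈ S, t ∈ VW (t1.length + 6 + k) ∧ t1 <+: t ∧
      tribWord (value (y ++ false :: t)) ≠ tribWord (value (y ++ false :: t) +
        value (η1 ++ (η2 ++ true :: List.replicate k false)))) ∧
      a * lam ^ k ≤ (S.card : ℝ) := by
  have hY : Valid (y ++ false :: t1) := Disc_valid_join hy ht1
  obtain ⟨q, hq⟩ : ∃ q : Q, q = dls (dls 0 (bits (y ++ [false]))) (zs t1 η1) := ⟨_, rfl⟩
  obtain ⟨g, hg, hgv, hgg⟩ := reach_GG (dls 0 (bits (y ++ false :: t1))) (canon_mem hY)
    q η2 hη2 hv
  obtain ⟨q', hq'⟩ : ∃ q' : Q, q' = dls q (zs g (η2 ++ [true])) := ⟨_, rfl⟩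
  obtain ⟨Y, hYe⟩ : ∃ Y : List Bool, Y = (y ++ false :: t1) ++ g := ⟨_, rfl⟩
  have hYg : Valid Y := hYe ▸ Disc_valid_append hY hgv
  have hcount := count_fcount k Y q' hYg
  rw [← dls_append, ← Disc_bits_append, ← hYe, ← hq'] at hgg
  have hge := ha k _ hgg
  simp only at hge
  refine ⟨((VW k).filter fun t => Valid (Y ++ t) ∧ ou (dls 0 (bits (Y ++ t))) ≠
      ou (dls q' (bits t))).image fun t2 => t1 ++ (g ++ t2), ?_, ?_⟩
  · intro t ht
    simp only [Finset.mem_image, Finset.mem_filter] at ht
    obtain ⟨t2, ⟨ht2, hv2, hne⟩, rfl⟩ := ht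
    obtain ⟨hlen, -⟩ := MeanCount_mem_VW.1 ht2
    refine ⟨MeanCount_mem_VW.2 ⟨?_, ?_⟩, ⟨g ++ t2, rfl⟩, ?_⟩
    · simp only [List.length_append, hg, hlen]; omega
    · apply Disc_valid_mono (u := y ++ [false]) (w := [])
      rw [hYe] at hv2
      simpa [List.append_assoc] using hv2
    · have hL : (t1 ++ (g ++ t2)).length =
          (η1 ++ (η2 ++ true :: List.replicate k false)).length := by
        simp [hl, hg, hlen, hη2]; omega
      rw [Disc_shift hL]
      have e1 : tribWord (value (y ++ false :: (t1 ++ (g ++ t2)))) =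
          ou (dls 0 (bits (Y ++ t2))) := by
        rw [ou_dls _ (Vectors_bits_le _), Vectors_sval_bits, hYe]
        simp [List.append_assoc]
      have e2 : zs (t1 ++ (g ++ t2)) (η1 ++ (η2 ++ true :: List.replicate k false)) =
          zs t1 η1 ++ (zs g (η2 ++ [true]) ++ bits t2) := by
        rw [Disc_zs_append hl]
        congr 1
        have : η2 ++ true :: List.replicate k false =
            (η2 ++ [true]) ++ List.replicate k false := by simp
        rw [this, Disc_zs_append (by simp [hg, hη2]), ← hlen, Disc_zs_zero]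
      rw [e1, e2, dls_append, dls_append, ← hq, dls_append, ← hq']
      exact hne
  · rw [Finset.card_image_of_injective]
    · rw [hcount]
      exact hge
    · intro u v huv
      simpa using huv

theorem Disc_replicate_add (a b : ℕ) (w : List Bool) : List.replicate (a + b) false ++ w =
    List.replicate a false ++ (List.replicate b false ++ w) := by
  rw [List.replicate_add, List.append_assoc]

theorem Disc_value_false (w : List Bool) (n : ℕ) :
    value (List.replicate n false ++ w) = value w := by
  induction n with
  | zero => simp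
  | succ n ih => rw [List.replicate_succ, List.cons_append, value, ih]; simp

open Classical in
theorem Disc_core (lam : ℝ) (h0 : 0 < lam) (h : lam ^ 4 = 2 * lam + 1) :
    ∃ a : ℝ, 0 < a ∧ ∀ (L d : ℕ) (y : List Bool), Valid y → 1 ≤ d → d < W L → a * lam ^ L ≤
      (((VW (L + 5)).filter fun t =>
        tribWord (value (y ++ false :: t)) ≠ tribWord (value (y ++ false :: t) + d)).card : ℝ) := by
  obtain ⟨a, ha0, ha⟩ := fcount_ge lam h0 h
  have hl1 := upper_lam_gt lam h0 h
  have hl2 := upper_lam_lt lam h0 h
  obtain ⟨β, hβ1, hβ2, hβ3⟩ := Quot_beta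
  have hβ0 : 0 < β := by linarith
  refine ⟨a / lam, by positivity, fun L d y hy hd hdL => ?_⟩
  obtain ⟨η, hηv, hηl, hη⟩ := exists_rep hdL
  have ht : true ∈ η := by
    by_contra hc
    have := Disc_value_zero hc
    omega
  obtain ⟨w1, k, hw⟩ := Disc_last_one ht
  have hlen : w1.length + (k + 1) = L := by
    rw [← hηl, hw]; simp
  -- the first digits
  obtain ⟨n, hn⟩ : ∃ n, n = w1.length := ⟨_, rfl⟩
  obtain ⟨η1, hη1⟩ : ∃ η1, η1 = (List.replicate 5 false ++ w1).take n := ⟨_, rfl⟩
  obtain ⟨η2, hη2⟩ : ∃ η2, η2 = (List.replicate 5 false ++ w1).drop n := ⟨_, rfl⟩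
  have h12 : η1 ++ η2 = List.replicate 5 false ++ w1 := by
    rw [hη1, hη2, List.take_append_drop]
  have hl1' : η1.length = n := by
    rw [hη1, List.length_take, List.length_append, List.length_replicate]; omega
  have hl2' : η2.length = 5 := by
    rw [hη2, List.length_drop, List.length_append, List.length_replicate]; omega
  have hval : value (η1 ++ (η2 ++ true :: List.replicate k false)) = d := by
    rw [← List.append_assoc, h12, List.append_assoc, ← hw, Disc_value_false, hη]
  have hv2 : Valid (η2 ++ [true]) := by
    have h5 : Valid (List.replicate 5 false ++ η) := by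
      have : ∀ n, Valid (List.replicate n false ++ η) := by
        intro n
        induction n with
        | zero => simpa using hηv
        | succ n ih =>
          rw [List.replicate_succ, List.cons_append]
          exact Greedy_valid_false ih
      exact this 5
    apply Disc_valid_mono (u := η1) (w := List.replicate k false)
    have e : η1 ++ (η2 ++ [true]) ++ List.replicate k false = List.replicate 5 false ++ η := by
      rw [hw, ← List.append_assoc, h12]
      simp
    rw [e]
    exact h5
  have key : ∀ t1 : List Bool, ∃ S : Finset (List Bool), t1 ∈ VW n →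
      (∀ t ∈ S, t ∈ VW (t1.length + 6 + k) ∧ t1 <+: t ∧
      tribWord (value (y ++ false :: t)) ≠ tribWord (value (y ++ false :: t) + d)) ∧
      a * lam ^ k ≤ (S.card : ℝ) := by
    intro t1
    by_cases h1 : t1 ∈ VW n
    · obtain ⟨h2, h3⟩ := MeanCount_mem_VW.1 h1
      obtain ⟨S, hS1, hS2⟩ := Disc_prefix lam a ha y t1 η1 η2 k hy h3 (by rw [h2, hl1']) hl2' hv2
      rw [hval] at hS1
      exact ⟨S, fun _ => ⟨hS1, hS2⟩⟩
    · exact ⟨∅, fun h2 => absurd h2 h1⟩
  choose S hS using key
  have hdisj : Set.PairwiseDisjoint (VW n : Set (List Bool)) S := by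
    intro u hu v hv huv
    rw [Function.onFun, Finset.disjoint_left]
    intro t ht1 ht2
    apply huv
    have h1 := ((hS u hu).1 t ht1).2.1
    have h2 := ((hS v hv).1 t ht2).2.1
    have h3 : u.length = v.length := by
      rw [(MeanCount_mem_VW.1 hu).1, (MeanCount_mem_VW.1 hv).1]
    exact (List.prefix_of_prefix_length_le h1 h2 h3.le).eq_of_length h3
  have hsub : (VW n).biUnion S ⊆ (VW (L + 5)).filter fun t =>
      tribWord (value (y ++ false :: t)) ≠ tribWord (value (y ++ false :: t) + d) := by
    intro t ht
    rw [Finset.mem_biUnion] at ht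
    obtain ⟨u, hu, htu⟩ := ht
    have h1 := (hS u hu).1 t htu
    rw [Finset.mem_filter]
    refine ⟨?_, h1.2.2⟩
    have h2 := h1.1
    rw [(MeanCount_mem_VW.1 hu).1] at h2
    have e : n + 6 + k = L + 5 := by omega
    rw [← e]
    exact h2
  have hcard := Finset.card_le_card hsub
  rw [Finset.card_biUnion hdisj] at hcard
  have hsum : (W n : ℝ) * (a * lam ^ k) ≤ ((∑ u ∈ VW n, (S u).card : ℕ) : ℝ) := by
    rw [← card_VW n]
    push_cast
    rw [← nsmul_eq_mul]
    apply Finset.card_nsmul_le_sum
    intro u hu
    exact (hS u hu).2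
  have hW : lam ^ n ≤ (W n : ℝ) := by
    refine le_trans ?_ (W_bounds β hβ0 hβ3 n).1
    exact pow_le_pow_left₀ h0.le (by linarith) n
  have hpow : a / lam * lam ^ L = lam ^ n * (a * lam ^ k) := by
    rw [← hlen, ← hn, pow_add, pow_add, pow_one]
    field_simp
  rw [hpow]
  calc lam ^ n * (a * lam ^ k) ≤ (W n : ℝ) * (a * lam ^ k) := by
        apply mul_le_mul_of_nonneg_right hW; positivity
    _ ≤ _ := hsum
    _ ≤ _ := by exact_mod_cast hcard

theorem disc (lam : ℝ) (h0 : 0 < lam) (h : lam ^ 4 = 2 * lam + 1) :
    ∃ a : ℝ, 0 < a ∧ ∀ L d i : ℕ, 1 ≤ d → d < W L → a * lam ^ L ≤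
      (((Finset.range (W (L + 7))).filter fun N =>
        tribWord (i + N) ≠ tribWord (i + N + d)).card : ℝ) := by
  classical
  obtain ⟨a, ha0, ha⟩ := Disc_core lam h0 h
  refine ⟨a, ha0, fun L d i hd hdL => ?_⟩
  obtain ⟨y, hy, hy1, hy2⟩ := exists_block i (L + 5)
  refine (ha L d y hy hd hdL).trans ?_
  have hinj : Set.InjOn (fun t : List Bool => value (y ++ false :: t) - i)
      ((VW (L + 5)).filter fun t =>
        tribWord (value (y ++ false :: t)) ≠ tribWord (value (y ++ false :: t) + d) :
        Finset (List Bool)) := by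
    intro u hu v hv huv
    rw [Finset.mem_coe, Finset.mem_filter] at hu hv
    obtain ⟨hu1, hu2⟩ := MeanCount_mem_VW.1 hu.1
    obtain ⟨hv1, hv2⟩ := MeanCount_mem_VW.1 hv.1
    have e1 := Disc_value y u
    have e2 := Disc_value y v
    rw [hu1] at e1
    rw [hv1] at e2
    simp only at huv
    exact value_inj hu2 hv2 (by rw [hu1, hv1]) (by omega)
  rw [← Finset.card_image_of_injOn hinj]
  have hsub : ((VW (L + 5)).filter fun t =>
        tribWord (value (y ++ false :: t)) ≠ tribWord (value (y ++ false :: t) + d)).image
        (fun t : List Bool => value (y ++ false :: t) - i) ⊆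
      (Finset.range (W (L + 7))).filter fun N => tribWord (i + N) ≠ tribWord (i + N + d) := by
    intro N hN
    rw [Finset.mem_image] at hN
    obtain ⟨t, ht, rfl⟩ := hN
    rw [Finset.mem_filter] at ht
    obtain ⟨ht1, ht2⟩ := MeanCount_mem_VW.1 ht.1
    have e1 := Disc_value y t
    have e2 := value_lt ht2
    have e3 := Greedy_W_two (L + 5)
    rw [ht1] at e1 e2
    rw [Finset.mem_filter, Finset.mem_range]
    have e4 : i + (value (y ++ false :: t) - i) = value (y ++ false :: t) := by omega
    rw [e4]
    refine ⟨?_, ht.2⟩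
    have e5 : L + 7 = L + 5 + 2 := rfl
    rw [e5]
    omega
  exact_mod_cast Finset.card_le_card hsub

end Pool.H99.Trib
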