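import Pool.Agent.H99.Trib.MeanCount

/-!
# The mean value of the state complexity
-/

namespace Pool.H99.Trib

theorem Mean_card_VW (β : ℝ) (hβ : 0 < β) (hβ3 : β ^ 3 = β ^ 2 + β + 1) (M : ℕ) :
    ((VW M).card : ℝ) ≤ 2 * β ^ M := by
  have h := ncard_valid β hβ hβ3 M
  have hfin : ({w : List Bool | w.length = M ∧ Valid w}).Finite :=
    (List.finite_length_eq Bool M).subset (fun w (hw : w.length = M ∧ Valid w) => hw.1)
  rw [Set.ncard_eq_toFinset_card _ hfin] at h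
  exact h

theorem Mean_sum_le (N M : ℕ) (hN : N ≤ W M) :
    ∑ c ∈ Finset.range N, s c ≤ ∑ w ∈ VW M, s (value w) := by
  classical
  have hinj : Set.InjOn value (VW M : Set (List Bool)) := by
    intro u hu v hv huv
    obtain ⟨h1, h2⟩ := MeanCount_mem_VW.1 (Finset.mem_coe.1 hu)
    obtain ⟨h3, h4⟩ := MeanCount_mem_VW.1 (Finset.mem_coe.1 hv)
    exact value_inj h2 h4 (h1.trans h3.symm) huv
  rw [← Finset.sum_image (f := fun c => s c) hinj]
  apply Finset.sum_le_sum_of_subset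
  intro c hc
  obtain ⟨w, hw1, hw2, hw3⟩ := exists_rep (lt_of_lt_of_le (Finset.mem_range.1 hc) hN)
  exact Finset.mem_image.2 ⟨w, MeanCount_mem_VW.2 ⟨hw2, hw1⟩, hw3⟩

theorem Mean_s_le {M : ℕ} {w : List Bool} (hw : w ∈ VW M) :
    s (value w) ≤ 35 * (1 + 2 * ∑ j ∈ Finset.range (M + 3), (PU (csOf w) M j).ncard) := by
  obtain ⟨h1, -⟩ := MeanCount_mem_VW.1 hw
  have h2 := s_le (csOf w) M
  have h3 : pref (csOf w) M = w := by
    rw [← h1]
    exact pref_csOf w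
  rw [h3] at h2
  exact h2.trans (ncard_vecSet_le_pairs (csOf w) M)

theorem Mean_geom (q : ℝ) (hq : 1 < q) (n : ℕ) :
    ∑ j ∈ Finset.range n, q ^ j ≤ q ^ n / (q - 1) := by
  rw [geom_sum_eq hq.ne']
  have : 0 < q - 1 := by linarith
  gcongr
  linarith

theorem Mean_main (β lam : ℝ) (hβ : 0 < β) (hβ3 : β ^ 3 = β ^ 2 + β + 1) (h0 : 0 < lam)
    (h : lam ^ 4 = 2 * lam + 1) :
    ∃ C : ℝ, 0 < C ∧ ∀ N M : ℕ, N ≤ W M → ∑ c ∈ Finset.range N, (s c : ℝ) ≤
      C * ((M : ℝ) + 1) ^ 2 * lam ^ (2 * M) := by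
  obtain ⟨C, hC, hb⟩ := sum_PU β lam hβ hβ3 h0 h
  have hq := MeanCount_q_gt β lam hβ hβ3 h0 h
  set q : ℝ := lam ^ 2 / β with hqdef
  have hq1 : 0 < q - 1 := by linarith
  have hq0 : 0 < q := by linarith
  refine ⟨70 + 70 * C * q ^ 3 / (q - 1), by positivity, fun N M hN => ?_⟩
  have hβq : β ^ M ≤ lam ^ (2 * M) := by
    rw [pow_mul]
    apply pow_le_pow_left₀ hβ.le
    have : lam ^ 2 = q * β := by
      rw [hqdef]
      field_simp
    rw [this]
    nlinarith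
  have hβq2 : β ^ M * q ^ (M + 3) = lam ^ (2 * M) * q ^ 3 := by
    rw [pow_add, ← mul_assoc, ← mul_pow, hqdef, mul_div_cancel₀ _ hβ.ne', pow_mul]
  have hM1 : (1 : ℝ) ≤ ((M : ℝ) + 1) ^ 2 := by
    have : (0 : ℝ) ≤ M := Nat.cast_nonneg M
    nlinarith
  have hl : 0 < lam ^ (2 * M) := by positivity
  calc ∑ c ∈ Finset.range N, (s c : ℝ)
      = ((∑ c ∈ Finset.range N, s c : ℕ) : ℝ) := by push_cast; rfl
    _ ≤ ((∑ w ∈ VW M, s (value w) : ℕ) : ℝ) := by exact_mod_cast Mean_sum_le N M hN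
    _ ≤ ((∑ w ∈ VW M, 35 * (1 + 2 * ∑ j ∈ Finset.range (M + 3),
          (PU (csOf w) M j).ncard) : ℕ) : ℝ) := by
        exact_mod_cast Finset.sum_le_sum fun w hw => Mean_s_le hw
    _ = 35 * (VW M).card + 70 * ∑ j ∈ Finset.range (M + 3),
          ∑ w ∈ VW M, ((PU (csOf w) M j).ncard : ℝ) := by
        push_cast
        rw [← Finset.mul_sum, Finset.sum_add_distrib, ← Finset.mul_sum, Finset.sum_comm]
        simp
        ring
    _ ≤ 35 * (2 * β ^ M) + 70 * ∑ j ∈ Finset.range (M + 3),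
          C * ((M : ℝ) + 1) ^ 2 * β ^ M * q ^ j := by
        have e1 := Mean_card_VW β hβ hβ3 M
        have e2 : ∑ j ∈ Finset.range (M + 3), ∑ w ∈ VW M, ((PU (csOf w) M j).ncard : ℝ) ≤
            ∑ j ∈ Finset.range (M + 3), C * ((M : ℝ) + 1) ^ 2 * β ^ M * q ^ j :=
          Finset.sum_le_sum fun j hj => hb M j (Finset.mem_range.1 hj)
        gcongr
    _ = 70 * β ^ M + 70 * (C * ((M : ℝ) + 1) ^ 2 * β ^ M * ∑ j ∈ Finset.range (M + 3), q ^ j) := by
        rw [← Finset.mul_sum]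
        ring
    _ ≤ 70 * β ^ M + 70 * (C * ((M : ℝ) + 1) ^ 2 * β ^ M * (q ^ (M + 3) / (q - 1))) := by
        have := Mean_geom q (by linarith) (M + 3)
        gcongr
    _ = 70 * β ^ M + 70 * C / (q - 1) * ((M : ℝ) + 1) ^ 2 * (β ^ M * q ^ (M + 3)) := by
        field_simp
    _ = 70 * β ^ M + 70 * C * q ^ 3 / (q - 1) * (((M : ℝ) + 1) ^ 2 * lam ^ (2 * M)) := by
        rw [hβq2]
        field_simp
    _ ≤ 70 * (((M : ℝ) + 1) ^ 2 * lam ^ (2 * M)) +
        70 * C * q ^ 3 / (q - 1) * (((M : ℝ) + 1) ^ 2 * lam ^ (2 * M)) := by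
        have : β ^ M ≤ ((M : ℝ) + 1) ^ 2 * lam ^ (2 * M) := by nlinarith
        gcongr
    _ = (70 + 70 * C * q ^ 3 / (q - 1)) * ((M : ℝ) + 1) ^ 2 * lam ^ (2 * M) := by ring

theorem mean (β lam : ℝ) (hβ : 0 < β) (hβ3 : β ^ 3 = β ^ 2 + β + 1) (h0 : 0 < lam)
    (h : lam ^ 4 = 2 * lam + 1) :
    ∃ C : ℝ, 0 < C ∧ ∀ N : ℕ, 2 ≤ N → ∑ c ∈ Finset.range N, (s c : ℝ) ≤
      C * (N : ℝ) ^ (2 * (Real.log lam / Real.log β)) * Real.log N ^ 2 := by
  obtain ⟨C, hC, hb⟩ := Mean_main β lam hβ hβ3 h0 h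
  have hg := upper_beta_gt β hβ hβ3
  have hl := upper_lam_gt lam h0 h
  have hlogβ : 0 < Real.log β := Real.log_pos (by linarith)
  have hlogl : 0 < Real.log lam := Real.log_pos hl
  have hlog2 : 0 < Real.log 2 := Real.log_pos (by norm_num)
  set δ : ℝ := Real.log lam / Real.log β with hδ
  have hδ0 : 0 < δ := div_pos hlogl hlogβ
  refine ⟨C * lam ^ 2 * (1 / Real.log β + 2 / Real.log 2) ^ 2, by positivity, fun N hN => ?_⟩
  have hex : ∃ M, N ≤ W M := ⟨N, (upper_lt_W N).le⟩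
  classical
  set M := Nat.find hex with hM
  have hM1 : N ≤ W M := Nat.find_spec hex
  have hM0 : M ≠ 0 := by
    intro h0
    rw [h0] at hM1
    simp only [W] at hM1
    omega
  obtain ⟨k, hk⟩ := Nat.exists_eq_succ_of_ne_zero hM0
  have hkW : W k < N := by
    have := Nat.find_min hex (m := k) (by omega)
    omega
  have hN1 : (2 : ℝ) ≤ N := by exact_mod_cast hN
  have hN0 : (0 : ℝ) < N := by linarith
  have hWk : β ^ k ≤ (N : ℝ) :=
    le_trans (W_bounds β hβ hβ3 k).1 (by exact_mod_cast hkW.le)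
  have hlogN : Real.log 2 ≤ Real.log N := Real.log_le_log (by norm_num) hN1
  have hk1 : (k : ℝ) * Real.log β ≤ Real.log N := by
    rw [← Real.log_pow]
    exact Real.log_le_log (pow_pos hβ k) hWk
  have hk2 : (M : ℝ) + 1 ≤ (1 / Real.log β + 2 / Real.log 2) * Real.log N := by
    have e1 : (k : ℝ) ≤ 1 / Real.log β * Real.log N := by
      rw [one_div, inv_mul_eq_div, le_div_iff₀ hlogβ]
      exact hk1
    have e2 : (2 : ℝ) ≤ 2 / Real.log 2 * Real.log N := by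
      rw [div_mul_eq_mul_div, le_div_iff₀ hlog2]
      linarith
    rw [hk]
    push_cast
    linarith
  have h4 : lam ^ (2 * k) ≤ (N : ℝ) ^ (2 * δ) := by
    have h5 : (β ^ k) ^ (2 * δ) = lam ^ (2 * k) := by
      rw [Real.rpow_def_of_pos (pow_pos hβ k), Real.log_pow]
      have : (k : ℝ) * Real.log β * (2 * δ) = ((2 * k : ℕ) : ℝ) * Real.log lam := by
        rw [hδ]
        push_cast
        field_simp
      rw [this, ← Real.log_pow, Real.exp_log (pow_pos h0 _)]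
    rw [← h5]
    exact Real.rpow_le_rpow (pow_pos hβ k).le hWk (by positivity)
  have hM' : (0 : ℝ) ≤ (M : ℝ) + 1 := by positivity
  calc ∑ c ∈ Finset.range N, (s c : ℝ) ≤ C * ((M : ℝ) + 1) ^ 2 * lam ^ (2 * M) := hb N M hM1
    _ = C * ((M : ℝ) + 1) ^ 2 * (lam ^ 2 * lam ^ (2 * k)) := by
        rw [← pow_add]
        congr 2
        rw [hk]
        omega
    _ ≤ C * ((1 / Real.log β + 2 / Real.log 2) * Real.log N) ^ 2 *
        (lam ^ 2 * (N : ℝ) ^ (2 * δ)) := by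
        gcongr
    _ = C * lam ^ 2 * (1 / Real.log β + 2 / Real.log 2) ^ 2 * (N : ℝ) ^ (2 * δ) *
        Real.log N ^ 2 := by ring

end Pool.H99.Trib
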