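import Pool.Agent.H99.Trib.Pers
import Pool.Agent.H99.Trib.Mean

/-!
# Preparations for the discrepancies
-/

namespace Pool.H99.Trib

theorem Disc0_value_zeros (n : ℕ) : value (List.replicate n false) = 0 := by
  induction n with
  | zero => rfl
  | succ n ih => rw [List.replicate_succ, value, ih]; simp

/-- numbers with many zeros at the end are not far from each other -/
theorem exists_block (i m : ℕ) : ∃ y : List Bool, Valid y ∧
    i ≤ value (y ++ List.replicate (m + 1) false) ∧
    value (y ++ List.replicate (m + 1) false) < i + W (m + 1) := by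
  have hW1 := Complexity_W (m + 1)
  set N := i + W (m + 1) - 1 with hN
  have hNW : N < W (N + m + 1) := by
    have := Complexity_W (N + m + 1)
    omega
  obtain ⟨w, hw, hl, hv⟩ := exists_rep hNW
  set y := w.take N with hy
  set t := w.drop N with ht
  have hwt : y ++ t = w := List.take_append_drop N w
  have htl : t.length = m + 1 := by
    rw [ht, List.length_drop, hl]; omega
  have hyv : Valid y := Tree_valid_infix hw (List.take_prefix _ _).isInfix
  have htv : Valid t := Tree_valid_infix hw (List.drop_suffix _ _).isInfix
  have h1 := value_lt htv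
  rw [htl] at h1
  have h2 : value w = sval (bits y ++ List.replicate (m + 1) 0) + value t := by
    rw [← hwt, value_append, htl]
  have h3 : value (y ++ List.replicate (m + 1) false) =
      sval (bits y ++ List.replicate (m + 1) 0) := by
    rw [value_append, List.length_replicate, Disc0_value_zeros, add_zero]
  refine ⟨y, hyv, ?_, ?_⟩ <;> rw [h3] <;> omega

theorem card_VW (n : ℕ) : (VW n).card = W n := by
  have h1 : (VW n).image value = Finset.range (W n) := by
    ext x
    simp only [Finset.mem_image, Finset.mem_range]
    constructor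
    · rintro ⟨w, hw, rfl⟩
      obtain ⟨hl, hv⟩ := MeanCount_mem_VW.1 hw
      rw [← hl]
      exact value_lt hv
    · intro hx
      obtain ⟨w, hw, hl, hv⟩ := exists_rep hx
      exact ⟨w, MeanCount_mem_VW.2 ⟨hl, hw⟩, hv⟩
  rw [← Finset.card_range (W n), ← h1, Finset.card_image_of_injOn]
  intro u hu v hv huv
  obtain ⟨hul, huv'⟩ := MeanCount_mem_VW.1 (Finset.mem_coe.1 hu)
  obtain ⟨hvl, hvv⟩ := MeanCount_mem_VW.1 (Finset.mem_coe.1 hv)
  exact value_inj huv' hvv (hul.trans hvl.symm) huv

theorem Disc0_bits_append (y t : List Bool) : bits (y ++ t) = bits y ++ bits t := by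
  simp [bits]

open Classical in
theorem count_fcount (k : ℕ) (y : List Bool) (q : Q) (hy : Valid y) :
    ((VW k).filter fun t => Valid (y ++ t) ∧
      ou (dls 0 (bits (y ++ t))) ≠ ou (dls q (bits t))).card =
      fcount k (dls 0 (bits y)) q := by
  induction k generalizing y q with
  | zero =>
    have h0 : VW 0 = {[]} := by
      ext w
      rw [MeanCount_mem_VW, Finset.mem_singleton, List.length_eq_zero_iff]
      constructor
      · exact fun h => h.1
      · rintro rfl
        exact ⟨rfl, Complexity_valid_nil⟩
    rw [h0, Finset.filter_singleton]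
    unfold fcount
    by_cases h : ou (dls 0 (bits y)) = ou q
    · rw [if_pos h, if_neg]
      · rfl
      · simp only [List.append_nil, not_and, not_not]
        intro _
        exact h
    · rw [if_neg h, if_pos]
      · rfl
      · simp only [List.append_nil]
        exact ⟨hy, h⟩
  | succ k ih =>
    set S : List Bool → Q → Finset (List Bool) := fun y q => (VW k).filter fun t =>
      Valid (y ++ t) ∧ ou (dls 0 (bits (y ++ t))) ≠ ou (dls q (bits t)) with hS
    have hmem : ∀ (b : Bool) (t : List Bool),
        (b :: t ∈ (VW (k + 1)).filter fun t => Valid (y ++ t) ∧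
          ou (dls 0 (bits (y ++ t))) ≠ ou (dls q (bits t))) ↔
        t ∈ S (y ++ [b]) (dl q b.toNat) := by
      intro b t
      simp only [hS, Finset.mem_filter, MeanCount_mem_VW]
      have e1 : y ++ [b] ++ t = y ++ b :: t := by simp
      have e2 : dls (dl q b.toNat) (bits t) = dls q (bits (b :: t)) := rfl
      rw [e1, e2]
      constructor
      · rintro ⟨⟨h1, h2⟩, h3, h4⟩
        exact ⟨⟨by simpa using h1, Tree_valid_infix h2 (List.suffix_cons _ _).isInfix⟩, h3, h4⟩
      · rintro ⟨⟨h1, _⟩, h3, h4⟩
        exact ⟨⟨by simpa using h1, Tree_valid_infix h3 (List.suffix_append _ _).isInfix⟩, h3, h4⟩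
    have hdec : ((VW (k + 1)).filter fun t => Valid (y ++ t) ∧
          ou (dls 0 (bits (y ++ t))) ≠ ou (dls q (bits t))) =
        (S (y ++ [false]) (dl q 0)).image (List.cons false) ∪
        (S (y ++ [true]) (dl q 1)).image (List.cons true) := by
      ext w
      rw [Finset.mem_union, Finset.mem_image, Finset.mem_image]
      constructor
      · intro hw
        cases w with
        | nil =>
          have := (MeanCount_mem_VW.1 (Finset.mem_filter.1 hw).1).1
          simp at this
        | cons b t =>
          have h1 := (hmem b t).1 hw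
          cases b
          · exact Or.inl ⟨t, h1, rfl⟩
          · exact Or.inr ⟨t, h1, rfl⟩
      · rintro (⟨t, ht, rfl⟩ | ⟨t, ht, rfl⟩)
        · exact (hmem false t).2 ht
        · exact (hmem true t).2 ht
    have hdisj : Disjoint ((S (y ++ [false]) (dl q 0)).image (List.cons false))
        ((S (y ++ [true]) (dl q 1)).image (List.cons true)) := by
      rw [Finset.disjoint_left]
      intro w h1 h2
      obtain ⟨t, _, rfl⟩ := Finset.mem_image.1 h1
      obtain ⟨t', _, h3⟩ := Finset.mem_image.1 h2
      simp at h3
    have hc : ∀ b : Bool, Function.Injective (List.cons b) := fun b u v h => by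
      simpa using h
    rw [hdec, Finset.card_union_of_disjoint hdisj, Finset.card_image_of_injective _ (hc false),
      Finset.card_image_of_injective _ (hc true)]
    have hf : Valid (y ++ [false]) := Complexity_valid_snoc hy (by simp)
    have e3 : ∀ b : Bool, dls 0 (bits (y ++ [b])) = dl (dls 0 (bits y)) b.toNat := by
      intro b
      rw [Disc0_bits_append, dls_append]
      rfl
    have h1 : (S (y ++ [false]) (dl q 0)).card = fcount k (dl (dls 0 (bits y)) 0) (dl q 0) := by
      have := ih (y ++ [false]) (dl q 0) hf
      rw [e3] at this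
      exact this
    have e4 : fcount (k + 1) (dls 0 (bits y)) q =
        fcount k (dl (dls 0 (bits y)) 0) (dl q 0) +
          if dls 0 (bits y) = 4 then 0 else fcount k (dl (dls 0 (bits y)) 1) (dl q 1) := rfl
    rw [e4, h1]
    congr 1
    by_cases h4 : dls 0 (bits y) = 4
    · rw [if_pos h4]
      have hnv := Complexity_not_valid_snoc ((dls_bits_eq_four hy).1 h4)
      rw [Finset.card_eq_zero]
      ext t
      simp only [hS, Finset.mem_filter, Finset.notMem_empty, iff_false]
      rintro ⟨_, h5, _⟩
      exact hnv (Tree_valid_infix h5 (List.prefix_append _ _).isInfix)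
    · rw [if_neg h4]
      have ht : Valid (y ++ [true]) := by
        refine Complexity_valid_snoc hy fun h5 => h4 ((dls_bits_eq_four hy).2 h5.1)
      have := ih (y ++ [true]) (dl q 1) ht
      rw [e3] at this
      exact this

end Pool.H99.Trib
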