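import Pool.Agent.H99.Trib.Quot

/-!
# The fibre bound
-/

namespace Pool.H99.Trib

theorem mb_iter_add (k : ℕ) (v w : Z3) : mb^[k] (v + w) = mb^[k] v + mb^[k] w := by
  induction k generalizing v w with
  | zero => rfl
  | succ k ih => rw [Function.iterate_succ_apply, Function.iterate_succ_apply,
      Function.iterate_succ_apply, mb_add, ih]

theorem Embed_iter_zero (k : ℕ) : mb^[k] (0 : Z3) = 0 :=
  Function.iterate_fixed (f := mb) (x := (0 : Z3)) (by simp [mb]) k

theorem Embed_iter_sub (k : ℕ) (v w : Z3) : mb^[k] (v - w) = mb^[k] v - mb^[k] w := by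
  have h := mb_iter_add k (v - w) w
  rw [sub_add_cancel] at h
  rw [h, add_sub_cancel_right]

theorem vz_append (u v : List Bool) : vz (u ++ v) = mb^[v.length] (vz u) + vz v := by
  induction u with
  | nil => rw [List.nil_append, vz, Embed_iter_zero, zero_add]
  | cons b u ih =>
    rw [List.cons_append, vz, vz, ih, List.length_append, Nat.add_comm, Function.iterate_add_apply,
      mb_iter_add, add_assoc]

theorem Embed_phi_iter (k : ℕ) (j : ℕ) (v : Z3) : phi j (mb^[k] v) = phi (j + k) v := by
  induction k generalizing v with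
  | zero => rfl
  | succ k ih => rw [Function.iterate_succ_apply, ih, phi_mb, Nat.add_assoc]

theorem Embed_phi_add (k : ℕ) (v w : Z3) : phi k (v + w) = phi k v + phi k w := by
  simp only [phi, Prod.fst_add, Prod.snd_add]
  ring

theorem phi_zero_vz (w : List Bool) : phi 0 (vz w) = value w := by
  induction w with
  | nil => simp [vz, phi, value]
  | cons b w ih =>
    rw [vz, Embed_phi_add, ih, Embed_phi_iter, value]
    simp [phi]

theorem Embed_valid_drop {d : List Bool} (h : ℕ) (hd : Valid d) : Valid (d.drop h) :=
  fun h' => hd (h'.trans (List.drop_suffix h d).isInfix)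

/-- fibre bound -/
theorem fibre_bound : ∃ K : ℕ, ∀ (j h : ℕ) (η : List Bool) (R : Z3), 1 ≤ h →
    {d : List Bool | d.length = j + h ∧ Valid d ∧ d.take h = η ∧
      vz (d.drop h) - vz (d.take j) = R}.ncard ≤ K := by
  obtain ⟨S, hS⟩ := finite_quot
  refine ⟨S.card, fun j h η R hh => ?_⟩
  set F : Set (List Bool) := {d : List Bool | d.length = j + h ∧ Valid d ∧ d.take h = η ∧
      vz (d.drop h) - vz (d.take j) = R} with hF
  rcases F.eq_empty_or_nonempty with he | ⟨d0, h0⟩
  · rw [he, Set.ncard_empty]
    exact Nat.zero_le _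
  have key : ∀ d ∈ F, mb^[h] (vz (d.take j)) + vz (d.drop j) =
      mb^[j] (vz η) + (R + vz (d.take j)) := by
    intro d hd
    obtain ⟨hl, _, hη, hR⟩ := hd
    have e1 : vz d = mb^[h] (vz (d.take j)) + vz (d.drop j) := by
      have := vz_append (d.take j) (d.drop j)
      rw [List.take_append_drop, List.length_drop, hl, Nat.add_sub_cancel_left] at this
      exact this
    have e2 : vz d = mb^[j] (vz η) + vz (d.drop h) := by
      have := vz_append (d.take h) (d.drop h)
      rw [List.take_append_drop, List.length_drop, hl, Nat.add_sub_cancel, hη] at this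
      exact this
    rw [← e1, e2, ← hR, sub_add_cancel]
  rw [← Set.ncard_coe_finset]
  refine Set.ncard_le_ncard_of_injOn (fun d => vz (d.take j) - vz (d0.take j)) ?_ ?_
    S.finite_toSet
  · intro d hd
    have hl := hd.1
    have hl0 := h0.1
    refine Finset.mem_coe.mpr (hS h (d.drop j) (d0.drop j) _ hh ?_ ?_ ?_)
    · rw [List.length_drop, hl, Nat.add_sub_cancel_left]
    · rw [List.length_drop, hl0, Nat.add_sub_cancel_left]
    · have k1 := key d hd
      have k0 := key d0 h0
      have k1' : mb^[h] (vz (d.take j)) =
          mb^[j] (vz η) + (R + vz (d.take j)) - vz (d.drop j) := by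
        rw [← k1, add_sub_cancel_right]
      have k0' : mb^[h] (vz (d0.take j)) =
          mb^[j] (vz η) + (R + vz (d0.take j)) - vz (d0.drop j) := by
        rw [← k0, add_sub_cancel_right]
      change mb^[h] (vz (d.take j) - vz (d0.take j)) - (vz (d.take j) - vz (d0.take j)) = _
      rw [Embed_iter_sub, k1', k0']
      abel
  · intro d hd d' hd' hdd
    have hA : vz (d.take j) = vz (d'.take j) := by simpa using hdd
    have hB : vz (d.drop h) = vz (d'.drop h) := by
      have e1 := hd.2.2.2
      have e2 := hd'.2.2.2
      rw [hA] at e1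
      exact sub_left_injective (e1.trans e2.symm)
    have hC : value (d.drop h) = value (d'.drop h) := by
      have e1 := phi_zero_vz (d.drop h)
      rw [hB, phi_zero_vz] at e1
      exact_mod_cast e1.symm
    have hD : d.drop h = d'.drop h :=
      value_inj (Embed_valid_drop h hd.2.1) (Embed_valid_drop h hd'.2.1)
        (by rw [List.length_drop, List.length_drop, hd.1, hd'.1]) hC
    rw [← List.take_append_drop h d, ← List.take_append_drop h d', hd.2.2.1, hd'.2.2.1, hD]

end Pool.H99.Trib
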