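import Pool.Agent.H99.Trib.Unsync

/-!
# Binary words as elements of `ℤ[β]`; a finiteness statement
-/

namespace Pool.H99.Trib

/-- element `Σ b_i β^i` of `ℤ[β] = ℤ^3` attached to a binary word -/
def vz : List Bool → Z3
  | [] => 0
  | b :: w => mb^[w.length] ((b.toNat : ℤ), 0, 0) + vz w

theorem mb_add (v w : Z3) : mb (v + w) = mb v + mb w := by
  simp [mb, Prod.ext_iff]; omega

theorem Quot_beta : ∃ β : ℝ, 9 / 5 ≤ β ∧ β ≤ 19 / 10 ∧ β ^ 3 = β ^ 2 + β + 1 := by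
  have hc : ContinuousOn (fun x : ℝ => x ^ 3 - x ^ 2 - x - 1) (Set.Icc (9 / 5) (19 / 10)) := by
    fun_prop
  have h := intermediate_value_Icc (by norm_num : (9 / 5 : ℝ) ≤ 19 / 10) hc
  have h0 : (0 : ℝ) ∈ Set.Icc ((9 / 5 : ℝ) ^ 3 - (9 / 5) ^ 2 - 9 / 5 - 1)
      ((19 / 10 : ℝ) ^ 3 - (19 / 10) ^ 2 - 19 / 10 - 1) := by
    constructor <;> norm_num
  obtain ⟨β, hβ, h1⟩ := h h0
  refine ⟨β, hβ.1, hβ.2, ?_⟩
  have h2 : β ^ 3 - β ^ 2 - β - 1 = 0 := h1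
  linarith

/-- evaluation of an element of `ℤ^3` at a root -/
noncomputable def Quot_ev {K : Type} [Field K] (β : K) (v : Z3) : K :=
  (v.1 : K) + (v.2.1 : K) * β + (v.2.2 : K) * β ^ 2

theorem Quot_ev_add {K : Type} [Field K] (β : K) (v w : Z3) :
    Quot_ev β (v + w) = Quot_ev β v + Quot_ev β w := by
  simp only [Quot_ev, Prod.fst_add, Prod.snd_add, Int.cast_add]
  ring

theorem Quot_ev_sub {K : Type} [Field K] (β : K) (v w : Z3) :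
    Quot_ev β (v - w) = Quot_ev β v - Quot_ev β w := by
  simp only [Quot_ev, Prod.fst_sub, Prod.snd_sub, Int.cast_sub]
  ring

theorem Quot_ev_mb {K : Type} [Field K] (β : K) (hβ : β ^ 3 = β ^ 2 + β + 1) (v : Z3) :
    Quot_ev β (mb v) = β * Quot_ev β v := by
  simp only [Quot_ev, mb, Int.cast_add]
  linear_combination -(v.2.2 : K) * hβ

theorem Quot_ev_iter {K : Type} [Field K] (β : K) (hβ : β ^ 3 = β ^ 2 + β + 1) (n : ℕ) (v : Z3) :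
    Quot_ev β (mb^[n] v) = β ^ n * Quot_ev β v := by
  induction n generalizing v with
  | zero => simp
  | succ n ih =>
    rw [Function.iterate_succ_apply, ih, Quot_ev_mb β hβ, pow_succ]
    ring

theorem Quot_ev_cons {K : Type} [Field K] (β : K) (hβ : β ^ 3 = β ^ 2 + β + 1) (b : Bool)
    (w : List Bool) :
    Quot_ev β (vz (b :: w)) = β ^ w.length * (b.toNat : K) + Quot_ev β (vz w) := by
  rw [vz, Quot_ev_add, Quot_ev_iter β hβ]
  simp [Quot_ev]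

theorem Quot_real (β : ℝ) (h1 : 9 / 5 ≤ β) (hβ : β ^ 3 = β ^ 2 + β + 1) (w : List Bool) :
    0 ≤ Quot_ev β (vz w) ∧ (β - 1) * Quot_ev β (vz w) ≤ β ^ w.length - 1 := by
  induction w with
  | nil => simp [vz, Quot_ev]
  | cons b w ih =>
    rw [Quot_ev_cons β hβ]
    have hp : (0 : ℝ) < β ^ w.length := pow_pos (by linarith) _
    have hb0 : (0 : ℝ) ≤ (b.toNat : ℝ) := Nat.cast_nonneg _
    have hb1 : (b.toNat : ℝ) ≤ 1 := by cases b <;> simp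
    refine ⟨add_nonneg (mul_nonneg hp.le hb0) ih.1, ?_⟩
    rw [List.length_cons, pow_succ]
    have h3 : β ^ w.length * (b.toNat : ℝ) ≤ β ^ w.length := by
      nlinarith
    nlinarith [ih.2, mul_le_mul_of_nonneg_left h3 (by linarith : (0 : ℝ) ≤ β - 1)]

theorem Quot_cplx (γ : ℂ) (h1 : ‖γ‖ ≤ 3 / 4) (hγ : γ ^ 3 = γ ^ 2 + γ + 1) (w : List Bool) :
    ‖Quot_ev γ (vz w)‖ ≤ 4 * (1 - (3 / 4) ^ w.length) := by
  induction w with
  | nil => simp [vz, Quot_ev]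
  | cons b w ih =>
    rw [Quot_ev_cons γ hγ]
    have h2 : ‖γ ^ w.length * (b.toNat : ℂ)‖ ≤ (3 / 4) ^ w.length := by
      rw [norm_mul, norm_pow]
      have hb1 : ‖(b.toNat : ℂ)‖ ≤ 1 := by cases b <;> simp
      have hp : ‖γ‖ ^ w.length ≤ (3 / 4) ^ w.length := pow_le_pow_left₀ (norm_nonneg _) h1 _
      calc ‖γ‖ ^ w.length * ‖(b.toNat : ℂ)‖ ≤ ‖γ‖ ^ w.length * 1 :=
            mul_le_mul_of_nonneg_left hb1 (pow_nonneg (norm_nonneg _) _)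
        _ ≤ _ := by rw [mul_one]; exact hp
    refine (norm_add_le _ _).trans ?_
    rw [List.length_cons, pow_succ]
    linarith

theorem Quot_gamma (β : ℝ) (h1 : 9 / 5 ≤ β) (h2 : β ≤ 19 / 10) (hβ : β ^ 3 = β ^ 2 + β + 1) :
    ∃ γ : ℂ, γ ^ 3 = γ ^ 2 + γ + 1 ∧ ‖γ‖ ≤ 3 / 4 ∧ γ.re = -(β - 1) / 2 ∧ 1 / 2 ≤ γ.im ∧
      γ ^ 2 = -((β : ℂ) - 1) * γ - ((β : ℂ) ^ 2 - β - 1) := by
  have hδ : β * (β ^ 2 - β - 1) = 1 := by linear_combination hβ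
  have hδ0 : (1 : ℝ) / 2 ≤ β ^ 2 - β - 1 := by
    nlinarith
  have hδ1 : β ^ 2 - β - 1 ≤ 5 / 9 := by
    nlinarith
  set t : ℝ := (β ^ 2 - β - 1) - (β - 1) ^ 2 / 4 with ht
  have ht0 : 1 / 4 ≤ t := by
    rw [ht]
    nlinarith
  have hs : Real.sqrt t ^ 2 = t := Real.sq_sqrt (by linarith)
  have hs0 : 1 / 2 ≤ Real.sqrt t := by
    rw [show (1 / 2 : ℝ) = Real.sqrt (1 / 4) by
      rw [show (1 / 4 : ℝ) = (1 / 2) ^ 2 by norm_num, Real.sqrt_sq (by norm_num)]]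
    exact Real.sqrt_le_sqrt ht0
  have hq : (⟨-(β - 1) / 2, Real.sqrt t⟩ : ℂ) ^ 2 =
      -((β : ℂ) - 1) * ⟨-(β - 1) / 2, Real.sqrt t⟩ - ((β : ℂ) ^ 2 - β - 1) := by
    have e1 : ((β : ℂ) ^ 2 - β - 1) = ((β ^ 2 - β - 1 : ℝ) : ℂ) := by push_cast; ring
    have e2 : -((β : ℂ) - 1) = ((-(β - 1) : ℝ) : ℂ) := by push_cast; ring
    rw [e1, e2]
    apply Complex.ext
    · simp only [sq, Complex.mul_re, Complex.sub_re, Complex.ofReal_re, Complex.ofReal_im]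
      rw [sq] at hs
      rw [ht] at hs
      linear_combination -hs
    · simp only [sq, Complex.mul_im, Complex.sub_im, Complex.ofReal_re, Complex.ofReal_im]
      ring
  refine ⟨⟨-(β - 1) / 2, Real.sqrt t⟩, ?_, ?_, rfl, hs0, hq⟩
  · have hβ' : (β : ℂ) ^ 3 = (β : ℂ) ^ 2 + β + 1 := by
      exact_mod_cast congrArg (Complex.ofReal) hβ
    set γ : ℂ := ⟨-(β - 1) / 2, Real.sqrt t⟩ with hγ
    linear_combination (γ - β) * hq + hβ'
  · rw [← Real.sqrt_sq (norm_nonneg _), ← Complex.normSq_eq_norm_sq, Complex.normSq_apply]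
    rw [show (3 / 4 : ℝ) = Real.sqrt (9 / 16) by
      rw [show (9 / 16 : ℝ) = (3 / 4) ^ 2 by norm_num, Real.sqrt_sq (by norm_num)]]
    apply Real.sqrt_le_sqrt
    have e3 : Real.sqrt t * Real.sqrt t = t := by rw [← sq]; exact hs
    change -(β - 1) / 2 * (-(β - 1) / 2) + Real.sqrt t * Real.sqrt t ≤ 9 / 16
    rw [e3, ht]
    nlinarith

theorem Quot_box (β : ℝ) (h1 : 9 / 5 ≤ β) (h2 : β ≤ 19 / 10) (hβ : β ^ 3 = β ^ 2 + β + 1)
    (γ : ℂ) (hre : γ.re = -(β - 1) / 2) (him : 1 / 2 ≤ γ.im)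
    (hq : γ ^ 2 = -((β : ℂ) - 1) * γ - ((β : ℂ) ^ 2 - β - 1)) (D : Z3)
    (hr : |Quot_ev β D| ≤ 2) (hc : ‖Quot_ev γ D‖ ≤ 32) :
    (-100 ≤ D.1 ∧ D.1 ≤ 100) ∧ (-100 ≤ D.2.1 ∧ D.2.1 ≤ 100) ∧ (-100 ≤ D.2.2 ∧ D.2.2 ≤ 100) := by
  obtain ⟨x, y, z⟩ := D
  have hδ : β * (β ^ 2 - β - 1) = 1 := by linear_combination hβ
  have hδ0 : (1 : ℝ) / 2 ≤ β ^ 2 - β - 1 := by nlinarith
  have hδ1 : β ^ 2 - β - 1 ≤ 5 / 9 := by nlinarith
  have hσ : Quot_ev γ (x, y, z) = (((x : ℝ) - z * (β ^ 2 - β - 1) : ℝ) : ℂ) +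
      (((y : ℝ) - (β - 1) * z : ℝ) : ℂ) * γ := by
    simp only [Quot_ev]
    rw [hq]
    push_cast
    ring
  have hIm : |((y : ℝ) - (β - 1) * z) * γ.im| ≤ 32 := by
    have h3 := (Complex.abs_im_le_norm (Quot_ev γ (x, y, z))).trans hc
    rw [hσ, Complex.add_im, Complex.ofReal_im, zero_add, Complex.im_ofReal_mul] at h3
    exact h3
  have hA : |(y : ℝ) - (β - 1) * z| ≤ 64 := by
    rw [abs_mul] at hIm
    have h4 : |γ.im| = γ.im := abs_of_pos (by linarith)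
    rw [h4] at hIm
    nlinarith [abs_nonneg ((y : ℝ) - (β - 1) * z)]
  have hRe : |((x : ℝ) - z * (β ^ 2 - β - 1)) + ((y : ℝ) - (β - 1) * z) * γ.re| ≤ 32 := by
    have h3 := (Complex.abs_re_le_norm (Quot_ev γ (x, y, z))).trans hc
    rw [hσ, Complex.add_re, Complex.ofReal_re, Complex.re_ofReal_mul] at h3
    exact h3
  have hB : |(x : ℝ) - z * (β ^ 2 - β - 1)| ≤ 61 := by
    rw [hre] at hRe
    rw [abs_le] at hA hRe ⊢
    constructor <;> nlinarith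
  have hz : |(z : ℝ)| ≤ 37 := by
    have e1 : Quot_ev β (x, y, z) = ((x : ℝ) - z * (β ^ 2 - β - 1)) +
        ((y : ℝ) - (β - 1) * z) * β + z * ((β ^ 2 - β - 1) + (β - 1) * β + β ^ 2) := by
      simp only [Quot_ev]
      ring
    rw [e1] at hr
    have e2 : 5 ≤ (β ^ 2 - β - 1) + (β - 1) * β + β ^ 2 := by nlinarith
    have e3 : |((y : ℝ) - (β - 1) * z) * β| ≤ 122 := by
      rw [abs_mul, abs_of_pos (by linarith : 0 < β)]
      nlinarith [abs_nonneg ((y : ℝ) - (β - 1) * z)]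
    have e4 : |(z : ℝ) * ((β ^ 2 - β - 1) + (β - 1) * β + β ^ 2)| ≤ 185 := by
      rw [abs_le] at hr hB e3 ⊢
      constructor <;> linarith
    rw [abs_mul, abs_of_pos (by linarith : 0 < (β ^ 2 - β - 1) + (β - 1) * β + β ^ 2)] at e4
    nlinarith [abs_nonneg (z : ℝ)]
  have hy : |(y : ℝ)| ≤ 98 := by
    rw [abs_le] at hA hz ⊢
    constructor <;> nlinarith
  have hx : |(x : ℝ)| ≤ 98 := by
    rw [abs_le] at hB hz ⊢
    constructor <;> nlinarith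
  have key : ∀ n : ℤ, |(n : ℝ)| ≤ 98 → -100 ≤ n ∧ n ≤ 100 := by
    intro n hn
    rw [abs_le] at hn
    have h5 : ((-98 : ℤ) : ℝ) ≤ (n : ℝ) := by push_cast; exact hn.1
    have h6 : (n : ℝ) ≤ ((98 : ℤ) : ℝ) := by push_cast; exact hn.2
    have h7 := Int.cast_le.1 h5
    have h8 := Int.cast_le.1 h6
    omega
  have hz' : |(z : ℝ)| ≤ 98 := by linarith
  exact ⟨key x hx, key y hy, key z hz'⟩

/-- the solutions `D` of `(β^h - 1) D = vz τ' - vz τ` lie in a finite set which depends neither on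
`h ≥ 1` nor on the words `τ, τ'` of length `h` -/
theorem finite_quot : ∃ S : Finset Z3, ∀ (h : ℕ) (τ τ' : List Bool) (D : Z3), 1 ≤ h →
    τ.length = h → τ'.length = h → mb^[h] D - D = vz τ' - vz τ → D ∈ S := by
  obtain ⟨β, h1, h2, hβ⟩ := Quot_beta
  obtain ⟨γ, hγ, hγn, hre, him, hq⟩ := Quot_gamma β h1 h2 hβ
  have hfin : {D : Z3 | (-100 ≤ D.1 ∧ D.1 ≤ 100) ∧ (-100 ≤ D.2.1 ∧ D.2.1 ≤ 100) ∧
      (-100 ≤ D.2.2 ∧ D.2.2 ≤ 100)}.Finite := by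
    refine ((Set.finite_Icc (-100 : ℤ) 100).prod ((Set.finite_Icc (-100 : ℤ) 100).prod
      (Set.finite_Icc (-100 : ℤ) 100))).subset ?_
    intro D hD
    exact ⟨hD.1, hD.2.1, hD.2.2⟩
  refine ⟨hfin.toFinset, fun h τ τ' D hh hτ hτ' hD => hfin.mem_toFinset.2
    (Quot_box β h1 h2 hβ γ hre him hq D ?_ ?_)⟩
  · have e1 := congrArg (Quot_ev β) hD
    rw [Quot_ev_sub, Quot_ev_sub, Quot_ev_iter β hβ] at e1
    obtain ⟨a1, a2⟩ := Quot_real β h1 hβ τ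
    obtain ⟨b1, b2⟩ := Quot_real β h1 hβ τ'
    rw [hτ] at a2
    rw [hτ'] at b2
    have hp : 9 / 5 ≤ β ^ h := by
      calc (9 / 5 : ℝ) ≤ β := h1
        _ = β ^ 1 := (pow_one β).symm
        _ ≤ β ^ h := pow_le_pow_right₀ (by linarith) hh
    have e2 : (β - 1) * ((β ^ h - 1) * |Quot_ev β D|) ≤ β ^ h - 1 := by
      have e3 : (β ^ h - 1) * |Quot_ev β D| = |Quot_ev β (vz τ') - Quot_ev β (vz τ)| := by
        have e0 : β ^ h * Quot_ev β D - Quot_ev β D = (β ^ h - 1) * Quot_ev β D := by ring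
        rw [← e1, e0, abs_mul, abs_of_pos (by linarith : 0 < β ^ h - 1)]
      rw [e3]
      rcases abs_cases (Quot_ev β (vz τ') - Quot_ev β (vz τ)) with ⟨hc, -⟩ | ⟨hc, -⟩
      · rw [hc]; nlinarith
      · rw [hc]; nlinarith
    have e4 : (β - 1) * |Quot_ev β D| ≤ 1 := by
      have e5 : (β ^ h - 1) * ((β - 1) * |Quot_ev β D|) ≤ (β ^ h - 1) * 1 := by linarith
      exact le_of_mul_le_mul_left e5 (by linarith)
    nlinarith [abs_nonneg (Quot_ev β D)]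
  · have e1 := congrArg (Quot_ev γ) hD
    rw [Quot_ev_sub, Quot_ev_sub, Quot_ev_iter γ hγ] at e1
    have a1 : ‖Quot_ev γ (vz τ)‖ ≤ 4 := (Quot_cplx γ hγn hγ τ).trans (by
      have : (0 : ℝ) ≤ (3 / 4) ^ τ.length := by positivity
      linarith)
    have a2 : ‖Quot_ev γ (vz τ')‖ ≤ 4 := (Quot_cplx γ hγn hγ τ').trans (by
      have : (0 : ℝ) ≤ (3 / 4) ^ τ'.length := by positivity
      linarith)
    have e2 : ‖γ ^ h - 1‖ * ‖Quot_ev γ D‖ ≤ 8 := by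
      rw [← norm_mul]
      have e3 : (γ ^ h - 1) * Quot_ev γ D = Quot_ev γ (vz τ') - Quot_ev γ (vz τ) := by
        rw [← e1]; ring
      rw [e3]
      refine (norm_sub_le _ _).trans ?_
      linarith
    have e4 : 1 / 4 ≤ ‖γ ^ h - 1‖ := by
      have e5 : ‖γ ^ h‖ ≤ 3 / 4 := by
        rw [norm_pow]
        calc ‖γ‖ ^ h ≤ ‖γ‖ ^ 1 := pow_le_pow_of_le_one (norm_nonneg _) (by linarith) hh
          _ ≤ 3 / 4 := by rw [pow_one]; exact hγn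
      have e6 := norm_sub_norm_le (1 : ℂ) (γ ^ h)
      rw [norm_one, norm_sub_rev] at e6
      linarith
    nlinarith [norm_nonneg (Quot_ev γ D)]

end Pool.H99.Trib
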