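import Pool.Agent.H99.Trib.EnergyCert
import Pool.Agent.H99.Trib.Quot

/-!
# Additive energy of the set of boundary words
-/

namespace Pool.H99.Trib

/-! ### The words `bp` and the graph `nb` -/

theorem Energy_nb_lt {x : ℕ} {e : ℕ × ℕ} (he : e ∈ nb x) : e.2 < 8 ∧ e.1 ≤ 1 := by
  by_cases hx : x < 8
  · interval_cases x <;> simp [nb] at he <;> (rcases he with rfl | rfl | rfl) <;> simp
  · have : nb x = [] := by
      unfold nb
      rw [List.getD_eq_default]
      simpa using hx
    rw [this] at he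
    simp at he

theorem Energy_bp_succ (j x : ℕ) (hx : x < 8) :
    bp (j + 1) (nd x) = (nb x).flatMap fun e =>
      (bp j (nd e.2)).map (fun w => (decide (e.1 = 1)) :: w) := by
  interval_cases x <;>
    simp [bp, nd, nb, dstep, DD, az, mb, List.getD]

theorem Energy_len : ∀ (j : ℕ) (d : Z3) (w : List Bool), w ∈ bp j d → w.length = j := by
  intro j
  induction j with
  | zero =>
    intro d w hw
    simp only [bp, List.mem_singleton] at hw
    simp [hw]
  | succ j ih =>
    intro d w hw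
    simp only [bp, List.mem_flatMap] at hw
    obtain ⟨b, -, b', -, hw⟩ := hw
    split_ifs at hw with h
    · obtain ⟨v, hv, rfl⟩ := List.mem_map.1 hw
      simp [ih _ v hv]
    · simp at hw

/-! ### Sums over lists -/

theorem Energy_congr {α : Type} {l : List α} {f g : α → ℕ} (h : ∀ a ∈ l, f a = g a) :
    (l.map f).sum = (l.map g).sum := by
  rw [List.map_congr_left h]

theorem Energy_sum_flatMap {α β : Type} (l : List α) (g : α → List β) (F : β → ℕ) :
    ((l.flatMap g).map F).sum = (l.map fun e => ((g e).map F).sum).sum := by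
  induction l with
  | nil => simp
  | cons a l ih => simp [ih]

theorem Energy_swap {α β : Type} (l : List α) (m : List β) (f : α → β → ℕ) :
    (l.map fun a => (m.map fun b => f a b).sum).sum =
      (m.map fun b => (l.map fun a => f a b).sum).sum := by
  have h := Multiset.sum_map_sum_map (l : Multiset α) (m : Multiset β) (f := f)
  simpa using h

theorem Energy_swap_bp (j : ℕ) (d : Z3) (x : ℕ) (f : List Bool → ℕ × ℕ → ℕ) :
    ((bp j d).map fun a => ((nb x).map fun b => f a b).sum).sum =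
      ((nb x).map fun b => ((bp j d).map fun a => f a b).sum).sum :=
  Energy_swap _ _ _

theorem Energy_I_succ (j x : ℕ) (hx : x < 8) (F : List Bool → ℕ) :
    ((bp (j + 1) (nd x)).map F).sum = ((nb x).map fun e =>
      ((bp j (nd e.2)).map fun w => F ((decide (e.1 = 1)) :: w)).sum).sum := by
  rw [Energy_bp_succ j x hx, Energy_sum_flatMap]
  simp only [List.map_map, Function.comp_def]

theorem Energy_toFinset_le (l : List (List Bool)) (f g : List Bool → ℕ) :
    (∀ b ∈ l, f b ≤ g b) → ∑ b ∈ l.toFinset, f b ≤ (l.map g).sum := by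
  induction l with
  | nil => simp
  | cons a l ih =>
    intro h
    have h1 := ih fun b hb => h b (List.mem_cons_of_mem _ hb)
    have h2 := h a List.mem_cons_self
    rw [List.toFinset_cons, List.map_cons, List.sum_cons]
    by_cases ha : a ∈ l.toFinset
    · rw [Finset.insert_eq_of_mem ha]
      omega
    · rw [Finset.sum_insert ha]
      omega

/-! ### Horner scheme -/

/-- the Horner scheme for four words -/
def Energy_hor : Z3 → List Bool → List Bool → List Bool → List Bool → Z3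
  | d, b1 :: w1, b2 :: w2, b3 :: w3, b4 :: w4 =>
      Energy_hor (az (mb d) ((b1.toNat : ℤ) - b2.toNat - b3.toNat + b4.toNat)) w1 w2 w3 w4
  | d, _, _, _, _ => d

theorem Energy_it_add (j : ℕ) : ∀ v w : Z3, mb^[j] (v + w) = mb^[j] v + mb^[j] w := by
  induction j with
  | zero => intro v w; rfl
  | succ j ih =>
    intro v w
    rw [Function.iterate_succ_apply, mb_add, ih]
    rfl

theorem Energy_mb_sub (v w : Z3) : mb (v - w) = mb v - mb w := by
  simp [mb, Prod.ext_iff]; omega

theorem Energy_it_sub (j : ℕ) : ∀ v w : Z3, mb^[j] (v - w) = mb^[j] v - mb^[j] w := by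
  induction j with
  | zero => intro v w; rfl
  | succ j ih =>
    intro v w
    rw [Function.iterate_succ_apply, Energy_mb_sub, ih]
    rfl

theorem Energy_it_zero (j : ℕ) : mb^[j] (0 : Z3) = 0 := by
  have h := Energy_it_sub j 0 0
  simpa using h

theorem Energy_az (v : Z3) (a b c e : ℤ) :
    az v (a - b - c + e) = v + (a, 0, 0) - (b, 0, 0) - (c, 0, 0) + (e, 0, 0) := by
  simp [az, Prod.ext_iff]; ring

theorem Energy_hor_eq (j : ℕ) : ∀ (d : Z3) (w1 w2 w3 w4 : List Bool), w1.length = j →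
    w2.length = j → w3.length = j → w4.length = j →
    Energy_hor d w1 w2 w3 w4 = mb^[j] d + vz w1 - vz w2 - vz w3 + vz w4 := by
  induction j with
  | zero =>
    intro d w1 w2 w3 w4 h1 h2 h3 h4
    rw [List.length_eq_zero_iff] at h1 h2 h3 h4
    subst h1 h2 h3 h4
    simp [Energy_hor, vz]
  | succ j ih =>
    intro d w1 w2 w3 w4 h1 h2 h3 h4
    obtain ⟨b1, w1, rfl⟩ := List.exists_cons_of_length_eq_add_one h1
    obtain ⟨b2, w2, rfl⟩ := List.exists_cons_of_length_eq_add_one h2
    obtain ⟨b3, w3, rfl⟩ := List.exists_cons_of_length_eq_add_one h3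
    obtain ⟨b4, w4, rfl⟩ := List.exists_cons_of_length_eq_add_one h4
    simp only [List.length_cons, Nat.add_right_cancel_iff] at h1 h2 h3 h4
    rw [Energy_hor, ih _ _ _ _ _ h1 h2 h3 h4, Energy_az]
    simp only [Energy_it_add, Energy_it_sub, vz, h1, h2, h3, h4, Function.iterate_succ_apply]
    abel

/-! ### The count -/

/-- number of quadruples -/
def Energy_S (j x1 x2 x3 x4 : ℕ) (d : Z3) : ℕ :=
  ((bp j (nd x1)).map fun w1 => ((bp j (nd x2)).map fun w2 => ((bp j (nd x3)).map fun w3 =>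
    ((bp j (nd x4)).map fun w4 =>
      if Energy_hor d w1 w2 w3 w4 = 0 then 1 else 0).sum).sum).sum).sum

theorem Energy_toNat {x : ℕ} {e : ℕ × ℕ} (he : e ∈ nb x) :
    (((decide (e.1 = 1)).toNat : ℕ) : ℤ) = (e.1 : ℤ) := by
  have h := (Energy_nb_lt he).2
  interval_cases h1 : e.1 <;> simp

theorem Energy_S_eq (j : ℕ) : ∀ (x1 x2 x3 x4 : ℕ) (d : Z3), x1 < 8 → x2 < 8 → x3 < 8 → x4 < 8 →
    Energy_S j x1 x2 x3 x4 d = ecnt j ((x1, x2, x3, x4), d) := by
  induction j with
  | zero =>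
    intro x1 x2 x3 x4 d _ _ _ _
    simp [Energy_S, bp, Energy_hor, ecnt]
    rfl
  | succ j ih =>
    intro x1 x2 x3 x4 d h1 h2 h3 h4
    rw [Energy_S, ecnt, enext]
    simp only [Energy_I_succ _ _ h1, Energy_I_succ _ _ h2, Energy_I_succ _ _ h3,
      Energy_I_succ _ _ h4, Energy_swap_bp, Energy_hor, Energy_sum_flatMap, List.map_map,
      Function.comp_def]
    refine Energy_congr fun e1 he1 => Energy_congr fun e2 he2 => Energy_congr fun e3 he3 =>
      Energy_congr fun e4 he4 => ?_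
    rw [← ih _ _ _ _ _ (Energy_nb_lt he1).1 (Energy_nb_lt he2).1 (Energy_nb_lt he3).1
      (Energy_nb_lt he4).1, Energy_S]
    simp only [Energy_toNat he1, Energy_toNat he2, Energy_toNat he3, Energy_toNat he4]

theorem Energy_card_le (j : ℕ) (d : Z3) (x : ℕ) (hd : d = nd x) (hx : x < 8) :
    ((((bp j d).toFinset ×ˢ (bp j d).toFinset) ×ˢ
      ((bp j d).toFinset ×ˢ (bp j d).toFinset)).filter
        fun x => vz x.1.1 - vz x.1.2 = vz x.2.1 - vz x.2.2).card ≤
      ecnt j ((x, x, x, x), (0, 0, 0)) := by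
  subst hd
  rw [← Energy_S_eq j x x x x _ hx hx hx hx, Energy_S, Finset.card_filter, Finset.sum_product,
    Finset.sum_product]
  refine Energy_toFinset_le _ _ _ fun w1 hw1 => Energy_toFinset_le _ _ _ fun w2 hw2 => ?_
  rw [Finset.sum_product]
  refine Energy_toFinset_le _ _ _ fun w3 hw3 => Energy_toFinset_le _ _ _ fun w4 hw4 => ?_
  have h := Energy_hor_eq j (0, 0, 0) w1 w2 w3 w4 (Energy_len _ _ _ hw1) (Energy_len _ _ _ hw2)
    (Energy_len _ _ _ hw3) (Energy_len _ _ _ hw4)
  have h0 : mb^[j] ((0, 0, 0) : Z3) = 0 := Energy_it_zero j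
  rw [h0, zero_add] at h
  rw [h]
  by_cases hc : vz w1 - vz w2 = vz w3 - vz w4
  · simp [hc]
  · simp [hc]

theorem energy_bp : ∃ K : ℝ, 0 < K ∧ ∀ (j : ℕ) (d : Z3), d ∈ DD →
    (((((bp j d).toFinset ×ˢ (bp j d).toFinset) ×ˢ
      ((bp j d).toFinset ×ˢ (bp j d).toFinset)).filter
        fun x => vz x.1.1 - vz x.1.2 = vz x.2.1 - vz x.2.2).card : ℝ) ≤ K * (23 / 10 : ℝ) ^ j := by
  obtain ⟨K, hK⟩ := ecnt_le
  refine ⟨(K : ℝ) + 1, by positivity, fun j d hd => ?_⟩
  have hx : ∃ x, x < 8 ∧ d = nd x := by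
    simp only [DD, List.mem_cons, List.not_mem_nil, or_false] at hd
    rcases hd with rfl | rfl | rfl | rfl | rfl | rfl | rfl | rfl
    · exact ⟨0, by norm_num, rfl⟩
    · exact ⟨4, by norm_num, rfl⟩
    · exact ⟨1, by norm_num, rfl⟩
    · exact ⟨5, by norm_num, rfl⟩
    · exact ⟨2, by norm_num, rfl⟩
    · exact ⟨6, by norm_num, rfl⟩
    · exact ⟨3, by norm_num, rfl⟩
    · exact ⟨7, by norm_num, rfl⟩
  obtain ⟨x, hx, hdx⟩ := hx
  have h1 := Energy_card_le j d x hdx hx
  have h2 := hK j x hx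
  have h3 : ((ecnt j ((x, x, x, x), (0, 0, 0)) : ℕ) : ℝ) * 10 ^ j ≤ K * 23 ^ j := by
    exact_mod_cast h2
  have h4 : (0 : ℝ) < 10 ^ j := by positivity
  have h5 : ((ecnt j ((x, x, x, x), (0, 0, 0)) : ℕ) : ℝ) ≤ K * (23 / 10 : ℝ) ^ j := by
    rw [div_pow, ← mul_div_assoc, le_div_iff₀ h4]
    exact h3
  have h6 : (0 : ℝ) ≤ (23 / 10 : ℝ) ^ j := by positivity
  have h7 : ((((((bp j d).toFinset ×ˢ (bp j d).toFinset) ×ˢ
      ((bp j d).toFinset ×ˢ (bp j d).toFinset)).filter
        fun x => vz x.1.1 - vz x.1.2 = vz x.2.1 - vz x.2.2).card : ℕ) : ℝ) ≤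
      ((ecnt j ((x, x, x, x), (0, 0, 0)) : ℕ) : ℝ) := by
    exact_mod_cast h1
  nlinarith

end Pool.H99.Trib
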