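import Pool.Agent.H99.Trib.EnergyTab

/-!
# The bound for the number of quadruples of paths
-/

namespace Pool.H99.Trib

/-! ### Sums over lists -/

def SS {α : Type} (l : List α) (f : α → ℕ) : ℕ := (l.map f).sum

theorem SS_nil {α : Type} (f : α → ℕ) : SS [] f = 0 := rfl

theorem SS_cons {α : Type} (a : α) (l : List α) (f : α → ℕ) : SS (a :: l) f = f a + SS l f := by
  simp [SS]

theorem SS_add {α : Type} (l : List α) (f g : α → ℕ) :
    SS l (fun a => f a + g a) = SS l f + SS l g := by
  induction l with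
  | nil => rfl
  | cons a l ih => rw [SS_cons, SS_cons, SS_cons, ih]; omega

theorem SS_zero {α : Type} (l : List α) : SS l (fun _ => 0) = 0 := by
  induction l with
  | nil => rfl
  | cons a l ih => rw [SS_cons, ih]

theorem SS_comm {α β : Type} (l : List α) (m : List β) (f : α → β → ℕ) :
    SS l (fun a => SS m (fun b => f a b)) = SS m (fun b => SS l (fun a => f a b)) := by
  induction l with
  | nil => simp only [SS_nil]; rw [SS_zero]
  | cons a l ih => simp only [SS_cons]; rw [ih, ← SS_add]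

theorem SS_flatMap {α β : Type} (l : List α) (f : α → List β) (g : β → ℕ) :
    SS (l.flatMap f) g = SS l (fun a => SS (f a) g) := by
  induction l with
  | nil => rfl
  | cons a l ih =>
    rw [List.flatMap_cons, SS_cons, ← ih]
    simp [SS]

theorem SS_map {α β : Type} (l : List α) (f : α → β) (g : β → ℕ) :
    SS (l.map f) g = SS l (fun a => g (f a)) := by
  simp [SS, Function.comp_def]

def S4 (l1 l2 l3 l4 : List (ℕ × ℕ)) (F : ℕ × ℕ → ℕ × ℕ → ℕ × ℕ → ℕ × ℕ → ℕ) : ℕ :=
  SS l1 fun a => SS l2 fun b => SS l3 fun c => SS l4 fun d => F a b c d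

theorem S4_swap12 (l1 l2 l3 l4 : List (ℕ × ℕ)) (F : ℕ × ℕ → ℕ × ℕ → ℕ × ℕ → ℕ × ℕ → ℕ) :
    S4 l1 l2 l3 l4 F = S4 l2 l1 l3 l4 fun a b c d => F b a c d := by
  unfold S4
  rw [SS_comm]

theorem S4_swap23 (l1 l2 l3 l4 : List (ℕ × ℕ)) (F : ℕ × ℕ → ℕ × ℕ → ℕ × ℕ → ℕ × ℕ → ℕ) :
    S4 l1 l2 l3 l4 F = S4 l1 l3 l2 l4 fun a b c d => F a c b d := by
  unfold S4
  congr 1
  funext a
  rw [SS_comm]

theorem S4_swap34 (l1 l2 l3 l4 : List (ℕ × ℕ)) (F : ℕ × ℕ → ℕ × ℕ → ℕ × ℕ → ℕ × ℕ → ℕ) :
    S4 l1 l2 l3 l4 F = S4 l1 l2 l4 l3 fun a b c d => F a b d c := by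
  unfold S4
  congr 1
  funext a
  congr 1
  funext b
  rw [SS_comm]

theorem ecnt_succ (j : ℕ) (s : ES) : ecnt (j + 1) s =
    S4 (nb s.1.1) (nb s.1.2.1) (nb s.1.2.2.1) (nb s.1.2.2.2) fun e1 e2 e3 e4 =>
      ecnt j ((e1.2, e2.2, e3.2, e4.2), az (mb s.2) ((e1.1 : ℤ) - e2.1 - e3.1 + e4.1)) := by
  have h : ecnt (j + 1) s = SS (enext s) (ecnt j) := rfl
  rw [h]
  unfold enext S4
  simp only [SS_flatMap, SS_map]

/-! ### Symmetries -/

theorem ecnt_g1 (j : ℕ) : ∀ s, ecnt j (eg1 s) = ecnt j s := by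
  induction j with
  | zero => intro s; rfl
  | succ j ih =>
    intro s
    rw [ecnt_succ, ecnt_succ, S4_swap12, S4_swap23, S4_swap34, S4_swap23, S4_swap12]
    simp only [eg1]
    congr 1
    funext a b c d
    rw [← ih]
    simp only [eg1]
    congr 2
    congr 1
    ring

theorem ecnt_g2 (j : ℕ) : ∀ s, ecnt j (eg2 s) = ecnt j s := by
  induction j with
  | zero => intro s; rfl
  | succ j ih =>
    intro s
    rw [ecnt_succ, ecnt_succ, S4_swap23]
    simp only [eg2]
    congr 1
    funext a b c d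
    rw [← ih]
    simp only [eg2]
    congr 2
    congr 1
    ring

theorem eneg_eq (v : Z3) : (eneg v = (0, 0, 0)) ↔ v = (0, 0, 0) := by
  obtain ⟨a, b, c⟩ := v
  simp [eneg]

theorem eneg_az (v : Z3) (x y : ℤ) (h : y = -x) : az (mb (eneg v)) y = eneg (az (mb v) x) := by
  obtain ⟨a, b, c⟩ := v
  subst h
  simp only [eneg, az, mb, Prod.mk.injEq]
  refine ⟨by ring, by ring, by ring⟩

theorem ecnt_g3 (j : ℕ) : ∀ s, ecnt j (eg3 s) = ecnt j s := by
  induction j with
  | zero =>
    intro s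
    simp only [ecnt, eg3, eneg_eq]
  | succ j ih =>
    intro s
    rw [ecnt_succ, ecnt_succ, S4_swap12, S4_swap34]
    simp only [eg3]
    congr 1
    funext a b c d
    conv_rhs => rw [← ih]
    simp only [eg3]
    congr 2
    apply eneg_az
    ring

theorem SS_esw (x : ℕ) (F : ℕ × ℕ → ℕ) :
    SS (nb (esw x)) F = SS (nb x) fun e => F (1 - e.1, esw e.2) := by
  by_cases hx : x < 8
  · interval_cases x <;> simp [nb, esw, SS] <;> omega
  · have h1 : esw x = x := by
      unfold esw
      rw [if_neg (by omega), if_neg (by omega)]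
    have h2 : nb x = [] := by
      unfold nb
      rw [List.getD_eq_default]
      simp
      omega
    rw [h1, h2]
    rfl

theorem S4_congr (l1 l2 l3 l4 : List (ℕ × ℕ)) (F G : ℕ × ℕ → ℕ × ℕ → ℕ × ℕ → ℕ × ℕ → ℕ)
    (h : ∀ a ∈ l1, ∀ b ∈ l2, ∀ c ∈ l3, ∀ d ∈ l4, F a b c d = G a b c d) :
    S4 l1 l2 l3 l4 F = S4 l1 l2 l3 l4 G := by
  unfold S4 SS
  refine congrArg List.sum (List.map_congr_left fun a ha => ?_)
  refine congrArg List.sum (List.map_congr_left fun b hb => ?_)
  refine congrArg List.sum (List.map_congr_left fun c hc => ?_)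
  exact congrArg List.sum (List.map_congr_left fun d hd => h a ha b hb c hc d hd)

theorem nb_le (x : ℕ) : ∀ e ∈ nb x, e.1 ≤ 1 := by
  by_cases hx : x < 8
  · interval_cases x <;> simp [nb]
  · have h2 : nb x = [] := by
      unfold nb
      rw [List.getD_eq_default]
      simp
      omega
    rw [h2]
    simp

theorem ecnt_g4 (j : ℕ) : ∀ s, ecnt j (eg4 s) = ecnt j s := by
  induction j with
  | zero =>
    intro s
    simp only [ecnt, eg4, eneg_eq]
  | succ j ih =>
    intro s
    rw [ecnt_succ, ecnt_succ]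
    have h : ∀ F : ℕ × ℕ → ℕ × ℕ → ℕ × ℕ → ℕ × ℕ → ℕ,
        S4 (nb (esw s.1.1)) (nb (esw s.1.2.1)) (nb (esw s.1.2.2.1)) (nb (esw s.1.2.2.2)) F =
        S4 (nb s.1.1) (nb s.1.2.1) (nb s.1.2.2.1) (nb s.1.2.2.2) fun a b c d =>
          F (1 - a.1, esw a.2) (1 - b.1, esw b.2) (1 - c.1, esw c.2) (1 - d.1, esw d.2) := by
      intro F
      unfold S4
      simp only [SS_esw]
    simp only [eg4]
    rw [h]
    apply S4_congr
    intro a ha b hb c hc d hd
    conv_rhs => rw [← ih]
    simp only [eg4]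
    congr 2
    apply eneg_az
    have h1 := nb_le _ a ha
    have h2 := nb_le _ b hb
    have h3 := nb_le _ c hc
    have h4 := nb_le _ d hd
    push_cast [Nat.cast_sub h1, Nat.cast_sub h2, Nat.cast_sub h3, Nat.cast_sub h4]
    ring

theorem ecnt_img (j g : ℕ) (s : ES) : ecnt j (eimg g s) = ecnt j s := by
  unfold eimg
  have e1 : ∀ s, ecnt j ((fun s => if g % 2 = 1 then eg1 s else s) s) = ecnt j s := by
    intro s; dsimp only; split_ifs
    · exact ecnt_g1 j s
    · rfl
  have e2 : ∀ s, ecnt j ((fun s => if g / 2 % 2 = 1 then eg2 s else s) s) = ecnt j s := by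
    intro s; dsimp only; split_ifs
    · exact ecnt_g2 j s
    · rfl
  have e3 : ∀ s, ecnt j ((fun s => if g / 4 % 2 = 1 then eg3 s else s) s) = ecnt j s := by
    intro s; dsimp only; split_ifs
    · exact ecnt_g3 j s
    · rfl
  have e4 : ∀ s, ecnt j ((fun s => if g / 8 % 2 = 1 then eg4 s else s) s) = ecnt j s := by
    intro s; dsimp only; split_ifs
    · exact ecnt_g4 j s
    · rfl
  rw [e4, e3, e2, e1]

/-! ### Escaping differences -/

theorem EC_beta : ∃ β : ℝ, 1839286 / 1000000 < β ∧ β < 1839287 / 1000000 ∧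
    3382975 / 1000000 < β ^ 2 ∧ β ^ 2 < 3382976 / 1000000 ∧ β ^ 3 = β ^ 2 + β + 1 := by
  obtain ⟨β, h1, h2, h3⟩ := Quot_beta
  have a1 : 1839286 / 1000000 < β := by
    by_contra hc
    push Not at hc
    have key : 0 ≤ (1839286 / 1000000 - β) * (β ^ 2 + (839286 / 1000000) * β + 5 / 10) := by
      apply mul_nonneg (by linarith)
      positivity
    nlinarith [key]
  have a2 : β < 1839287 / 1000000 := by
    by_contra hc
    push Not at hc
    have key : 0 ≤ (β - 1839287 / 1000000) * (β ^ 2 + (839287 / 1000000) * β + 5 / 10) := by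
      apply mul_nonneg (by linarith)
      positivity
    nlinarith [key]
  exact ⟨β, a1, a2, by nlinarith, by nlinarith, h3⟩

theorem EC_ev_az (β : ℝ) (hβ : β ^ 3 = β ^ 2 + β + 1) (v : Z3) (d : ℤ) :
    Quot_ev β (az (mb v) d) = β * Quot_ev β v + d := by
  simp only [Quot_ev, az, mb]
  push_cast
  linear_combination (-(v.2.2 : ℝ)) * hβ

theorem EC_escape (β : ℝ) (h1 : 1839286 / 1000000 < β) (hβ : β ^ 3 = β ^ 2 + β + 1) (j : ℕ) :
    ∀ s : ES, (2383 / 1000 < Quot_ev β s.2 ∨ Quot_ev β s.2 < -(2383 / 1000)) → ecnt j s = 0 := by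
  induction j with
  | zero =>
    intro s hs
    have : s.2 ≠ (0, 0, 0) := by
      intro h
      rw [h] at hs
      simp only [Quot_ev] at hs
      norm_num at hs
    simp [ecnt, this]
  | succ j ih =>
    intro s hs
    rw [ecnt_succ]
    have h0 : S4 (nb s.1.1) (nb s.1.2.1) (nb s.1.2.2.1) (nb s.1.2.2.2) (fun _ _ _ _ => 0) = 0 := by
      unfold S4
      simp only [SS_zero]
    rw [← h0]
    apply S4_congr
    intro a ha b hb c hc d hd
    apply ih
    have b1 : (a.1 : ℝ) ≤ 1 := by exact_mod_cast nb_le _ a ha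
    have b2 : (b.1 : ℝ) ≤ 1 := by exact_mod_cast nb_le _ b hb
    have b3 : (c.1 : ℝ) ≤ 1 := by exact_mod_cast nb_le _ c hc
    have b4 : (d.1 : ℝ) ≤ 1 := by exact_mod_cast nb_le _ d hd
    have c1 : (0 : ℝ) ≤ a.1 := Nat.cast_nonneg _
    have c2 : (0 : ℝ) ≤ b.1 := Nat.cast_nonneg _
    have c3 : (0 : ℝ) ≤ c.1 := Nat.cast_nonneg _
    have c4 : (0 : ℝ) ≤ d.1 := Nat.cast_nonneg _
    simp only [EC_ev_az β hβ]
    push_cast
    rcases hs with hs | hs
    · left
      nlinarith
    · right
      nlinarith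

theorem EC_eesc (β : ℝ) (h1 : 1839286 / 1000000 < β) (h2 : β < 1839287 / 1000000)
    (h3 : 3382975 / 1000000 < β ^ 2) (h4 : β ^ 2 < 3382976 / 1000000) (v : Z3)
    (h : eesc v = true) : 2383 / 1000 < Quot_ev β v ∨ Quot_ev β v < -(2383 / 1000) := by
  obtain ⟨a, b, c⟩ := v
  simp only [eesc, Bool.or_eq_true, decide_eq_true_eq] at h
  have hb1 : ((if 0 ≤ b then b * 1839286 else b * 1839287 : ℤ) : ℝ) ≤ 1000000 * (b * β) := by
    split_ifs with hb
    · push_cast
      have : (0 : ℝ) ≤ b := by exact_mod_cast hb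
      nlinarith
    · push_cast
      have : (b : ℝ) ≤ 0 := by
        have : b ≤ 0 := by omega
        exact_mod_cast this
      nlinarith
  have hb2 : 1000000 * (b * β) ≤ ((if 0 ≤ b then b * 1839287 else b * 1839286 : ℤ) : ℝ) := by
    split_ifs with hb
    · push_cast
      have : (0 : ℝ) ≤ b := by exact_mod_cast hb
      nlinarith
    · push_cast
      have : (b : ℝ) ≤ 0 := by
        have : b ≤ 0 := by omega
        exact_mod_cast this
      nlinarith
  have hc1 : ((if 0 ≤ c then c * 3382975 else c * 3382976 : ℤ) : ℝ) ≤ 1000000 * (c * β ^ 2) := by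
    split_ifs with hb
    · push_cast
      have : (0 : ℝ) ≤ c := by exact_mod_cast hb
      nlinarith
    · push_cast
      have : (c : ℝ) ≤ 0 := by
        have : c ≤ 0 := by omega
        exact_mod_cast this
      nlinarith
  have hc2 : 1000000 * (c * β ^ 2) ≤ ((if 0 ≤ c then c * 3382976 else c * 3382975 : ℤ) : ℝ) := by
    split_ifs with hb
    · push_cast
      have : (0 : ℝ) ≤ c := by exact_mod_cast hb
      nlinarith
    · push_cast
      have : (c : ℝ) ≤ 0 := by
        have : c ≤ 0 := by omega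
        exact_mod_cast this
      nlinarith
  simp only [Quot_ev]
  rcases h with h | h
  · left
    have h5 : (2383000 : ℝ) < ((elo (a, b, c) : ℤ) : ℝ) := by exact_mod_cast h
    simp only [elo] at h5
    rw [Int.cast_add, Int.cast_add] at h5
    push_cast at h5 hb1 hc1
    linarith
  · right
    have h5 : ((ehi (a, b, c) : ℤ) : ℝ) < -2383000 := by exact_mod_cast h
    simp only [ehi] at h5
    rw [Int.cast_add, Int.cast_add] at h5
    push_cast at h5 hb2 hc2
    linarith

theorem ecnt_esc {s : ES} (h : eesc s.2 = true) (j : ℕ) : ecnt j s = 0 := by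
  obtain ⟨β, h1, h2, h3, h4, h5⟩ := EC_beta
  exact EC_escape β h1 h5 j s (EC_eesc β h1 h2 h3 h4 s.2 h)

/-! ### The bound -/

theorem EC_list (j : ℕ) (ih : ∀ i < 2045, ecnt j (est i) * (100 * 10 ^ j) ≤ eval' i * 23 ^ j)
    (L : List ES) : ∀ c : ℕ, eok L c = true →
      (L.map (ecnt j)).sum * (100 * 10 ^ j) ≤ esum L c * 23 ^ j := by
  induction L with
  | nil => intro c _; simp
  | cons t L ihL =>
    intro c h
    simp only [eok, Bool.and_eq_true] at h
    have h2 := ihL _ h.2
    have h1 : ecnt j t * (100 * 10 ^ j) ≤ ewt (c % 65536) * 23 ^ j := by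
      have h3 := h.1
      unfold etst at h3
      unfold ewt
      split_ifs at h3 ⊢ with h4
      · rw [ecnt_esc h3]
        simp
      · simp only [Bool.and_eq_true, decide_eq_true_eq] at h3
        rw [← ecnt_img j ((c % 65536 - 1) % 16) t, h3.2]
        exact ih _ h3.1
    simp only [List.map_cons, List.sum_cons, esum, add_mul]
    exact Nat.add_le_add h1 h2

theorem echk_lt (i : ℕ) (hi : i < 2045) : echk i = true := by
  have key : ∀ n b : ℕ, ((List.range n).all fun k => echk (b + k)) = true → b ≤ i → i < b + n →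
      echk i = true := by
    intro n b h hb hn
    rw [List.all_eq_true] at h
    have := h (i - b) (by rw [List.mem_range]; omega)
    rwa [Nat.add_sub_cancel' hb] at this
  by_cases h0 : i < 205
  · exact key 205 0 echk_all_0 (by omega) (by omega)
  by_cases h1 : i < 410
  · exact key 205 205 echk_all_1 (by omega) (by omega)
  by_cases h2 : i < 615
  · exact key 205 410 echk_all_2 (by omega) (by omega)
  by_cases h3 : i < 820
  · exact key 205 615 echk_all_3 (by omega) (by omega)
  by_cases h4 : i < 1025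
  · exact key 205 820 echk_all_4 (by omega) (by omega)
  by_cases h5 : i < 1230
  · exact key 205 1025 echk_all_5 (by omega) (by omega)
  by_cases h6 : i < 1435
  · exact key 205 1230 echk_all_6 (by omega) (by omega)
  by_cases h7 : i < 1640
  · exact key 205 1435 echk_all_7 (by omega) (by omega)
  by_cases h8 : i < 1845
  · exact key 205 1640 echk_all_8 (by omega) (by omega)
  · exact key 200 1845 echk_all_9 (by omega) (by omega)

theorem ecnt_est (j : ℕ) : ∀ i < 2045, ecnt j (est i) * (100 * 10 ^ j) ≤ eval' i * 23 ^ j := by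
  induction j with
  | zero =>
    intro i hi
    have h := echk_lt i hi
    simp only [echk, Bool.and_eq_true, decide_eq_true_eq] at h
    have h1 : ecnt 0 (est i) ≤ 1 := by
      simp only [ecnt]
      split_ifs <;> omega
    simp only [pow_zero, mul_one]
    exact (Nat.mul_le_mul_right 100 h1).trans (by omega)
  | succ j ih =>
    intro i hi
    have h := echk_lt i hi
    simp only [echk, Bool.and_eq_true, decide_eq_true_eq] at h
    have h1 := EC_list j ih _ _ h.1.2
    have h2 := h.2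
    have h3 : ecnt (j + 1) (est i) = ((enext (est i)).map (ecnt j)).sum := rfl
    rw [h3]
    calc ((enext (est i)).map (ecnt j)).sum * (100 * 10 ^ (j + 1))
        = (((enext (est i)).map (ecnt j)).sum * (100 * 10 ^ j)) * 10 := by rw [pow_succ]; ring
      _ ≤ (esum (enext (est i)) (edat i) * 23 ^ j) * 10 := Nat.mul_le_mul_right _ h1
      _ = (esum (enext (est i)) (edat i) * 10) * 23 ^ j := by ring
      _ ≤ (23 * eval' i) * 23 ^ j := Nat.mul_le_mul_right _ h2
      _ = eval' i * 23 ^ (j + 1) := by rw [pow_succ]; ring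

theorem EC_diag (j x : ℕ) (hx : x < 4) : ecnt j ((x, x, x, x), (0, 0, 0)) * 10 ^ j ≤
    (eval' 0 + eval' 1 + eval' 2 + eval' 3) * 23 ^ j := by
  have h := est_diag
  rw [List.all_eq_true] at h
  have h1 := h x (by rw [List.mem_range]; exact hx)
  rw [decide_eq_true_eq] at h1
  rw [← h1]
  have h2 := ecnt_est j x (by omega)
  calc ecnt j (est x) * 10 ^ j ≤ ecnt j (est x) * (100 * 10 ^ j) :=
        Nat.mul_le_mul_left _ (by omega)
    _ ≤ eval' x * 23 ^ j := h2
    _ ≤ _ := by
        apply Nat.mul_le_mul_right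
        interval_cases x <;> omega

theorem ecnt_le : ∃ K : ℕ, ∀ j x : ℕ, x < 8 →
    ecnt j ((x, x, x, x), (0, 0, 0)) * 10 ^ j ≤ K * 23 ^ j := by
  refine ⟨eval' 0 + eval' 1 + eval' 2 + eval' 3, fun j x hx => ?_⟩
  by_cases h4 : x < 4
  · exact EC_diag j x h4
  · have h := EC_diag j (x - 4) (by omega)
    rw [← ecnt_g4] at h
    have h5 : eg4 ((x - 4, x - 4, x - 4, x - 4), (0, 0, 0)) = ((x, x, x, x), (0, 0, 0)) := by
      have : esw (x - 4) = x := by
        unfold esw
        rw [if_pos (by omega)]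
        omega
      simp only [eg4, this, eneg]
      rfl
    rwa [h5] at h

end Pool.H99.Trib
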