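import Pool.Agent.H99.Trib.Auto

/-!
# Certificate for the key lemma

For two start states `p, q` not merged by a digit word `s`, two words `b, b'` represent the value
of `s` up to small corrections; their difference follows a path in a graph on eight elements of
`ℤ[β]`, whose growth rate is the root of `x^4 = 2x + 1`.
-/

namespace Pool.H99.Trib

abbrev Z3 := ℤ × ℤ × ℤ

/-- multiplication by `β` in `ℤ[β]`, `β^3 = β^2 + β + 1`, basis `1, β, β^2` -/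
def mb (v : Z3) : Z3 := (v.2.2, v.1 + v.2.2, v.2.1 + v.2.2)

/-- add an integer -/
def az (v : Z3) (t : ℤ) : Z3 := (v.1 + t, v.2)

def sz (v w : Z3) : Z3 := (v.1 - w.1, v.2.1 - w.2.1, v.2.2 - w.2.2)

/-- the eight differences -/
def DD : List Z3 := [(2, -1, 0), (-2, 1, 0), (0, 2, -1), (0, -2, 1), (-2, -1, 1), (2, 1, -1),
  (-1, 2, -1), (1, -2, 1)]

/-! names of the numbers in the table -/

abbrev zm3 : ℤ := -3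
abbrev zm2 : ℤ := -2
abbrev zm1 : ℤ := -1
abbrev zp0 : ℤ := 0
abbrev zp1 : ℤ := 1
abbrev zp2 : ℤ := 2
abbrev zp3 : ℤ := 3
abbrev nn0 : ℕ := 0
abbrev nn1 : ℕ := 1
abbrev nn2 : ℕ := 2
abbrev nn3 : ℕ := 3
abbrev nn4 : ℕ := 4
abbrev nn5 : ℕ := 5
abbrev nn6 : ℕ := 6
abbrev nn7 : ℕ := 7
abbrev nn8 : ℕ := 8
abbrev nn9 : ℕ := 9
abbrev nn10 : ℕ := 10
abbrev nn11 : ℕ := 11
abbrev nn12 : ℕ := 12
abbrev nn13 : ℕ := 13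
abbrev nn14 : ℕ := 14
abbrev nn15 : ℕ := 15
abbrev nn16 : ℕ := 16
abbrev nn17 : ℕ := 17
abbrev nn18 : ℕ := 18
abbrev nn19 : ℕ := 19
abbrev nn20 : ℕ := 20
abbrev nn21 : ℕ := 21
abbrev nn22 : ℕ := 22
abbrev nn23 : ℕ := 23
abbrev nn24 : ℕ := 24
abbrev nn25 : ℕ := 25
abbrev nn26 : ℕ := 26
abbrev nn27 : ℕ := 27
abbrev nn28 : ℕ := 28
abbrev nn29 : ℕ := 29
abbrev nn30 : ℕ := 30
abbrev nn31 : ℕ := 31
abbrev nn32 : ℕ := 32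
abbrev nn33 : ℕ := 33
abbrev nn34 : ℕ := 34

def TT : List ((ℕ × ℕ) × List (Z3 × Z3)) := [
  ((nn0, nn1), [((zp1, zm1, zp0), (zm1, zp0, zp0))]),
  ((nn1, nn0), [((zm1, zp0, zp0), (zp1, zm1, zp0))]),
  ((nn0, nn3), [((zp0, zp1, zm1), (zp0, zm1, zp0))]),
  ((nn3, nn0), [((zp0, zm1, zp0), (zp0, zp1, zm1))]),
  ((nn0, nn4), [((zp0, zp1, zm1), (zp0, zm1, zp0)), ((zp1, zp1, zm1), (zm1, zp0, zp0))]),
  ((nn4, nn0), [((zp0, zm1, zp0), (zp0, zp1, zm1)), ((zm1, zp0, zp0), (zp1, zp1, zm1))]),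
  ((nn0, nn10), [((zm2, zp0, zp0), (zp0, zm1, zp0))]),
  ((nn10, nn0), [((zp0, zm1, zp0), (zm2, zp0, zp0))]),
  ((nn0, nn12), [((zm2, zm1, zp1), (zp0, zp0, zp0)), ((zm1, zm2, zp1), (zm1, zp0, zp0))]),
  ((nn12, nn0), [((zp0, zp0, zp0), (zm2, zm1, zp1)), ((zm1, zp0, zp0), (zm1, zm2, zp1))]),
  ((nn0, nn13), [((zm1, zm2, zp1), (zm1, zp0, zp0)), ((zp0, zm2, zp1), (zm1, zp0, zp0)), ((zp0, zm2, zp1), (zp0, zp0, zp0))]),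
  ((nn13, nn0), [((zm1, zp0, zp0), (zm1, zm2, zp1)), ((zm1, zp0, zp0), (zp0, zm2, zp1)), ((zp0, zp0, zp0), (zp0, zm2, zp1))]),
  ((nn0, nn15), [((zm2, zm1, zp1), (zp0, zp0, zp0)), ((zm2, zp0, zp0), (zp0, zm1, zp0))]),
  ((nn15, nn0), [((zp0, zp0, zp0), (zm2, zm1, zp1)), ((zp0, zm1, zp0), (zm2, zp0, zp0))]),
  ((nn1, nn2), [((zp2, zm1, zp0), (zp0, zp0, zp0)), ((zp2, zp0, zm1), (zp0, zm1, zp0))]),
  ((nn2, nn1), [((zp0, zp0, zp0), (zp2, zm1, zp0)), ((zp0, zm1, zp0), (zp2, zp0, zm1))]),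
  ((nn1, nn4), [((zp0, zp1, zm1), (zp0, zm1, zp0)), ((zp0, zp1, zm1), (zp1, zm1, zp0)), ((zp1, zp1, zm1), (zp1, zm1, zp0))]),
  ((nn4, nn1), [((zp0, zm1, zp0), (zp0, zp1, zm1)), ((zp1, zm1, zp0), (zp0, zp1, zm1)), ((zp1, zm1, zp0), (zp1, zp1, zm1))]),
  ((nn1, nn5), [((zp1, zp1, zm1), (zp1, zm1, zp0)), ((zp2, zp0, zm1), (zp0, zm1, zp0)), ((zp2, zp1, zm1), (zp0, zp0, zp0))]),
  ((nn5, nn1), [((zp1, zm1, zp0), (zp1, zp1, zm1)), ((zp0, zm1, zp0), (zp2, zp0, zm1)), ((zp0, zp0, zp0), (zp2, zp1, zm1))]),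
  ((nn1, nn9), [((zp2, zm1, zp0), (zp0, zp0, zp0))]),
  ((nn9, nn1), [((zp0, zp0, zp0), (zp2, zm1, zp0))]),
  ((nn1, nn13), [((zm1, zm2, zp1), (zp1, zm1, zp0)), ((zp0, zm2, zp1), (zp0, zp0, zp0))]),
  ((nn13, nn1), [((zp1, zm1, zp0), (zm1, zm2, zp1)), ((zp0, zp0, zp0), (zp0, zm2, zp1))]),
  ((nn1, nn14), [((zp0, zm2, zp1), (zp0, zp0, zp0)), ((zp1, zm2, zp1), (zp0, zp0, zp0))]),
  ((nn14, nn1), [((zp0, zp0, zp0), (zp0, zm2, zp1)), ((zp0, zp0, zp0), (zp1, zm2, zp1))]),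
  ((nn2, nn5), [((zp1, zp1, zm1), (zp1, zm1, zp0)), ((zp1, zp1, zm1), (zp2, zm1, zp0)), ((zp2, zp1, zm1), (zp2, zm1, zp0))]),
  ((nn5, nn2), [((zp1, zm1, zp0), (zp1, zp1, zm1)), ((zp2, zm1, zp0), (zp1, zp1, zm1)), ((zp2, zm1, zp0), (zp2, zp1, zm1))]),
  ((nn2, nn9), [((zp0, zm1, zp0), (zp2, zp0, zm1))]),
  ((nn9, nn2), [((zp2, zp0, zm1), (zp0, zm1, zp0))]),
  ((nn2, nn16), [((zp2, zm2, zp0), (zp2, zp0, zm1))]),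
  ((nn16, nn2), [((zp2, zp0, zm1), (zp2, zm2, zp0))]),
  ((nn2, nn17), [((zp3, zp0, zm1), (zp1, zm1, zp0))]),
  ((nn17, nn2), [((zp1, zm1, zp0), (zp3, zp0, zm1))]),
  ((nn2, nn18), [((zp2, zp1, zm1), (zp2, zm1, zp0)), ((zp3, zp0, zm1), (zp1, zm1, zp0))]),
  ((nn18, nn2), [((zp2, zm1, zp0), (zp2, zp1, zm1)), ((zp1, zm1, zp0), (zp3, zp0, zm1))]),
  ((nn3, nn4), [((zp1, zp1, zm1), (zm1, zp0, zp0))]),
  ((nn4, nn3), [((zm1, zp0, zp0), (zp1, zp1, zm1))]),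
  ((nn3, nn6), [((zm1, zp2, zm1), (zm1, zp0, zp0)), ((zm1, zp2, zm1), (zp0, zp0, zp0)), ((zp0, zp2, zm1), (zp0, zp0, zp0))]),
  ((nn6, nn3), [((zm1, zp0, zp0), (zm1, zp2, zm1)), ((zp0, zp0, zp0), (zm1, zp2, zm1)), ((zp0, zp0, zp0), (zp0, zp2, zm1))]),
  ((nn3, nn7), [((zp0, zp2, zm1), (zp0, zp0, zp0)), ((zp1, zp1, zm1), (zm1, zp0, zp0))]),
  ((nn7, nn3), [((zp0, zp0, zp0), (zp0, zp2, zm1)), ((zm1, zp0, zp0), (zp1, zp1, zm1))]),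
  ((nn3, nn10), [((zm2, zp0, zp0), (zp0, zp1, zm1))]),
  ((nn10, nn3), [((zp0, zp1, zm1), (zm2, zp0, zp0))]),
  ((nn3, nn11), [((zm2, zp0, zp0), (zp0, zp1, zm1)), ((zm2, zp1, zp0), (zp0, zp0, zp0))]),
  ((nn11, nn3), [((zp0, zp1, zm1), (zm2, zp0, zp0)), ((zp0, zp0, zp0), (zm2, zp1, zp0))]),
  ((nn4, nn5), [((zp2, zp0, zm1), (zp0, zp1, zm1)), ((zp2, zp1, zm1), (zp0, zp0, zp0))]),
  ((nn5, nn4), [((zp0, zp1, zm1), (zp2, zp0, zm1)), ((zp0, zp0, zp0), (zp2, zp1, zm1))]),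
  ((nn4, nn7), [((zp0, zp2, zm1), (zp0, zp0, zp0))]),
  ((nn7, nn4), [((zp0, zp0, zp0), (zp0, zp2, zm1))]),
  ((nn4, nn8), [((zp2, zp1, zm1), (zp0, zp0, zp0))]),
  ((nn8, nn4), [((zp0, zp0, zp0), (zp2, zp1, zm1))]),
  ((nn5, nn8), [((zp0, zp1, zm1), (zp2, zp0, zm1))]),
  ((nn8, nn5), [((zp2, zp0, zm1), (zp0, zp1, zm1))]),
  ((nn5, nn18), [((zp3, zp0, zm1), (zp1, zp1, zm1))]),
  ((nn18, nn5), [((zp1, zp1, zm1), (zp3, zp0, zm1))]),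
  ((nn5, nn19), [((zp1, zp2, zm2), (zp2, zp0, zm1)), ((zp2, zp2, zm2), (zp2, zp0, zm1))]),
  ((nn19, nn5), [((zp2, zp0, zm1), (zp1, zp2, zm2)), ((zp2, zp0, zm1), (zp2, zp2, zm2))]),
  ((nn5, nn24), [((zp2, zp2, zm2), (zp2, zp0, zm1)), ((zp3, zp2, zm2), (zp1, zp1, zm1))]),
  ((nn24, nn5), [((zp2, zp0, zm1), (zp2, zp2, zm2)), ((zp1, zp1, zm1), (zp3, zp2, zm2))]),
  ((nn6, nn7), [((zp1, zp1, zm1), (zm1, zp2, zm1))]),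
  ((nn7, nn6), [((zm1, zp2, zm1), (zp1, zp1, zm1))]),
  ((nn6, nn11), [((zm2, zp0, zp0), (zp0, zp1, zm1)), ((zm2, zp1, zp0), (zp0, zp2, zm1)), ((zm1, zp0, zp0), (zm1, zp2, zm1))]),
  ((nn11, nn6), [((zp0, zp1, zm1), (zm2, zp0, zp0)), ((zp0, zp2, zm1), (zm2, zp1, zp0)), ((zm1, zp2, zm1), (zm1, zp0, zp0))]),
  ((nn6, nn20), [((zm2, zp2, zm1), (zp0, zp1, zm1))]),
  ((nn20, nn6), [((zp0, zp1, zm1), (zm2, zp2, zm1))]),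
  ((nn6, nn21), [((zm2, zp1, zp0), (zp0, zp2, zm1)), ((zm2, zp2, zm1), (zp0, zp1, zm1))]),
  ((nn21, nn6), [((zp0, zp2, zm1), (zm2, zp1, zp0)), ((zp0, zp1, zm1), (zm2, zp2, zm1))]),
  ((nn6, nn27), [((zp0, zp3, zm2), (zp0, zp1, zm1)), ((zp1, zp3, zm2), (zm1, zp2, zm1))]),
  ((nn27, nn6), [((zp0, zp1, zm1), (zp0, zp3, zm2)), ((zm1, zp2, zm1), (zp1, zp3, zm2))]),
  ((nn6, nn34), [((zp0, zp3, zm2), (zp0, zp1, zm1))]),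
  ((nn34, nn6), [((zp0, zp1, zm1), (zp0, zp3, zm2))]),
  ((nn7, nn8), [((zp2, zp1, zm1), (zp0, zp2, zm1))]),
  ((nn8, nn7), [((zp0, zp2, zm1), (zp2, zp1, zm1))]),
  ((nn7, nn19), [((zp2, zp1, zm1), (zp0, zp2, zm1)), ((zp2, zp2, zm2), (zp0, zp1, zm1))]),
  ((nn19, nn7), [((zp0, zp2, zm1), (zp2, zp1, zm1)), ((zp0, zp1, zm1), (zp2, zp2, zm2))]),
  ((nn7, nn27), [((zp0, zp3, zm2), (zp0, zp1, zm1)), ((zp0, zp3, zm2), (zp1, zp1, zm1)), ((zp1, zp3, zm2), (zp1, zp1, zm1))]),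
  ((nn27, nn7), [((zp0, zp1, zm1), (zp0, zp3, zm2)), ((zp1, zp1, zm1), (zp0, zp3, zm2)), ((zp1, zp1, zm1), (zp1, zp3, zm2))]),
  ((nn7, nn28), [((zp1, zp3, zm2), (zp1, zp1, zm1)), ((zp2, zp2, zm2), (zp0, zp1, zm1)), ((zp2, zp3, zm2), (zp0, zp2, zm1))]),
  ((nn28, nn7), [((zp1, zp1, zm1), (zp1, zp3, zm2)), ((zp0, zp1, zm1), (zp2, zp2, zm2)), ((zp0, zp2, zm1), (zp2, zp3, zm2))]),
  ((nn8, nn19), [((zp2, zp2, zm2), (zp0, zp1, zm1))]),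
  ((nn19, nn8), [((zp0, zp1, zm1), (zp2, zp2, zm2))]),
  ((nn9, nn14), [((zp0, zm2, zp1), (zp2, zm1, zp0))]),
  ((nn14, nn9), [((zp2, zm1, zp0), (zp0, zm2, zp1))]),
  ((nn9, nn16), [((zp2, zm2, zp0), (zp0, zm1, zp0))]),
  ((nn16, nn9), [((zp0, zm1, zp0), (zp2, zm2, zp0))]),
  ((nn10, nn11), [((zm2, zp1, zp0), (zp0, zp0, zp0))]),
  ((nn11, nn10), [((zp0, zp0, zp0), (zm2, zp1, zp0))]),
  ((nn10, nn15), [((zm2, zm1, zp1), (zp0, zp0, zp0))]),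
  ((nn15, nn10), [((zp0, zp0, zp0), (zm2, zm1, zp1))]),
  ((nn11, nn15), [((zm2, zm1, zp1), (zm2, zp1, zp0)), ((zm1, zm1, zp1), (zm2, zp1, zp0))]),
  ((nn15, nn11), [((zm2, zp1, zp0), (zm2, zm1, zp1)), ((zm2, zp1, zp0), (zm1, zm1, zp1))]),
  ((nn11, nn21), [((zm2, zp2, zm1), (zm2, zp0, zp0)), ((zm2, zp2, zm1), (zm1, zp0, zp0)), ((zm1, zp2, zm1), (zm1, zp0, zp0))]),
  ((nn21, nn11), [((zm2, zp0, zp0), (zm2, zp2, zm1)), ((zm1, zp0, zp0), (zm2, zp2, zm1)), ((zm1, zp0, zp0), (zm1, zp2, zm1))]),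
  ((nn11, nn25), [((zm3, zp1, zp0), (zm1, zp0, zp0))]),
  ((nn25, nn11), [((zm1, zp0, zp0), (zm3, zp1, zp0))]),
  ((nn11, nn31), [((zm3, zm1, zp1), (zm1, zp0, zp0)), ((zm3, zp0, zp1), (zm1, zp1, zp0)), ((zm2, zm1, zp1), (zm2, zp1, zp0))]),
  ((nn31, nn11), [((zm1, zp0, zp0), (zm3, zm1, zp1)), ((zm1, zp1, zp0), (zm3, zp0, zp1)), ((zm2, zp1, zp0), (zm2, zm1, zp1))]),
  ((nn11, nn32), [((zm3, zp0, zp1), (zm1, zp1, zp0)), ((zm3, zp1, zp0), (zm1, zp0, zp0))]),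
  ((nn32, nn11), [((zm1, zp1, zp0), (zm3, zp0, zp1)), ((zm1, zp0, zp0), (zm3, zp1, zp0))]),
  ((nn12, nn13), [((zp0, zm2, zp1), (zm2, zm1, zp1))]),
  ((nn13, nn12), [((zm2, zm1, zp1), (zp0, zm2, zp1))]),
  ((nn12, nn15), [((zm2, zp0, zp0), (zm1, zm2, zp1)), ((zm1, zp0, zp0), (zm1, zm2, zp1))]),
  ((nn15, nn12), [((zm1, zm2, zp1), (zm2, zp0, zp0)), ((zm1, zm2, zp1), (zm1, zp0, zp0))]),
  ((nn12, nn30), [((zm3, zm1, zp1), (zm1, zm2, zp1))]),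
  ((nn30, nn12), [((zm1, zm2, zp1), (zm3, zm1, zp1))]),
  ((nn13, nn14), [((zp1, zm2, zp1), (zm1, zm1, zp1)), ((zp1, zm1, zp0), (zm1, zm2, zp1))]),
  ((nn14, nn13), [((zm1, zm1, zp1), (zp1, zm2, zp1)), ((zm1, zm2, zp1), (zp1, zm1, zp0))]),
  ((nn13, nn23), [((zp1, zm2, zp1), (zm1, zm1, zp1))]),
  ((nn23, nn13), [((zm1, zm1, zp1), (zp1, zm2, zp1))]),
  ((nn14, nn16), [((zp2, zm2, zp0), (zp0, zm1, zp0)), ((zp2, zm1, zp0), (zp0, zm2, zp1))]),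
  ((nn16, nn14), [((zp0, zm1, zp0), (zp2, zm2, zp0)), ((zp0, zm2, zp1), (zp2, zm1, zp0))]),
  ((nn14, nn22), [((zp1, zm3, zp1), (zp0, zm1, zp0)), ((zp1, zm3, zp1), (zp1, zm1, zp0))]),
  ((nn22, nn14), [((zp0, zm1, zp0), (zp1, zm3, zp1)), ((zp1, zm1, zp0), (zp1, zm3, zp1))]),
  ((nn14, nn23), [((zm1, zm2, zp1), (zp1, zm1, zp0))]),
  ((nn23, nn14), [((zp1, zm1, zp0), (zm1, zm2, zp1))]),
  ((nn15, nn30), [((zm3, zm1, zp1), (zm1, zp0, zp0))]),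
  ((nn30, nn15), [((zm1, zp0, zp0), (zm3, zm1, zp1))]),
  ((nn15, nn31), [((zm3, zm1, zp1), (zm1, zp0, zp0)), ((zm3, zp0, zp1), (zm1, zm1, zp1))]),
  ((nn31, nn15), [((zm1, zp0, zp0), (zm3, zm1, zp1)), ((zm1, zm1, zp1), (zm3, zp0, zp1))]),
  ((nn16, nn17), [((zp2, zp0, zm1), (zp2, zm2, zp0)), ((zp3, zp0, zm1), (zp1, zm1, zp0))]),
  ((nn17, nn16), [((zp2, zm2, zp0), (zp2, zp0, zm1)), ((zp1, zm1, zp0), (zp3, zp0, zm1))]),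
  ((nn16, nn22), [((zp0, zm3, zp1), (zp2, zm2, zp0)), ((zp0, zm2, zp1), (zp2, zm1, zp0)), ((zp1, zm3, zp1), (zp1, zm1, zp0))]),
  ((nn22, nn16), [((zp2, zm2, zp0), (zp0, zm3, zp1)), ((zp2, zm1, zp0), (zp0, zm2, zp1)), ((zp1, zm1, zp0), (zp1, zm3, zp1))]),
  ((nn16, nn26), [((zp1, zm3, zp1), (zp1, zm1, zp0)), ((zp2, zm3, zp1), (zp1, zm1, zp0)), ((zp2, zm3, zp1), (zp2, zm1, zp0))]),
  ((nn26, nn16), [((zp1, zm1, zp0), (zp1, zm3, zp1)), ((zp1, zm1, zp0), (zp2, zm3, zp1)), ((zp2, zm1, zp0), (zp2, zm3, zp1))]),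
  ((nn16, nn33), [((zp3, zm2, zp0), (zp1, zm1, zp0))]),
  ((nn33, nn16), [((zp1, zm1, zp0), (zp3, zm2, zp0))]),
  ((nn17, nn18), [((zp2, zp1, zm1), (zp2, zm1, zp0))]),
  ((nn18, nn17), [((zp2, zm1, zp0), (zp2, zp1, zm1))]),
  ((nn17, nn33), [((zp2, zm2, zp0), (zp2, zp0, zm1)), ((zp3, zm2, zp0), (zp2, zp0, zm1)), ((zp3, zm2, zp0), (zp3, zp0, zm1))]),
  ((nn33, nn17), [((zp2, zp0, zm1), (zp2, zm2, zp0)), ((zp2, zp0, zm1), (zp3, zm2, zp0)), ((zp3, zp0, zm1), (zp3, zm2, zp0))]),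
  ((nn18, nn24), [((zp2, zp2, zm2), (zp2, zp0, zm1)), ((zp2, zp2, zm2), (zp3, zp0, zm1)), ((zp3, zp2, zm2), (zp3, zp0, zm1))]),
  ((nn24, nn18), [((zp2, zp0, zm1), (zp2, zp2, zm2)), ((zp3, zp0, zm1), (zp2, zp2, zm2)), ((zp3, zp0, zm1), (zp3, zp2, zm2))]),
  ((nn19, nn24), [((zp3, zp1, zm2), (zp1, zp2, zm2)), ((zp3, zp2, zm2), (zp1, zp1, zm1))]),
  ((nn24, nn19), [((zp1, zp2, zm2), (zp3, zp1, zm2)), ((zp1, zp1, zm1), (zp3, zp2, zm2))]),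
  ((nn19, nn28), [((zp1, zp3, zm2), (zp1, zp1, zm1)), ((zp1, zp3, zm2), (zp2, zp1, zm1)), ((zp2, zp3, zm2), (zp2, zp1, zm1))]),
  ((nn28, nn19), [((zp1, zp1, zm1), (zp1, zp3, zm2)), ((zp2, zp1, zm1), (zp1, zp3, zm2)), ((zp2, zp1, zm1), (zp2, zp3, zm2))]),
  ((nn19, nn29), [((zp2, zp3, zm2), (zp2, zp1, zm1)), ((zp3, zp2, zm2), (zp1, zp1, zm1))]),
  ((nn29, nn19), [((zp2, zp1, zm1), (zp2, zp3, zm2)), ((zp1, zp1, zm1), (zp3, zp2, zm2))]),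
  ((nn20, nn21), [((zm2, zp1, zp0), (zp0, zp2, zm1))]),
  ((nn21, nn20), [((zp0, zp2, zm1), (zm2, zp1, zp0))]),
  ((nn20, nn34), [((zp0, zp3, zm2), (zm2, zp2, zm1))]),
  ((nn34, nn20), [((zm2, zp2, zm1), (zp0, zp3, zm2))]),
  ((nn21, nn25), [((zm3, zp1, zp0), (zm1, zp2, zm1)), ((zm2, zp0, zp0), (zm2, zp2, zm1))]),
  ((nn25, nn21), [((zm1, zp2, zm1), (zm3, zp1, zp0)), ((zm2, zp2, zm1), (zm2, zp0, zp0))]),
  ((nn22, nn23), [((zm1, zm2, zp1), (zp1, zm3, zp1))]),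
  ((nn23, nn22), [((zp1, zm3, zp1), (zm1, zm2, zp1))]),
  ((nn22, nn26), [((zp2, zm3, zp1), (zp0, zm2, zp1)), ((zp2, zm2, zp0), (zp0, zm3, zp1))]),
  ((nn26, nn22), [((zp0, zm2, zp1), (zp2, zm3, zp1)), ((zp0, zm3, zp1), (zp2, zm2, zp0))]),
  ((nn24, nn29), [((zp1, zp2, zm2), (zp3, zp1, zm2)), ((zp2, zp3, zm2), (zp2, zp1, zm1))]),
  ((nn29, nn24), [((zp3, zp1, zm2), (zp1, zp2, zm2)), ((zp2, zp1, zm1), (zp2, zp3, zm2))]),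
  ((nn25, nn32), [((zm3, zp0, zp1), (zm1, zp1, zp0))]),
  ((nn32, nn25), [((zm1, zp1, zp0), (zm3, zp0, zp1))])]

/-- parents in a spanning tree of the graph of pairs -/
def par : List ℕ := [0, 0, 1, 0, 0, 1, 3, 3, 4, 1, 0, 3, 0, 0, 1, 0, 2, 2, 2, 5, 6, 6, 14, 13, 5, 11, 16, 6, 7, 19, 12, 11, 11, 16, 6]

def T (p q : ℕ) : List (Z3 × Z3) := (TT.lookup (p, q)).getD []

/-- possible predecessors -/
def predOK (t : ℕ) (els : List (Z3 × Z3)) (e : Z3 × Z3) : Bool :=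
  els.any fun f => [false, true].any fun b => [false, true].any fun b' =>
    decide (az (mb f.1) ((t : ℤ) - b.toNat) = e.1) && decide (az (mb f.2) ((t : ℤ) - b'.toNat) = e.2)

def entryOK (x : (ℕ × ℕ) × List (Z3 × Z3)) (t : ℕ) : Bool :=
  let p := (dl (Fin.ofNat 35 x.1.1) t).val
  let q := (dl (Fin.ofNat 35 x.1.2) t).val
  decide (p = q) || (decide (T p q ≠ []) && (T p q).all fun e => predOK t x.2 e)

set_option maxRecDepth 100000 in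
theorem TT_step : (TT.all fun x => entryOK x 0 && entryOK x 1 && entryOK x 2) = true := by
  decide +kernel

theorem TT_diff : (TT.all fun x => x.2.all fun e => decide (sz e.2 e.1 ∈ DD)) = true := by
  decide +kernel

theorem TT_size : (TT.all fun x => decide (x.1.1 < 35) && decide (x.1.2 < 35) && decide (x.2.length ≤ 3) && decide (x.2 ≠ []) && decide (T x.1.1 x.1.2 = x.2)) = true := by
  decide +kernel

theorem par_ok : ((List.range 35).all fun i => decide (i = 0) || (decide (par.getD i 0 < i) && decide (T (par.getD i 0) i ≠ []))) = true := by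
  decide +kernel

end Pool.H99.Trib
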