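import Pool.Agent.H99.Trib.Greedy
import Pool.Agent.H99.Trib.UnsyncCert

namespace Pool.H99.Trib

/-! ### The functionals `φ_k` -/

/-- `β^i ↦ W (k+i)` -/
def phi (k : ℕ) (v : Z3) : ℤ := v.1 * W k + v.2.1 * W (k + 1) + v.2.2 * W (k + 2)

theorem phi_mb (k : ℕ) (v : Z3) : phi k (mb v) = phi (k + 1) v := by
  simp only [phi, mb]
  have : (W (k + 1 + 2) : ℤ) = W (k + 2) + W (k + 1) + W k := by
    have : W (k + 1 + 2) = W (k + 2) + W (k + 1) + W k := rfl
    exact_mod_cast this
  rw [this, show k + 1 + 1 = k + 2 from rfl]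
  ring

theorem phi_az (k : ℕ) (v : Z3) (t : ℤ) : phi k (az v t) = phi k v + t * W k := by
  simp only [phi, az]; ring

/-! ### The words `b` -/

def dstep (d : Z3) (b b' : Bool) : Z3 := az (mb d) ((b.toNat : ℤ) - b'.toNat)

def bp : ℕ → Z3 → List (List Bool)
  | 0, _ => [[]]
  | j + 1, d => [false, true].flatMap fun b => [false, true].flatMap fun b' =>
      if dstep d b b' ∈ DD then (bp j (dstep d b b')).map (b :: ·) else []

theorem mem_bp_succ {j : ℕ} {d : Z3} {b b' : Bool} {w : List Bool} (hd : dstep d b b' ∈ DD)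
    (hw : w ∈ bp j (dstep d b b')) : b :: w ∈ bp (j + 1) d := by
  simp only [bp, List.mem_flatMap]
  refine ⟨b, by cases b <;> simp, b', by cases b' <;> simp, ?_⟩
  simp [hd, hw]

theorem length_bp_succ (j : ℕ) (d : Z3) :
    (bp (j + 1) d).length =
      (if dstep d false false ∈ DD then (bp j (dstep d false false)).length else 0) +
      (if dstep d false true ∈ DD then (bp j (dstep d false true)).length else 0) +
      (if dstep d true false ∈ DD then (bp j (dstep d true false)).length else 0) +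
      (if dstep d true true ∈ DD then (bp j (dstep d true true)).length else 0) := by
  simp only [bp, List.flatMap_cons, List.flatMap_nil, List.length_append, List.append_nil,
    apply_ite List.length, List.length_map, List.length_nil]
  ring

theorem length_bp_le (lam : ℝ) (h0 : 0 < lam) (h : lam ^ 4 = 2 * lam + 1) (j : ℕ) :
    (((bp j (2, -1, 0)).length : ℝ) ≤ lam ^ 3 * lam ^ j ∧
     ((bp j (-2, 1, 0)).length : ℝ) ≤ lam ^ 3 * lam ^ j) ∧
    (((bp j (0, 2, -1)).length : ℝ) ≤ lam * lam ^ j ∧
     ((bp j (0, -2, 1)).length : ℝ) ≤ lam * lam ^ j) ∧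
    (((bp j (-2, -1, 1)).length : ℝ) ≤ lam ^ 2 * lam ^ j ∧
     ((bp j (2, 1, -1)).length : ℝ) ≤ lam ^ 2 * lam ^ j) ∧
    (((bp j (-1, 2, -1)).length : ℝ) ≤ lam ^ j ∧
     ((bp j (1, -2, 1)).length : ℝ) ≤ lam ^ j) := by
  have h1 : 1 ≤ lam := by
    by_contra hc
    push Not at hc
    have : lam ^ 4 ≤ 1 := pow_le_one₀ h0.le hc.le
    linarith
  induction j with
  | zero =>
    have h2 : (1 : ℝ) ≤ lam ^ 2 := one_le_pow₀ h1
    have h3 : (1 : ℝ) ≤ lam ^ 3 := one_le_pow₀ h1
    simp [bp, h1, h2, h3]
  | succ j ih =>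
    obtain ⟨⟨a, a'⟩, ⟨b, b'⟩, ⟨c, c'⟩, ⟨d, d'⟩⟩ := ih
    simp only [length_bp_succ]
    have e1 : dstep (2, -1, 0) false false = (0, 2, -1) := by decide
    have e2 : dstep (2, -1, 0) false true = (-1, 2, -1) := by decide
    have e3 : dstep (2, -1, 0) true false = (1, 2, -1) := by decide
    have e4 : dstep (2, -1, 0) true true = (0, 2, -1) := by decide
    have f1 : dstep (-2, 1, 0) false false = (0, -2, 1) := by decide
    have f2 : dstep (-2, 1, 0) false true = (-1, -2, 1) := by decide
    have f3 : dstep (-2, 1, 0) true false = (1, -2, 1) := by decide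
    have f4 : dstep (-2, 1, 0) true true = (0, -2, 1) := by decide
    have g1 : dstep (0, 2, -1) false false = (-1, -1, 1) := by decide
    have g2 : dstep (0, 2, -1) false true = (-2, -1, 1) := by decide
    have g3 : dstep (0, 2, -1) true false = (0, -1, 1) := by decide
    have g4 : dstep (0, 2, -1) true true = (-1, -1, 1) := by decide
    have i1 : dstep (0, -2, 1) false false = (1, 1, -1) := by decide
    have i2 : dstep (0, -2, 1) false true = (0, 1, -1) := by decide
    have i3 : dstep (0, -2, 1) true false = (2, 1, -1) := by decide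
    have i4 : dstep (0, -2, 1) true true = (1, 1, -1) := by decide
    have j1 : dstep (-2, -1, 1) false false = (1, -1, 0) := by decide
    have j2 : dstep (-2, -1, 1) false true = (0, -1, 0) := by decide
    have j3 : dstep (-2, -1, 1) true false = (2, -1, 0) := by decide
    have j4 : dstep (-2, -1, 1) true true = (1, -1, 0) := by decide
    have k1 : dstep (2, 1, -1) false false = (-1, 1, 0) := by decide
    have k2 : dstep (2, 1, -1) false true = (-2, 1, 0) := by decide
    have k3 : dstep (2, 1, -1) true false = (0, 1, 0) := by decide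
    have k4 : dstep (2, 1, -1) true true = (-1, 1, 0) := by decide
    have l1 : dstep (-1, 2, -1) false false = (-1, -2, 1) := by decide
    have l2 : dstep (-1, 2, -1) false true = (-2, -2, 1) := by decide
    have l3 : dstep (-1, 2, -1) true false = (0, -2, 1) := by decide
    have l4 : dstep (-1, 2, -1) true true = (-1, -2, 1) := by decide
    have m1 : dstep (1, -2, 1) false false = (1, 2, -1) := by decide
    have m2 : dstep (1, -2, 1) false true = (0, 2, -1) := by decide
    have m3 : dstep (1, -2, 1) true false = (2, 2, -1) := by decide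
    have m4 : dstep (1, -2, 1) true true = (1, 2, -1) := by decide
    simp only [e1, e2, e3, e4, f1, f2, f3, f4, g1, g2, g3, g4, i1, i2, i3, i4, j1, j2, j3, j4,
      k1, k2, k3, k4, l1, l2, l3, l4, m1, m2, m3, m4]
    have n1 : ((0, 2, -1) : Z3) ∈ DD := by decide
    have n2 : ((-1, 2, -1) : Z3) ∈ DD := by decide
    have n3 : ((1, 2, -1) : Z3) ∉ DD := by decide
    have n4 : ((0, -2, 1) : Z3) ∈ DD := by decide
    have n5 : ((-1, -2, 1) : Z3) ∉ DD := by decide
    have n6 : ((1, -2, 1) : Z3) ∈ DD := by decide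
    have n7 : ((-1, -1, 1) : Z3) ∉ DD := by decide
    have n8 : ((-2, -1, 1) : Z3) ∈ DD := by decide
    have n9 : ((0, -1, 1) : Z3) ∉ DD := by decide
    have o1 : ((1, 1, -1) : Z3) ∉ DD := by decide
    have o2 : ((0, 1, -1) : Z3) ∉ DD := by decide
    have o3 : ((2, 1, -1) : Z3) ∈ DD := by decide
    have o4 : ((1, -1, 0) : Z3) ∉ DD := by decide
    have o5 : ((0, -1, 0) : Z3) ∉ DD := by decide
    have o6 : ((2, -1, 0) : Z3) ∈ DD := by decide
    have o7 : ((-1, 1, 0) : Z3) ∉ DD := by decide
    have o8 : ((-2, 1, 0) : Z3) ∈ DD := by decide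
    have o9 : ((0, 1, 0) : Z3) ∉ DD := by decide
    have p1 : ((-2, -2, 1) : Z3) ∉ DD := by decide
    have p2 : ((2, 2, -1) : Z3) ∉ DD := by decide
    simp only [n1, n2, n3, n4, n5, n6, n7, n8, n9, o1, o2, o3, o4, o5, o6, o7, o8, o9, p1, p2,
      if_true, if_false]
    push_cast
    have hp : lam ^ (j + 1) = lam * lam ^ j := pow_succ' lam j
    rw [hp]
    have hl : 0 ≤ lam ^ j := by positivity
    refine ⟨⟨?_, ?_⟩, ⟨?_, ?_⟩, ⟨?_, ?_⟩, ⟨?_, ?_⟩⟩
    · have : lam ^ 3 * (lam * lam ^ j) = (2 * lam + 1) * lam ^ j := by rw [← h]; ring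
      nlinarith
    · have : lam ^ 3 * (lam * lam ^ j) = (2 * lam + 1) * lam ^ j := by rw [← h]; ring
      nlinarith
    · nlinarith
    · nlinarith
    · nlinarith
    · nlinarith
    · nlinarith
    · nlinarith

theorem length_bp_le' (lam : ℝ) (h0 : 0 < lam) (h : lam ^ 4 = 2 * lam + 1) (j : ℕ) {d : Z3}
    (hd : d ∈ DD) : ((bp j d).length : ℝ) ≤ lam ^ 3 * lam ^ j := by
  have h1 : 1 ≤ lam := by
    by_contra hc
    push Not at hc
    have : lam ^ 4 ≤ 1 := pow_le_one₀ h0.le hc.le
    linarith
  have hl : 0 ≤ lam ^ j := by positivity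
  have k1 : lam ≤ lam ^ 3 := by
    calc lam = lam ^ 1 := (pow_one _).symm
    _ ≤ lam ^ 3 := pow_le_pow_right₀ h1 (by norm_num)
  have k2 : lam ^ 2 ≤ lam ^ 3 := pow_le_pow_right₀ h1 (by norm_num)
  have k3 : (1 : ℝ) ≤ lam ^ 3 := one_le_pow₀ h1
  obtain ⟨⟨a, a'⟩, ⟨b, b'⟩, ⟨c, c'⟩, ⟨e, e'⟩⟩ := length_bp_le lam h0 h j
  simp only [DD, List.mem_cons, List.not_mem_nil, or_false] at hd
  rcases hd with rfl | rfl | rfl | rfl | rfl | rfl | rfl | rfl
  · exact a
  · exact a'
  · exact b.trans (mul_le_mul_of_nonneg_right k1 hl)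
  · exact b'.trans (mul_le_mul_of_nonneg_right k1 hl)
  · exact c.trans (mul_le_mul_of_nonneg_right k2 hl)
  · exact c'.trans (mul_le_mul_of_nonneg_right k2 hl)
  · exact e.trans (by nlinarith)
  · exact e'.trans (by nlinarith)

/-! ### The certificate -/

theorem T_mem {p q : ℕ} (h : T p q ≠ []) : ((p, q), T p q) ∈ TT := by
  unfold T at h ⊢
  cases hl : TT.lookup (p, q) with
  | none => simp [hl] at h
  | some l =>
    rw [List.lookup_eq_some_iff] at hl
    obtain ⟨l₁, l₂, h1, -⟩ := hl
    rw [h1]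
    simp

theorem T_step {p q : Q} (h : T p q ≠ []) {t : ℕ} (ht : t ≤ 2) (hne : dl p t ≠ dl q t) :
    T (dl p t) (dl q t) ≠ [] ∧ ∀ e ∈ T (dl p t) (dl q t), ∃ f ∈ T p q, ∃ b b' : Bool,
      az (mb f.1) ((t : ℤ) - b.toNat) = e.1 ∧ az (mb f.2) ((t : ℤ) - b'.toNat) = e.2 := by
  have h1 := TT_step
  rw [List.all_eq_true] at h1
  have h2 := h1 _ (T_mem h)
  have hfp : Fin.ofNat 35 (p : ℕ) = p := by ext; simp
  have hfq : Fin.ofNat 35 (q : ℕ) = q := by ext; simp
  have h3 : entryOK (((p : ℕ), (q : ℕ)), T p q) t = true := by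
    simp only [Bool.and_eq_true] at h2
    interval_cases t
    · exact h2.1.1
    · exact h2.1.2
    · exact h2.2
  have hne' : ((dl p t : Q) : ℕ) ≠ ((dl q t : Q) : ℕ) := fun hh => hne (Fin.ext hh)
  simp only [entryOK, hfp, hfq, Bool.or_eq_true, decide_eq_true_eq, Bool.and_eq_true,
    hne', false_or] at h3
  refine ⟨h3.1, fun e he => ?_⟩
  have h4 := (List.all_eq_true.1 h3.2) e he
  simp only [predOK, List.any_eq_true, Bool.and_eq_true, decide_eq_true_eq] at h4
  obtain ⟨f, hf, b, -, b', -, h5, h6⟩ := h4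
  exact ⟨f, hf, b, b', h5, h6⟩

theorem T_diff {p q : ℕ} (h : T p q ≠ []) {e : Z3 × Z3} (he : e ∈ T p q) : sz e.2 e.1 ∈ DD := by
  have h1 := TT_diff
  rw [List.all_eq_true] at h1
  have h2 := List.all_eq_true.1 (h1 _ (T_mem h)) e he
  simpa using h2

theorem dstep_sz {f e : Z3 × Z3} {t : ℤ} {b b' : Bool}
    (h1 : az (mb f.1) (t - b.toNat) = e.1) (h2 : az (mb f.2) (t - b'.toNat) = e.2) :
    dstep (sz f.2 f.1) b b' = sz e.2 e.1 := by
  rw [← h1, ← h2]
  simp only [dstep, sz, az, mb, Prod.mk.injEq]
  refine ⟨by ring, by ring, by ring⟩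

/-- tracing back: a digit word which does not merge `p` and `q` has its value among few numbers -/
theorem trace (s : List ℕ) (hs : ∀ d ∈ s, d ≤ 2) : ∀ (p q : Q), T p q ≠ [] → dls p s ≠ dls q s →
    T (dls p s) (dls q s) ≠ [] ∧ ∀ e ∈ T (dls p s) (dls q s), ∃ f ∈ T p q,
      ∃ b ∈ bp s.length (sz f.2 f.1), b.length = s.length ∧
        (sval s : ℤ) = phi 0 e.1 - phi s.length f.1 + (value b : ℤ) := by
  induction s with
  | nil =>
    intro p q h _
    refine ⟨h, fun e he => ⟨e, he, [], by simp [bp], rfl, ?_⟩⟩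
    simp [sval, value]
  | cons t s ih =>
    intro p q h hne
    rw [dls_cons, dls_cons] at hne
    have hne1 : dl p t ≠ dl q t := fun hh => hne (by rw [hh])
    have ht : t ≤ 2 := hs t (by simp)
    obtain ⟨h1, h2⟩ := T_step h ht hne1
    obtain ⟨h3, h4⟩ := ih (fun d hd => hs d (by simp [hd])) _ _ h1 hne
    refine ⟨by rw [dls_cons, dls_cons]; exact h3, fun e he => ?_⟩
    rw [dls_cons, dls_cons] at he
    obtain ⟨g, hg, b, hb, hbl, hval⟩ := h4 e he
    obtain ⟨f, hf, a, a', h5, h6⟩ := h2 g hg
    refine ⟨f, hf, a :: b, ?_, by simp [hbl], ?_⟩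
    · have hd := dstep_sz h5 h6
      have hDD : dstep (sz f.2 f.1) a a' ∈ DD := by rw [hd]; exact T_diff h1 hg
      exact mem_bp_succ hDD (by rw [hd]; exact hb)
    · have h7 : phi s.length g.1 = phi (s.length + 1) f.1 + ((t : ℤ) - a.toNat) * W s.length := by
        rw [← h5, phi_az, phi_mb]
      simp only [sval, value, List.length_cons, hbl]
      push_cast
      rw [hval, h7]
      ring

/-! ### Connectivity -/

theorem exists_parent {i : Q} (hi : i ≠ 0) : ∃ j : Q, j < i ∧ T j i ≠ [] := by
  have h := par_ok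
  rw [List.all_eq_true] at h
  have h1 := h i.val (by simp [i.2])
  have hi' : (i : ℕ) ≠ 0 := fun hh => hi (Fin.ext hh)
  simp only [hi', decide_false, Bool.false_or, Bool.and_eq_true, decide_eq_true_eq] at h1
  exact ⟨⟨par.getD i.val 0, h1.1.trans i.2⟩, h1.1, h1.2⟩

theorem exists_pair_of_unsync {s : List ℕ} (h : ∃ p q : Q, dls p s ≠ dls q s) :
    ∃ p q : Q, T p q ≠ [] ∧ dls p s ≠ dls q s := by
  by_contra hc
  push Not at hc
  have key : ∀ (n : ℕ) (i : Q), i.val = n → dls i s = dls 0 s := by
    intro n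
    induction n using Nat.strong_induction_on with
    | _ n ih =>
      intro i hi
      by_cases h0 : i = 0
      · rw [h0]
      · obtain ⟨j, hj, hT⟩ := exists_parent h0
        rw [← hc j i hT]
        exact ih j.val (by rw [← hi]; exact hj) j rfl
  obtain ⟨p, q, hpq⟩ := h
  exact hpq (by rw [key _ p rfl, key _ q rfl])

/-! ### The key lemma -/

theorem zs_length {u w : List Bool} (h : u.length = w.length) : (zs u w).length = w.length := by
  simp [zs, h]

theorem zs_le_two (u w : List Bool) : ∀ d ∈ zs u w, d ≤ 2 := by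
  induction u generalizing w with
  | nil => simp [zs]
  | cons a u ih =>
    cases w with
    | nil => simp [zs]
    | cons b w =>
      intro d hd
      simp only [zs, List.zipWith_cons_cons, List.mem_cons] at hd
      rcases hd with rfl | hd
      · cases a <;> cases b <;> decide
      · exact ih w d hd

theorem sval_zs {u w : List Bool} (h : u.length = w.length) :
    sval (zs u w) = value u + value w := by
  induction u generalizing w with
  | nil =>
    cases w with
    | nil => rfl
    | cons b w => simp at h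
  | cons a u ih =>
    cases w with
    | nil => simp at h
    | cons b w =>
      have h' : u.length = w.length := by simpa using h
      have hz : (List.zipWith (fun a b : Bool => a.toNat + b.toNat) u w).length = w.length :=
        zs_length h'
      have := ih h'
      simp only [zs] at this
      simp only [zs, List.zipWith_cons_cons, sval, value, hz, this, h']
      ring

/-- the candidates for the value of `u` -/
def cand (j : ℕ) (v : ℕ) : Finset ℤ :=
  (TT.flatMap fun x => x.2.flatMap fun f => TT.flatMap fun y => y.2.flatMap fun e =>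
    (bp j (sz f.2 f.1)).map fun b => phi 0 e.1 - phi j f.1 + (value b : ℤ) - v).toFinset

theorem unsync_mem_cand {u w : List Bool} (hl : u.length = w.length) (h : Unsync u w) :
    (value u : ℤ) ∈ cand w.length (value w) := by
  obtain ⟨p, q, hT, hne⟩ := exists_pair_of_unsync h
  obtain ⟨h1, h2⟩ := trace (zs u w) (zs_le_two u w) p q hT hne
  obtain ⟨e, he⟩ := List.exists_mem_of_ne_nil _ h1
  obtain ⟨f, hf, b, hb, -, hval⟩ := h2 e he
  rw [zs_length hl] at hb hval
  rw [sval_zs hl] at hval
  simp only [cand, List.mem_toFinset, List.mem_flatMap, List.mem_map]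
  refine ⟨_, T_mem hT, f, hf, _, T_mem h1, e, he, b, hb, ?_⟩
  push_cast at hval
  linarith

theorem length_flatMap_le {α β : Type*} (l : List α) (f : α → List β) {K : ℝ}
    (h : ∀ a ∈ l, ((f a).length : ℝ) ≤ K) : ((l.flatMap f).length : ℝ) ≤ l.length * K := by
  induction l with
  | nil => simp
  | cons a l ih =>
    have h1 := ih fun b hb => h b (by simp [hb])
    have h2 := h a (by simp)
    simp only [List.flatMap_cons, List.length_append, List.length_cons]
    push_cast
    linarith

theorem TT_length_le {x : (ℕ × ℕ) × List (Z3 × Z3)} (hx : x ∈ TT) : x.2.length ≤ 3 ∧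
    ∀ f ∈ x.2, sz f.2 f.1 ∈ DD := by
  constructor
  · have h1 := TT_size
    rw [List.all_eq_true] at h1
    have h2 := h1 x hx
    simp only [Bool.and_eq_true, decide_eq_true_eq] at h2
    exact h2.1.1.2
  · intro f hf
    have h1 := TT_diff
    rw [List.all_eq_true] at h1
    have h2 := List.all_eq_true.1 (h1 x hx) f hf
    simpa using h2

theorem card_cand_le (lam : ℝ) (h0 : 0 < lam) (h : lam ^ 4 = 2 * lam + 1) (j v : ℕ) :
    ((cand j v).card : ℝ) ≤ (TT.length * (3 * (TT.length * (3 * lam ^ 3)))) * lam ^ j := by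
  have hl3 : 0 ≤ lam ^ 3 * lam ^ j := by positivity
  have hTT : (0 : ℝ) ≤ TT.length := by positivity
  calc ((cand j v).card : ℝ) ≤ ((TT.flatMap fun x => x.2.flatMap fun f => TT.flatMap fun y =>
        y.2.flatMap fun e => (bp j (sz f.2 f.1)).map fun b =>
          phi 0 e.1 - phi j f.1 + (value b : ℤ) - (v : ℤ)).length : ℝ) := by
        exact_mod_cast List.toFinset_card_le _
    _ ≤ TT.length * (3 * (TT.length * (3 * (lam ^ 3 * lam ^ j)))) := by
        refine length_flatMap_le _ _ fun x hx => ?_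
        obtain ⟨hx1, hx2⟩ := TT_length_le hx
        refine (length_flatMap_le _ _ (K := TT.length * (3 * (lam ^ 3 * lam ^ j)))
          fun f hf => ?_).trans (mul_le_mul_of_nonneg_right (by exact_mod_cast hx1) (by positivity))
        refine length_flatMap_le _ _ fun y hy => ?_
        obtain ⟨hy1, -⟩ := TT_length_le hy
        refine (length_flatMap_le _ _ (K := lam ^ 3 * lam ^ j)
          fun e he => ?_).trans (mul_le_mul_of_nonneg_right (by exact_mod_cast hy1) hl3)
        rw [List.length_map]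
        exact length_bp_le' lam h0 h j (hx2 f hf)
    _ = _ := by ring

/-- key lemma: for every word `w` few valid words `u` of the same length are such that the sum of
`u` and `w` is not a reset word -/
theorem ncard_unsync (lam : ℝ) (h0 : 0 < lam) (h : lam ^ 4 = 2 * lam + 1) :
    ∃ C : ℝ, 0 < C ∧ ∀ w : List Bool,
      ({u : List Bool | u.length = w.length ∧ Valid u ∧ Unsync u w}.ncard : ℝ)
        ≤ C * lam ^ w.length := by
  refine ⟨TT.length * (3 * (TT.length * (3 * lam ^ 3))) + 1, by positivity, fun w => ?_⟩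
  set S := {u : List Bool | u.length = w.length ∧ Valid u ∧ Unsync u w} with hS
  have hcard : S.ncard ≤ (cand w.length (value w)).card := by
    have hinj : Set.InjOn (fun u : List Bool => (value u : ℤ)) S := by
      intro u hu v hv huv
      have huv' : (value u : ℤ) = (value v : ℤ) := huv
      exact value_inj hu.2.1 hv.2.1 (hu.1.trans hv.1.symm) (by exact_mod_cast huv')
    have hsub : (fun u : List Bool => (value u : ℤ)) '' S ⊆ (cand w.length (value w) : Set ℤ) := by
      rintro _ ⟨u, hu, rfl⟩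
      exact unsync_mem_cand hu.1 hu.2.2
    rw [← Set.ncard_image_of_injOn hinj, ← Set.ncard_coe_finset]
    exact Set.ncard_le_ncard hsub (Finset.finite_toSet _)
  have h2 := card_cand_le lam h0 h w.length (value w)
  have hl : 0 < lam ^ w.length := by positivity
  calc (S.ncard : ℝ) ≤ ((cand w.length (value w)).card : ℝ) := by exact_mod_cast hcard
    _ ≤ _ := h2
    _ ≤ _ := by nlinarith

end Pool.H99.Trib
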