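import Pool.Agent.H99.Trib.Complexity
import Pool.Agent.H99.Trib.Unsync

namespace Pool.H99.Trib

theorem Tree_valid_infix {u v : List Bool} (h : Valid v) (huv : u <:+: v) : Valid u :=
  fun h1 => h (h1.trans huv)

theorem Tree_valid_false_cons {x : List Bool} (h : Valid x) : Valid (false :: x) := by
  intro h1
  rw [List.infix_cons_iff] at h1
  rcases h1 with h1 | h1
  · rw [List.cons_prefix_cons] at h1
    exact absurd h1.1 (by decide)
  · exact h h1

theorem Tree_valid_replicate {x : List Bool} (h : Valid x) (n : ℕ) :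
    Valid (List.replicate n false ++ x) := by
  induction n with
  | zero => simpa using h
  | succ n ih =>
    rw [List.replicate_succ, List.cons_append]
    exact Tree_valid_false_cons ih

theorem Tree_vec_replicate (cs : ℕ → Bool) (x : List Bool) (n : ℕ) :
    vec cs (List.replicate n false ++ x) = vec cs x := by
  induction n with
  | zero => simp
  | succ n ih => rw [List.replicate_succ, List.cons_append, vec_false_cons, ih]

theorem Tree_last_three (t : List Bool) (h : 3 ≤ t.length) :
    ∃ u a b c, t = u ++ [a, b, c] := by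
  have h1 : (t.drop (t.length - 3)).length = 3 := by
    rw [List.length_drop]
    omega
  obtain ⟨a, b, c, habc⟩ := List.length_eq_three.1 h1
  exact ⟨t.take (t.length - 3), a, b, c, by rw [← habc, List.take_append_drop]⟩

theorem Tree_high (cs : ℕ → Bool) {y y' u : List Bool} {m : ℕ} (hm : m + 3 ≤ u.length)
    (h : Valid (y ++ u)) (h' : Valid (y' ++ u)) : vec cs (y ++ u) m = vec cs (y' ++ u) m := by
  rw [vec_append_of_ge cs y u (by omega), vec_append_of_ge cs y' u (by omega)]
  obtain ⟨u1, a, b, c, hu1⟩ := Tree_last_three (u.take (u.length - m)) (by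
    rw [List.length_take]
    omega)
  have e : ∀ z : List Bool, Valid (z ++ u) →
      dls 0 (bits (z ++ u.take (u.length - m))) = dls 0 (bits [a, b, c]) := by
    intro z hz
    rw [hu1, ← List.append_assoc]
    apply dls_bits_last_three
    apply Tree_valid_infix hz
    rw [List.append_assoc, ← hu1]
    exact ((List.prefix_append_right_inj z).2 (List.take_prefix _ _)).isInfix
  rw [e y h, e y' h']

/-- The vector of `y ++ u` does not depend on `y`. -/
def TreeRes (cs : ℕ → Bool) (M : ℕ) (u : List Bool) : Prop :=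
  ∀ y y' : List Bool, Valid (y ++ u) → Valid (y' ++ u) → ∀ m, m ≤ M →
    vec cs (y ++ u) m = vec cs (y' ++ u) m

theorem Tree_res_of_le (cs : ℕ → Bool) (M : ℕ) {u : List Bool} (h : M + 3 ≤ u.length) :
    TreeRes cs M u := fun _ _ hy hy' _ hm => Tree_high cs (by omega) hy hy'

/-- The unresolved valid words. -/
def TreeU (cs : ℕ → Bool) (M : ℕ) : Set (List Bool) := {u | Valid u ∧ ¬ TreeRes cs M u}

theorem Tree_suffix (cs : ℕ → Bool) (M : ℕ) (u : List Bool) (h : TreeRes cs M u) :
    ∃ s, s <:+ u ∧ TreeRes cs M s ∧ (s = [] ∨ ∃ b s', s = b :: s' ∧ ¬ TreeRes cs M s') := by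
  induction u with
  | nil => exact ⟨[], List.suffix_rfl, h, Or.inl rfl⟩
  | cons b u ih =>
    by_cases hu : TreeRes cs M u
    · obtain ⟨s, hs, h1, h2⟩ := ih hu
      exact ⟨s, hs.trans (List.suffix_cons b u), h1, h2⟩
    · exact ⟨b :: u, List.suffix_rfl, h, Or.inr ⟨b, u, rfl, hu⟩⟩

theorem Tree_cover (cs : ℕ → Bool) (M : ℕ) :
    vecSet cs M ⊆ (fun u => fun m : Fin (M + 1) => vec cs u m.val) ''
      ({[]} ∪ (List.cons true '' TreeU cs M ∪ List.cons false '' TreeU cs M)) := by
  rintro v ⟨x, hx, rfl⟩
  have hx' : Valid (List.replicate (M + 3) false ++ x) := Tree_valid_replicate hx _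
  have hr : TreeRes cs M (List.replicate (M + 3) false ++ x) := Tree_res_of_le cs M (by
    rw [List.length_append, List.length_replicate]
    omega)
  obtain ⟨s, ⟨z, hz⟩, h1, h2⟩ := Tree_suffix cs M _ hr
  refine ⟨s, ?_, ?_⟩
  · rcases h2 with h2 | ⟨b, s', h2, h3⟩
    · exact Or.inl h2
    · refine Or.inr ?_
      have hs' : Valid s' := by
        apply Tree_valid_infix hx'
        rw [← hz, h2]
        exact ⟨z ++ [b], [], by simp⟩
      cases b
      · exact Or.inr ⟨s', ⟨hs', h3⟩, h2.symm⟩
      · exact Or.inl ⟨s', ⟨hs', h3⟩, h2.symm⟩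
  · funext m
    have hs : Valid s := Tree_valid_infix hx' ⟨z, [], by simpa using hz⟩
    have h4 := h1 z [] (by rw [hz]; exact hx') (by simpa using hs) m.val
      (Nat.lt_succ_iff.1 m.isLt)
    rw [hz, Tree_vec_replicate] at h4
    rw [h4]
    rfl

/-- Words which together with `w` do not synchronise. -/
def TreeS (w : List Bool) : Set (List Bool) :=
  {u : List Bool | u.length = w.length ∧ Valid u ∧ Unsync u w}

theorem Tree_S_finite (w : List Bool) : (TreeS w).Finite :=
  (List.finite_length_eq Bool w.length).subset fun _ h => h.1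

/-- The window of `cs`. -/
def TreeW (cs : ℕ → Bool) (m j : ℕ) : List Bool := (List.range j).map fun i => cs (m - j + i)

theorem Tree_U_sub (cs : ℕ → Bool) (M : ℕ) : TreeU cs M ⊆
    ⋃ m ∈ Finset.range (M + 1), ((⋃ j ∈ Finset.range (m + 1), TreeS (TreeW cs m j)) ∪
      (((List.cons true '' TreeS (pref cs m)) ∪ (List.cons false '' TreeS (pref cs m))) ∪
      (((fun u => true :: true :: u) '' TreeS (pref cs m) ∪
        (fun u => true :: false :: u) '' TreeS (pref cs m)) ∪
      ((fun u => false :: true :: u) '' TreeS (pref cs m) ∪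
        (fun u => false :: false :: u) '' TreeS (pref cs m))))) := by
  rintro u ⟨hu, hn⟩
  unfold TreeRes at hn
  push Not at hn
  obtain ⟨y, y', hy, hy', m, hm, hne⟩ := hn
  refine Set.mem_biUnion (x := m) (by simpa [Nat.lt_succ_iff] using hm) ?_
  by_cases hj : u.length ≤ m
  · refine Or.inl (Set.mem_biUnion (x := u.length) (by simpa [Nat.lt_succ_iff] using hj) ?_)
    rw [vec_append_of_le cs y u hj, vec_append_of_le cs y' u hj] at hne
    exact ⟨by simp [TreeW], hu, _, _, hne⟩
  · refine Or.inr ?_
    have hj2 : u.length < m + 3 := by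
      by_contra hc
      exact hne (Tree_high cs (by omega) hy hy')
    rw [vec_append_of_ge cs y u (by omega), vec_append_of_ge cs y' u (by omega)] at hne
    have hS : u.drop (u.length - m) ∈ TreeS (pref cs m) := by
      refine ⟨?_, ?_, _, _, hne⟩
      · rw [List.length_drop]
        simp [pref]
        omega
      · exact Tree_valid_infix hu (List.drop_suffix _ _).isInfix
    match u, hS, hj, hj2 with
    | [], _, hj, _ => simp at hj
    | [b], hS, hj, _ =>
      have h0 : m = 0 := by simp at hj; exact hj
      subst h0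
      refine Or.inl ?_
      cases b
      · exact Or.inr ⟨[], by simpa using hS, rfl⟩
      · exact Or.inl ⟨[], by simpa using hS, rfl⟩
    | b :: b' :: u, hS, hj, hj2 =>
      simp only [List.length_cons] at hj hj2 hS
      by_cases h1 : m = u.length + 1
      · refine Or.inl ?_
        rw [show u.length + 1 + 1 - m = 1 by omega] at hS
        have hS' : b' :: u ∈ TreeS (pref cs m) := hS
        cases b
        · exact Or.inr ⟨b' :: u, hS', rfl⟩
        · exact Or.inl ⟨b' :: u, hS', rfl⟩
      · have h2 : m = u.length := by omega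
        refine Or.inr ?_
        rw [show u.length + 1 + 1 - m = 2 by omega] at hS
        have hS' : u ∈ TreeS (pref cs m) := hS
        cases b <;> cases b'
        · exact Or.inr (Or.inr ⟨u, hS', rfl⟩)
        · exact Or.inr (Or.inl ⟨u, hS', rfl⟩)
        · exact Or.inl (Or.inr ⟨u, hS', rfl⟩)
        · exact Or.inl (Or.inl ⟨u, hS', rfl⟩)

theorem Tree_geom (lam : ℝ) (h1 : 1 < lam) (n : ℕ) :
    ∑ j ∈ Finset.range (n + 1), lam ^ j ≤ lam / (lam - 1) * lam ^ n := by
  rw [geom_sum_eq (ne_of_gt h1), div_mul_eq_mul_div, div_le_div_iff_of_pos_right (by linarith),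
    pow_succ]
  linarith

theorem Tree_U_finite (cs : ℕ → Bool) (M : ℕ) : (TreeU cs M).Finite := by
  refine (List.finite_length_lt Bool (M + 3)).subset ?_
  rintro u ⟨_, hu⟩
  by_contra hc
  exact hu (Tree_res_of_le cs M (not_lt.1 hc))

theorem Tree_ncard_U (lam : ℝ) (h1 : 1 < lam) (C : ℝ) (hC : 0 < C)
    (hS : ∀ w : List Bool, ((TreeS w).ncard : ℝ) ≤ C * lam ^ w.length) (cs : ℕ → Bool) (M : ℕ) :
    ((TreeU cs M).ncard : ℝ) ≤
      (C * (lam / (lam - 1)) + 6 * C) * (lam / (lam - 1)) * lam ^ M := by
  have hfin : (⋃ m ∈ Finset.range (M + 1), ((⋃ j ∈ Finset.range (m + 1), TreeS (TreeW cs m j)) ∪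
      (((List.cons true '' TreeS (pref cs m)) ∪ (List.cons false '' TreeS (pref cs m))) ∪
      (((fun u => true :: true :: u) '' TreeS (pref cs m) ∪
        (fun u => true :: false :: u) '' TreeS (pref cs m)) ∪
      ((fun u => false :: true :: u) '' TreeS (pref cs m) ∪
        (fun u => false :: false :: u) '' TreeS (pref cs m)))))).Finite := by
    refine Set.Finite.biUnion (Finset.finite_toSet _) fun m _ => ?_
    have hf := Tree_S_finite (pref cs m)
    exact (Set.Finite.biUnion (Finset.finite_toSet _) fun j _ => Tree_S_finite _).union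
      (((hf.image _).union (hf.image _)).union
        (((hf.image _).union (hf.image _)).union ((hf.image _).union (hf.image _))))
  have hle := (Set.ncard_le_ncard (Tree_U_sub cs M) hfin).trans
    (Finset.set_ncard_biUnion_le _ _)
  have hcast : ((TreeU cs M).ncard : ℝ) ≤ _ := Nat.cast_le.2 hle
  rw [Nat.cast_sum] at hcast
  refine hcast.trans ?_
  have hterm : ∀ m ∈ Finset.range (M + 1),
      ((((⋃ j ∈ Finset.range (m + 1), TreeS (TreeW cs m j)) ∪
      (((List.cons true '' TreeS (pref cs m)) ∪ (List.cons false '' TreeS (pref cs m))) ∪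
      (((fun u => true :: true :: u) '' TreeS (pref cs m) ∪
        (fun u => true :: false :: u) '' TreeS (pref cs m)) ∪
      ((fun u => false :: true :: u) '' TreeS (pref cs m) ∪
        (fun u => false :: false :: u) '' TreeS (pref cs m)))) : Set (List Bool)).ncard : ℕ) : ℝ)
        ≤ (C * (lam / (lam - 1)) + 6 * C) * lam ^ m := by
    intro m _
    have hf := Tree_S_finite (pref cs m)
    have hlen : (pref cs m).length = m := by simp [pref]
    have hSm := hS (pref cs m)
    rw [hlen] at hSm
    have hI : ∀ f : List Bool → List Bool, (((f '' TreeS (pref cs m)).ncard : ℕ) : ℝ) ≤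
        C * lam ^ m := fun f =>
      (Nat.cast_le.2 (Set.ncard_image_le hf)).trans hSm
    have hA : (((⋃ j ∈ Finset.range (m + 1), TreeS (TreeW cs m j)) : Set (List Bool)).ncard : ℝ) ≤
        C * (lam / (lam - 1)) * lam ^ m := by
      have h2 : (((⋃ j ∈ Finset.range (m + 1), TreeS (TreeW cs m j)) :
          Set (List Bool)).ncard : ℝ) ≤ _ := Nat.cast_le.2 (Finset.set_ncard_biUnion_le _ _)
      rw [Nat.cast_sum] at h2
      refine h2.trans ?_
      calc ∑ j ∈ Finset.range (m + 1), ((TreeS (TreeW cs m j)).ncard : ℝ)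
          ≤ ∑ j ∈ Finset.range (m + 1), C * lam ^ j := by
            refine Finset.sum_le_sum fun j _ => ?_
            have h3 := hS (TreeW cs m j)
            have h4 : (TreeW cs m j).length = j := by simp [TreeW]
            rwa [h4] at h3
        _ = C * ∑ j ∈ Finset.range (m + 1), lam ^ j := by rw [Finset.mul_sum]
        _ ≤ C * (lam / (lam - 1) * lam ^ m) :=
            mul_le_mul_of_nonneg_left (Tree_geom lam h1 m) hC.le
        _ = C * (lam / (lam - 1)) * lam ^ m := by ring
    have hU : ∀ A B : Set (List Bool), (((A ∪ B).ncard : ℕ) : ℝ) ≤ (A.ncard : ℝ) + (B.ncard : ℝ) :=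
      fun A B => by exact_mod_cast Set.ncard_union_le A B
    have e1 := hU (⋃ j ∈ Finset.range (m + 1), TreeS (TreeW cs m j))
      (((List.cons true '' TreeS (pref cs m)) ∪ (List.cons false '' TreeS (pref cs m))) ∪
      (((fun u => true :: true :: u) '' TreeS (pref cs m) ∪
        (fun u => true :: false :: u) '' TreeS (pref cs m)) ∪
      ((fun u => false :: true :: u) '' TreeS (pref cs m) ∪
        (fun u => false :: false :: u) '' TreeS (pref cs m))))
    have e2 := hU ((List.cons true '' TreeS (pref cs m)) ∪ (List.cons false '' TreeS (pref cs m)))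
      (((fun u => true :: true :: u) '' TreeS (pref cs m) ∪
        (fun u => true :: false :: u) '' TreeS (pref cs m)) ∪
      ((fun u => false :: true :: u) '' TreeS (pref cs m) ∪
        (fun u => false :: false :: u) '' TreeS (pref cs m)))
    have e3 := hU (List.cons true '' TreeS (pref cs m)) (List.cons false '' TreeS (pref cs m))
    have e4 := hU ((fun u => true :: true :: u) '' TreeS (pref cs m) ∪
        (fun u => true :: false :: u) '' TreeS (pref cs m))
      ((fun u => false :: true :: u) '' TreeS (pref cs m) ∪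
        (fun u => false :: false :: u) '' TreeS (pref cs m))
    have e5 := hU ((fun u => true :: true :: u) '' TreeS (pref cs m))
        ((fun u => true :: false :: u) '' TreeS (pref cs m))
    have e6 := hU ((fun u => false :: true :: u) '' TreeS (pref cs m))
        ((fun u => false :: false :: u) '' TreeS (pref cs m))
    have i1 := hI (List.cons true)
    have i2 := hI (List.cons false)
    have i3 := hI (fun u => true :: true :: u)
    have i4 := hI (fun u => true :: false :: u)
    have i5 := hI (fun u => false :: true :: u)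
    have i6 := hI (fun u => false :: false :: u)
    have e7 : (C * (lam / (lam - 1)) + 6 * C) * lam ^ m =
        C * (lam / (lam - 1)) * lam ^ m + 6 * (C * lam ^ m) := by ring
    rw [e7]
    linarith
  calc _ ≤ ∑ m ∈ Finset.range (M + 1), (C * (lam / (lam - 1)) + 6 * C) * lam ^ m :=
        Finset.sum_le_sum hterm
    _ = (C * (lam / (lam - 1)) + 6 * C) * ∑ m ∈ Finset.range (M + 1), lam ^ m := by
        rw [Finset.mul_sum]
    _ ≤ (C * (lam / (lam - 1)) + 6 * C) * (lam / (lam - 1) * lam ^ M) := by
        refine mul_le_mul_of_nonneg_left (Tree_geom lam h1 M) ?_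
        have : 0 ≤ lam / (lam - 1) := div_nonneg (by linarith) (by linarith)
        positivity
    _ = _ := by ring

theorem ncard_vecSet (lam : ℝ) (h0 : 0 < lam) (h : lam ^ 4 = 2 * lam + 1) :
    ∃ C : ℝ, 0 < C ∧ ∀ (cs : ℕ → Bool) (M : ℕ), ((vecSet cs M).ncard : ℝ) ≤ C * lam ^ M := by
  have h1 : 1 < lam := by
    by_contra hc
    have h2 : lam ^ 4 ≤ 1 := pow_le_one₀ h0.le (not_lt.1 hc)
    linarith
  obtain ⟨C, hC, hS⟩ := ncard_unsync lam h0 h
  have hD : 0 ≤ lam / (lam - 1) := div_nonneg (by linarith) (by linarith)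
  set K : ℝ := (C * (lam / (lam - 1)) + 6 * C) * (lam / (lam - 1)) with hK
  have hK0 : 0 ≤ K := by rw [hK]; positivity
  refine ⟨1 + 2 * K, by positivity, fun cs M => ?_⟩
  have hU := Tree_ncard_U lam h1 C hC hS cs M
  rw [← hK] at hU
  have hf := Tree_U_finite cs M
  have hfin : ({[]} ∪ (List.cons true '' TreeU cs M ∪ List.cons false '' TreeU cs M)).Finite :=
    (Set.finite_singleton _).union ((hf.image _).union (hf.image _))
  have e1 : (vecSet cs M).ncard ≤
      ({[]} ∪ (List.cons true '' TreeU cs M ∪ List.cons false '' TreeU cs M)).ncard :=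
    (Set.ncard_le_ncard (Tree_cover cs M) (hfin.image _)).trans (Set.ncard_image_le hfin)
  have e2 : ({[]} ∪ (List.cons true '' TreeU cs M ∪ List.cons false '' TreeU cs M)).ncard ≤
      1 + ((TreeU cs M).ncard + (TreeU cs M).ncard) := by
    refine (Set.ncard_union_le _ _).trans ?_
    rw [Set.ncard_singleton]
    refine Nat.add_le_add_left ((Set.ncard_union_le _ _).trans ?_) 1
    exact Nat.add_le_add (Set.ncard_image_le hf) (Set.ncard_image_le hf)
  have e3 : ((vecSet cs M).ncard : ℝ) ≤ 1 + ((TreeU cs M).ncard + (TreeU cs M).ncard) := by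
    exact_mod_cast e1.trans e2
  have e4 : 1 ≤ lam ^ M := one_le_pow₀ h1.le
  calc ((vecSet cs M).ncard : ℝ) ≤ 1 + ((TreeU cs M).ncard + (TreeU cs M).ncard) := e3
    _ ≤ 1 * lam ^ M + (K * lam ^ M + K * lam ^ M) := by linarith
    _ = (1 + 2 * K) * lam ^ M := by ring

end Pool.H99.Trib
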