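import Pool.Agent.H99.Trib.LowCert
import Pool.Agent.H99.Trib.Tree

/-!
# Lower bound for `c = W (L+3) + W (L+2) + W L`
-/

namespace Pool.H99.Trib

/-- the digits `1101` followed by zeros -/
def csU (i : ℕ) : Bool := [true, true, false, true].getD i false

/-- binary code of a window -/
def winCode (w : List Bool) : ℕ := w.foldl (fun n b => 2 * n + b.toNat) 0

theorem Lower_testBit_foldl (l : List ℕ) (f : ℕ → ℕ) (a k : ℕ) :
    (l.foldl (fun acc y => acc ||| f y) a).testBit k = (a.testBit k || l.any fun y => (f y).testBit k) := by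
  induction l generalizing a with
  | nil => simp
  | cons y l ih =>
    rw [List.foldl_cons, ih, Nat.testBit_or, List.any_cons, Bool.or_assoc]

theorem Lower_premask (m a : ℕ) (y : Q) : (premask m a).testBit y.val = m.testBit (dl y a).val := by
  unfold premask
  rw [Lower_testBit_foldl]
  have hy : Fin.ofNat 35 (y : ℕ) = y := by ext; simp
  rw [Bool.eq_iff_iff]
  simp only [Nat.zero_testBit, Bool.false_or, List.any_eq_true, List.mem_range]
  constructor
  · rintro ⟨z, hz, h⟩
    split_ifs at h with h1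
    · rw [Nat.testBit_two_pow] at h
      have : z = (y : ℕ) := by simpa using h
      rw [this, hy] at h1
      exact h1
    · simp at h
  · intro h
    refine ⟨y, y.2, ?_⟩
    rw [hy, if_pos h, Nat.testBit_two_pow]
    simp

theorem Lower_mask0 (y : Q) : mask0.testBit y.val = decide (dls y (bits suf0) = 7) := by
  unfold mask0
  rw [Lower_testBit_foldl]
  have hy : Fin.ofNat 35 (y : ℕ) = y := by ext; simp
  rw [Bool.eq_iff_iff]
  simp only [Nat.zero_testBit, Bool.false_or, List.any_eq_true, List.mem_range, decide_eq_true_eq]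
  constructor
  · rintro ⟨z, hz, h⟩
    split_ifs at h with h1
    · rw [Nat.testBit_two_pow] at h
      have : z = (y : ℕ) := by simpa using h
      rw [this, hy] at h1
      exact h1
    · simp at h
  · intro h
    refine ⟨y, y.2, ?_⟩
    rw [hy, if_pos h, Nat.testBit_two_pow]
    simp

theorem Lower_clsMask (c d : ℕ) (h : (clsMask c).testBit d = true) : d ∈ clsNext c := by
  unfold clsMask at h
  rw [Lower_testBit_foldl] at h
  simp only [Nat.zero_testBit, Bool.false_or, List.any_eq_true] at h
  obtain ⟨y, hy, h⟩ := h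
  rw [Nat.testBit_two_pow] at h
  have : y = d := by simpa using h
  rw [← this]; exact hy

theorem Lower_img (m : ℕ) (o : Bool) (d : ℕ) (h : (img m o).testBit d = true) :
    ∃ c, c < 56 ∧ m.testBit c = true ∧ clsOut c = o ∧ d ∈ clsNext c := by
  unfold img at h
  rw [Lower_testBit_foldl] at h
  simp only [Nat.zero_testBit, Bool.false_or, List.any_eq_true, List.mem_range] at h
  obtain ⟨c, hc, h⟩ := h
  split_ifs at h with h1
  · simp only [Bool.and_eq_true, beq_iff_eq] at h1
    exact ⟨c, hc, h1.1, h1.2, Lower_clsMask c d h⟩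
  · simp at h

/-- local state of a word -/
def Loc (x : List Bool) (t : ℕ) (r : ℕ × ℕ) : Prop :=
  ∃ wl sf : List Bool, x = wl ++ sf ∧ wl.length = 7 ∧ sf.length = t ∧
    (∀ y : Q, dls y (bits sf) = if r.1.testBit y.val then 7 else 4) ∧ r.2 = winCode wl

theorem Lower_len7 {wl : List Bool} (h : wl.length = 7) :
    ∃ a6 a5 a4 a3 a2 a1 a0, wl = [a6, a5, a4, a3, a2, a1, a0] := by
  match wl, h with
  | [a6, a5, a4, a3, a2, a1, a0], _ => exact ⟨a6, a5, a4, a3, a2, a1, a0, rfl⟩

theorem Lower_wbits : ∀ a6 a5 a4 a3 a2 a1 a0 : Bool,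
    wbit (winCode [a6, a5, a4, a3, a2, a1, a0]) 0 = a0.toNat ∧
    wbit (winCode [a6, a5, a4, a3, a2, a1, a0]) 6 = a6.toNat ∧
    wbit (winCode [a6, a5, a4, a3, a2, a1, a0]) 5 = a5.toNat ∧
    (∀ b : Bool, wcons b (winCode [a6, a5, a4, a3, a2, a1, a0]) =
      winCode [b, a6, a5, a4, a3, a2, a1]) ∧
    winState (winCode [a6, a5, a4, a3, a2, a1, a0]) = dls (dls 0 (bits [a6, a5, a4]))
      [a3.toNat + 1, a2.toNat + 1, a1.toNat, a0.toNat + 1] := by
  decide +kernel

theorem Lower_pref (n : ℕ) : pref csU (4 + n) = [true, true, false, true] ++ List.replicate n false := by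
  induction n with
  | zero => decide
  | succ n ih =>
    rw [← add_assoc, Vectors_pref_succ, ih, List.append_assoc, List.replicate_succ']
    congr 2
    have : csU (4 + n) = false := by
      unfold csU
      simp
    rw [this]

theorem Lower_zs_zero (u : List Bool) : zs u (List.replicate u.length false) = bits u := by
  induction u with
  | nil => rfl
  | cons a u ih =>
    simp only [zs, bits, List.length_cons, List.replicate_succ, List.zipWith_cons_cons,
      List.map_cons] at ih ⊢
    rw [ih]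
    simp

/-- the entry number `4 + t` of the vector, from the local state -/
theorem Lower_vec {x : List Bool} {t : ℕ} {r : ℕ × ℕ} (h : Loc x t r) :
    vec csU x (4 + t) = if r.1.testBit (winState r.2).val then 7 else 4 := by
  obtain ⟨wl, sf, rfl, hwl, hsf, hm, hr⟩ := h
  obtain ⟨a6, a5, a4, a3, a2, a1, a0, rfl⟩ := Lower_len7 hwl
  have h1 := vec_append_of_ge csU [] ([a6, a5, a4, a3, a2, a1, a0] ++ sf) (m := 4 + t)
    (by simp [hsf]; omega)
  rw [List.nil_append] at h1
  rw [h1]
  have hl : ([a6, a5, a4, a3, a2, a1, a0] ++ sf).length - (4 + t) = 3 := by simp [hsf]; omega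
  rw [hl]
  have e1 : ([a6, a5, a4, a3, a2, a1, a0] ++ sf).take 3 = [a6, a5, a4] := by simp
  have e2 : ([a6, a5, a4, a3, a2, a1, a0] ++ sf).drop 3 = [a3, a2, a1, a0] ++ sf := by simp
  rw [e1, e2, Lower_pref, List.nil_append]
  have e3 : zs ([a3, a2, a1, a0] ++ sf) ([true, true, false, true] ++ List.replicate t false) =
      [a3.toNat + 1, a2.toNat + 1, a1.toNat, a0.toNat + 1] ++ bits sf := by
    have := Lower_zs_zero sf
    rw [hsf] at this
    simp only [zs] at this
    simp [zs, this]
  rw [e3, dls_append, ← (Lower_wbits a6 a5 a4 a3 a2 a1 a0).2.2.2.2, hm, hr]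

theorem Lower_valid_cons {wl sf : List Bool} {a6 a5 b : Bool} (h : Valid (a6 :: a5 :: wl ++ sf))
    (hb : ¬ (b = true ∧ a6 = true ∧ a5 = true)) : Valid (b :: (a6 :: a5 :: wl ++ sf)) := by
  intro h1
  rw [List.infix_cons_iff] at h1
  rcases h1 with h1 | h1
  · simp only [List.cons_append, List.cons_prefix_cons] at h1
    exact hb ⟨h1.1.symm, h1.2.1.symm, h1.2.2.1.symm⟩
  · exact h h1

/-- prepending a digit -/
theorem Lower_step {x : List Bool} {t : ℕ} {c c' : ℕ} {r : ℕ × ℕ} (hx : Valid x)
    (h : Loc x t r) (hc : c < 56) (hr : r ∈ clsRaw c) (hc' : c' ∈ clsNext c) :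
    (r.1.testBit (winState r.2).val = clsOut c) ∧
    ∃ b r', Valid (b :: x) ∧ Loc (b :: x) (t + 1) r' ∧ r' ∈ clsRaw c' := by
  have h1 := ncls_ok
  rw [List.all_eq_true] at h1
  have h2 := h1 c (by simpa using hc)
  rw [List.all_eq_true] at h2
  have h3 := h2 r hr
  simp only [rawOK, Bool.and_eq_true, decide_eq_true_eq, List.all_eq_true, List.any_eq_true] at h3
  obtain ⟨⟨-, h4⟩, h5⟩ := h3
  refine ⟨h4, ?_⟩
  obtain ⟨b, -, h6, h7⟩ := h5 c' hc'
  refine ⟨b, _, ?_, ?_, h7⟩
  · obtain ⟨wl, sf, rfl, hwl, hsf, hm, hr⟩ := h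
    obtain ⟨a6, a5, a4, a3, a2, a1, a0, rfl⟩ := Lower_len7 hwl
    refine Lower_valid_cons hx ?_
    rintro ⟨k1, k2, k3⟩
    apply h6
    rw [hr, (Lower_wbits a6 a5 a4 a3 a2 a1 a0).2.1, (Lower_wbits a6 a5 a4 a3 a2 a1 a0).2.2.1]
    simp [k1, k2, k3]
  · obtain ⟨wl, sf, rfl, hwl, hsf, hm, hr⟩ := h
    obtain ⟨a6, a5, a4, a3, a2, a1, a0, rfl⟩ := Lower_len7 hwl
    refine ⟨[b, a6, a5, a4, a3, a2, a1], a0 :: sf, by simp, rfl, by simp [hsf], ?_, ?_⟩
    · intro y
      have : bits (a0 :: sf) = a0.toNat :: bits sf := rfl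
      rw [this, dls_cons, hm, hr, (Lower_wbits a6 a5 a4 a3 a2 a1 a0).1, Lower_premask]
    · rw [hr]
      exact (Lower_wbits a6 a5 a4 a3 a2 a1 a0).2.2.2.1 b

/-- run of the determinised automaton -/
def dRun (v : ℕ) (os : List Bool) : Option ℕ := os.foldl (fun r o => r.bind fun v => dNext v o) (some v)

theorem dRun_snoc (v : ℕ) (os : List Bool) (o : Bool) :
    dRun v (os ++ [o]) = (dRun v os).bind fun v => dNext v o := by
  simp [dRun, List.foldl_append]

theorem Lower_dfa {v : ℕ} (hv : v < 107) (o : Bool) {v' : ℕ} (h : dNext v o = some v') :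
    v' < 107 ∧ ∀ c', (dMask v').testBit c' = true →
      ∃ c, c < 56 ∧ (dMask v).testBit c = true ∧ clsOut c = o ∧ c' ∈ clsNext c := by
  have h1 := dfa_ok
  rw [List.all_eq_true] at h1
  have h2 := h1 v (by simpa using hv)
  simp only [dfaOK, Bool.and_eq_true, decide_eq_true_eq] at h2
  have h3 := (List.all_eq_true.1 h2.1.1.1.1) o (by cases o <;> simp)
  rw [h] at h3
  simp only [Bool.and_eq_true, decide_eq_true_eq] at h3
  refine ⟨h3.1, fun c' hc' => ?_⟩
  rw [← h3.2, Nat.testBit_and, Bool.and_eq_true] at hc'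
  exact Lower_img _ _ _ hc'.2

theorem realize (os : List Bool) : ∀ v, dRun 0 os = some v → v < 107 ∧
    ∀ c, (dMask v).testBit c = true → ∃ x r, Valid x ∧ r ∈ clsRaw c ∧ Loc x (9 + os.length) r ∧
      ∀ i, i < os.length → vec csU x (4 + (9 + i)) = if os.getD i false then 7 else 4 := by
  induction os using List.reverseRecOn with
  | nil =>
    intro v hv
    have : v = 0 := by simpa [dRun] using hv.symm
    subst this
    refine ⟨by norm_num, fun c hc => ?_⟩
    rw [dMask_zero, Nat.testBit_two_pow] at hc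
    have hc' : c = 9 := by
      have h9 : 9 = c := by simpa using hc
      exact h9.symm
    subst hc'
    refine ⟨win0 ++ suf0, (mask0, 73), ?_, start_ok.2, ⟨win0, suf0, rfl, rfl, rfl, ?_, by decide⟩,
      fun i hi => by simp at hi⟩
    · unfold Valid; decide
    · intro y
      rw [Lower_mask0]
      rcases start_ok.1 y with h | h
      · simp [h]
      · have : ¬ ((4 : Q) = 7) := by decide
        simp [h, this]
  | append_singleton os o ih =>
    intro v' hv'
    rw [dRun_snoc] at hv'
    cases hr : dRun 0 os with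
    | none => simp [hr] at hv'
    | some v =>
      rw [hr] at hv'
      have hn : dNext v o = some v' := by simpa using hv'
      obtain ⟨hv, ih⟩ := ih v hr
      obtain ⟨hv1, hd⟩ := Lower_dfa hv o hn
      refine ⟨hv1, fun c' hc' => ?_⟩
      obtain ⟨c, hc, hmc, hout, hnext⟩ := hd c' hc'
      obtain ⟨x, r, hx, hr, hloc, hvec⟩ := ih c hmc
      obtain ⟨hbit, b, r', hx', hloc', hr'⟩ := Lower_step hx hloc hc hr hnext
      have hlen : x.length = 16 + os.length := by
        obtain ⟨wl, sf, rfl, h1, h2, -⟩ := hloc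
        simp [h1, h2]; omega
      refine ⟨b :: x, r', hx', hr', by simpa [add_assoc] using hloc', fun i hi => ?_⟩
      have hi' : i ≤ os.length := by simp at hi; omega
      have key : vec csU (b :: x) (4 + (9 + i)) = vec csU x (4 + (9 + i)) := by
        have := Tree_high csU (y := [b]) (y' := []) (u := x) (m := 4 + (9 + i)) (by omega)
          (by simpa using hx') (by simpa using hx)
        simpa using this
      rw [key]
      rcases lt_or_eq_of_le hi' with h1 | h1
      · rw [hvec i h1]
        congr 2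
        rw [List.getD_append _ _ _ _ h1]
      · rw [h1, Lower_vec hloc, hbit, hout]
        congr 2
        simp

end Pool.H99.Trib
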