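import Pool.Agent.H99.Trib.Lower
import Pool.Agent.H99.Trib.Complexity

/-!
# Lower bound for `c = W (L+3) + W (L+2) + W L`: counting
-/

namespace Pool.H99.Trib

set_option maxRecDepth 100000 in
theorem Lower2_mask_ok : ((List.range 107).all fun v =>
    (List.range 56).any fun c => (dMask v).testBit c) = true := by
  decide +kernel

/-- every state of the determinised automaton contains a class -/
theorem dMask_ne (v : ℕ) (hv : v < 107) : ∃ c, c < 56 ∧ (dMask v).testBit c = true := by
  have h := Lower2_mask_ok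
  rw [List.all_eq_true] at h
  have h1 := h v (by simpa using hv)
  rw [List.any_eq_true] at h1
  obtain ⟨c, hc, h2⟩ := h1
  exact ⟨c, by simpa using hc, h2⟩

/-- all binary words of length `t` -/
def Lower2_B : ℕ → Finset (List Bool)
  | 0 => {[]}
  | t + 1 => (Lower2_B t).image (fun os => os ++ [false]) ∪
      (Lower2_B t).image (fun os => os ++ [true])

/-- the weight of a word -/
def Lower2_wt (os : List Bool) : ℕ := (dRun 0 os).elim 0 dW

theorem Lower2_len (t : ℕ) : ∀ os ∈ Lower2_B t, os.length = t := by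
  induction t with
  | zero =>
    intro os hos
    rw [Lower2_B, Finset.mem_singleton] at hos
    rw [hos]
    rfl
  | succ t ih =>
    intro os hos
    rw [Lower2_B, Finset.mem_union, Finset.mem_image, Finset.mem_image] at hos
    rcases hos with ⟨w, hw, rfl⟩ | ⟨w, hw, rfl⟩
    · rw [List.length_append, ih w hw]
      rfl
    · rw [List.length_append, ih w hw]
      rfl

theorem Lower2_step (os : List Bool) : 13679 * Lower2_wt os ≤
    10000 * (Lower2_wt (os ++ [false]) + Lower2_wt (os ++ [true])) := by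
  unfold Lower2_wt
  rw [dRun_snoc, dRun_snoc]
  cases h : dRun 0 os with
  | none => simp
  | some v =>
    have hv := (realize os v h).1
    have h1 := dfa_ok
    rw [List.all_eq_true] at h1
    have h2 := h1 v (by simpa using hv)
    simp only [dfaOK, Bool.and_eq_true, decide_eq_true_eq] at h2
    exact h2.1.1.1.2

theorem Lower2_wt_le (os : List Bool) : Lower2_wt os ≤ 10 ^ 7 := by
  unfold Lower2_wt
  cases h : dRun 0 os with
  | none => simp
  | some v =>
    have hv := (realize os v h).1
    have h1 := dfa_ok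
    rw [List.all_eq_true] at h1
    have h2 := h1 v (by simpa using hv)
    simp only [dfaOK, Bool.and_eq_true, decide_eq_true_eq] at h2
    exact h2.1.2

theorem Lower2_inj (b : Bool) : Function.Injective fun os : List Bool => os ++ [b] := by
  intro u v h
  exact (List.append_inj' h rfl).1

theorem Lower2_sum (t : ℕ) :
    13679 ^ t * dW 0 ≤ 10000 ^ t * ∑ os ∈ Lower2_B t, Lower2_wt os := by
  induction t with
  | zero =>
    rw [Lower2_B, Finset.sum_singleton, pow_zero, pow_zero, one_mul, one_mul]
    exact le_of_eq rfl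
  | succ t ih =>
    have hdis : Disjoint ((Lower2_B t).image (fun os => os ++ [false]))
        ((Lower2_B t).image (fun os => os ++ [true])) := by
      rw [Finset.disjoint_left]
      intro x hx hy
      rw [Finset.mem_image] at hx hy
      obtain ⟨u, -, rfl⟩ := hx
      obtain ⟨v, -, hv⟩ := hy
      have := (List.append_inj' hv rfl).2
      simp at this
    have e : ∑ os ∈ Lower2_B (t + 1), Lower2_wt os =
        ∑ os ∈ Lower2_B t, (Lower2_wt (os ++ [false]) + Lower2_wt (os ++ [true])) := by
      rw [Lower2_B, Finset.sum_union hdis,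
        Finset.sum_image (fun u _ v _ h => Lower2_inj false h),
        Finset.sum_image (fun u _ v _ h => Lower2_inj true h), Finset.sum_add_distrib]
    rw [e]
    have h1 : 13679 * ∑ os ∈ Lower2_B t, Lower2_wt os ≤
        10000 * ∑ os ∈ Lower2_B t, (Lower2_wt (os ++ [false]) + Lower2_wt (os ++ [true])) := by
      rw [Finset.mul_sum, Finset.mul_sum]
      exact Finset.sum_le_sum fun os _ => Lower2_step os
    calc 13679 ^ (t + 1) * dW 0 = 13679 * (13679 ^ t * dW 0) := by ring
      _ ≤ 13679 * (10000 ^ t * ∑ os ∈ Lower2_B t, Lower2_wt os) := Nat.mul_le_mul_left _ ih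
      _ = 10000 ^ t * (13679 * ∑ os ∈ Lower2_B t, Lower2_wt os) := by ring
      _ ≤ 10000 ^ t * (10000 * ∑ os ∈ Lower2_B t,
          (Lower2_wt (os ++ [false]) + Lower2_wt (os ++ [true]))) := Nat.mul_le_mul_left _ h1
      _ = _ := by ring

/-- many label words: at least `(13679/10000)^t * dW 0 / 10^7` -/
theorem label_words (t : ℕ) : ∃ A : Finset (List Bool), (∀ os ∈ A, os.length = t ∧ ∃ v, dRun 0 os = some v) ∧
    (13679 / 10000 : ℝ) ^ t * dW 0 ≤ 10 ^ 7 * (A.card : ℝ) := by
  refine ⟨(Lower2_B t).filter fun os => (dRun 0 os).isSome = true, ?_, ?_⟩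
  · intro os hos
    rw [Finset.mem_filter] at hos
    exact ⟨Lower2_len t os hos.1, Option.isSome_iff_exists.1 hos.2⟩
  · have h1 : ∑ os ∈ Lower2_B t, Lower2_wt os =
        ∑ os ∈ (Lower2_B t).filter (fun os => (dRun 0 os).isSome = true), Lower2_wt os := by
      symm
      apply Finset.sum_filter_of_ne
      intro os _ hne
      unfold Lower2_wt at hne
      cases h : dRun 0 os with
      | none =>
        rw [h] at hne
        exact absurd rfl hne
      | some v => rfl
    have h2 : ∑ os ∈ (Lower2_B t).filter (fun os => (dRun 0 os).isSome = true), Lower2_wt os ≤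
        ((Lower2_B t).filter (fun os => (dRun 0 os).isSome = true)).card * 10 ^ 7 := by
      rw [← smul_eq_mul]
      exact Finset.sum_le_card_nsmul _ _ _ fun os _ => Lower2_wt_le os
    have h3 := Lower2_sum t
    rw [h1] at h3
    have h4 := h3.trans (Nat.mul_le_mul_left _ h2)
    have h5 : (13679 : ℝ) ^ t * dW 0 ≤ 10000 ^ t *
        (((Lower2_B t).filter (fun os => (dRun 0 os).isSome = true)).card * 10 ^ 7) := by
      exact_mod_cast h4
    rw [div_pow, div_mul_eq_mul_div, div_le_iff₀ (by positivity)]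
    linarith

/-- distinguishing words `0, 01, 011, 0110, ...` -/
def dw (l : ℕ) : List Bool := (List.range l).map fun i => decide (i % 3 ≠ 0)

theorem dw_length (l : ℕ) : (dw l).length = l := by
  simp [dw]

theorem Lower2_dw_add (l : ℕ) : dw (3 + l) = [false, true, true] ++ dw l := by
  unfold dw
  rw [List.range_add, List.map_append]
  congr 1
  rw [List.map_map]
  apply List.map_congr_left
  intro i _
  simp

theorem Lower2_dw_succ (l : ℕ) : dw (l + 1) = dw l ++ [decide (l % 3 ≠ 0)] := by
  unfold dw
  rw [List.range_succ, List.map_append]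
  rfl

theorem dw_out (l : ℕ) : ou (dls 4 (bits (dw l))) ≠ ou (dls 7 (bits (dw l))) := by
  induction l using Nat.strong_induction_on with
  | _ l ih =>
    match l, ih with
    | 0, _ => decide
    | 1, _ => decide
    | 2, _ => decide
    | (l + 3), ih =>
      have h4 : dls 4 (bits [false, true, true]) = 4 := by decide
      have h7 : dls 7 (bits [false, true, true]) = 7 := by decide
      have hb : bits (dw (l + 3)) = bits [false, true, true] ++ bits (dw l) := by
        rw [add_comm, Lower2_dw_add]
        unfold bits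
        rw [List.map_append]
      rw [hb, dls_append, dls_append, h4, h7]
      exact ih l (by omega)

theorem Lower2_last {t x : List Bool} {b : Bool} (h : t ++ [true] = x ++ [b]) : b = true := by
  have := (List.append_inj' h rfl).2
  simpa using this.symm

theorem valid_dw {x : List Bool} (h : Valid x) (l : ℕ) : Valid (x ++ dw l) := by
  induction l with
  | zero =>
    have : dw 0 = [] := rfl
    rw [this, List.append_nil]
    exact h
  | succ l ih =>
    rw [Lower2_dw_succ, ← List.append_assoc]
    refine Complexity_valid_snoc ih ?_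
    rintro ⟨⟨t, ht⟩, hb⟩
    rw [decide_eq_true_eq] at hb
    have e : t ++ [true, true] = (t ++ [true]) ++ [true] := by simp
    rw [e] at ht
    obtain ⟨k, rfl⟩ : ∃ k, l = k + 1 := ⟨l - 1, by omega⟩
    rw [Lower2_dw_succ, ← List.append_assoc] at ht
    have h1 := Lower2_last ht
    rw [decide_eq_true_eq] at h1
    have ht2 := (List.append_inj' ht rfl).1
    obtain ⟨j, rfl⟩ : ∃ j, k = j + 1 := ⟨k - 1, by omega⟩
    rw [Lower2_dw_succ, ← List.append_assoc] at ht2
    have h2 := Lower2_last ht2
    rw [decide_eq_true_eq] at h2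
    omega

/-- the number whose digits are `1101` followed by `L` zeros -/
theorem Lower2_value_zero (L : ℕ) : value (List.replicate L false) = 0 := by
  induction L with
  | zero => rfl
  | succ L ih =>
    rw [List.replicate_succ]
    simp [value, ih]

theorem value_pref (L : ℕ) : value (pref csU (4 + L)) = W (L + 3) + W (L + 2) + W L := by
  rw [Lower_pref]
  simp only [List.cons_append, List.nil_append, value, List.length_cons, List.length_replicate,
    Bool.toNat_true, Bool.toNat_false, Lower2_value_zero, one_mul, zero_mul, zero_add, add_zero]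
  have e1 : L + 1 + 1 + 1 = L + 3 := rfl
  have e2 : L + 1 + 1 = L + 2 := rfl
  rw [e1, e2]
  omega


theorem Lower2_dW0 : dW 0 = 368123 := by decide +kernel

theorem Lower2_one_le_s (c : ℕ) : 1 ≤ s c := by
  have h := le_s c {[]} (by
    intro x hx
    rw [Finset.mem_singleton] at hx
    rw [hx]
    exact Complexity_valid_nil) (by
    intro x hx y hy hne
    rw [Finset.mem_singleton] at hx hy
    exact absurd (hx.trans hy.symm) hne)
  simpa using h

/-- the output at the end of a word followed by a distinguishing word -/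
theorem Lower2_out (L i : ℕ) (hi : i < L - 9) (x : List Bool) :
    tribWord (value (x ++ dw (L - 9 - i)) + (W (L + 3) + W (L + 2) + W L)) =
      ou (dls (vec csU x (4 + (9 + i))) (bits (dw (L - 9 - i)))) := by
  have hl := dw_length (L - 9 - i)
  rw [← value_pref, ← ou_vec, vec_append_of_le csU x (dw (L - 9 - i)) (m := 4 + L) (by omega)]
  have h1 : 4 + L - (dw (L - 9 - i)).length = 4 + (9 + i) := by omega
  rw [h1]
  have h2 : (List.range (dw (L - 9 - i)).length).map (fun j => csU (4 + (9 + i) + j)) =
      List.replicate (dw (L - 9 - i)).length false := by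
    rw [List.eq_replicate_iff]
    refine ⟨by simp, fun b hb => ?_⟩
    rw [List.mem_map] at hb
    obtain ⟨j, -, rfl⟩ := hb
    unfold csU
    have : 4 + (9 + i) + j = (9 + i + j) + 4 := by omega
    rw [this]
    simp
  rw [h2, Lower_zs_zero]

/-- lower bound by the number of label words -/
theorem Lower2_card (L : ℕ) (A : Finset (List Bool))
    (hA : ∀ os ∈ A, os.length = L - 9 ∧ ∃ v, dRun 0 os = some v) :
    A.card ≤ s (W (L + 3) + W (L + 2) + W L) := by
  classical
  have hex : ∀ os ∈ A, ∃ x, Valid x ∧ ∀ i, i < L - 9 →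
      vec csU x (4 + (9 + i)) = if os.getD i false then 7 else 4 := by
    intro os hos
    obtain ⟨hl, v, hv⟩ := hA os hos
    obtain ⟨hv1, h⟩ := realize os v hv
    obtain ⟨c, -, hc⟩ := dMask_ne v hv1
    obtain ⟨x, r, hx, -, -, hvec⟩ := h c hc
    exact ⟨x, hx, fun i hi => hvec i (by omega)⟩
  choose! f hf1 hf2 using hex
  have hdist : ∀ os ∈ A, ∀ os' ∈ A, os ≠ os' → ∃ i, i < L - 9 ∧
      os.getD i false ≠ os'.getD i false := by
    intro os hos os' hos' hne
    by_contra hcon
    push Not at hcon
    apply hne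
    apply List.ext_getElem
    · rw [(hA os hos).1, (hA os' hos').1]
    · intro i h1 h2
      have h3 := hcon i (by rw [← (hA os hos).1]; exact h1)
      rwa [List.getD_eq_getElem _ _ h1, List.getD_eq_getElem _ _ h2] at h3
  have h74 : ((7 : Q) = 4) = False := by
    rw [eq_iff_iff, iff_false]
    decide
  have h47 : ((4 : Q) = 7) = False := by
    rw [eq_iff_iff, iff_false]
    decide
  have hinj : Set.InjOn f (A : Set (List Bool)) := by
    intro os hos os' hos' hff
    by_contra hne
    obtain ⟨i, hi, hi2⟩ := hdist os hos os' hos' hne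
    have e1 := hf2 os hos i hi
    have e2 := hf2 os' hos' i hi
    rw [hff, e2] at e1
    cases ha : os.getD i false <;> cases hb : os'.getD i false <;>
      simp_all
  have hcard : (A.image f).card = A.card := Finset.card_image_of_injOn hinj
  rw [← hcard]
  refine le_s _ _ ?_ ?_
  · intro x hx
    rw [Finset.mem_image] at hx
    obtain ⟨os, hos, rfl⟩ := hx
    exact hf1 os hos
  · intro x hx y hy hne
    rw [Finset.mem_image] at hx hy
    obtain ⟨os, hos, rfl⟩ := hx
    obtain ⟨os', hos', rfl⟩ := hy
    have hne' : os ≠ os' := fun h => hne (by rw [h])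
    obtain ⟨i, hi, hi2⟩ := hdist os hos os' hos' hne'
    refine ⟨dw (L - 9 - i), valid_dw (hf1 os hos) _, valid_dw (hf1 os' hos') _, ?_⟩
    rw [Lower2_out L i hi, Lower2_out L i hi, hf2 os hos i hi, hf2 os' hos' i hi]
    have hd := dw_out (L - 9 - i)
    cases ha : os.getD i false <;> cases hb : os'.getD i false
    · exact absurd (ha.trans hb.symm) hi2
    · simpa using hd
    · simpa using hd.symm
    · exact absurd (ha.trans hb.symm) hi2

theorem lower : ∃ a : ℝ, 0 < a ∧ ∀ L : ℕ,
    a * (13679 / 10000 : ℝ) ^ L ≤ (s (W (L + 3) + W (L + 2) + W L) : ℝ) := by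
  refine ⟨368123 / 10 ^ 7 / (13679 / 10000) ^ 9, by positivity, fun L => ?_⟩
  rcases Nat.lt_or_ge L 9 with hL | hL
  · have h1 : (1 : ℝ) ≤ (s (W (L + 3) + W (L + 2) + W L) : ℝ) := by
      exact_mod_cast Lower2_one_le_s _
    have h2 : (13679 / 10000 : ℝ) ^ L ≤ (13679 / 10000 : ℝ) ^ 9 :=
      pow_le_pow_right₀ (by norm_num) hL.le
    refine le_trans ?_ h1
    rw [div_mul_eq_mul_div, div_le_one (by positivity)]
    calc (368123 / 10 ^ 7 : ℝ) * (13679 / 10000) ^ L ≤ 1 * (13679 / 10000) ^ 9 :=
          mul_le_mul (by norm_num) h2 (by positivity) (by norm_num)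
      _ = _ := one_mul _
  · obtain ⟨A, hA, hc⟩ := label_words (L - 9)
    have h1 : (A.card : ℝ) ≤ (s (W (L + 3) + W (L + 2) + W L) : ℝ) := by
      exact_mod_cast Lower2_card L A hA
    rw [Lower2_dW0] at hc
    have h2 : (13679 / 10000 : ℝ) ^ L = (13679 / 10000 : ℝ) ^ (L - 9) * (13679 / 10000 : ℝ) ^ 9 := by
      rw [← pow_add]
      congr 1
      omega
    have h3 : (368123 / 10 ^ 7 / (13679 / 10000) ^ 9 : ℝ) * (13679 / 10000 : ℝ) ^ L =
        (13679 / 10000 : ℝ) ^ (L - 9) * 368123 / 10 ^ 7 := by
      rw [h2]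
      field_simp
    rw [h3]
    refine le_trans ?_ h1
    rw [div_le_iff₀ (by positivity)]
    push_cast at hc
    linarith

theorem Lower2_W (k : ℕ) : (W k : ℝ) ≤ 2 * (18393 / 10000 : ℝ) ^ k := by
  induction k using Nat.strong_induction_on with
  | _ k ih =>
    match k, ih with
    | 0, _ => norm_num [W]
    | 1, _ => norm_num [W]
    | 2, _ => norm_num [W]
    | (k + 3), ih =>
      have h2 := ih (k + 2) (by omega)
      have h1 := ih (k + 1) (by omega)
      have h0 := ih k (by omega)
      have hW : (W (k + 3) : ℝ) = W (k + 2) + W (k + 1) + W k := by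
        simp only [W]
        push_cast
        ring
      have hp : (0 : ℝ) < (18393 / 10000 : ℝ) ^ k := by positivity
      rw [hW]
      rw [pow_succ] at h1
      rw [pow_add] at h2
      rw [pow_add]
      nlinarith

set_option exponentiation.threshold 600 in
theorem Lower2_num : (18393 / 10000 : ℝ) ^ ((514 : ℝ) / 1000) ≤ 13679 / 10000 := by
  have h0 : ((18393 / 10000 : ℝ) ^ 257) ≤ (13679 / 10000 : ℝ) ^ 500 := by norm_num
  have h1 : ((18393 / 10000 : ℝ) ^ ((514 : ℝ) / 1000)) ^ 500 ≤ (13679 / 10000 : ℝ) ^ 500 := by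
    rw [← Real.rpow_natCast ((18393 / 10000 : ℝ) ^ ((514 : ℝ) / 1000)) 500,
      ← Real.rpow_mul (by norm_num)]
    have h2 : ((514 : ℝ) / 1000) * ((500 : ℕ) : ℝ) = ((257 : ℕ) : ℝ) := by norm_num
    rw [h2, Real.rpow_natCast]
    exact h0
  exact (pow_le_pow_iff_left₀ (by positivity) (by norm_num) (by norm_num)).1 h1

/-- the same with a power of `c` -/
theorem lower_exp : ∃ a : ℝ, 0 < a ∧ ∀ L : ℕ,
    a * ((W (L + 3) + W (L + 2) + W L : ℕ) : ℝ) ^ ((514 : ℝ) / 1000) ≤
      (s (W (L + 3) + W (L + 2) + W L) : ℝ) := by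
  obtain ⟨a, ha, h⟩ := lower
  refine ⟨a / 22, by positivity, fun L => le_trans ?_ (h L)⟩
  have h3 := Lower2_W (L + 3)
  have h2 := Lower2_W (L + 2)
  have h0 := Lower2_W L
  have hp : (0 : ℝ) < (18393 / 10000 : ℝ) ^ L := by positivity
  have hc : ((W (L + 3) + W (L + 2) + W L : ℕ) : ℝ) ≤ 22 * (18393 / 10000 : ℝ) ^ L := by
    push_cast
    rw [pow_add] at h3 h2
    nlinarith
  have h22 : (22 : ℝ) ^ ((514 : ℝ) / 1000) ≤ 22 := by
    calc (22 : ℝ) ^ ((514 : ℝ) / 1000) ≤ (22 : ℝ) ^ (1 : ℝ) :=
          Real.rpow_le_rpow_of_exponent_le (by norm_num) (by norm_num)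
      _ = 22 := Real.rpow_one _
  have hpow : ((18393 / 10000 : ℝ) ^ L) ^ ((514 : ℝ) / 1000) ≤ (13679 / 10000 : ℝ) ^ L := by
    rw [← Real.rpow_natCast (18393 / 10000 : ℝ) L, ← Real.rpow_mul (by norm_num), mul_comm,
      Real.rpow_mul (by norm_num), Real.rpow_natCast]
    exact pow_le_pow_left₀ (by positivity) Lower2_num L
  have hle : ((W (L + 3) + W (L + 2) + W L : ℕ) : ℝ) ^ ((514 : ℝ) / 1000) ≤
      22 * (13679 / 10000 : ℝ) ^ L := by
    calc ((W (L + 3) + W (L + 2) + W L : ℕ) : ℝ) ^ ((514 : ℝ) / 1000)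
        ≤ (22 * (18393 / 10000 : ℝ) ^ L) ^ ((514 : ℝ) / 1000) :=
          Real.rpow_le_rpow (by positivity) hc (by norm_num)
      _ = (22 : ℝ) ^ ((514 : ℝ) / 1000) * ((18393 / 10000 : ℝ) ^ L) ^ ((514 : ℝ) / 1000) :=
          Real.mul_rpow (by norm_num) hp.le
      _ ≤ 22 * (13679 / 10000 : ℝ) ^ L :=
          mul_le_mul h22 hpow (by positivity) (by norm_num)
  calc a / 22 * ((W (L + 3) + W (L + 2) + W L : ℕ) : ℝ) ^ ((514 : ℝ) / 1000)
      ≤ a / 22 * (22 * (13679 / 10000 : ℝ) ^ L) := mul_le_mul_of_nonneg_left hle (by positivity)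
    _ = a * (13679 / 10000 : ℝ) ^ L := by ring

end Pool.H99.Trib
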