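import Pool.Agent.H99.Trib.Tree

namespace Pool.H99.Trib

theorem upper_beta_gt (β : ℝ) (hβ : 0 < β) (hβ3 : β ^ 3 = β ^ 2 + β + 1) : 1.8392 < β := by
  have h1 : 1 < β := by
    by_contra hc
    push Not at hc
    have h2 : β ^ 3 ≤ 1 := pow_le_one₀ hβ.le hc
    nlinarith [sq_nonneg β]
  by_contra hc
  push Not at hc
  have key : 0 ≤ (1.8392 - β) * (1.8392 ^ 2 + 1.8392 * β + β ^ 2 - 1.8392 - β - 1) := by
    apply mul_nonneg (by linarith)
    nlinarith [sq_nonneg β]
  nlinarith [key]

theorem upper_beta_lt (β : ℝ) (hβ : 0 < β) (hβ3 : β ^ 3 = β ^ 2 + β + 1) : β < 2 := by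
  by_contra hc
  push Not at hc
  have h1 : 0 ≤ (β - 2) * β ^ 2 := mul_nonneg (by linarith) (sq_nonneg β)
  nlinarith

theorem upper_lam_lt (lam : ℝ) (h0 : 0 < lam) (h : lam ^ 4 = 2 * lam + 1) : lam < 1.39534 := by
  by_contra hc
  push Not at hc
  have key : 0 ≤ (lam - 1.39534) *
      (lam ^ 3 + lam ^ 2 * 1.39534 + lam * 1.39534 ^ 2 + 1.39534 ^ 3 - 2) := by
    apply mul_nonneg (by linarith)
    have h3 : 0 < lam ^ 3 := pow_pos h0 3
    have h2 : 0 < lam ^ 2 := pow_pos h0 2
    nlinarith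
  nlinarith [key]

theorem upper_lam_gt (lam : ℝ) (h0 : 0 < lam) (h : lam ^ 4 = 2 * lam + 1) : 1 < lam := by
  by_contra hc
  push Not at hc
  have h2 : lam ^ 4 ≤ lam := by
    have h3 : lam ^ 3 ≤ 1 := pow_le_one₀ h0.le hc
    calc lam ^ 4 = lam ^ 3 * lam := by ring
      _ ≤ 1 * lam := by exact mul_le_mul_of_nonneg_right h3 h0.le
      _ = lam := one_mul _
  linarith

/-- the Tribonacci constant bounds the Tribonacci numbers on both sides -/
theorem W_bounds (β : ℝ) (hβ : 0 < β) (hβ3 : β ^ 3 = β ^ 2 + β + 1) (k : ℕ) :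
    β ^ k ≤ (W k : ℝ) ∧ (W k : ℝ) ≤ 2 * β ^ k := by
  have hg := upper_beta_gt β hβ hβ3
  have hl := upper_beta_lt β hβ hβ3
  induction k using Nat.strong_induction_on with
  | _ k ih =>
    match k, ih with
    | 0, _ => norm_num [W]
    | 1, _ =>
      simp only [W, pow_one]
      constructor
      · push_cast
        linarith
      · push_cast
        linarith
    | 2, _ =>
      simp only [W]
      constructor
      · push_cast
        nlinarith
      · push_cast
        nlinarith
    | (k + 3), ih =>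
      have h2 := ih (k + 2) (by omega)
      have h1 := ih (k + 1) (by omega)
      have h0 := ih k (by omega)
      have hrec : β ^ (k + 3) = β ^ (k + 2) + β ^ (k + 1) + β ^ k := by
        calc β ^ (k + 3) = β ^ k * β ^ 3 := by ring
          _ = β ^ k * (β ^ 2 + β + 1) := by rw [hβ3]
          _ = _ := by ring
      have hW : (W (k + 3) : ℝ) = W (k + 2) + W (k + 1) + W k := by
        simp only [W]
        push_cast
        ring
      rw [hW, hrec]
      constructor
      · linarith [h2.1, h1.1, h0.1]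
      · linarith [h2.2, h1.2, h0.2]

theorem upper_lt_W (k : ℕ) : k < W k := by
  induction k using Nat.strong_induction_on with
  | _ k ih =>
    match k, ih with
    | 0, _ => norm_num [W]
    | 1, _ => norm_num [W]
    | 2, _ => norm_num [W]
    | (k + 3), ih =>
      have h2 := ih (k + 2) (by omega)
      have h1 := ih (k + 1) (by omega)
      have h0 := ih k (by omega)
      have hW : W (k + 3) = W (k + 2) + W (k + 1) + W k := by
        simp only [W]
      omega

theorem upper_pref (w : List Bool) : pref (fun i => w.getD i false) w.length = w := by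
  unfold pref
  apply List.ext_getElem
  · simp
  · intro i h1 h2
    simp [List.getElem?_eq_getElem h2]

theorem upper (β lam : ℝ) (hβ : 0 < β) (hβ3 : β ^ 3 = β ^ 2 + β + 1) (h0 : 0 < lam)
    (h : lam ^ 4 = 2 * lam + 1) :
    ∃ C : ℝ, 0 < C ∧ ∀ c : ℕ, 1 ≤ c → (s c : ℝ) ≤ C * (c : ℝ) ^ (Real.log lam / Real.log β) := by
  obtain ⟨C, hC, hb⟩ := ncard_vecSet lam h0 h
  have hg := upper_beta_gt β hβ hβ3
  have hl := upper_lam_gt lam h0 h
  have hlogβ : 0 < Real.log β := Real.log_pos (by linarith)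
  have hlogl : 0 < Real.log lam := Real.log_pos hl
  refine ⟨C * lam, mul_pos hC h0, fun c hc => ?_⟩
  have hex : ∃ M, c < W M := ⟨c, upper_lt_W c⟩
  classical
  set M := Nat.find hex with hM
  have hM1 : c < W M := Nat.find_spec hex
  have hM0 : M ≠ 0 := by
    intro h0
    rw [h0] at hM1
    simp only [W] at hM1
    omega
  obtain ⟨k, hk⟩ := Nat.exists_eq_succ_of_ne_zero hM0
  have hkW : W k ≤ c := by
    have := Nat.find_min hex (m := k) (by omega)
    omega
  obtain ⟨w, -, hwl, hwv⟩ := exists_rep hM1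
  have h1 := s_le (fun i => w.getD i false) M
  have h2 : pref (fun i => w.getD i false) M = w := by
    rw [← hwl]
    exact upper_pref w
  rw [h2, hwv] at h1
  have h3 : (s c : ℝ) ≤ C * lam ^ M := by
    calc (s c : ℝ) ≤ ((vecSet (fun i => w.getD i false) M).ncard : ℝ) := by exact_mod_cast h1
      _ ≤ _ := hb _ _
  have hWk : β ^ k ≤ (c : ℝ) := le_trans (W_bounds β hβ hβ3 k).1 (by exact_mod_cast hkW)
  have h4 : lam ^ k ≤ (c : ℝ) ^ (Real.log lam / Real.log β) := by
    have h5 : (β ^ k) ^ (Real.log lam / Real.log β) = lam ^ k := by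
      rw [Real.rpow_def_of_pos (pow_pos hβ k), Real.log_pow]
      have : (k : ℝ) * Real.log β * (Real.log lam / Real.log β) = (k : ℝ) * Real.log lam := by
        field_simp
      rw [this, ← Real.log_pow, Real.exp_log (pow_pos h0 k)]
    rw [← h5]
    exact Real.rpow_le_rpow (pow_pos hβ k).le hWk (div_nonneg hlogl.le hlogβ.le)
  calc (s c : ℝ) ≤ C * lam ^ M := h3
    _ = C * lam * lam ^ k := by
      rw [hk, Nat.succ_eq_add_one, pow_succ]
      ring
    _ ≤ C * lam * (c : ℝ) ^ (Real.log lam / Real.log β) :=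
      mul_le_mul_of_nonneg_left h4 (mul_pos hC h0).le

/-- numerical value of the exponent -/
theorem exponent_lt (β lam : ℝ) (hβ : 0 < β) (hβ3 : β ^ 3 = β ^ 2 + β + 1) (h0 : 0 < lam)
    (h : lam ^ 4 = 2 * lam + 1) : Real.log lam / Real.log β < 547 / 1000 := by
  have hg := upper_beta_gt β hβ hβ3
  have hl := upper_lam_lt lam h0 h
  have hlogβ : 0 < Real.log β := Real.log_pos (by linarith)
  have h1 : lam ^ 64 < β ^ 35 := by
    calc lam ^ 64 ≤ (1.39534 : ℝ) ^ 64 := pow_le_pow_left₀ h0.le hl.le 64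
      _ < (1.8392 : ℝ) ^ 35 := by norm_num
      _ ≤ β ^ 35 := pow_le_pow_left₀ (by norm_num) hg.le 35
  have h2 : Real.log (lam ^ 64) < Real.log (β ^ 35) := Real.log_lt_log (pow_pos h0 64) h1
  rw [Real.log_pow, Real.log_pow] at h2
  push_cast at h2
  rw [div_lt_div_iff₀ hlogβ (by norm_num)]
  nlinarith

end Pool.H99.Trib
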