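import Pool.Agent.H99.Trib.Embed
import Pool.Agent.H99.Trib.Upper

/-!
# Two overlapping windows
-/

namespace Pool.H99.Trib

/-- element of `ℤ[β]` attached to a digit word -/
def svz : List ℕ → Z3
  | [] => 0
  | d :: s => mb^[s.length] ((d : ℤ), 0, 0) + svz s

theorem svz_zs {u w : List Bool} (h : u.length = w.length) : svz (zs u w) = vz u + vz w := by
  induction u generalizing w with
  | nil =>
    cases w with
    | nil => rfl
    | cons b w => simp at h
  | cons a u ih =>
    cases w with
    | nil => simp at h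
    | cons b w =>
      have h' : u.length = w.length := by simpa using h
      have hz : (List.zipWith (fun a b : Bool => a.toNat + b.toNat) u w).length = w.length :=
        zs_length h'
      have h1 := ih h'
      simp only [zs] at h1
      simp only [zs, List.zipWith_cons_cons, svz, vz, hz, h1, h']
      have h2 : (((a.toNat + b.toNat : ℕ) : ℤ), (0 : ℤ), (0 : ℤ)) =
          (((a.toNat : ℤ), 0, 0) : Z3) + ((b.toNat : ℤ), 0, 0) := by
        simp
      rw [h2, mb_iter_add]
      abel

/-- the statement of `trace` with values in `ℤ[β]` -/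
theorem trace_vz (s : List ℕ) (hs : ∀ d ∈ s, d ≤ 2) : ∀ (p q : Q), T p q ≠ [] → dls p s ≠ dls q s →
    T (dls p s) (dls q s) ≠ [] ∧ ∀ e ∈ T (dls p s) (dls q s), ∃ f ∈ T p q,
      ∃ b ∈ bp s.length (sz f.2 f.1), b.length = s.length ∧
        svz s = e.1 - mb^[s.length] f.1 + vz b := by
  induction s with
  | nil =>
    intro p q h _
    refine ⟨h, fun e he => ⟨e, he, [], by simp [bp], rfl, ?_⟩⟩
    simp [svz, vz]
  | cons t s ih =>
    intro p q h hne
    rw [dls_cons, dls_cons] at hne
    have hne1 : dl p t ≠ dl q t := fun hh => hne (by rw [hh])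
    have ht : t ≤ 2 := hs t (by simp)
    obtain ⟨h1, h2⟩ := T_step h ht hne1
    obtain ⟨h3, h4⟩ := ih (fun d hd => hs d (by simp [hd])) _ _ h1 hne
    refine ⟨by rw [dls_cons, dls_cons]; exact h3, fun e he => ?_⟩
    rw [dls_cons, dls_cons] at he
    obtain ⟨g, hg, b, hb, hbl, hval⟩ := h4 e he
    obtain ⟨f, hf, a, a', h5, h6⟩ := h2 g hg
    refine ⟨f, hf, a :: b, ?_, by simp [hbl], ?_⟩
    · have hd := dstep_sz h5 h6
      have hDD : dstep (sz f.2 f.1) a a' ∈ DD := by rw [hd]; exact T_diff h1 hg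
      exact mem_bp_succ hDD (by rw [hd]; exact hb)
    · have h7 : (((t : ℤ), 0, 0) : Z3) + mb f.1 = g.1 + ((a.toNat : ℤ), 0, 0) := by
        rw [← h5]
        simp only [az, Prod.ext_iff, Prod.fst_add, Prod.snd_add]
        refine ⟨by ring, by ring, by ring⟩
      have h8 := congrArg (mb^[s.length]) h7
      rw [mb_iter_add, mb_iter_add] at h8
      simp only [svz, vz, List.length_cons, hbl, Function.iterate_succ_apply]
      rw [hval]
      have h9 : mb^[s.length] (((t : ℤ), 0, 0) : Z3) =
          mb^[s.length] g.1 + mb^[s.length] ((a.toNat : ℤ), 0, 0) - mb^[s.length] (mb f.1) :=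
        eq_sub_of_add_eq h8
      rw [h9]
      abel

/-- the candidates for the sum of the elements of two words -/
def Pair_cand (j : ℕ) : Finset Z3 :=
  (TT.flatMap fun x => x.2.flatMap fun f => TT.flatMap fun y => y.2.flatMap fun e =>
    (bp j (sz f.2 f.1)).map fun b => e.1 - mb^[j] f.1 + vz b).toFinset

theorem Pair_mem_cand {u w : List Bool} {j : ℕ} (hu : u.length = j) (hw : w.length = j)
    (h : Unsync u w) : vz u + vz w ∈ Pair_cand j := by
  have hl : u.length = w.length := hu.trans hw.symm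
  obtain ⟨p, q, hT, hne⟩ := exists_pair_of_unsync h
  obtain ⟨h1, h2⟩ := trace_vz (zs u w) (zs_le_two u w) p q hT hne
  obtain ⟨e, he⟩ := List.exists_mem_of_ne_nil _ h1
  obtain ⟨f, hf, b, hb, -, hval⟩ := h2 e he
  rw [zs_length hl, hw] at hb hval
  rw [svz_zs hl] at hval
  simp only [Pair_cand, List.mem_toFinset, List.mem_flatMap, List.mem_map]
  exact ⟨_, T_mem hT, f, hf, _, T_mem h1, e, he, b, hb, hval.symm⟩

theorem Pair_card_cand (lam : ℝ) (h0 : 0 < lam) (h : lam ^ 4 = 2 * lam + 1) (j : ℕ) :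
    ((Pair_cand j).card : ℝ) ≤ (TT.length * (3 * (TT.length * (3 * lam ^ 3)))) * lam ^ j := by
  have hl3 : 0 ≤ lam ^ 3 * lam ^ j := by positivity
  have hTT : (0 : ℝ) ≤ TT.length := by positivity
  calc ((Pair_cand j).card : ℝ) ≤ ((TT.flatMap fun x => x.2.flatMap fun f => TT.flatMap fun y =>
        y.2.flatMap fun e => (bp j (sz f.2 f.1)).map fun b =>
          e.1 - mb^[j] f.1 + vz b).length : ℝ) := by
        exact_mod_cast List.toFinset_card_le _
    _ ≤ TT.length * (3 * (TT.length * (3 * (lam ^ 3 * lam ^ j)))) := by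
        refine length_flatMap_le _ _ fun x hx => ?_
        obtain ⟨hx1, hx2⟩ := TT_length_le hx
        refine (length_flatMap_le _ _ (K := TT.length * (3 * (lam ^ 3 * lam ^ j)))
          fun f hf => ?_).trans (mul_le_mul_of_nonneg_right (by exact_mod_cast hx1) (by positivity))
        refine length_flatMap_le _ _ fun y hy => ?_
        obtain ⟨hy1, -⟩ := TT_length_le hy
        refine (length_flatMap_le _ _ (K := lam ^ 3 * lam ^ j)
          fun e he => ?_).trans (mul_le_mul_of_nonneg_right (by exact_mod_cast hy1) hl3)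
        rw [List.length_map]
        exact length_bp_le' lam h0 h j (hx2 f hf)
    _ = _ := by ring

theorem Pair_valid_finite (n : ℕ) : {w : List Bool | w.length = n ∧ Valid w}.Finite :=
  (List.finite_length_eq Bool n).subset fun _ hw => hw.1

/-- number of valid words -/
theorem ncard_valid (β : ℝ) (hβ : 0 < β) (hβ3 : β ^ 3 = β ^ 2 + β + 1) (n : ℕ) :
    ({w : List Bool | w.length = n ∧ Valid w}.ncard : ℝ) ≤ 2 * β ^ n := by
  have hinj : Set.InjOn value {w : List Bool | w.length = n ∧ Valid w} := by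
    intro u hu v hv huv
    exact value_inj hu.2 hv.2 (hu.1.trans hv.1.symm) huv
  have hsub : value '' {w : List Bool | w.length = n ∧ Valid w} ⊆
      (Finset.range (W n) : Set ℕ) := by
    rintro _ ⟨u, hu, rfl⟩
    have h1 := value_lt hu.2
    rw [hu.1] at h1
    simpa using h1
  have h1 : {w : List Bool | w.length = n ∧ Valid w}.ncard ≤ W n := by
    rw [← hinj.ncard_image]
    refine (Set.ncard_le_ncard hsub (Finset.finite_toSet _)).trans ?_
    rw [Set.ncard_coe_finset, Finset.card_range]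
  calc ({w : List Bool | w.length = n ∧ Valid w}.ncard : ℝ) ≤ (W n : ℝ) := by exact_mod_cast h1
    _ ≤ 2 * β ^ n := (W_bounds β hβ hβ3 n).2

/-- valid `u` of length `j` and valid `d` of length `j + h` such that the sums of `u` with the first and
with the last `j` digits of `d` are both no reset words -/
def PairSet (j h : ℕ) : Set (List Bool × List Bool) :=
  {x | x.1.length = j ∧ Valid x.1 ∧ x.2.length = j + h ∧ Valid x.2 ∧
    Unsync x.1 (x.2.take j) ∧ Unsync x.1 (x.2.drop h)}

theorem Pair_finite (j k : ℕ) : (PairSet j k).Finite := by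
  refine ((List.finite_length_eq Bool j).prod (List.finite_length_eq Bool (j + k))).subset ?_
  rintro ⟨u, d⟩ hx
  exact ⟨hx.1, hx.2.2.1⟩

/-- the invariants of a pair -/
def Pair_f (j k : ℕ) (x : List Bool × List Bool) : List Bool × Z3 × Z3 :=
  (x.2.take k, vz x.1 + vz (x.2.take j), vz x.1 + vz (x.2.drop k))

theorem Pair_f_mem {j k : ℕ} {x : List Bool × List Bool} (hx : x ∈ PairSet j k) :
    Pair_f j k x ∈ (Pair_valid_finite k).toFinset ×ˢ (Pair_cand j ×ˢ Pair_cand j) := by
  obtain ⟨h1, h2, h3, h4, h5, h6⟩ := hx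
  rw [Finset.mem_product, Finset.mem_product]
  refine ⟨?_, ?_, ?_⟩
  · rw [Set.Finite.mem_toFinset]
    refine ⟨?_, Tree_valid_infix h4 (List.take_prefix _ _).isInfix⟩
    change (x.2.take k).length = k
    rw [List.length_take, h3]
    omega
  · exact Pair_mem_cand h1 (by rw [List.length_take, h3]; omega) h5
  · exact Pair_mem_cand h1 (by rw [List.length_drop, h3]; omega) h6

theorem Pair_fibre {K j k : ℕ} (hk : 1 ≤ k)
    (hK : ∀ (j h : ℕ) (η : List Bool) (R : Z3), 1 ≤ h →
      {d : List Bool | d.length = j + h ∧ Valid d ∧ d.take h = η ∧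
        vz (d.drop h) - vz (d.take j) = R}.ncard ≤ K) (z : List Bool × Z3 × Z3) :
    {x | x ∈ PairSet j k ∧ Pair_f j k x = z}.ncard ≤ K := by
  have hfin : {d : List Bool | d.length = j + k ∧ Valid d ∧ d.take k = z.1 ∧
      vz (d.drop k) - vz (d.take j) = z.2.2 - z.2.1}.Finite :=
    (List.finite_length_eq Bool (j + k)).subset fun _ hw => hw.1
  refine le_trans (Set.ncard_le_ncard_of_injOn Prod.snd ?_ ?_ hfin) (hK j k z.1 (z.2.2 - z.2.1) hk)
  · rintro x ⟨⟨-, -, h3, h4, -, -⟩, rfl⟩
    refine ⟨h3, h4, rfl, ?_⟩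
    simp only [Pair_f]
    abel
  · rintro x ⟨⟨h1, h2, -, -, -, -⟩, h7⟩ y ⟨⟨g1, g2, -, -, -, -⟩, g7⟩ hxy
    have h8 : Pair_f j k x = Pair_f j k y := h7.trans g7.symm
    have h9 : vz x.1 + vz (x.2.take j) = vz y.1 + vz (y.2.take j) := congrArg (fun t => t.2.1) h8
    rw [show x.2 = y.2 from hxy] at h9
    have h10 : vz x.1 = vz y.1 := add_right_cancel h9
    have h11 : (value x.1 : ℤ) = (value y.1 : ℤ) := by
      rw [← phi_zero_vz, ← phi_zero_vz, h10]
    have h12 : x.1 = y.1 := value_inj h2 g2 (h1.trans g1.symm) (by exact_mod_cast h11)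
    exact Prod.ext h12 hxy

theorem ncard_pairSet (β lam : ℝ) (hβ : 0 < β) (hβ3 : β ^ 3 = β ^ 2 + β + 1) (h0 : 0 < lam)
    (h : lam ^ 4 = 2 * lam + 1) :
    ∃ C : ℝ, 0 < C ∧ ∀ j k : ℕ, 1 ≤ k →
      ((PairSet j k).ncard : ℝ) ≤ C * lam ^ (2 * j) * β ^ k := by
  obtain ⟨K, hK⟩ := fibre_bound
  obtain ⟨A, hA⟩ : ∃ A : ℝ, A = TT.length * (3 * (TT.length * (3 * lam ^ 3))) := ⟨_, rfl⟩
  have hA0 : 0 ≤ A := by rw [hA]; positivity
  refine ⟨K * (2 * (A * A)) + 1, by positivity, fun j k hk => ?_⟩
  have hc := Pair_card_cand lam h0 h j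
  rw [← hA] at hc
  have hv := ncard_valid β hβ hβ3 k
  have e1 : (PairSet j k).ncard = (Pair_finite j k).toFinset.card :=
    Set.ncard_eq_toFinset_card _ (Pair_finite j k)
  have e2 : (Pair_finite j k).toFinset.card ≤
      K * ((Pair_finite j k).toFinset.image (Pair_f j k)).card := by
    refine Finset.card_le_mul_card_image _ _ fun z _ => ?_
    refine le_trans (le_of_eq ?_) (Pair_fibre (j := j) hk hK z)
    rw [← Set.ncard_coe_finset]
    congr 1
    ext x
    simp
  have e3 : ((Pair_finite j k).toFinset.image (Pair_f j k)).card ≤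
      (Pair_valid_finite k).toFinset.card * ((Pair_cand j).card * (Pair_cand j).card) := by
    rw [← Finset.card_product, ← Finset.card_product]
    apply Finset.card_le_card
    intro z hz
    rw [Finset.mem_image] at hz
    obtain ⟨x, hx, rfl⟩ := hz
    exact Pair_f_mem ((Pair_finite j k).mem_toFinset.1 hx)
  rw [← Set.ncard_eq_toFinset_card _ (Pair_valid_finite k)] at e3
  have e4 : (PairSet j k).ncard ≤ K * ({w : List Bool | w.length = k ∧ Valid w}.ncard *
      ((Pair_cand j).card * (Pair_cand j).card)) := by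
    rw [e1]
    exact e2.trans (Nat.mul_le_mul_left K e3)
  have hlj : 0 ≤ lam ^ j := by positivity
  have hbk : 0 ≤ β ^ k := by positivity
  have hcc : ((Pair_cand j).card : ℝ) * (Pair_cand j).card ≤ (A * lam ^ j) * (A * lam ^ j) :=
    mul_le_mul hc hc (by positivity) (by positivity)
  calc ((PairSet j k).ncard : ℝ) ≤ K * ({w : List Bool | w.length = k ∧ Valid w}.ncard *
      (((Pair_cand j).card : ℝ) * (Pair_cand j).card)) := by exact_mod_cast e4
    _ ≤ K * ((2 * β ^ k) * ((A * lam ^ j) * (A * lam ^ j))) := by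
        refine mul_le_mul_of_nonneg_left ?_ (by positivity)
        exact mul_le_mul hv hcc (by positivity) (by positivity)
    _ = (K * (2 * (A * A))) * (lam ^ (2 * j) * β ^ k) := by
        rw [two_mul j, pow_add]; ring
    _ ≤ (K * (2 * (A * A)) + 1) * (lam ^ (2 * j) * β ^ k) := by
        refine mul_le_mul_of_nonneg_right (by linarith) (by positivity)
    _ = _ := by ring

end Pool.H99.Trib
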