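import Pool.Agent.H99.Trib.Tree2
import Pool.Agent.H99.Trib.Pair

/-!
# Average over `c` of the number of suffixes with two unresolved entries
-/

namespace Pool.H99.Trib

/-- the valid words of length `M` -/
noncomputable def VW (M : ℕ) : Finset (List Bool) :=
  ((List.finite_length_eq Bool M).subset
    (fun w (hw : w.length = M ∧ Valid w) => hw.1) : {w : List Bool | w.length = M ∧ Valid w}.Finite).toFinset

/-- digits of a word, continued by zeros -/
def csOf (w : List Bool) : ℕ → Bool := fun i => w.getD i false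

theorem pref_csOf (w : List Bool) : pref (csOf w) w.length = w := upper_pref w

theorem unsync_drop {u w : List Bool} (h : Unsync u w) (hl : u.length = w.length) (n : ℕ) :
    Unsync (u.drop n) (w.drop n) := by
  obtain ⟨p, q, hpq⟩ := h
  have e : zs (u.drop n) (w.drop n) = (zs u w).drop n := by
    simp only [zs]
    rw [List.drop_zipWith]
  refine ⟨dls p ((zs u w).take n), dls q ((zs u w).take n), ?_⟩
  rw [e, ← dls_append, ← dls_append, List.take_append_drop]
  exact hpq

theorem MeanCount_mem_VW {M : ℕ} {w : List Bool} : w ∈ VW M ↔ w.length = M ∧ Valid w := by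
  simp [VW]

theorem MeanCount_lam_gt (lam : ℝ) (h0 : 0 < lam) (h : lam ^ 4 = 2 * lam + 1) : 1.39 < lam := by
  by_contra hc
  push Not at hc
  by_cases h3 : lam ^ 3 ≤ 2
  · have : lam ^ 4 ≤ 2 * lam := by
      calc lam ^ 4 = lam ^ 3 * lam := by ring
        _ ≤ 2 * lam := mul_le_mul_of_nonneg_right h3 h0.le
    linarith
  · push Not at h3
    have h4 : lam ^ 3 ≤ 1.39 ^ 3 := pow_le_pow_left₀ h0.le hc 3
    have h5 : lam * (lam ^ 3 - 2) ≤ 1.39 * (1.39 ^ 3 - 2) :=
      mul_le_mul hc (by linarith) (by linarith) (by norm_num)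
    have h6 : lam * (lam ^ 3 - 2) = 1 := by
      have : lam * (lam ^ 3 - 2) = lam ^ 4 - 2 * lam := by ring
      rw [this, h]
      ring
    rw [h6] at h5
    norm_num at h5

theorem MeanCount_beta_lt (β : ℝ) (hβ : 0 < β) (hβ3 : β ^ 3 = β ^ 2 + β + 1) : β < 1.84 := by
  by_contra hc
  push Not at hc
  have key : 0 ≤ (β - 1.84) * (β ^ 2 + 0.84 * β + 0.5456) := by
    apply mul_nonneg (by linarith)
    positivity
  nlinarith [key]

theorem MeanCount_q_gt (β lam : ℝ) (hβ : 0 < β) (hβ3 : β ^ 3 = β ^ 2 + β + 1) (h0 : 0 < lam)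
    (h : lam ^ 4 = 2 * lam + 1) : 1.05 < lam ^ 2 / β := by
  have h1 := MeanCount_lam_gt lam h0 h
  have h2 := MeanCount_beta_lt β hβ hβ3
  rw [lt_div_iff₀ hβ]
  nlinarith

theorem MeanCount_window (w : List Bool) (m j : ℕ) (hj : j ≤ m) (hm : m ≤ w.length) :
    ((List.range j).map fun i => csOf w (m - j + i)) = (w.take m).drop (m - j) := by
  apply List.ext_getElem
  · simp
    omega
  · intro i h1 h2
    simp only [List.length_map, List.length_range] at h1
    simp only [List.getElem_map, List.getElem_range, List.getElem_drop, List.getElem_take, csOf]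
    have : m - j + i < w.length := by omega
    simp [List.getD, this]

theorem MeanCount_pref (w : List Bool) (m : ℕ) (hm : m ≤ w.length) :
    pref (csOf w) m = w.take m := by
  apply List.ext_getElem
  · simp [pref]
    omega
  · intro i h1 h2
    simp only [pref, List.length_map, List.length_range] at h1
    have : i < w.length := by omega
    simp [pref, csOf, List.getD, this]

/-- the pairs of words of length `n` at distance -/
theorem MeanCount_unsync {w u : List Bool} {m : ℕ} (hm : m ≤ w.length) (h : UR (csOf w) m u)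
    (n : ℕ) (hn : n ≤ min m u.length) :
    u.length ≤ m + 2 ∧ Unsync (u.drop (u.length - n)) ((w.take m).drop (m - n)) := by
  obtain ⟨h1, h2⟩ := UR_unsync h
  by_cases hj : u.length ≤ m
  · have h3 := h1 hj
    rw [MeanCount_window w m u.length hj hm] at h3
    have h4 := unsync_drop h3 (by simp; omega) (u.length - n)
    rw [List.drop_drop] at h4
    refine ⟨by omega, ?_⟩
    convert h4 using 2
    omega
  · push Not at hj
    obtain ⟨h3, h4⟩ := h2 hj
    rw [MeanCount_pref w m hm] at h4
    have h5 := unsync_drop h4 (by simp; omega) (m - n)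
    rw [List.drop_drop] at h5
    refine ⟨h3, ?_⟩
    convert h5 using 2
    omega

theorem MeanCount_sum_le {α β γ : Type*} (V : Finset α) (B : α → Set β)
    (hB : ∀ a ∈ V, (B a).Finite) (T : Set γ) (hT : T.Finite) (Φ : α → β → γ)
    (hΦ : ∀ a ∈ V, ∀ b ∈ B a, Φ a b ∈ T)
    (hinj : ∀ a ∈ V, ∀ b ∈ B a, ∀ a' ∈ V, ∀ b' ∈ B a', Φ a b = Φ a' b' → a = a' ∧ b = b') :
    ∑ a ∈ V, (B a).ncard ≤ T.ncard := by
  classical
  let Bf : α → Finset β := fun a => if h : a ∈ V then (hB a h).toFinset else ∅
  have hBf : ∀ a ∈ V, ∀ b, b ∈ Bf a ↔ b ∈ B a := by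
    intro a ha b
    simp [Bf, ha]
  have h1 : ∑ a ∈ V, (B a).ncard = (V.sigma Bf).card := by
    rw [Finset.card_sigma]
    apply Finset.sum_congr rfl
    intro a ha
    rw [Set.ncard_eq_toFinset_card _ (hB a ha)]
    simp [Bf, ha]
  rw [h1, Set.ncard_eq_toFinset_card _ hT]
  apply Finset.card_le_card_of_injOn (fun x => Φ x.1 x.2)
  · intro x hx
    have hx' := Finset.mem_sigma.1 (Finset.mem_coe.1 hx)
    simp only [Finset.mem_coe, Set.Finite.mem_toFinset]
    exact hΦ x.1 hx'.1 x.2 ((hBf _ hx'.1 _).1 hx'.2)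
  · rintro ⟨a, b⟩ hx ⟨a', b'⟩ hy hxy
    have hx' := Finset.mem_sigma.1 (Finset.mem_coe.1 hx)
    have hy' := Finset.mem_sigma.1 (Finset.mem_coe.1 hy)
    obtain ⟨e1, e2⟩ := hinj a hx'.1 b ((hBf _ hx'.1 _).1 hx'.2) a' hy'.1 b'
      ((hBf _ hy'.1 _).1 hy'.2) hxy
    subst e1
    subst e2
    rfl

/-- valid words `u` of length `j` with the two windows ending at `m` and `m'` -/
def MeanCountB (M j : ℕ) (p : ℕ × ℕ) (w : List Bool) : Set (List Bool) :=
  {u | u.length = j ∧ Valid u ∧ j ≤ min p.1 j + 2 ∧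
    (u.drop (j - min p.1 j), (w.take p.2).drop (p.1 - min p.1 j)) ∈
      PairSet (min p.1 j) (p.2 - p.1)}

theorem MeanCount_B_finite (M j : ℕ) (p : ℕ × ℕ) (w : List Bool) : (MeanCountB M j p w).Finite :=
  (List.finite_length_eq Bool j).subset fun _ h => h.1

/-- the pairs `m < m' ≤ M` -/
def MeanCountP (M : ℕ) : Finset (ℕ × ℕ) :=
  (Finset.range (M + 1) ×ˢ Finset.range (M + 1)).filter fun p => p.1 < p.2

theorem MeanCount_PU_sub {M j : ℕ} {w : List Bool} (hw : w ∈ VW M) :
    PU (csOf w) M j ⊆ ⋃ p ∈ MeanCountP M, MeanCountB M j p w := by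
  rintro u ⟨hl, hv, m, m', hm, hm', h1, h2⟩
  obtain ⟨hwl, hwv⟩ := MeanCount_mem_VW.1 hw
  refine Set.mem_biUnion (x := (m, m')) ?_ ?_
  · simp only [MeanCountP, Finset.coe_filter, Finset.mem_product, Finset.mem_range,
      Set.mem_setOf_eq]
    omega
  · have hn : min m j ≤ m := min_le_left _ _
    have hn' : min m j ≤ j := min_le_right _ _
    obtain ⟨a1, a2⟩ := MeanCount_unsync (by omega) h1 (min m j) (by rw [hl])
    obtain ⟨b1, b2⟩ := MeanCount_unsync (by omega) h2 (min m j) (by rw [hl]; omega)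
    rw [hl] at a1 a2 b1 b2
    refine ⟨hl, hv, by simp only; omega, ?_⟩
    simp only [PairSet, Set.mem_setOf_eq]
    refine ⟨by simp; omega, Tree_valid_infix hv (List.drop_suffix _ _).isInfix, ?_, ?_, ?_, ?_⟩
    · simp
      omega
    · exact Tree_valid_infix hwv
        ((List.drop_suffix _ _).isInfix.trans (List.take_prefix _ _).isInfix)
    · convert a2 using 1
      rw [List.take_drop, List.take_take]
      congr 2
      omega
    · convert b2 using 1
      rw [List.drop_drop]
      congr 1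
      omega

theorem MeanCount_ncard_length (n : ℕ) (h : n ≤ 2) :
    {w : List Bool | w.length = n}.ncard ≤ 4 := by
  have h1 : {w : List Bool | w.length = n} ⊆
      (Set.range fun v : List.Vector Bool n => v.toList) := by
    intro w hw
    exact ⟨⟨w, hw⟩, rfl⟩
  have h2 : (Set.range fun v : List.Vector Bool n => v.toList).Finite := Set.finite_range _
  calc {w : List Bool | w.length = n}.ncard
      ≤ (Set.range fun v : List.Vector Bool n => v.toList).ncard := Set.ncard_le_ncard h1 h2
    _ ≤ (Set.univ : Set (List.Vector Bool n)).ncard := by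
        rw [← Set.image_univ]
        exact Set.ncard_image_le (Set.finite_univ)
    _ = 2 ^ n := by
        rw [Set.ncard_univ, Nat.card_eq_fintype_card, card_vector, Fintype.card_bool]
    _ ≤ 2 ^ 2 := Nat.pow_le_pow_right (by norm_num) h
    _ = 4 := by norm_num

theorem MeanCount_pairSet_finite (j h : ℕ) : (PairSet j h).Finite :=
  ((List.finite_length_eq Bool j).prod (List.finite_length_eq Bool (j + h))).subset
    fun x hx => ⟨hx.1, hx.2.2.1⟩

theorem MeanCount_fix (β lam C : ℝ) (hβ : 0 < β) (hβ3 : β ^ 3 = β ^ 2 + β + 1) (h0 : 0 < lam)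
    (h : lam ^ 4 = 2 * lam + 1) (hC : 0 < C)
    (hP : ∀ j k : ℕ, 1 ≤ k → ((PairSet j k).ncard : ℝ) ≤ C * lam ^ (2 * j) * β ^ k)
    (M j : ℕ) (p : ℕ × ℕ) (hp : p ∈ MeanCountP M) :
    ((∑ w ∈ VW M, (MeanCountB M j p w).ncard : ℕ) : ℝ) ≤
      16 * C * (β ^ M * (lam ^ 2 / β) ^ j) := by
  obtain ⟨m, m'⟩ := p
  simp only [MeanCountP, Finset.mem_filter, Finset.mem_product, Finset.mem_range] at hp
  obtain ⟨⟨hm1, hm2⟩, hmm⟩ := hp
  have hq := MeanCount_q_gt β lam hβ hβ3 h0 h
  by_cases hj : j ≤ min m j + 2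
  · set n := min m j with hn
    have hnm : n ≤ m := min_le_left _ _
    have hnj : n ≤ j := min_le_right _ _
    set T : Set (List Bool × List Bool × List Bool × (List Bool × List Bool)) :=
      {w | w.length = j - n} ×ˢ ({w | w.length = m - n ∧ Valid w} ×ˢ
        ({w | w.length = M - m' ∧ Valid w} ×ˢ PairSet n (m' - m))) with hT
    have hfin : T.Finite := by
      refine (List.finite_length_eq Bool (j - n)).prod (Set.Finite.prod ?_ (Set.Finite.prod ?_ ?_))
      · exact (List.finite_length_eq Bool (m - n)).subset fun _ h => h.1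
      · exact (List.finite_length_eq Bool (M - m')).subset fun _ h => h.1
      · exact MeanCount_pairSet_finite _ _
    have h1 : ∑ w ∈ VW M, (MeanCountB M j (m, m') w).ncard ≤ T.ncard := by
      refine MeanCount_sum_le (VW M) (MeanCountB M j (m, m'))
        (fun a _ => MeanCount_B_finite M j (m, m') a) T hfin
        (fun w u => (u.take (j - n), w.take (m - n), w.drop m',
          (u.drop (j - n), (w.take m').drop (m - n)))) ?_ ?_
      · intro w hw u hu
        obtain ⟨hwl, hwv⟩ := MeanCount_mem_VW.1 hw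
        obtain ⟨hul, huv, -, hup⟩ := hu
        refine ⟨?_, ⟨?_, ?_⟩, ⟨?_, ?_⟩, hup⟩
        · simp [hul]
        · simp
          omega
        · exact Tree_valid_infix hwv (List.take_prefix _ _).isInfix
        · simp [hwl]
        · exact Tree_valid_infix hwv (List.drop_suffix _ _).isInfix
      · intro w hw u hu w' hw' u' hu' he
        simp only [Prod.mk.injEq] at he
        obtain ⟨e1, e2, e3, e4, e5⟩ := he
        constructor
        · have e6 : w.take m' = w'.take m' := by
            rw [← List.take_append_drop (m - n) (w.take m'),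
              ← List.take_append_drop (m - n) (w'.take m'), e5, List.take_take, List.take_take,
              min_eq_left (by omega), e2]
          rw [← List.take_append_drop m' w, ← List.take_append_drop m' w', e6, e3]
        · rw [← List.take_append_drop (j - n) u, ← List.take_append_drop (j - n) u', e1, e4]
    have h2 : T.ncard = {w : List Bool | w.length = j - n}.ncard *
        ({w : List Bool | w.length = m - n ∧ Valid w}.ncard *
        ({w : List Bool | w.length = M - m' ∧ Valid w}.ncard * (PairSet n (m' - m)).ncard)) := by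
      rw [hT, Set.ncard_prod, Set.ncard_prod, Set.ncard_prod]
    have h3 : (({w : List Bool | w.length = j - n}.ncard : ℕ) : ℝ) ≤ 4 := by
      exact_mod_cast MeanCount_ncard_length (j - n) (by omega)
    have h4 := ncard_valid β hβ hβ3 (m - n)
    have h5 := ncard_valid β hβ hβ3 (M - m')
    have h6 := hP n (m' - m) (by omega)
    calc ((∑ w ∈ VW M, (MeanCountB M j (m, m') w).ncard : ℕ) : ℝ) ≤ (T.ncard : ℝ) := by
          exact_mod_cast h1
      _ = ({w : List Bool | w.length = j - n}.ncard : ℝ) *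
        (({w : List Bool | w.length = m - n ∧ Valid w}.ncard : ℝ) *
        (({w : List Bool | w.length = M - m' ∧ Valid w}.ncard : ℝ) *
          ((PairSet n (m' - m)).ncard : ℝ))) := by
          rw [h2]
          push_cast
          ring
      _ ≤ 4 * ((2 * β ^ (m - n)) * ((2 * β ^ (M - m')) * (C * lam ^ (2 * n) * β ^ (m' - m)))) := by
          gcongr
      _ = 16 * C * (β ^ (m - n) * β ^ (M - m') * β ^ (m' - m) * lam ^ (2 * n)) := by ring
      _ = 16 * C * (β ^ M * (lam ^ 2 / β) ^ n) := by
          rw [← pow_add, ← pow_add, div_pow, ← pow_mul]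
          have e : β ^ M = β ^ (m - n + (M - m') + (m' - m)) * β ^ n := by
            rw [← pow_add]
            congr 1
            omega
          rw [e]
          field_simp
      _ ≤ 16 * C * (β ^ M * (lam ^ 2 / β) ^ j) := by
          have : (lam ^ 2 / β) ^ n ≤ (lam ^ 2 / β) ^ j := pow_le_pow_right₀ (by linarith) hnj
          gcongr
  · have h1 : ∀ w ∈ VW M, (MeanCountB M j (m, m') w).ncard = 0 := by
      intro w _
      have : MeanCountB M j (m, m') w = ∅ := by
        apply Set.eq_empty_of_forall_notMem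
        intro u hu
        exact hj hu.2.2.1
      rw [this, Set.ncard_empty]
    rw [Finset.sum_eq_zero h1]
    have : 0 < lam ^ 2 / β := by linarith
    push_cast
    positivity

theorem MeanCount_ncard_biUnion {ι α : Type*} (P : Finset ι) (B : ι → Set α)
    (hB : ∀ p ∈ P, (B p).Finite) : (⋃ p ∈ P, B p).ncard ≤ ∑ p ∈ P, (B p).ncard := by
  classical
  induction P using Finset.induction_on with
  | empty => simp
  | insert a P ha ih =>
    rw [Finset.set_biUnion_insert, Finset.sum_insert ha]
    refine (Set.ncard_union_le _ _).trans ?_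
    have := ih fun p hp => hB p (Finset.mem_insert_of_mem hp)
    omega

theorem MeanCount_card_P (M : ℕ) : (MeanCountP M).card ≤ (M + 1) ^ 2 := by
  refine (Finset.card_filter_le _ _).trans ?_
  rw [Finset.card_product, Finset.card_range]
  nlinarith

theorem sum_PU (β lam : ℝ) (hβ : 0 < β) (hβ3 : β ^ 3 = β ^ 2 + β + 1) (h0 : 0 < lam)
    (h : lam ^ 4 = 2 * lam + 1) :
    ∃ C : ℝ, 0 < C ∧ ∀ M j : ℕ, j < M + 3 →
      ∑ w ∈ VW M, ((PU (csOf w) M j).ncard : ℝ) ≤
        C * ((M : ℝ) + 1) ^ 2 * β ^ M * (lam ^ 2 / β) ^ j := by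
  obtain ⟨C, hC, hP⟩ := ncard_pairSet β lam hβ hβ3 h0 h
  refine ⟨16 * C, by positivity, fun M j _ => ?_⟩
  have hq := MeanCount_q_gt β lam hβ hβ3 h0 h
  have hq0 : 0 < lam ^ 2 / β := by linarith
  have h1 : ∑ w ∈ VW M, (PU (csOf w) M j).ncard ≤
      ∑ p ∈ MeanCountP M, ∑ w ∈ VW M, (MeanCountB M j p w).ncard := by
    rw [Finset.sum_comm]
    apply Finset.sum_le_sum
    intro w hw
    refine (Set.ncard_le_ncard (MeanCount_PU_sub hw) ?_).trans
      (MeanCount_ncard_biUnion _ _ fun p _ => MeanCount_B_finite M j p w)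
    exact Set.Finite.biUnion (Finset.finite_toSet _) fun p _ => MeanCount_B_finite M j p w
  calc ∑ w ∈ VW M, ((PU (csOf w) M j).ncard : ℝ)
      = ((∑ w ∈ VW M, (PU (csOf w) M j).ncard : ℕ) : ℝ) := by push_cast; rfl
    _ ≤ ((∑ p ∈ MeanCountP M, ∑ w ∈ VW M, (MeanCountB M j p w).ncard : ℕ) : ℝ) := by
        exact_mod_cast h1
    _ = ∑ p ∈ MeanCountP M, ((∑ w ∈ VW M, (MeanCountB M j p w).ncard : ℕ) : ℝ) := by
        push_cast
        rfl
    _ ≤ ∑ p ∈ MeanCountP M, 16 * C * (β ^ M * (lam ^ 2 / β) ^ j) :=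
        Finset.sum_le_sum fun p hp => MeanCount_fix β lam C hβ hβ3 h0 h hC hP M j p hp
    _ = (MeanCountP M).card * (16 * C * (β ^ M * (lam ^ 2 / β) ^ j)) := by
        rw [Finset.sum_const, nsmul_eq_mul]
    _ ≤ ((M : ℝ) + 1) ^ 2 * (16 * C * (β ^ M * (lam ^ 2 / β) ^ j)) := by
        have : ((MeanCountP M).card : ℝ) ≤ ((M : ℝ) + 1) ^ 2 := by
          exact_mod_cast MeanCount_card_P M
        gcongr
    _ = 16 * C * ((M : ℝ) + 1) ^ 2 * β ^ M * (lam ^ 2 / β) ^ j := by ring

end Pool.H99.Trib
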