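import Pool.Agent.H99.Trib.TripleMean
import Pool.Agent.H99.Trib.Mean

/-!
# The mean value of the state complexity
-/

namespace Pool.H99.Trib

theorem MeanPolylog_s_le {M K : ℕ} (hK : 1 ≤ K) {w : List Bool} (hw : w ∈ VW M) :
    s (value w) ≤ 35 ^ K * (1 + 2 * ∑ j ∈ Finset.range (M + 3), (KU (csOf w) M K j).ncard) := by
  obtain ⟨h1, -⟩ := MeanCount_mem_VW.1 hw
  have h2 := s_le (csOf w) M
  have h3 : pref (csOf w) M = w := by
    rw [← h1]
    exact pref_csOf w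
  rw [h3] at h2
  exact h2.trans (ncard_vecSet_le_K (csOf w) M K hK)

theorem MeanPolylog_arith (t : ℝ) (h0 : 0 ≤ t) (h1 : t < 1) (n : ℕ) :
    ∑ j ∈ Finset.range n, ((j : ℝ) + 1) * t ^ j ≤ 1 / (1 - t) ^ 2 := by
  have h2 : 0 < 1 - t := by linarith
  have key : (∑ j ∈ Finset.range n, ((j : ℝ) + 1) * t ^ j) * (1 - t) ^ 2 =
      1 - ((n : ℝ) + 1) * t ^ n + n * t ^ (n + 1) := by
    induction n with
    | zero => simp
    | succ n ih =>
      rw [Finset.sum_range_succ, add_mul, ih]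
      push_cast
      ring
  rw [le_div_iff₀ (by positivity), key]
  have h3 : (n : ℝ) * t ^ (n + 1) ≤ (n + 1) * t ^ n := by
    rw [pow_succ]
    have h4 : 0 ≤ t ^ n := by positivity
    have hn : (0 : ℝ) ≤ n := Nat.cast_nonneg n
    nlinarith [mul_nonneg hn h4]
  linarith

theorem MeanPolylog_rpow (β ρ : ℝ) (hβ : 0 < β) (hρ : 1 < ρ) (n : ℕ) :
    (ρ ^ n) ^ (Real.log β / Real.log ρ) = β ^ n := by
  have h1 : 0 < Real.log ρ := Real.log_pos hρ
  have h2 : 0 < ρ := by linarith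
  rw [Real.rpow_def_of_pos (pow_pos h2 n), Real.log_pow]
  have h3 : (n : ℝ) * Real.log ρ * (Real.log β / Real.log ρ) = (n : ℝ) * Real.log β := by
    field_simp
  rw [h3, ← Real.log_pow, Real.exp_log (pow_pos hβ n)]

theorem MeanPolylog_rho (β lam : ℝ) (hβ : 0 < β) (hβ3 : β ^ 3 = β ^ 2 + β + 1) (h0 : 0 < lam)
    (h : lam ^ 4 = 2 * lam + 1) : 1.3 < β / lam := by
  have hg := upper_beta_gt β hβ hβ3
  have hl := upper_lam_lt lam h0 h
  rw [lt_div_iff₀ h0]
  linarith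

theorem MeanPolylog_r (β lam : ℝ) (hβ : 0 < β) (hβ3 : β ^ 3 = β ^ 2 + β + 1) (h0 : 0 < lam)
    (h : lam ^ 4 = 2 * lam + 1) : lam ^ 3 / β ^ 2 < 1 := by
  have hg := upper_beta_gt β hβ hβ3
  have hl := upper_lam_lt lam h0 h
  rw [div_lt_one (by positivity)]
  calc lam ^ 3 ≤ (1.39534 : ℝ) ^ 3 := pow_le_pow_left₀ h0.le hl.le 3
    _ < (1.8392 : ℝ) ^ 2 := by norm_num
    _ ≤ β ^ 2 := pow_le_pow_left₀ (by norm_num) hg.le 2

theorem MeanPolylog_theta (β lam : ℝ) (hβ : 0 < β) (hβ3 : β ^ 3 = β ^ 2 + β + 1) (h0 : 0 < lam)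
    (h : lam ^ 4 = 2 * lam + 1) : 2 ≤ Real.log β / Real.log (β / lam) := by
  have hr := MeanPolylog_rho β lam hβ hβ3 h0 h
  have hlog : 0 < Real.log (β / lam) := Real.log_pos (by linarith)
  have hg := MeanCount_lam_gt lam h0 h
  have hl := MeanCount_beta_lt β hβ hβ3
  rw [le_div_iff₀ hlog]
  have h1 : (β / lam) ^ 2 ≤ β := by
    rw [div_pow, div_le_iff₀ (by positivity)]
    nlinarith
  have h2 := Real.log_le_log (by positivity) h1
  rw [Real.log_pow] at h2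
  exact_mod_cast h2

theorem MeanPolylog_sum (β lam x : ℝ) (hβ : 0 < β) (hβ3 : β ^ 3 = β ^ 2 + β + 1) (h0 : 0 < lam)
    (h : lam ^ 4 = 2 * lam + 1) (hx : 1 ≤ x) (n : ℕ) (g : ℕ → ℝ)
    (hg1 : ∀ j < n, g j ≤ β ^ j) (hg2 : ∀ j < n, g j ≤ x ^ 3 * (lam ^ 3 / β ^ 2) ^ j) :
    ∑ j ∈ Finset.range n, g j ≤ (β / (β - 1) + β / (1 - lam ^ 3 / β ^ 2)) *
      x ^ (Real.log β / Real.log (β / lam)) := by
  have hρ := MeanPolylog_rho β lam hβ hβ3 h0 h
  have hr1 := MeanPolylog_r β lam hβ hβ3 h0 h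
  have hβ1 := upper_beta_gt β hβ hβ3
  set θ : ℝ := Real.log β / Real.log (β / lam) with hθ
  set r : ℝ := lam ^ 3 / β ^ 2 with hr
  have hr0 : 0 < r := by positivity
  set ρ : ℝ := β / lam with hρd
  have hρ1 : 1 < ρ := by linarith
  have hθ0 : 0 ≤ θ := (by norm_num : (0 : ℝ) ≤ 2).trans (MeanPolylog_theta β lam hβ hβ3 h0 h)
  obtain ⟨n0, hn1, hn2⟩ := exists_nat_pow_near hx hρ1
  have hA : β ^ n0 ≤ x ^ θ := by
    rw [← MeanPolylog_rpow β ρ hβ hρ1 n0]
    exact Real.rpow_le_rpow (by positivity) hn1 hθ0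
  have hB : x ^ 3 * r ^ (n0 + 1) ≤ β * x ^ θ := by
    have h1 : r = β / ρ ^ 3 := by
      rw [hr, hρd]
      field_simp
    have h2 : x ^ 3 ≤ (ρ ^ (n0 + 1)) ^ 3 := pow_le_pow_left₀ (by linarith) hn2.le 3
    have hρ3 : 0 < (ρ ^ (n0 + 1)) ^ 3 := by positivity
    calc x ^ 3 * r ^ (n0 + 1) ≤ (ρ ^ (n0 + 1)) ^ 3 * r ^ (n0 + 1) := by gcongr
      _ = β ^ (n0 + 1) := by
        have h3 : ρ ^ 3 ≠ 0 := by positivity
        rw [h1, ← pow_mul, mul_comm (n0 + 1) 3, pow_mul, ← mul_pow, mul_div_cancel₀ _ h3]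
      _ = β * β ^ n0 := by ring
      _ ≤ β * x ^ θ := by gcongr
  have hx3 : 0 < x ^ 3 := by positivity
  have hxθ : 0 < x ^ θ := Real.rpow_pos_of_pos (by linarith) θ
  have h1 : ∀ j ∈ Finset.range n, g j ≤ (if j < n0 + 1 then β ^ j else 0) +
      (if n0 + 1 ≤ j then x ^ 3 * r ^ j else 0) := by
    intro j hj
    have hj' := Finset.mem_range.1 hj
    by_cases hc : j < n0 + 1
    · rw [if_pos hc, if_neg (by omega), add_zero]
      exact hg1 j hj'
    · rw [if_neg hc, if_pos (by omega), zero_add]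
      exact hg2 j hj'
  refine (Finset.sum_le_sum h1).trans ?_
  rw [Finset.sum_add_distrib, ← Finset.sum_filter, ← Finset.sum_filter, add_mul]
  apply add_le_add
  · calc ∑ j ∈ (Finset.range n).filter (fun j => j < n0 + 1), β ^ j
        ≤ ∑ j ∈ Finset.range (n0 + 1), β ^ j := by
          apply Finset.sum_le_sum_of_subset_of_nonneg
          · intro j hj
            exact Finset.mem_range.2 (Finset.mem_filter.1 hj).2
          · intro j _ _
            positivity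
      _ ≤ β ^ (n0 + 1) / (β - 1) := Mean_geom β (by linarith) _
      _ = β / (β - 1) * β ^ n0 := by ring
      _ ≤ β / (β - 1) * x ^ θ := by
          have : 0 < β - 1 := by linarith
          gcongr
  · have h1r : 0 < 1 - r := by linarith
    calc ∑ j ∈ (Finset.range n).filter (fun j => n0 + 1 ≤ j), x ^ 3 * r ^ j
        = x ^ 3 * ∑ j ∈ Finset.Ico (n0 + 1) n, r ^ j := by
          rw [Finset.mul_sum]
          apply Finset.sum_congr _ (fun _ _ => rfl)
          ext j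
          simp only [Finset.mem_filter, Finset.mem_range, Finset.mem_Ico]
          tauto
      _ ≤ x ^ 3 * (r ^ (n0 + 1) / (1 - r)) := by
          have := geom_sum_Ico_le_of_lt_one (m := n0 + 1) (n := n) hr0.le hr1
          gcongr
      _ = x ^ 3 * r ^ (n0 + 1) / (1 - r) := by ring
      _ ≤ β * x ^ θ / (1 - r) := by gcongr
      _ = β / (1 - r) * x ^ θ := by ring

theorem mean_words (β lam : ℝ) (hβ : 0 < β) (hβ3 : β ^ 3 = β ^ 2 + β + 1) (h0 : 0 < lam)
    (h : lam ^ 4 = 2 * lam + 1) :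
    ∃ C : ℝ, 0 < C ∧ ∀ M : ℕ, ∑ w ∈ VW M, (s (value w) : ℝ) ≤
      C * β ^ M * ((M : ℝ) + 1) ^ (Real.log β / Real.log (β / lam)) := by
  obtain ⟨K, C, hK, hC, hb⟩ := sum_KU β lam hβ hβ3 h0 h
  have hρ := MeanPolylog_rho β lam hβ hβ3 h0 h
  have hr1 := MeanPolylog_r β lam hβ hβ3 h0 h
  have hβ1 := upper_beta_gt β hβ hβ3
  have hθ2 := MeanPolylog_theta β lam hβ hβ3 h0 h
  set θ : ℝ := Real.log β / Real.log (β / lam) with hθ
  set t : ℝ := 183 / 100 / β with ht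
  have ht0 : 0 < t := by positivity
  have ht1 : t < 1 := by
    rw [ht, div_lt_one hβ]
    linarith
  set A : ℝ := β / (β - 1) + β / (1 - lam ^ 3 / β ^ 2) with hA
  have hA0 : 0 < A := by
    have e1 : 0 < β - 1 := by linarith
    have e2 : 0 < 1 - lam ^ 3 / β ^ 2 := by linarith
    positivity
  have h1t : 0 < 1 - t := by linarith
  refine ⟨35 ^ K * (2 + 2 * C * (A + 1 / (1 - t) ^ 2)), by positivity, fun M => ?_⟩
  set x : ℝ := (M : ℝ) + 1 with hx
  have hx1 : 1 ≤ x := by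
    have : (0 : ℝ) ≤ M := Nat.cast_nonneg M
    linarith
  have hxθ : 1 ≤ x ^ θ := Real.one_le_rpow hx1 (by linarith)
  have hx2 : x ^ 2 ≤ x ^ θ := by
    rw [← Real.rpow_natCast x 2]
    exact Real.rpow_le_rpow_of_exponent_le hx1 (by exact_mod_cast hθ2)
  set B : ℝ := C * β ^ M with hB
  have hB0 : 0 < B := by positivity
  set S : ℕ → ℝ := fun j => ∑ w ∈ VW M, ((KU (csOf w) M K j).ncard : ℝ) with hS
  have h2 : ∑ j ∈ Finset.range (M + 3), (S j / B - x ^ 2 * ((j : ℝ) + 1) * t ^ j) ≤ A * x ^ θ := by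
    apply MeanPolylog_sum β lam x hβ hβ3 h0 h hx1
    · intro j hj
      have e1 : S j / B ≤ β ^ j := by
        rw [div_le_iff₀ hB0, mul_comm]
        exact (hb M j hj).1
      have e2 : 0 ≤ x ^ 2 * ((j : ℝ) + 1) * t ^ j := by positivity
      linarith
    · intro j hj
      have e1 : S j / B ≤ x ^ 3 * (lam ^ 3 / β ^ 2) ^ j + x ^ 2 * ((j : ℝ) + 1) * t ^ j := by
        rw [div_le_iff₀ hB0, mul_comm]
        exact (hb M j hj).2
      linarith
  have h3 : ∑ j ∈ Finset.range (M + 3), S j ≤ B * ((A + 1 / (1 - t) ^ 2) * x ^ θ) := by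
    have e1 : ∑ j ∈ Finset.range (M + 3), S j =
        B * (∑ j ∈ Finset.range (M + 3), (S j / B - x ^ 2 * ((j : ℝ) + 1) * t ^ j) +
          x ^ 2 * ∑ j ∈ Finset.range (M + 3), ((j : ℝ) + 1) * t ^ j) := by
      rw [Finset.mul_sum, ← Finset.sum_add_distrib, Finset.mul_sum]
      apply Finset.sum_congr rfl
      intro j _
      field_simp
      ring
    have e2 := MeanPolylog_arith t ht0.le ht1 (M + 3)
    have e3 : x ^ 2 * ∑ j ∈ Finset.range (M + 3), ((j : ℝ) + 1) * t ^ j ≤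
        x ^ θ * (1 / (1 - t) ^ 2) := by
      apply mul_le_mul hx2 e2 _ (by linarith)
      exact Finset.sum_nonneg fun j _ => by positivity
    rw [e1]
    apply mul_le_mul_of_nonneg_left _ hB0.le
    linarith
  calc ∑ w ∈ VW M, (s (value w) : ℝ)
      = ((∑ w ∈ VW M, s (value w) : ℕ) : ℝ) := by push_cast; rfl
    _ ≤ ((∑ w ∈ VW M, 35 ^ K * (1 + 2 * ∑ j ∈ Finset.range (M + 3),
          (KU (csOf w) M K j).ncard) : ℕ) : ℝ) := by
        exact_mod_cast Finset.sum_le_sum fun w hw => MeanPolylog_s_le hK hw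
    _ = 35 ^ K * ((VW M).card + 2 * ∑ j ∈ Finset.range (M + 3), S j) := by
        push_cast
        rw [← Finset.mul_sum, Finset.sum_add_distrib, ← Finset.mul_sum, Finset.sum_comm]
        simp [hS]
    _ ≤ 35 ^ K * (2 * β ^ M * x ^ θ + 2 * (B * ((A + 1 / (1 - t) ^ 2) * x ^ θ))) := by
        have e1 := Mean_card_VW β hβ hβ3 M
        have e2 : 2 * β ^ M ≤ 2 * β ^ M * x ^ θ := le_mul_of_one_le_right (by positivity) hxθ
        have e3 : ((VW M).card : ℝ) ≤ 2 * β ^ M * x ^ θ := e1.trans e2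
        gcongr
    _ = 35 ^ K * (2 + 2 * C * (A + 1 / (1 - t) ^ 2)) * β ^ M * x ^ θ := by
        rw [hB]
        ring

theorem mean_polylog (β lam : ℝ) (hβ : 0 < β) (hβ3 : β ^ 3 = β ^ 2 + β + 1) (h0 : 0 < lam)
    (h : lam ^ 4 = 2 * lam + 1) :
    ∃ C : ℝ, 0 < C ∧ ∀ N : ℕ, 2 ≤ N → ∑ c ∈ Finset.range N, (s c : ℝ) ≤
      C * N * Real.log N ^ (Real.log β / Real.log (β / lam)) := by
  obtain ⟨C, hC, hb⟩ := mean_words β lam hβ hβ3 h0 h
  have hg := upper_beta_gt β hβ hβ3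
  have hθ2 := MeanPolylog_theta β lam hβ hβ3 h0 h
  have hlogβ : 0 < Real.log β := Real.log_pos (by linarith)
  have hlog2 : 0 < Real.log 2 := Real.log_pos (by norm_num)
  set θ : ℝ := Real.log β / Real.log (β / lam) with hθ
  set c0 : ℝ := 1 / Real.log β + 2 / Real.log 2 with hc0
  have hc0p : 0 < c0 := by positivity
  refine ⟨C * β * c0 ^ θ, by positivity, fun N hN => ?_⟩
  have hex : ∃ M, N ≤ W M := ⟨N, (upper_lt_W N).le⟩
  classical
  set M := Nat.find hex with hM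
  have hM1 : N ≤ W M := Nat.find_spec hex
  have hM0 : M ≠ 0 := by
    intro h0
    rw [h0] at hM1
    simp only [W] at hM1
    omega
  obtain ⟨k, hk⟩ := Nat.exists_eq_succ_of_ne_zero hM0
  have hkW : W k < N := by
    have := Nat.find_min hex (m := k) (by omega)
    omega
  have hN1 : (2 : ℝ) ≤ N := by exact_mod_cast hN
  have hN0 : (0 : ℝ) < N := by linarith
  have hWk : β ^ k ≤ (N : ℝ) :=
    le_trans (W_bounds β hβ hβ3 k).1 (by exact_mod_cast hkW.le)
  have hlogN : Real.log 2 ≤ Real.log N := Real.log_le_log (by norm_num) hN1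
  have hk1 : (k : ℝ) * Real.log β ≤ Real.log N := by
    rw [← Real.log_pow]
    exact Real.log_le_log (pow_pos hβ k) hWk
  have hk2 : (M : ℝ) + 1 ≤ c0 * Real.log N := by
    have e1 : (k : ℝ) ≤ 1 / Real.log β * Real.log N := by
      rw [one_div, inv_mul_eq_div, le_div_iff₀ hlogβ]
      exact hk1
    have e2 : (2 : ℝ) ≤ 2 / Real.log 2 * Real.log N := by
      rw [div_mul_eq_mul_div, le_div_iff₀ hlog2]
      linarith
    rw [hk]
    push_cast
    linarith
  have hM' : (0 : ℝ) ≤ (M : ℝ) + 1 := by positivity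
  have h3 : ((M : ℝ) + 1) ^ θ ≤ c0 ^ θ * Real.log N ^ θ := by
    rw [← Real.mul_rpow hc0p.le (by linarith)]
    exact Real.rpow_le_rpow hM' hk2 (by linarith)
  calc ∑ c ∈ Finset.range N, (s c : ℝ)
      = ((∑ c ∈ Finset.range N, s c : ℕ) : ℝ) := by push_cast; rfl
    _ ≤ ((∑ w ∈ VW M, s (value w) : ℕ) : ℝ) := by exact_mod_cast Mean_sum_le N M hM1
    _ = ∑ w ∈ VW M, (s (value w) : ℝ) := by push_cast; rfl
    _ ≤ C * β ^ M * ((M : ℝ) + 1) ^ θ := hb M
    _ ≤ C * (β * N) * (c0 ^ θ * Real.log N ^ θ) := by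
        have e1 : β ^ M ≤ β * N := by
          rw [hk, Nat.succ_eq_add_one, pow_succ, mul_comm]
          gcongr
        gcongr
    _ = C * β * c0 ^ θ * N * Real.log N ^ θ := by ring

end Pool.H99.Trib
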