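import Pool.Agent.H99.Trib.SepProb

/-!
# Lower bound for almost all shifts
-/

namespace Pool.H99.Trib

theorem TypicalLower_valid {u w : List Bool} (hu : Valid u) (hw : Valid w) :
    Valid ((u ++ [false]) ++ w) := by
  rintro ⟨x, y, hxy⟩
  rw [List.append_assoc, List.append_assoc, List.append_eq_append_iff] at hxy
  rcases hxy with ⟨r, h1, h2⟩ | ⟨r, h1, h2⟩
  · match r, h1, h2 with
    | [], h1, h2 => simp at h2
    | [a], h1, h2 => simp at h2
    | [a, b], h1, h2 => simp at h2
    | (a :: b :: c :: r), h1, h2 =>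
      simp only [List.cons_append, List.nil_append, List.cons.injEq] at h2
      obtain ⟨rfl, rfl, rfl, h2⟩ := h2
      exact hu ⟨x, r, by rw [h1]; simp⟩
  · match r, h1, h2 with
    | [], h1, h2 => simp at h2
    | (a :: r), h1, h2 =>
      simp only [List.cons_append, List.nil_append, List.cons.injEq] at h2
      exact hw ⟨r, y, by rw [h2.2]; simp⟩

open Classical in
theorem typical_words (β lam : ℝ) (hβ : 0 < β) (hβ3 : β ^ 3 = β ^ 2 + β + 1) (h0 : 0 < lam)
    (h : lam ^ 4 = 2 * lam + 1) :
    ∃ C : ℝ, 0 < C ∧ ∀ n M : ℕ, (((VW M).filter fun c => s (value c) < (VW n).card).card : ℝ) ≤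
      C * β ^ (2 * n) * Real.exp (- ((lam / β) ^ n * (M / (n + 12) : ℕ)) / C) * β ^ M := by
  obtain ⟨a, ha, ha1, hb⟩ := bad_count β lam hβ hβ3 h0 h
  have hg := upper_beta_gt β hβ hβ3
  have hll := upper_lam_lt lam h0 h
  have hq : lam / β ≤ 1 := by
    rw [div_le_one hβ]
    linarith
  have hq0 : 0 < lam / β := by positivity
  refine ⟨8 / a, by positivity, fun n M => ?_⟩
  set E : ℝ := (1 - a * (lam / β) ^ n) ^ (M / (n + 12)) * ((VW M).card : ℝ) with hE
  have hsub : ((VW M).filter fun c => s (value c) < (VW n).card) ⊆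
      ((VW n ×ˢ VW n).filter fun p => p.1 ≠ p.2).biUnion fun p =>
        (VW M).filter fun c => ¬ Sep (p.1 ++ [false]) (p.2 ++ [false]) (value c) := by
    intro c hc
    rw [Finset.mem_filter] at hc
    by_contra hcon
    simp only [Finset.mem_biUnion, Finset.mem_filter, Finset.mem_product, not_exists, not_and,
      not_not, and_imp] at hcon
    have hinj : Function.Injective fun v : List Bool => v ++ [false] := fun u v huv =>
      List.append_left_injective [false] huv
    have hle := le_s (value c) ((VW n).image fun v => v ++ [false]) (by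
      intro x hx
      obtain ⟨v, hv, rfl⟩ := Finset.mem_image.1 hx
      have := TypicalLower_valid (MeanCount_mem_VW.1 hv).2 Complexity_valid_nil
      simpa using this) (by
      intro x hx y hy hxy
      obtain ⟨v, hv, rfl⟩ := Finset.mem_image.1 hx
      obtain ⟨v', hv', rfl⟩ := Finset.mem_image.1 hy
      have hne : v ≠ v' := fun he => hxy (by rw [he])
      obtain ⟨w, hw, hw2⟩ := hcon (v, v') hv hv' hne hc.1
      exact ⟨w, TypicalLower_valid (MeanCount_mem_VW.1 hv).2 hw,
        TypicalLower_valid (MeanCount_mem_VW.1 hv').2 hw, hw2⟩)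
    rw [Finset.card_image_of_injective _ hinj] at hle
    omega
  have hx0 : 0 ≤ 1 - a * (lam / β) ^ n := by
    have h1 : (lam / β) ^ n ≤ 1 := pow_le_one₀ hq0.le hq
    have h2 : a * (lam / β) ^ n ≤ 1 * 1 := mul_le_mul ha1 h1 (by positivity) (by norm_num)
    linarith
  have hE0 : 0 ≤ E := by positivity
  have hcard : (((VW M).filter fun c => s (value c) < (VW n).card).card : ℝ) ≤
      ((VW n).card : ℝ) ^ 2 * E := by
    calc (((VW M).filter fun c => s (value c) < (VW n).card).card : ℝ)
        ≤ ∑ p ∈ (VW n ×ˢ VW n).filter fun p => p.1 ≠ p.2,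
          (((VW M).filter fun c => ¬ Sep (p.1 ++ [false]) (p.2 ++ [false])
            (value c)).card : ℝ) := by
          have := (Finset.card_le_card hsub).trans Finset.card_biUnion_le
          exact_mod_cast this
      _ ≤ ∑ p ∈ (VW n ×ˢ VW n).filter fun p => p.1 ≠ p.2, E := by
          refine Finset.sum_le_sum fun p hp => ?_
          simp only [Finset.mem_filter, Finset.mem_product] at hp
          exact hb n M p.1 p.2 hp.1.1 hp.1.2 hp.2
      _ = (((VW n ×ˢ VW n).filter fun p => p.1 ≠ p.2).card : ℝ) * E := by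
          rw [Finset.sum_const, nsmul_eq_mul]
      _ ≤ ((VW n ×ˢ VW n).card : ℝ) * E := by
          gcongr
          exact Finset.filter_subset _ _
      _ = ((VW n).card : ℝ) ^ 2 * E := by
          rw [Finset.card_product]
          push_cast
          ring
  have h1 := Mean_card_VW β hβ hβ3 n
  have h2 := Mean_card_VW β hβ hβ3 M
  have h3 : (1 - a * (lam / β) ^ n) ^ (M / (n + 12)) ≤
      Real.exp (-((lam / β) ^ n * (M / (n + 12) : ℕ)) / (8 / a)) := by
    calc (1 - a * (lam / β) ^ n) ^ (M / (n + 12))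
        ≤ (Real.exp (-(a * (lam / β) ^ n))) ^ (M / (n + 12)) := by
          apply pow_le_pow_left₀ hx0
          have := Real.add_one_le_exp (-(a * (lam / β) ^ n))
          linarith
      _ = Real.exp ((M / (n + 12) : ℕ) * (-(a * (lam / β) ^ n))) := by
          rw [← Real.exp_nat_mul]
      _ ≤ _ := by
          apply Real.exp_le_exp.2
          have hp : 0 ≤ (lam / β) ^ n * ((M / (n + 12) : ℕ) : ℝ) := by positivity
          have e : -((lam / β) ^ n * ((M / (n + 12) : ℕ) : ℝ)) / (8 / a) =
              -(a / 8 * ((lam / β) ^ n * ((M / (n + 12) : ℕ) : ℝ))) := by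
            field_simp
          rw [e]
          nlinarith [mul_nonneg ha.le hp]
  calc (((VW M).filter fun c => s (value c) < (VW n).card).card : ℝ)
      ≤ ((VW n).card : ℝ) ^ 2 * E := hcard
    _ ≤ (2 * β ^ n) ^ 2 * (Real.exp (-((lam / β) ^ n * (M / (n + 12) : ℕ)) / (8 / a)) *
        (2 * β ^ M)) := by
        rw [hE]
        gcongr
    _ = 8 * β ^ (2 * n) * Real.exp (-((lam / β) ^ n * (M / (n + 12) : ℕ)) / (8 / a)) *
        β ^ M := by
        rw [show β ^ (2 * n) = (β ^ n) ^ 2 by rw [← pow_mul, mul_comm]]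
        ring
    _ ≤ 8 / a * β ^ (2 * n) * Real.exp (-((lam / β) ^ n * (M / (n + 12) : ℕ)) / (8 / a)) *
        β ^ M := by
        gcongr
        rw [le_div_iff₀ ha]
        linarith

open Filter in
theorem TypicalLower_key (β lam γ δ C : ℝ) (hβ1 : 1 < β) (h0 : 0 < lam) (hlb : lam < β)
    (hγ : 0 < γ) (hδ : 0 < δ) (hδ1 : δ ≤ 1)
    (hγδ : γ * (Real.log (β / lam) / Real.log β) = 1 - δ) (hC : 0 < C) :
    ∀ᶠ x : ℝ in atTop, ∀ n M : ℕ, (n : ℝ) ≤ γ * Real.log x / Real.log β + 1 → x - 1 ≤ M →
      C * β ^ (2 * n) * Real.exp (- ((lam / β) ^ n * (M / (n + 12) : ℕ)) / C) ≤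
        C * β ^ 2 * (x ^ (2 * γ) * Real.exp (-(lam / β / C) * x ^ (δ / 2))) := by
  have hβ : 0 < β := by linarith
  have hlogβ : 0 < Real.log β := Real.log_pos hβ1
  have hq0 : 0 < lam / β := by positivity
  have hq1 : lam / β < 1 := by rwa [div_lt_one hβ]
  have h4 : 0 < δ / 4 := by linarith
  have hlo : ∀ᶠ x : ℝ in atTop, γ / Real.log β * Real.log x + 13 ≤ x ^ (δ / 4) := by
    have h1 : (fun x : ℝ => γ / Real.log β * Real.log x) =o[atTop] fun x : ℝ => x ^ (δ / 4) :=
      (isLittleO_log_rpow_atTop h4).const_mul_left _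
    have h2 : ∀ᶠ x : ℝ in atTop, (26 : ℝ) ≤ x ^ (δ / 4) :=
      (tendsto_rpow_atTop h4).eventually_ge_atTop 26
    filter_upwards [h1.bound (show (0 : ℝ) < 1 / 2 by norm_num), h2] with x hx hx2
    rw [Real.norm_eq_abs, Real.norm_eq_abs, abs_of_nonneg (by linarith : 0 ≤ x ^ (δ / 4))] at hx
    have := (abs_le.1 hx).2
    linarith
  filter_upwards [hlo, eventually_ge_atTop 2, (tendsto_rpow_atTop h4).eventually_ge_atTop 4]
    with x hx hx2 hu4 n M hn hM
  have hx0 : 0 < x := by linarith
  have hlogx : 0 ≤ Real.log x := Real.log_nonneg (by linarith)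
  set u : ℝ := x ^ (δ / 4) with hu
  have hu0 : 0 < u := by linarith
  have hu2 : u ^ 2 = x ^ (δ / 2) := by
    rw [hu, ← Real.rpow_natCast, ← Real.rpow_mul hx0.le]
    congr 1
    push_cast
    ring
  have hu2x : u ^ 2 ≤ x := by
    rw [hu2]
    calc x ^ (δ / 2) ≤ x ^ (1 : ℝ) := Real.rpow_le_rpow_of_exponent_le (by linarith) (by linarith)
      _ = x := Real.rpow_one x
  have hn12 : (n : ℝ) + 12 ≤ u := by
    have : γ * Real.log x / Real.log β = γ / Real.log β * Real.log x := by ring
    rw [this] at hn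
    linarith
  have hnpos : (0 : ℝ) < (n : ℝ) + 12 := by positivity
  -- the number of blocks
  set q : ℕ := M / (n + 12) with hqdef
  have hq : (M : ℝ) < ((n : ℝ) + 12) * (q + 1) := by
    have : M < (n + 12) * (q + 1) := by
      rw [hqdef]
      exact Nat.lt_mul_div_succ M (by omega)
    exact_mod_cast this
  have hqx : x / u ^ 2 ≤ q := by
    have h1 : x - 1 < u * (q + 1) := by
      calc x - 1 ≤ M := hM
        _ < ((n : ℝ) + 12) * (q + 1) := hq
        _ ≤ u * (q + 1) := by gcongr
    rw [div_le_iff₀ (by positivity)]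
    have h2 : x * (u - 1) ≥ u ^ 2 + u := by nlinarith
    nlinarith
  -- powers
  have hpow : lam / β * x ^ (-(1 - δ)) ≤ (lam / β) ^ n := by
    have e1 : (lam / β) ^ n = Real.exp (n * Real.log (lam / β)) := by
      rw [← Real.log_pow, Real.exp_log (by positivity)]
    have e2 : lam / β * x ^ (-(1 - δ)) =
        Real.exp ((γ * Real.log x / Real.log β + 1) * Real.log (lam / β)) := by
      have e3 : Real.log (lam / β) = - Real.log (β / lam) := by
        rw [← Real.log_inv, inv_div]
      rw [add_mul, one_mul, Real.exp_add, Real.exp_log hq0, mul_comm, Real.rpow_def_of_pos hx0]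
      congr 2
      rw [← hγδ, e3]
      field_simp
    rw [e1, e2]
    apply Real.exp_le_exp.2
    exact mul_le_mul_of_nonpos_right hn (Real.log_nonpos hq0.le hq1.le)
  have hprod : lam / β * x ^ (δ / 2) ≤ (lam / β) ^ n * (q : ℝ) := by
    calc lam / β * x ^ (δ / 2) = (lam / β * x ^ (-(1 - δ))) * (x / u ^ 2) := by
          rw [hu2]
          have e : x ^ (δ / 2) * x ^ (δ / 2) = x ^ (-(1 - δ)) * x := by
            nth_rewrite 4 [← Real.rpow_one x]
            rw [← Real.rpow_add hx0, ← Real.rpow_add hx0]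
            congr 1
            ring
          have hpos : 0 < x ^ (δ / 2) := Real.rpow_pos_of_pos hx0 _
          field_simp
          nlinarith [e]
      _ ≤ (lam / β) ^ n * (q : ℝ) := by
          apply mul_le_mul hpow hqx (by positivity) (by positivity)
  have hexp : Real.exp (- ((lam / β) ^ n * (q : ℝ)) / C) ≤
      Real.exp (-(lam / β / C) * x ^ (δ / 2)) := by
    apply Real.exp_le_exp.2
    have e : -(lam / β / C) * x ^ (δ / 2) = -(lam / β * x ^ (δ / 2)) / C := by ring
    rw [e]
    apply div_le_div_of_nonneg_right _ hC.le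
    linarith
  have hβn : β ^ (2 * n) ≤ β ^ 2 * x ^ (2 * γ) := by
    have e1 : β ^ (2 * n) = Real.exp ((2 * n : ℝ) * Real.log β) := by
      have : (2 * n : ℝ) = ((2 * n : ℕ) : ℝ) := by push_cast; ring
      rw [this, ← Real.log_pow, Real.exp_log (by positivity)]
    have e2 : β ^ 2 * x ^ (2 * γ) = Real.exp (2 * (γ * Real.log x / Real.log β + 1) *
        Real.log β) := by
      have e3 : 2 * (γ * Real.log x / Real.log β + 1) * Real.log β =
          2 * Real.log β + Real.log x * (2 * γ) := by
        field_simp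
        ring
      rw [e3, Real.exp_add, Real.rpow_def_of_pos hx0]
      congr 1
      rw [show (2 : ℝ) = ((2 : ℕ) : ℝ) by norm_num, ← Real.log_pow, Real.exp_log (by positivity)]
    rw [e1, e2]
    apply Real.exp_le_exp.2
    apply mul_le_mul_of_nonneg_right _ hlogβ.le
    linarith
  calc C * β ^ (2 * n) * Real.exp (- ((lam / β) ^ n * (q : ℕ)) / C)
      ≤ C * (β ^ 2 * x ^ (2 * γ)) * Real.exp (-(lam / β / C) * x ^ (δ / 2)) := by
        gcongr
    _ = _ := by ring

open Classical in
theorem typical_lower (β lam : ℝ) (hβ : 0 < β) (hβ3 : β ^ 3 = β ^ 2 + β + 1) (h0 : 0 < lam)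
    (h : lam ^ 4 = 2 * lam + 1) (ε : ℝ) (hε : 0 < ε) :
    Filter.Tendsto (fun N : ℕ => (((Finset.range N).filter fun c =>
      (s c : ℝ) < Real.log N ^ (Real.log β / Real.log (β / lam) - ε)).card : ℝ) / N)
      Filter.atTop (nhds 0) := by
  obtain ⟨C, hC, hb⟩ := typical_words β lam hβ hβ3 h0 h
  have hg := upper_beta_gt β hβ hβ3
  have hβ2 := upper_beta_lt β hβ hβ3
  have hll := upper_lam_lt lam h0 h
  have hlg := upper_lam_gt lam h0 h
  have hlogβ : 0 < Real.log β := Real.log_pos (by linarith)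
  have hlb : lam < β := by linarith
  have hbl : 1 < β / lam := by rwa [one_lt_div h0]
  have hlogbl : 0 < Real.log (β / lam) := Real.log_pos hbl
  set θ : ℝ := Real.log β / Real.log (β / lam) with hθ
  have hθ0 : 0 < θ := div_pos hlogβ hlogbl
  set ε' : ℝ := min ε (θ / 2) with hε'
  have hε'0 : 0 < ε' := lt_min hε (by linarith)
  have hε'1 : ε' ≤ ε := min_le_left _ _
  have hε'2 : ε' ≤ θ / 2 := min_le_right _ _
  set γ : ℝ := θ - ε' with hγ
  have hγ0 : 0 < γ := by linarith
  set δ : ℝ := ε' / θ with hδ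
  have hδ0 : 0 < δ := div_pos hε'0 hθ0
  have hδ1 : δ ≤ 1 := by
    rw [hδ, div_le_one hθ0]
    linarith
  have hγδ : γ * (Real.log (β / lam) / Real.log β) = 1 - δ := by
    have e : Real.log (β / lam) / Real.log β = 1 / θ := by rw [hθ, one_div_div]
    rw [e, hγ, hδ]
    field_simp
  have key := TypicalLower_key β lam γ δ C (by linarith) h0 hlb hγ0 hδ0 hδ1 hγδ hC
  have hlogN : Filter.Tendsto (fun N : ℕ => Real.log (N : ℝ)) Filter.atTop Filter.atTop :=
    Real.tendsto_log_atTop.comp tendsto_natCast_atTop_atTop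
  have hlim : Filter.Tendsto (fun N : ℕ => β * (C * β ^ 2 * (Real.log (N : ℝ) ^ (2 * γ) *
      Real.exp (-(lam / β / C) * Real.log (N : ℝ) ^ (δ / 2))))) Filter.atTop (nhds 0) := by
    have h1 : Filter.Tendsto (fun x : ℝ => x ^ (2 * γ) *
        Real.exp (-(lam / β / C) * x ^ (δ / 2))) Filter.atTop (nhds 0) := by
      have h2 := (tendsto_rpow_mul_exp_neg_mul_atTop_nhds_zero (4 * γ / δ) (lam / β / C)
        (by positivity)).comp (tendsto_rpow_atTop (show 0 < δ / 2 by linarith))
      refine h2.congr' ?_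
      filter_upwards [Filter.eventually_gt_atTop 0] with x hx
      simp only [Function.comp]
      rw [← Real.rpow_mul hx.le]
      congr 2
      field_simp
      ring
    have h3 := (h1.comp hlogN).const_mul (C * β ^ 2)
    have h4 := h3.const_mul β
    simpa using h4
  refine tendsto_of_tendsto_of_tendsto_of_le_of_le' tendsto_const_nhds hlim
    (Filter.Eventually.of_forall fun N => by positivity) ?_
  filter_upwards [hlogN.eventually key, hlogN.eventually_ge_atTop 2,
    Filter.eventually_ge_atTop 2] with N hkey hx2 hN2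
  set x : ℝ := Real.log (N : ℝ) with hx
  have hx0 : 0 < x := by linarith
  have hN0 : (0 : ℝ) < N := by
    have : 0 < N := by omega
    exact_mod_cast this
  have hex : ∃ M, N ≤ W M := ⟨N, (upper_lt_W N).le⟩
  set M := Nat.find hex with hM
  have hM1 : N ≤ W M := Nat.find_spec hex
  have hM0 : M ≠ 0 := by
    intro h0
    rw [h0] at hM1
    simp only [W] at hM1
    omega
  obtain ⟨k, hk⟩ := Nat.exists_eq_succ_of_ne_zero hM0
  have hkW : W k < N := by
    have := Nat.find_min hex (m := k) (by omega)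
    omega
  have hβM : β ^ M ≤ β * N := by
    rw [hk, pow_succ, mul_comm]
    have : β ^ k ≤ (N : ℝ) := le_trans (W_bounds β hβ hβ3 k).1 (by exact_mod_cast hkW.le)
    gcongr
  have hMx : x - 1 ≤ M := by
    have h1 : (N : ℝ) ≤ 2 * β ^ M := le_trans (by exact_mod_cast hM1) (W_bounds β hβ hβ3 M).2
    have h2 : x ≤ Real.log 2 + M * Real.log β := by
      rw [← Real.log_pow, ← Real.log_mul (by norm_num) (by positivity)]
      exact Real.log_le_log hN0 h1
    have h3 : Real.log 2 < 1 := by
      have := Real.log_two_lt_d9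
      linarith
    have h4 : Real.log β ≤ 1 := by
      have : Real.log β ≤ Real.log 2 := Real.log_le_log hβ hβ2.le
      linarith
    have h5 : (M : ℝ) * Real.log β ≤ M * 1 := by gcongr
    linarith
  set n : ℕ := ⌈γ * Real.log x / Real.log β⌉₊ with hn
  have hlogx : 0 ≤ Real.log x := Real.log_nonneg (by linarith)
  have hn1 : γ * Real.log x / Real.log β ≤ n := Nat.le_ceil _
  have hn2 : (n : ℝ) ≤ γ * Real.log x / Real.log β + 1 :=
    (Nat.ceil_lt_add_one (by positivity)).le
  have hT : x ^ (θ - ε) ≤ ((VW n).card : ℝ) := by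
    calc x ^ (θ - ε) ≤ x ^ γ := Real.rpow_le_rpow_of_exponent_le (by linarith) (by linarith)
      _ = Real.exp (γ * Real.log x / Real.log β * Real.log β) := by
          rw [Real.rpow_def_of_pos hx0]
          congr 1
          field_simp
      _ ≤ Real.exp (n * Real.log β) := by
          apply Real.exp_le_exp.2
          gcongr
      _ = β ^ n := by rw [← Real.log_pow, Real.exp_log (by positivity)]
      _ ≤ (W n : ℝ) := (W_bounds β hβ hβ3 n).1
      _ = ((VW n).card : ℝ) := by rw [card_VW]
  have hcount : (((Finset.range N).filter fun c => (s c : ℝ) < x ^ (θ - ε)).card : ℝ) ≤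
      (((VW M).filter fun c => s (value c) < (VW n).card).card : ℝ) := by
    have hsub : ((Finset.range N).filter fun c => (s c : ℝ) < x ^ (θ - ε)) ⊆
        ((VW M).filter fun c => s (value c) < (VW n).card).image value := by
      intro c hc
      obtain ⟨hc1, hc2⟩ := Finset.mem_filter.1 hc
      obtain ⟨w, hw1, hw2, hw3⟩ := exists_rep (lt_of_lt_of_le (Finset.mem_range.1 hc1) hM1)
      refine Finset.mem_image.2 ⟨w, Finset.mem_filter.2
        ⟨MeanCount_mem_VW.2 ⟨hw2, hw1⟩, ?_⟩, hw3⟩
      rw [hw3]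
      exact_mod_cast lt_of_lt_of_le hc2 hT
    exact_mod_cast (Finset.card_le_card hsub).trans Finset.card_image_le
  rw [div_le_iff₀ hN0]
  calc (((Finset.range N).filter fun c => (s c : ℝ) < x ^ (θ - ε)).card : ℝ)
      ≤ (((VW M).filter fun c => s (value c) < (VW n).card).card : ℝ) := hcount
    _ ≤ C * β ^ (2 * n) * Real.exp (- ((lam / β) ^ n * (M / (n + 12) : ℕ)) / C) * β ^ M :=
        hb n M
    _ ≤ (C * β ^ 2 * (x ^ (2 * γ) * Real.exp (-(lam / β / C) * x ^ (δ / 2)))) * (β * N) := by
        have := hkey n M hn2 hMx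
        gcongr
    _ = β * (C * β ^ 2 * (x ^ (2 * γ) * Real.exp (-(lam / β / C) * x ^ (δ / 2)))) * N := by
        ring

end Pool.H99.Trib
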