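import Pool.Agent.H99.Trib.TypicalUpper
import Pool.Agent.H99.Trib.TypicalLower

/-!
# Normal order of the state complexity
-/

namespace Pool.H99.Trib

theorem Normal_beta_lt (β : ℝ) (hβ : 0 < β) (hβ3 : β ^ 3 = β ^ 2 + β + 1) : β < 1.8393 := by
  by_contra hc
  push Not at hc
  have h1 : 1.8393 ^ 2 ≤ β ^ 2 := pow_le_pow_left₀ (by norm_num) hc 2
  have h2 : (0 : ℝ) ≤ (β - 1.8393) * (β ^ 2 + 0.8393 * β + 0.5437) := by
    apply mul_nonneg (by linarith)
    positivity
  nlinarith [h2]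

theorem Normal_lam_gt (lam : ℝ) (h0 : 0 < lam) (h : lam ^ 4 = 2 * lam + 1) : 1.3953 < lam := by
  by_contra hc
  push Not at hc
  have h1 : lam ^ 3 ≤ 1.3953 ^ 3 := pow_le_pow_left₀ h0.le hc 3
  have h2 : lam ^ 4 ≤ 1.3953 ^ 3 * lam := by
    calc lam ^ 4 = lam ^ 3 * lam := by ring
      _ ≤ 1.3953 ^ 3 * lam := mul_le_mul_of_nonneg_right h1 h0.le
  have h3 : (1.3953 : ℝ) ^ 3 * lam ≤ (2.71653 : ℝ) * lam :=
    mul_le_mul_of_nonneg_right (by norm_num) h0.le
  linarith

/-- numerical value of the exponent -/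
theorem theta_bounds (β lam : ℝ) (hβ : 0 < β) (hβ3 : β ^ 3 = β ^ 2 + β + 1) (h0 : 0 < lam)
    (h : lam ^ 4 = 2 * lam + 1) : 220 / 100 < Real.log β / Real.log (β / lam) ∧
      Real.log β / Real.log (β / lam) < 221 / 100 := by
  have hg := upper_beta_gt β hβ hβ3
  have hl := Normal_beta_lt β hβ hβ3
  have hlg := Normal_lam_gt lam h0 h
  have hll := upper_lam_lt lam h0 h
  have hlogβ : 0 < Real.log β := Real.log_pos (by linarith)
  have hq : 1 < β / lam := by
    rw [one_lt_div h0]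
    linarith
  have hlogq : 0 < Real.log (β / lam) := Real.log_pos hq
  have hdiv : Real.log (β / lam) = Real.log β - Real.log lam := Real.log_div hβ.ne' h0.ne'
  constructor
  · have h1 : β ^ 6 < lam ^ 11 := by
      calc β ^ 6 ≤ (1.8393 : ℝ) ^ 6 := pow_le_pow_left₀ hβ.le hl.le 6
        _ < (1.3953 : ℝ) ^ 11 := by norm_num
        _ ≤ lam ^ 11 := pow_le_pow_left₀ (by norm_num) hlg.le 11
    have h2 : Real.log (β ^ 6) < Real.log (lam ^ 11) := Real.log_lt_log (pow_pos hβ 6) h1
    rw [Real.log_pow, Real.log_pow] at h2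
    push_cast at h2
    rw [lt_div_iff₀ hlogq, hdiv]
    linarith
  · have h1 := exponent_lt β lam hβ hβ3 h0 h
    rw [div_lt_iff₀ hlogβ] at h1
    rw [div_lt_iff₀ hlogq, hdiv]
    linarith

open Classical in
theorem Normal_subset (θ ε ε' : ℝ) (hθ : ε' ≤ θ) (hε : 0 < ε) (hε' : ε' ≤ ε) (N : ℕ)
    (hN : (2 : ℝ) ^ (θ + ε) ≤ Real.log N ^ (ε / 2)) (hN3 : 3 ≤ N) (hθ0 : 0 < θ) :
    ((Finset.range N).filter fun c : ℕ =>
      ¬ (Real.log (c : ℝ) ^ (θ - ε) ≤ (s c : ℝ) ∧ (s c : ℝ) ≤ Real.log (c : ℝ) ^ (θ + ε))) ⊆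
    Finset.range (Nat.sqrt N + 4) ∪
      (((Finset.range N).filter fun c => (s c : ℝ) < Real.log N ^ (θ - ε')) ∪
       ((Finset.range N).filter fun c => Real.log N ^ (θ + ε / 2) < (s c : ℝ))) := by
  intro c hc
  rw [Finset.mem_filter, Finset.mem_range] at hc
  obtain ⟨hcN, hc⟩ := hc
  rw [Finset.mem_union, Finset.mem_union, Finset.mem_range, Finset.mem_filter, Finset.mem_filter,
    Finset.mem_range]
  by_cases hs : c < Nat.sqrt N + 4
  · exact Or.inl hs
  right
  push Not at hs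
  have hc4 : (4 : ℝ) ≤ c := by
    have : 4 ≤ c := by omega
    exact_mod_cast this
  have hlogc : 1 ≤ Real.log c := by
    rw [Real.le_log_iff_exp_le (by linarith)]
    have := Real.exp_one_lt_d9
    linarith
  have hN0 : (0 : ℝ) < N := by
    have : 0 < N := by omega
    exact_mod_cast this
  have hlogcN : Real.log c ≤ Real.log N :=
    Real.log_le_log (by linarith) (by exact_mod_cast hcN.le)
  rw [not_and_or] at hc
  rcases hc with hc | hc
  · left
    refine ⟨hcN, ?_⟩
    push Not at hc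
    refine lt_of_lt_of_le hc ?_
    calc Real.log c ^ (θ - ε) ≤ Real.log c ^ (θ - ε') :=
          Real.rpow_le_rpow_of_exponent_le hlogc (by linarith)
      _ ≤ Real.log N ^ (θ - ε') := Real.rpow_le_rpow (by linarith) hlogcN (by linarith)
  · right
    refine ⟨hcN, ?_⟩
    push Not at hc
    refine lt_of_le_of_lt ?_ hc
    have h1 : N < c * c := by
      have h2 := Nat.lt_succ_sqrt N
      have h3 : Nat.sqrt N + 1 ≤ c := by omega
      calc N < (Nat.sqrt N).succ * (Nat.sqrt N).succ := h2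
        _ ≤ c * c := Nat.mul_le_mul h3 h3
    have h2 : Real.log N ≤ 2 * Real.log c := by
      have h3 : (N : ℝ) ≤ (c : ℝ) ^ 2 := by
        rw [sq]
        exact_mod_cast h1.le
      have h4 := Real.log_le_log hN0 h3
      rwa [Real.log_pow, Nat.cast_ofNat] at h4
    have hlogN : 0 < Real.log N := by linarith
    have h5 : Real.log N / 2 ≤ Real.log c := by linarith
    calc Real.log N ^ (θ + ε / 2)
        = Real.log N ^ (θ + ε / 2) * 2 ^ (θ + ε) / 2 ^ (θ + ε) := by
          rw [mul_div_assoc, div_self (Real.rpow_pos_of_pos (by norm_num) _).ne', mul_one]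
      _ ≤ Real.log N ^ (θ + ε / 2) * Real.log N ^ (ε / 2) / 2 ^ (θ + ε) := by
          gcongr
      _ = (Real.log N / 2) ^ (θ + ε) := by
          rw [← Real.rpow_add hlogN, Real.div_rpow hlogN.le (by norm_num)]
          congr 2
          ring
      _ ≤ Real.log c ^ (θ + ε) := Real.rpow_le_rpow (by linarith) h5 (by linarith)

theorem Normal_sqrt : Filter.Tendsto (fun N : ℕ => ((Nat.sqrt N + 4 : ℕ) : ℝ) / N)
    Filter.atTop (nhds 0) := by
  have h1 : Filter.Tendsto (fun N : ℕ => (5 : ℝ) / Real.sqrt N) Filter.atTop (nhds 0) :=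
    tendsto_const_nhds.div_atTop (Real.tendsto_sqrt_atTop.comp tendsto_natCast_atTop_atTop)
  refine squeeze_zero' (Filter.Eventually.of_forall fun N => by positivity) ?_ h1
  filter_upwards [Filter.eventually_ge_atTop 1] with N hN
  have hN1 : (1 : ℝ) ≤ N := by exact_mod_cast hN
  have hs1 : 1 ≤ Real.sqrt N := by
    rw [Real.one_le_sqrt]
    exact hN1
  have hs2 : Real.sqrt N * Real.sqrt N = N := Real.mul_self_sqrt (by linarith)
  have hs3 : ((Nat.sqrt N : ℕ) : ℝ) ≤ Real.sqrt N := Real.nat_sqrt_le_real_sqrt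
  rw [div_le_div_iff₀ (by linarith) (by linarith)]
  push_cast
  nlinarith

open Classical in
theorem normal_order (β lam : ℝ) (hβ : 0 < β) (hβ3 : β ^ 3 = β ^ 2 + β + 1) (h0 : 0 < lam)
    (h : lam ^ 4 = 2 * lam + 1) (ε : ℝ) (hε : 0 < ε) :
    Filter.Tendsto (fun N : ℕ => (((Finset.range N).filter fun c : ℕ =>
      ¬ (Real.log (c : ℝ) ^ (Real.log β / Real.log (β / lam) - ε) ≤ (s c : ℝ) ∧
        (s c : ℝ) ≤ Real.log (c : ℝ) ^ (Real.log β / Real.log (β / lam) + ε))).card : ℝ) / N)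
      Filter.atTop (nhds 0) := by
  have hth := theta_bounds β lam hβ hβ3 h0 h
  have hu := typical_upper β lam hβ hβ3 h0 h (ε / 2) (by linarith)
  have hl := typical_lower β lam hβ hβ3 h0 h (min ε 1) (lt_min hε one_pos)
  set θ : ℝ := Real.log β / Real.log (β / lam) with hθ
  have hsum := (Normal_sqrt.add (hl.add hu))
  simp only [add_zero] at hsum
  refine squeeze_zero' (Filter.Eventually.of_forall fun N => by positivity) ?_ hsum
  have hlog : Filter.Tendsto (fun N : ℕ => Real.log N ^ (ε / 2)) Filter.atTop Filter.atTop :=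
    (tendsto_rpow_atTop (by linarith)).comp
      (Real.tendsto_log_atTop.comp tendsto_natCast_atTop_atTop)
  filter_upwards [Filter.eventually_ge_atTop 3, hlog.eventually_ge_atTop ((2 : ℝ) ^ (θ + ε))]
    with N hN3 hN
  have hsub := Normal_subset θ ε (min ε 1) ((min_le_right _ _).trans (by linarith)) hε
    (min_le_left _ _) N hN hN3 (by linarith)
  have hcard := (Finset.card_le_card hsub).trans ((Finset.card_union_le _ _).trans
    (Nat.add_le_add_left (Finset.card_union_le _ _) _))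
  rw [Finset.card_range] at hcard
  have hcard' : (((Finset.range N).filter fun c : ℕ =>
      ¬ (Real.log (c : ℝ) ^ (θ - ε) ≤ (s c : ℝ) ∧
        (s c : ℝ) ≤ Real.log (c : ℝ) ^ (θ + ε))).card : ℝ) ≤
      ((Nat.sqrt N + 4 : ℕ) : ℝ) +
      ((((Finset.range N).filter fun c => (s c : ℝ) < Real.log N ^ (θ - min ε 1)).card : ℝ) +
       (((Finset.range N).filter fun c => Real.log N ^ (θ + ε / 2) < (s c : ℝ)).card : ℝ)) := by
    exact_mod_cast hcard
  rw [← add_div, ← add_div]
  exact div_le_div_of_nonneg_right hcard' (Nat.cast_nonneg N)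

end Pool.H99.Trib
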