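import Pool.Agent.H99.Trib.Word3
import Pool.Agent.H99.Trib.Energy
import Pool.Agent.H99.Trib.MeanCount

/-!
# Bounds for the numbers of common neighbours
-/

namespace Pool.H99.Trib

open Classical in
/-- number of valid words whose sums with `A` and with `B` are not reset words -/
noncomputable def N2 (A B : List Bool) : ℕ :=
  ((VW A.length).filter fun U => Unsync U A ∧ Unsync U B).card

open Classical in
theorem deg_bound (lam : ℝ) (h0 : 0 < lam) (h : lam ^ 4 = 2 * lam + 1) :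
    ∃ K : ℝ, 0 < K ∧ ∀ U : List Bool,
      (((VW U.length).filter fun C => Unsync U C).card : ℝ) ≤ K * lam ^ U.length := by
  obtain ⟨C, hC, hb⟩ := ncard_unsync lam h0 h
  refine ⟨C, hC, fun U => ?_⟩
  refine le_trans (le_of_eq ?_) (hb U)
  congr 1
  rw [← Set.ncard_coe_finset]
  congr 1
  ext w
  simp only [Finset.coe_filter, Set.mem_setOf_eq, MeanCount_mem_VW]
  constructor
  · rintro ⟨⟨h1, h2⟩, h3⟩
    exact ⟨h1, h2, unsync_comm.1 h3⟩
  · rintro ⟨h1, h2, h3⟩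
    exact ⟨⟨h1, h2⟩, unsync_comm.1 h3⟩

/-- additive quadruples of two finite sets -/
def PBound_E (A B : Finset Z3) : Finset ((Z3 × Z3) × (Z3 × Z3)) :=
  ((A ×ˢ A) ×ˢ (B ×ˢ B)).filter fun x => x.1.1 - x.1.2 = x.2.1 - x.2.2

/-- number of representations as a difference -/
def PBound_r (A : Finset Z3) (e : Z3) : ℕ := ((A ×ˢ A).filter fun x => x.1 - x.2 = e).card

theorem PBound_E_eq (A B : Finset Z3) (T : Finset Z3)
    (hT : (A ×ˢ A).image (fun x => x.1 - x.2) ⊆ T) :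
    (PBound_E A B).card = ∑ e ∈ T, PBound_r A e * PBound_r B e := by
  have h1 : Set.MapsTo (fun x : (Z3 × Z3) × (Z3 × Z3) => x.1.1 - x.1.2)
      (PBound_E A B : Set ((Z3 × Z3) × (Z3 × Z3))) (T : Set Z3) := by
    intro x hx
    apply hT
    simp only [PBound_E, Finset.coe_filter, Finset.mem_product, Set.mem_setOf_eq] at hx
    rw [Finset.mem_image]
    exact ⟨x.1, Finset.mem_product.2 ⟨hx.1.1.1, hx.1.1.2⟩, rfl⟩
  rw [Finset.card_eq_sum_card_fiberwise h1]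
  apply Finset.sum_congr rfl
  intro e _
  rw [PBound_r, PBound_r, ← Finset.card_product]
  congr 1
  ext ⟨x, y⟩
  simp only [PBound_E, Finset.mem_filter, Finset.mem_product]
  constructor
  · rintro ⟨⟨⟨h1, h2⟩, h3⟩, h4⟩
    exact ⟨⟨h1, h4⟩, ⟨h2, h3 ▸ h4⟩⟩
  · rintro ⟨⟨h1, h4⟩, ⟨h2, h3⟩⟩
    exact ⟨⟨⟨h1, h2⟩, h4.trans h3.symm⟩, h4⟩

theorem PBound_E_le (A B : Finset Z3) :
    2 * (PBound_E A B).card ≤ (PBound_E A A).card + (PBound_E B B).card := by
  set T : Finset Z3 := (A ×ˢ A).image (fun x => x.1 - x.2) ∪ (B ×ˢ B).image (fun x => x.1 - x.2)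
  rw [PBound_E_eq A B T Finset.subset_union_left, PBound_E_eq A A T Finset.subset_union_left,
    PBound_E_eq B B T Finset.subset_union_right, Finset.mul_sum, ← Finset.sum_add_distrib]
  apply Finset.sum_le_sum
  intro e _
  have := two_mul_le_add_sq (PBound_r A e) (PBound_r B e)
  nlinarith

/-- the translated set -/
def PBound_A (j : ℕ) (x : Z3 × Z3) : Finset Z3 :=
  (bp j x.2).toFinset.image fun b => x.1 + vz b

theorem PBound_mem_A {j : ℕ} {x : Z3 × Z3} {v : Z3} (h : ∃ b ∈ bp j x.2, v = x.1 + vz b) :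
    v ∈ PBound_A j x := by
  obtain ⟨b, hb, rfl⟩ := h
  exact Finset.mem_image.2 ⟨b, by simpa using hb, rfl⟩

theorem PBound_A_energy {K : ℝ} (hK : ∀ (j : ℕ) (d : Z3), d ∈ DD →
    (((((bp j d).toFinset ×ˢ (bp j d).toFinset) ×ˢ
      ((bp j d).toFinset ×ˢ (bp j d).toFinset)).filter
        fun x => vz x.1.1 - vz x.1.2 = vz x.2.1 - vz x.2.2).card : ℝ) ≤ K * (23 / 10 : ℝ) ^ j)
    (j : ℕ) {x : Z3 × Z3} (hx : x.2 ∈ DD) :
    ((PBound_E (PBound_A j x) (PBound_A j x)).card : ℝ) ≤ K * (23 / 10 : ℝ) ^ j := by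
  refine le_trans ?_ (hK j x.2 hx)
  norm_cast
  set S := (bp j x.2).toFinset
  have hsub : PBound_E (PBound_A j x) (PBound_A j x) ⊆
      (((S ×ˢ S) ×ˢ (S ×ˢ S)).filter
        fun x => vz x.1.1 - vz x.1.2 = vz x.2.1 - vz x.2.2).image
        (fun y : (List Bool × List Bool) × (List Bool × List Bool) =>
          ((x.1 + vz y.1.1, x.1 + vz y.1.2), (x.1 + vz y.2.1, x.1 + vz y.2.2))) := by
    rintro ⟨⟨a, b⟩, ⟨c, d⟩⟩ hz
    simp only [PBound_E, Finset.mem_filter, Finset.mem_product, PBound_A, Finset.mem_image] at hz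
    obtain ⟨⟨⟨⟨a', ha', rfl⟩, ⟨b', hb', rfl⟩⟩, ⟨⟨c', hc', rfl⟩, ⟨d', hd', rfl⟩⟩⟩, he⟩ := hz
    rw [Finset.mem_image]
    refine ⟨((a', b'), (c', d')), ?_, rfl⟩
    simp only [Finset.mem_filter, Finset.mem_product]
    refine ⟨⟨⟨ha', hb'⟩, ⟨hc', hd'⟩⟩, ?_⟩
    simpa using he
  exact (Finset.card_le_card hsub).trans Finset.card_image_le

open Classical in
/-- words `U` whose sums with `D` and `C` lie in the translates `k` and `i` -/
noncomputable def PBound_F (D C : List Bool) (k i : Z3 × Z3) : Finset (List Bool) :=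
  (VW D.length).filter fun U =>
    vz U + vz D ∈ PBound_A D.length k ∧ vz U + vz C ∈ PBound_A D.length i

theorem PBound_S : ∃ L : ℕ, ∀ j : ℕ, ∃ S : Finset (Z3 × Z3), S.card ≤ L ∧
    ∀ x, x ∈ S ↔ x ∈ IX j := by
  refine ⟨(IX 0).length, fun j => ?_⟩
  have h := IX_length j
  generalize IX j = l at h ⊢
  rw [← h]
  exact ⟨l.toFinset, List.toFinset_card_le _, fun x => List.mem_toFinset⟩

open Classical in
theorem PBound_N2_le (D C : List Bool) (hC : C.length = D.length) (S : Finset (Z3 × Z3))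
    (hS : ∀ x, x ∈ S ↔ x ∈ IX D.length) :
    N2 D C ≤ ∑ p ∈ S ×ˢ S, (PBound_F D C p.1 p.2).card := by
  have hsub : ((VW D.length).filter fun U => Unsync U D ∧ Unsync U C) ⊆
      (S ×ˢ S).biUnion fun p => PBound_F D C p.1 p.2 := by
    intro U hU
    rw [Finset.mem_filter] at hU
    obtain ⟨hUV, h1, h2⟩ := hU
    obtain ⟨hUl, hUv⟩ := MeanCount_mem_VW.1 hUV
    obtain ⟨k, hk, hk'⟩ := unsync_vz hUl h1
    obtain ⟨i, hi, hi'⟩ := unsync_vz (hUl.trans hC.symm) h2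
    rw [hC] at hi hi'
    rw [Finset.mem_biUnion]
    refine ⟨(k, i), ?_, ?_⟩
    · rw [Finset.mem_product]
      exact ⟨(hS k).2 hk, (hS i).2 hi⟩
    · rw [PBound_F, Finset.mem_filter]
      exact ⟨hUV, PBound_mem_A hk', PBound_mem_A hi'⟩
  exact (Finset.card_le_card hsub).trans Finset.card_biUnion_le

open Classical in
theorem PBound_sum_sq (D : List Bool) (k i : Z3 × Z3) :
    ∑ C ∈ VW D.length, (PBound_F D C k i).card ^ 2 ≤
      (PBound_E (PBound_A D.length k) (PBound_A D.length i)).card := by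
  have h1 : ∑ C ∈ VW D.length, (PBound_F D C k i).card ^ 2 =
      ((VW D.length).sigma fun C => PBound_F D C k i ×ˢ PBound_F D C k i).card := by
    rw [Finset.card_sigma]
    apply Finset.sum_congr rfl
    intro C _
    rw [Finset.card_product, sq]
  rw [h1]
  apply Finset.card_le_card_of_injOn
    (fun x => ((vz x.2.1 + vz D, vz x.2.2 + vz D), (vz x.2.1 + vz x.1, vz x.2.2 + vz x.1)))
  · rintro ⟨C, U, U'⟩ hx
    have hx' := Finset.mem_sigma.1 (Finset.mem_coe.1 hx)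
    simp only [Finset.mem_product, PBound_F, Finset.mem_filter] at hx'
    obtain ⟨-, ⟨-, h2, h3⟩, ⟨-, h4, h5⟩⟩ := hx'
    simp only [Finset.mem_coe, PBound_E, Finset.mem_filter, Finset.mem_product]
    exact ⟨⟨⟨h2, h4⟩, ⟨h3, h5⟩⟩, by abel⟩
  · rintro ⟨C, U, U'⟩ hx ⟨C2, U2, U2'⟩ hy hxy
    have hx' := Finset.mem_sigma.1 (Finset.mem_coe.1 hx)
    have hy' := Finset.mem_sigma.1 (Finset.mem_coe.1 hy)
    simp only [Finset.mem_product, PBound_F, Finset.mem_filter, MeanCount_mem_VW] at hx' hy'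
    obtain ⟨⟨hC1, hC2⟩, ⟨⟨hU1, hU2⟩, -, -⟩, ⟨⟨hV1, hV2⟩, -, -⟩⟩ := hx'
    obtain ⟨⟨gC1, gC2⟩, ⟨⟨gU1, gU2⟩, -, -⟩, ⟨⟨gV1, gV2⟩, -, -⟩⟩ := hy'
    have e := hxy
    simp only [Prod.mk.injEq] at e
    have e1 : vz U + vz D = vz U2 + vz D := congrArg (fun t => t.1.1) hxy
    have e2 : vz U' + vz D = vz U2' + vz D := congrArg (fun t => t.1.2) hxy
    have e3 : vz U + vz C = vz U2 + vz C2 := congrArg (fun t => t.2.1) hxy
    have f1 : U = U2 := vz_inj hU2 gU2 (hU1.trans gU1.symm) (add_right_cancel e1)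
    have f2 : U' = U2' := vz_inj hV2 gV2 (hV1.trans gV1.symm) (add_right_cancel e2)
    rw [f1] at e3
    have f3 : C = C2 := vz_inj hC2 gC2 (hC1.trans gC1.symm) (add_left_cancel e3)
    subst f1
    subst f2
    subst f3
    rfl

open Classical in
/-- second moment of the number of common neighbours of a fixed word and of a varying word -/
theorem N2_sq_bound : ∃ K : ℝ, 0 < K ∧ ∀ D : List Bool,
    ∑ C ∈ VW D.length, (N2 D C : ℝ) ^ 2 ≤ K * (23 / 10 : ℝ) ^ D.length := by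
  obtain ⟨K, hK0, hK⟩ := energy_bp
  obtain ⟨L, hL⟩ := PBound_S
  refine ⟨(L : ℝ) ^ 4 * K + 1, by positivity, fun D => ?_⟩
  obtain ⟨S, hSL, hS⟩ := hL D.length
  have hScard : ((S ×ˢ S).card : ℝ) ≤ (L : ℝ) ^ 2 := by
    rw [Finset.card_product]
    have h2 : (S.card : ℝ) ≤ (L : ℝ) := by exact_mod_cast hSL
    push_cast
    nlinarith [Nat.cast_nonneg (α := ℝ) S.card]
  have hnode : ∀ x ∈ S, x.2 ∈ DD := by
    intro x hx
    exact IX_node (j := D.length) ((hS x).1 hx)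
  have hE : ∀ p ∈ S ×ˢ S,
      ((PBound_E (PBound_A D.length p.1) (PBound_A D.length p.2)).card : ℝ) ≤
        K * (23 / 10 : ℝ) ^ D.length := by
    intro p hp
    rw [Finset.mem_product] at hp
    have h1 := PBound_A_energy hK D.length (hnode _ hp.1)
    have h2 := PBound_A_energy hK D.length (hnode _ hp.2)
    have h3 : (2 * ((PBound_E (PBound_A D.length p.1) (PBound_A D.length p.2)).card : ℝ)) ≤
        ((PBound_E (PBound_A D.length p.1) (PBound_A D.length p.1)).card : ℝ) +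
        ((PBound_E (PBound_A D.length p.2) (PBound_A D.length p.2)).card : ℝ) := by
      exact_mod_cast PBound_E_le (PBound_A D.length p.1) (PBound_A D.length p.2)
    linarith
  have hpow : (0 : ℝ) ≤ (23 / 10 : ℝ) ^ D.length := by positivity
  calc ∑ C ∈ VW D.length, (N2 D C : ℝ) ^ 2
      ≤ ∑ C ∈ VW D.length, ((S ×ˢ S).card : ℝ) *
          ∑ p ∈ S ×ˢ S, ((PBound_F D C p.1 p.2).card : ℝ) ^ 2 := by
        apply Finset.sum_le_sum
        intro C hC
        have h1 : (N2 D C : ℝ) ≤ ∑ p ∈ S ×ˢ S, ((PBound_F D C p.1 p.2).card : ℝ) := by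
          exact_mod_cast PBound_N2_le D C (MeanCount_mem_VW.1 hC).1 S hS
        have h2 : (N2 D C : ℝ) ^ 2 ≤ (∑ p ∈ S ×ˢ S, ((PBound_F D C p.1 p.2).card : ℝ)) ^ 2 :=
          pow_le_pow_left₀ (Nat.cast_nonneg _) h1 2
        exact h2.trans sq_sum_le_card_mul_sum_sq
    _ = ((S ×ˢ S).card : ℝ) * ∑ p ∈ S ×ˢ S,
          ∑ C ∈ VW D.length, ((PBound_F D C p.1 p.2).card : ℝ) ^ 2 := by
        rw [← Finset.mul_sum, Finset.sum_comm]
    _ ≤ ((S ×ˢ S).card : ℝ) * ∑ p ∈ S ×ˢ S, K * (23 / 10 : ℝ) ^ D.length := by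
        refine mul_le_mul_of_nonneg_left ?_ (Nat.cast_nonneg _)
        apply Finset.sum_le_sum
        intro p hp
        refine le_trans ?_ (hE p hp)
        exact_mod_cast PBound_sum_sq D p.1 p.2
    _ = ((S ×ˢ S).card : ℝ) * (((S ×ˢ S).card : ℝ) * (K * (23 / 10 : ℝ) ^ D.length)) := by
        rw [Finset.sum_const, nsmul_eq_mul]
    _ ≤ (L : ℝ) ^ 2 * ((L : ℝ) ^ 2 * (K * (23 / 10 : ℝ) ^ D.length)) := by
        gcongr
    _ ≤ ((L : ℝ) ^ 4 * K + 1) * (23 / 10 : ℝ) ^ D.length := by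
        nlinarith

theorem PBound_lam : ∃ lam : ℝ, 0 < lam ∧ lam ^ 4 = 2 * lam + 1 := by
  have hc : ContinuousOn (fun x : ℝ => x ^ 4 - 2 * x - 1) (Set.Icc 1 2) := by fun_prop
  have hm : (0 : ℝ) ∈ Set.Icc ((fun x : ℝ => x ^ 4 - 2 * x - 1) 1)
      ((fun x : ℝ => x ^ 4 - 2 * x - 1) 2) := by
    constructor <;> norm_num
  obtain ⟨x, hx, hx2⟩ := intermediate_value_Icc (by norm_num) hc hm
  have hx3 : x ^ 4 - 2 * x - 1 = 0 := hx2
  exact ⟨x, by linarith [hx.1], by linarith⟩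

open Classical in
theorem P_bound : ∃ K : ℝ, 0 < K ∧ ∀ U D : List Bool, U.length = D.length →
    ∑ C ∈ (VW U.length).filter (fun C => Unsync U C), (N2 D C : ℝ) ≤
      K * (9 / 5 : ℝ) ^ U.length := by
  obtain ⟨lam, h0, h⟩ := PBound_lam
  obtain ⟨K1, hK1, h1⟩ := deg_bound lam h0 h
  obtain ⟨K2, hK2, h2⟩ := N2_sq_bound
  have hlam := upper_lam_lt lam h0 h
  refine ⟨K1 * K2 + 1, by positivity, fun U D hl => ?_⟩
  set F := (VW U.length).filter (fun C => Unsync U C) with hF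
  have h3 : (∑ C ∈ F, (N2 D C : ℝ)) ^ 2 ≤ (K1 * lam ^ U.length) * (K2 * (23 / 10 : ℝ) ^ U.length) := by
    calc (∑ C ∈ F, (N2 D C : ℝ)) ^ 2 ≤ (F.card : ℝ) * ∑ C ∈ F, (N2 D C : ℝ) ^ 2 :=
          sq_sum_le_card_mul_sum_sq
      _ ≤ (F.card : ℝ) * ∑ C ∈ VW U.length, (N2 D C : ℝ) ^ 2 := by
          refine mul_le_mul_of_nonneg_left ?_ (Nat.cast_nonneg _)
          exact Finset.sum_le_sum_of_subset_of_nonneg (Finset.filter_subset _ _)
            fun _ _ _ => by positivity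
      _ ≤ (K1 * lam ^ U.length) * (K2 * (23 / 10 : ℝ) ^ U.length) := by
          have h4 := h2 D
          rw [← hl] at h4
          exact mul_le_mul (h1 U) h4 (Finset.sum_nonneg fun _ _ => by positivity) (by positivity)
  have h5 : lam ^ U.length * (23 / 10 : ℝ) ^ U.length ≤ ((9 / 5 : ℝ) ^ U.length) ^ 2 := by
    rw [← mul_pow, ← pow_mul, mul_comm U.length 2, pow_mul]
    apply pow_le_pow_left₀ (by positivity)
    norm_num
    linarith
  have h6 : (∑ C ∈ F, (N2 D C : ℝ)) ^ 2 ≤ ((K1 * K2 + 1) * (9 / 5 : ℝ) ^ U.length) ^ 2 := by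
    have h7 : (0 : ℝ) ≤ ((9 / 5 : ℝ) ^ U.length) ^ 2 := by positivity
    have h8 : 0 < K1 * K2 := by positivity
    calc (∑ C ∈ F, (N2 D C : ℝ)) ^ 2 ≤ K1 * K2 * (lam ^ U.length * (23 / 10 : ℝ) ^ U.length) := by
          linarith
      _ ≤ K1 * K2 * ((9 / 5 : ℝ) ^ U.length) ^ 2 := by gcongr
      _ ≤ (K1 * K2 + 1) ^ 2 * ((9 / 5 : ℝ) ^ U.length) ^ 2 := by
          refine mul_le_mul_of_nonneg_right ?_ h7
          nlinarith
      _ = _ := by ring
  exact le_of_sq_le_sq h6 (by positivity)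

end Pool.H99.Trib
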