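import Pool.Agent.H99.Trib.Auto

/-!
# Persistent pairs of states
-/

namespace Pool.H99.Trib

/-- number of words `t` of length `k` with different outputs from `p` and `q`; `p` is a state
reached by a valid word, and the digit `1` is not allowed in the state `4` -/
def fcount : ℕ → Q → Q → ℕ
  | 0, p, q => if ou p = ou q then 0 else 1
  | k + 1, p, q => fcount k (dl p 0) (dl q 0) + if p = 4 then 0 else fcount k (dl p 1) (dl q 1)

/-- good pairs -/
def GG : List (Q × Q) := [(0, 7), (0, 11), (0, 12), (0, 14), (0, 15), (0, 17), (0, 18), (0, 21),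
  (0, 22), (0, 33), (1, 2), (1, 5), (1, 6), (1, 8), (1, 9), (1, 13), (1, 14), (1, 15), (1, 16),
  (1, 17), (1, 19), (1, 20), (1, 21), (1, 23), (1, 25), (1, 27), (1, 30), (1, 31), (1, 32),
  (1, 34), (3, 7), (3, 11), (3, 12), (3, 14), (3, 15), (3, 17), (3, 18), (3, 21), (3, 22), (3, 33),
  (4, 5), (4, 6), (4, 7), (4, 8), (4, 18), (4, 19), (4, 20), (4, 22), (4, 23), (4, 31), (4, 34),
  (10, 7), (10, 11), (10, 12), (10, 14), (10, 15), (10, 17), (10, 18), (10, 21), (10, 22), (10, 33)]

/-- states of valid words -/
def canonQ : List Q := [0, 1, 3, 4, 10]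

/-- reading the word `t` from `p` never reads the digit `1` in the state `4` -/
def Pers_ok : Q → List Bool → Bool
  | _, [] => true
  | p, b :: t => (!(b && decide (p = 4))) && Pers_ok (dl p b.toNat) t

theorem Pers_path (t : List Bool) : ∀ (k : ℕ) (p q : Q), Pers_ok p t = true →
    fcount k (dls p (bits t)) (dls q (bits t)) ≤ fcount (k + t.length) p q := by
  induction t with
  | nil => intro k p q _; exact le_rfl
  | cons b t ih =>
    intro k p q h
    have hlen : k + (b :: t).length = (k + t.length) + 1 := by
      rw [List.length_cons]; omega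
    rw [hlen]
    have hs : fcount ((k + t.length) + 1) p q = fcount (k + t.length) (dl p 0) (dl q 0)
      + if p = 4 then 0 else fcount (k + t.length) (dl p 1) (dl q 1) := rfl
    rw [hs]
    simp only [Pers_ok, Bool.and_eq_true] at h
    obtain ⟨h1, h2⟩ := h
    have h3 := ih k (dl p b.toNat) (dl q b.toNat) h2
    cases b with
    | false => exact h3.trans (Nat.le_add_right _ _)
    | true =>
      have hp : p ≠ 4 := by
        intro e
        simp [e] at h1
      rw [if_neg hp]
      exact h3.trans (Nat.le_add_left _ _)

theorem Pers_split (k : ℕ) {p q : Q} (hp : p ≠ 4) :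
    fcount (k + 1) p q = fcount k (dl p 0) (dl q 0) + fcount k (dl p 1) (dl q 1) := by
  show (fcount k (dl p 0) (dl q 0) + if p = 4 then 0 else fcount k (dl p 1) (dl q 1)) = _
  rw [if_neg hp]

/-- three disjoint words `00u`, `01v`, `1w` -/
theorem Pers_three (k : ℕ) {p q : Q} (hp : p ≠ 4) (hp0 : dl p 0 ≠ 4) (u v w : List Bool)
    (a b c : ℕ) (ha : a + u.length = k + 2) (hb : b + v.length = k + 2)
    (hc : c + w.length = k + 3)
    (hu : Pers_ok (dl (dl p 0) 0) u = true) (hv : Pers_ok (dl (dl p 0) 1) v = true)
    (hw : Pers_ok (dl p 1) w = true) :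
    fcount a (dls (dl (dl p 0) 0) (bits u)) (dls (dl (dl q 0) 0) (bits u))
      + fcount b (dls (dl (dl p 0) 1) (bits v)) (dls (dl (dl q 0) 1) (bits v))
      + fcount c (dls (dl p 1) (bits w)) (dls (dl q 1) (bits w)) ≤ fcount (k + 4) p q := by
  have h1 : fcount (k + 4) p q = fcount (k + 3) (dl p 0) (dl q 0)
      + fcount (k + 3) (dl p 1) (dl q 1) := Pers_split (k + 3) hp
  have h2 : fcount (k + 3) (dl p 0) (dl q 0) = fcount (k + 2) (dl (dl p 0) 0) (dl (dl q 0) 0)
      + fcount (k + 2) (dl (dl p 0) 1) (dl (dl q 0) 1) := Pers_split (k + 2) hp0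
  have h3 := Pers_path u a (dl (dl p 0) 0) (dl (dl q 0) 0) hu
  have h4 := Pers_path v b (dl (dl p 0) 1) (dl (dl q 0) 1) hv
  have h5 := Pers_path w c (dl p 1) (dl q 1) hw
  rw [ha] at h3
  rw [hb] at h4
  rw [hc] at h5
  omega

/-- the core pairs -/
def Pers_core : List (Q × Q) := [(1, 2), (1, 9), (3, 11), (10, 11)]

theorem Pers_rec (k : ℕ) (c : ℝ) (h0 : ∀ x ∈ Pers_core, c ≤ (fcount k x.1 x.2 : ℝ)) (d : ℝ)
    (h1 : ∀ x ∈ Pers_core, d ≤ (fcount (k + 1) x.1 x.2 : ℝ)) :
    ∀ x ∈ Pers_core, 2 * d + c ≤ (fcount (k + 4) x.1 x.2 : ℝ) := by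
  have e1 := h1 (1, 2) (by simp [Pers_core])
  have e2 := h1 (1, 9) (by simp [Pers_core])
  have e3 := h1 (3, 11) (by simp [Pers_core])
  have e4 := h1 (10, 11) (by simp [Pers_core])
  have f2 := h0 (1, 9) (by simp [Pers_core])
  have f4 := h0 (10, 11) (by simp [Pers_core])
  simp only at e1 e2 e3 e4 f2 f4
  intro x hx
  simp only [Pers_core, List.mem_cons, List.not_mem_nil, or_false] at hx
  rcases hx with rfl | rfl | rfl | rfl
  · have h := Pers_three k (p := 1) (q := 2) (by decide +kernel) (by decide +kernel)
      [true] [true, false] [false, true] (k + 1) k (k + 1) rfl rfl rfl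
      (by decide +kernel) (by decide +kernel) (by decide +kernel)
    have g1 : dls (dl (dl (1 : Q) 0) 0) (bits [true]) = 1 := by decide +kernel
    have g2 : dls (dl (dl (2 : Q) 0) 0) (bits [true]) = 2 := by decide +kernel
    have g3 : dls (dl (dl (1 : Q) 0) 1) (bits [true, false]) = 10 := by decide +kernel
    have g4 : dls (dl (dl (2 : Q) 0) 1) (bits [true, false]) = 11 := by decide +kernel
    have g5 : dls (dl (1 : Q) 1) (bits [false, true]) = 1 := by decide +kernel
    have g6 : dls (dl (2 : Q) 1) (bits [false, true]) = 9 := by decide +kernel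
    rw [g1, g2, g3, g4, g5, g6] at h
    have h' : ((fcount (k + 1) 1 2 : ℝ) + fcount k 10 11 + fcount (k + 1) 1 9)
      ≤ fcount (k + 4) 1 2 := by exact_mod_cast h
    simp only
    linarith
  · have h := Pers_three k (p := 1) (q := 9) (by decide +kernel) (by decide +kernel)
      [true] [true, false] [false, true] (k + 1) k (k + 1) rfl rfl rfl
      (by decide +kernel) (by decide +kernel) (by decide +kernel)
    have g1 : dls (dl (dl (1 : Q) 0) 0) (bits [true]) = 1 := by decide +kernel
    have g2 : dls (dl (dl (9 : Q) 0) 0) (bits [true]) = 2 := by decide +kernel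
    have g3 : dls (dl (dl (1 : Q) 0) 1) (bits [true, false]) = 10 := by decide +kernel
    have g4 : dls (dl (dl (9 : Q) 0) 1) (bits [true, false]) = 11 := by decide +kernel
    have g5 : dls (dl (1 : Q) 1) (bits [false, true]) = 1 := by decide +kernel
    have g6 : dls (dl (9 : Q) 1) (bits [false, true]) = 9 := by decide +kernel
    rw [g1, g2, g3, g4, g5, g6] at h
    have h' : ((fcount (k + 1) 1 2 : ℝ) + fcount k 10 11 + fcount (k + 1) 1 9)
      ≤ fcount (k + 4) 1 9 := by exact_mod_cast h
    simp only
    linarith
  · -- (3, 11): 010 to (3, 11); 110 to (10, 11); 1001 to (1, 9)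
    have s1 : fcount (k + 4) 3 11 = fcount (k + 3) 0 13 + fcount (k + 3) 1 14 := by
      have := Pers_split (k + 3) (p := 3) (q := 11) (by decide)
      rw [show dl (3 : Q) 0 = 0 by decide +kernel, show dl (11 : Q) 0 = 13 by decide +kernel,
        show dl (3 : Q) 1 = 1 by decide +kernel, show dl (11 : Q) 1 = 14 by decide +kernel] at this
      exact this
    have s2 : fcount (k + 3) 1 14 = fcount (k + 2) 3 7 + fcount (k + 2) 4 8 := by
      have := Pers_split (k + 2) (p := 1) (q := 14) (by decide)
      rw [show dl (1 : Q) 0 = 3 by decide +kernel, show dl (14 : Q) 0 = 7 by decide +kernel,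
        show dl (1 : Q) 1 = 4 by decide +kernel, show dl (14 : Q) 1 = 8 by decide +kernel] at this
      exact this
    have p1 := Pers_path [true, false] (k + 1) 0 13 (by decide +kernel)
    have p2 := Pers_path [false] (k + 1) 4 8 (by decide +kernel)
    have p3 := Pers_path [false, true] k 3 7 (by decide +kernel)
    rw [show dls (0 : Q) (bits [true, false]) = 3 by decide +kernel,
      show dls (13 : Q) (bits [true, false]) = 11 by decide +kernel] at p1
    rw [show dls (4 : Q) (bits [false]) = 10 by decide +kernel,
      show dls (8 : Q) (bits [false]) = 11 by decide +kernel] at p2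
    rw [show dls (3 : Q) (bits [false, true]) = 1 by decide +kernel,
      show dls (7 : Q) (bits [false, true]) = 9 by decide +kernel] at p3
    have q1 : fcount (k + 1) 3 11 ≤ fcount (k + 3) 0 13 := p1
    have q2 : fcount (k + 1) 10 11 ≤ fcount (k + 2) 4 8 := p2
    have q3 : fcount k 1 9 ≤ fcount (k + 2) 3 7 := p3
    have h : fcount (k + 1) 3 11 + fcount (k + 1) 10 11 + fcount k 1 9
        ≤ fcount (k + 4) 3 11 := by omega
    have h' : ((fcount (k + 1) 3 11 : ℝ) + fcount (k + 1) 10 11 + fcount k 1 9)
      ≤ fcount (k + 4) 3 11 := by exact_mod_cast h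
    simp only
    linarith
  · have s1 : fcount (k + 4) 10 11 = fcount (k + 3) 0 13 + fcount (k + 3) 1 14 := by
      have := Pers_split (k + 3) (p := 10) (q := 11) (by decide)
      rw [show dl (10 : Q) 0 = 0 by decide +kernel, show dl (11 : Q) 0 = 13 by decide +kernel,
        show dl (10 : Q) 1 = 1 by decide +kernel, show dl (11 : Q) 1 = 14 by decide +kernel] at this
      exact this
    have s2 : fcount (k + 3) 1 14 = fcount (k + 2) 3 7 + fcount (k + 2) 4 8 := by
      have := Pers_split (k + 2) (p := 1) (q := 14) (by decide)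
      rw [show dl (1 : Q) 0 = 3 by decide +kernel, show dl (14 : Q) 0 = 7 by decide +kernel,
        show dl (1 : Q) 1 = 4 by decide +kernel, show dl (14 : Q) 1 = 8 by decide +kernel] at this
      exact this
    have p1 := Pers_path [true, false] (k + 1) 0 13 (by decide +kernel)
    have p2 := Pers_path [false] (k + 1) 4 8 (by decide +kernel)
    have p3 := Pers_path [false, true] k 3 7 (by decide +kernel)
    rw [show dls (0 : Q) (bits [true, false]) = 3 by decide +kernel,
      show dls (13 : Q) (bits [true, false]) = 11 by decide +kernel] at p1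
    rw [show dls (4 : Q) (bits [false]) = 10 by decide +kernel,
      show dls (8 : Q) (bits [false]) = 11 by decide +kernel] at p2
    rw [show dls (3 : Q) (bits [false, true]) = 1 by decide +kernel,
      show dls (7 : Q) (bits [false, true]) = 9 by decide +kernel] at p3
    have q1 : fcount (k + 1) 3 11 ≤ fcount (k + 3) 0 13 := p1
    have q2 : fcount (k + 1) 10 11 ≤ fcount (k + 2) 4 8 := p2
    have q3 : fcount k 1 9 ≤ fcount (k + 2) 3 7 := p3
    have h : fcount (k + 1) 3 11 + fcount (k + 1) 10 11 + fcount k 1 9
        ≤ fcount (k + 4) 10 11 := by omega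
    have h' : ((fcount (k + 1) 3 11 : ℝ) + fcount (k + 1) 10 11 + fcount k 1 9)
      ≤ fcount (k + 4) 10 11 := by exact_mod_cast h
    simp only
    linarith

/-- words with different outputs, of length at most `8` -/
def Pers_W : List (List Bool) := [[], [true], [false], [false, true], [false, true, true],
  [false, false, true, true], [true, false, false, false], [false, true, false, true, true],
  [true, false, false, false, true], [false, false, false, true, true],
  [false, true, false, false, false, true], [true, false, true, false, true, true],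
  [false, false, true, false, false, false], [false, true, false, false, false, true, true],
  [true, false, true, true, false, false, true], [false, false, true, false, false, false, true],
  [false, true, false, false, true, false, false, false],
  [true, false, true, true, false, false, true, true],
  [false, false, true, false, false, false, true, true]]

theorem Pers_small_check : ∀ x ∈ GG, ∀ k ∈ List.range 9, ∃ t ∈ Pers_W, t.length = k ∧
    Pers_ok x.1 t = true ∧ ou (dls x.1 (bits t)) ≠ ou (dls x.2 (bits t)) := by
  decide +kernel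

theorem Pers_core_check : ∀ x ∈ Pers_core, x ∈ GG := by
  decide +kernel

theorem Pers_small {x : Q × Q} (hx : x ∈ GG) {k : ℕ} (hk : k < 9) : 1 ≤ fcount k x.1 x.2 := by
  obtain ⟨t, -, ht, hok, hne⟩ := Pers_small_check x hx k (List.mem_range.2 hk)
  have h := Pers_path t 0 x.1 x.2 hok
  rw [zero_add, ht] at h
  have h0 : fcount 0 (dls x.1 (bits t)) (dls x.2 (bits t)) = 1 := by
    show (if ou (dls x.1 (bits t)) = ou (dls x.2 (bits t)) then 0 else 1) = 1
    rw [if_neg hne]
  omega

/-- words of length `9` that lead from a good pair to a core pair -/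
def Pers_W9 : List (List Bool) := [[false, true, false, false, true, false, true, true, false],
  [true, false, true, true, false, true, false, false, true],
  [false, false, true, false, false, true, false, false, true]]

theorem Pers_nine_check : ∀ x ∈ GG, ∃ t ∈ Pers_W9, t.length = 9 ∧
    Pers_ok x.1 t = true ∧ (dls x.1 (bits t), dls x.2 (bits t)) ∈ Pers_core := by
  decide +kernel

theorem Pers_lam_gt (lam : ℝ) (h0 : 0 < lam) (h : lam ^ 4 = 2 * lam + 1) : 1 < lam := by
  by_contra hc
  push Not at hc
  have h1 : lam ^ 3 ≤ 1 := pow_le_one₀ h0.le hc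
  have h2 : lam ^ 4 = lam ^ 3 * lam := by ring
  nlinarith

theorem Pers_core_ge (lam : ℝ) (h0 : 0 < lam) (h : lam ^ 4 = 2 * lam + 1) (k : ℕ) :
    ∀ x ∈ Pers_core, lam ^ k / lam ^ 3 ≤ (fcount k x.1 x.2 : ℝ) := by
  have h1 := Pers_lam_gt lam h0 h
  have h3 : 0 < lam ^ 3 := by positivity
  induction k using Nat.strong_induction_on with
  | _ k ih =>
    rcases Nat.lt_or_ge k 4 with hk | hk
    · intro x hx
      have h2 : (1 : ℝ) ≤ (fcount k x.1 x.2 : ℝ) := by
        exact_mod_cast Pers_small (Pers_core_check x hx) (by omega)
      refine le_trans ?_ h2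
      rw [div_le_one h3]
      exact pow_le_pow_right₀ h1.le (by omega)
    · obtain ⟨j, rfl⟩ := Nat.exists_eq_add_of_le hk
      have e1 := ih j (by omega)
      have e2 := ih (j + 1) (by omega)
      have e3 := Pers_rec j _ e1 _ e2
      intro x hx
      have e4 := e3 x hx
      rw [show 4 + j = j + 4 by omega]
      refine le_trans (le_of_eq ?_) e4
      have : lam ^ (j + 4) = 2 * lam ^ (j + 1) + lam ^ j := by
        rw [pow_add, h]; ring
      rw [this]
      ring

theorem fcount_ge (lam : ℝ) (h0 : 0 < lam) (h : lam ^ 4 = 2 * lam + 1) :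
    ∃ a : ℝ, 0 < a ∧ ∀ k : ℕ, ∀ x ∈ GG, a * lam ^ k ≤ (fcount k x.1 x.2 : ℝ) := by
  have h1 := Pers_lam_gt lam h0 h
  refine ⟨1 / lam ^ 12, by positivity, ?_⟩
  intro k x hx
  rcases Nat.lt_or_ge k 9 with hk | hk
  · have h2 : (1 : ℝ) ≤ (fcount k x.1 x.2 : ℝ) := by
      exact_mod_cast Pers_small hx hk
    refine le_trans ?_ h2
    rw [one_div_mul_eq_div, div_le_one (by positivity)]
    exact pow_le_pow_right₀ h1.le (by omega)
  · obtain ⟨j, rfl⟩ := Nat.exists_eq_add_of_le hk
    obtain ⟨t, -, ht, hok, hcore⟩ := Pers_nine_check x hx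
    have h2 := Pers_path t j x.1 x.2 hok
    rw [ht, show j + 9 = 9 + j by omega] at h2
    have h3 := Pers_core_ge lam h0 h j _ hcore
    have h4 : (fcount j (dls x.1 (bits t)) (dls x.2 (bits t)) : ℝ)
        ≤ (fcount (9 + j) x.1 x.2 : ℝ) := by exact_mod_cast h2
    refine le_trans (le_of_eq ?_) (h3.trans h4)
    rw [pow_add]
    field_simp

/-- the words `η` -/
def Pers_eta : List (List Bool) := [[false, false, false, false, false],
  [false, false, false, false, true], [false, false, false, true, false],
  [false, false, true, false, false], [false, false, true, false, true],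
  [false, false, true, true, false], [false, true, false, false, false],
  [false, true, false, false, true], [false, true, false, true, false],
  [false, true, true, false, false], [false, true, true, false, true],
  [true, false, false, false, false], [true, false, false, false, true],
  [true, false, false, true, false], [true, false, true, false, false],
  [true, false, true, false, true], [true, false, true, true, false],
  [true, true, false, false, false], [true, true, false, false, true],
  [true, true, false, true, false]]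

/-- the words `g` -/
def Pers_g : List (List Bool) := [[false, false, false, false, false, true],
  [false, false, false, false, true, true], [false, false, false, false, false, false],
  [false, false, true, false, false, true], [false, false, false, true, false, true]]

theorem Pers_reach_check : ∀ p ∈ canonQ, ∀ q : Q, ∀ η ∈ Pers_eta, ∃ g ∈ Pers_g,
    (dls p (bits g), dls q (zs g (η ++ [true]))) ∈ GG := by
  decide +kernel

theorem Pers_g_check : ∀ g ∈ Pers_g, g.length = 6 ∧ Valid (true :: true :: g) := by
  unfold Valid
  decide +kernel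

theorem Pers_eta_check : ∀ a b c d e : Bool, Valid ([a, b, c, d, e] ++ [true]) →
    [a, b, c, d, e] ∈ Pers_eta := by
  unfold Valid
  decide +kernel

theorem reach_GG : ∀ p ∈ canonQ, ∀ (q : Q) (η : List Bool), η.length = 5 →
    Valid (η ++ [true]) → ∃ g : List Bool, g.length = 6 ∧ Valid (true :: true :: g) ∧
      (dls p (bits g), dls q (zs g (η ++ [true]))) ∈ GG := by
  intro p hp q η hη hv
  have hmem : η ∈ Pers_eta := by
    match η, hη with
    | [a, b, c, d, e], _ => exact Pers_eta_check a b c d e hv
  obtain ⟨g, hg, hgg⟩ := Pers_reach_check p hp q η hmem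
  obtain ⟨h1, h2⟩ := Pers_g_check g hg
  exact ⟨g, h1, h2, hgg⟩

theorem Pers_canon {y : List Bool} : Valid y → dls 0 (bits y) ∈ canonQ ∧
    (dls 0 (bits y) = 1 → ∃ z, y = z ++ [true]) ∧
    (dls 0 (bits y) = 4 → ∃ z, y = z ++ [true, true]) := by
  induction y using List.reverseRecOn with
  | nil =>
    intro _
    refine ⟨by decide +kernel, ?_, ?_⟩
    · intro h
      exact absurd h (by decide +kernel)
    · intro h
      exact absurd h (by decide +kernel)
  | append_singleton z a ih =>
    intro hv
    have hz : Valid z := by
      intro hc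
      exact hv (hc.trans ⟨[], [a], by simp⟩)
    obtain ⟨h1, h2, h3⟩ := ih hz
    have hstep : dls 0 (bits (z ++ [a])) = dl (dls 0 (bits z)) a.toNat := by
      simp [bits, dls, List.foldl_append]
    rw [hstep]
    generalize hs : dls 0 (bits z) = s at h1 h2 h3
    simp only [canonQ, List.mem_cons, List.not_mem_nil, or_false] at h1
    rcases h1 with rfl | rfl | rfl | rfl | rfl
    · cases a
      · exact ⟨by decide +kernel, fun h => absurd h (by decide +kernel),
          fun h => absurd h (by decide +kernel)⟩
      · exact ⟨by decide +kernel, fun _ => ⟨z, rfl⟩, fun h => absurd h (by decide +kernel)⟩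
    · cases a
      · exact ⟨by decide +kernel, fun h => absurd h (by decide +kernel),
          fun h => absurd h (by decide +kernel)⟩
      · refine ⟨by decide +kernel, fun _ => ⟨z, rfl⟩, fun _ => ?_⟩
        obtain ⟨z', rfl⟩ := h2 rfl
        exact ⟨z', by simp⟩
    · cases a
      · exact ⟨by decide +kernel, fun h => absurd h (by decide +kernel),
          fun h => absurd h (by decide +kernel)⟩
      · exact ⟨by decide +kernel, fun _ => ⟨z, rfl⟩, fun h => absurd h (by decide +kernel)⟩
    · cases a
      · exact ⟨by decide +kernel, fun h => absurd h (by decide +kernel),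
          fun h => absurd h (by decide +kernel)⟩
      · exfalso
        obtain ⟨z', rfl⟩ := h3 rfl
        exact hv ⟨z', [], by simp⟩
    · cases a
      · exact ⟨by decide +kernel, fun h => absurd h (by decide +kernel),
          fun h => absurd h (by decide +kernel)⟩
      · exact ⟨by decide +kernel, fun _ => ⟨z, rfl⟩, fun h => absurd h (by decide +kernel)⟩

theorem canon_mem {y : List Bool} (h : Valid y) : dls 0 (bits y) ∈ canonQ :=
  (Pers_canon h).1

end Pool.H99.Trib
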