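import Pool.Agent.H99.Trib.Disc

/-!
# Words separated by a shift
-/

namespace Pool.H99.Trib

/-- `u` and `u'` are separated by the shift by `c` -/
def Sep (u u' : List Bool) (c : ℕ) : Prop :=
  ∃ w : List Bool, Valid w ∧ tribWord (value (u ++ w) + c) ≠ tribWord (value (u' ++ w) + c)

/-- `u` shifted by `l` positions -/
def SepCount_e (u : List Bool) (l : ℕ) : ℕ := sval (bits u ++ List.replicate l 0)

theorem SepCount_value_append (u v : List Bool) :
    value (u ++ v) = SepCount_e u v.length + value v := value_append u v

theorem SepCount_value_zeros (l : ℕ) : value (List.replicate l false) = 0 := by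
  induction l with
  | zero => rfl
  | succ l ih => rw [List.replicate_succ, value, ih]; simp

theorem SepCount_e_eq (u : List Bool) (l : ℕ) :
    SepCount_e u l = value (u ++ List.replicate l false) := by
  rw [SepCount_value_append, SepCount_value_zeros, List.length_replicate, add_zero]

theorem SepCount_lead (k : ℕ) (x : List Bool) : value (List.replicate k false ++ x) = value x := by
  induction k with
  | zero => rfl
  | succ k ih => rw [List.replicate_succ, List.cons_append, value, ih]; simp

theorem SepCount_valid {u w : List Bool} (hu : Valid u) (hw : Valid w) :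
    Valid (u ++ false :: w) := by
  induction u with
  | nil => exact Greedy_valid_false hw
  | cons a u ih =>
    intro h1
    rw [List.cons_append, List.infix_cons_iff] at h1
    rcases h1 with h1 | h1
    · rw [List.cons_prefix_cons] at h1
      obtain ⟨h2, h1⟩ := h1
      subst h2
      cases u with
      | nil =>
        rw [List.nil_append, List.cons_prefix_cons] at h1
        exact absurd h1.1 (by decide)
      | cons b u =>
        rw [List.cons_append, List.cons_prefix_cons] at h1
        obtain ⟨h2, h1⟩ := h1
        subst h2
        cases u with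
        | nil =>
          rw [List.nil_append, List.cons_prefix_cons] at h1
          exact absurd h1.1 (by decide)
        | cons c u =>
          rw [List.cons_append, List.cons_prefix_cons] at h1
          obtain ⟨h2, h1⟩ := h1
          subst h2
          exact Greedy_not_ttt u hu
    · exact ih (Greedy_valid_tail hu) h1

theorem SepCount_sum {x y : List Bool} (h : x.length = y.length) :
    tribWord (value x + value y) = ou (dls 0 (zs x y)) := by
  rw [ou_dls _ (zs_le_two x y), sval_zs h]

theorem SepCount_alpha (α x y : List Bool) (hα : Valid α) (hl : x.length = y.length) :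
    tribWord (value x + value (α ++ [false, false, false] ++ y)) =
      tribWord (value x + value y) := by
  have hv : Valid (α ++ [false, false, false]) :=
    SepCount_valid hα (Greedy_valid_false (Greedy_valid_false Complexity_valid_nil))
  have h1 : dls 0 (bits (α ++ [false, false, false])) = 0 := by
    rw [dls_bits_last_three hv]
    decide +kernel
  have h2 : value x + value (α ++ [false, false, false] ++ y) =
      sval (bits (α ++ [false, false, false]) ++ zs x y) := by
    rw [value_append, Delta_sval_append _ (zs x y), zs_length hl, sval_zs hl]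
    omega
  rw [h2, ← ou_dls, dls_append, h1, SepCount_sum hl]
  intro d hd
  rw [List.mem_append] at hd
  rcases hd with hd | hd
  · exact Vectors_bits_le _ d hd
  · exact zs_le_two x y d hd

theorem SepCount_zs_append {x y : List Bool} (z g : List Bool) (h : x.length = y.length) :
    zs (x ++ z) (y ++ g) = zs x y ++ zs z g := by
  unfold zs
  exact List.zipWith_append h

theorem SepCount_unsync {x x' y z g : List Bool} (hx : x.length = y.length)
    (hx' : x'.length = y.length) (hz : z.length = g.length)
    (hne : tribWord (value (x ++ z) + value (y ++ g)) ≠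
      tribWord (value (x' ++ z) + value (y ++ g))) : Unsync z g := by
  refine ⟨dls 0 (zs x y), dls 0 (zs x' y), fun h => hne ?_⟩
  rw [SepCount_sum (by simp [hx, hz]), SepCount_sum (by simp [hx', hz]),
    SepCount_zs_append z g hx, SepCount_zs_append z g hx', dls_append, dls_append, h]

/-- the main count -/
theorem SepCount_main (lam : ℝ) (h0 : 0 < lam) (a K : ℝ) (ha : 0 < a) (hK : 0 < K)
    (hdisc : ∀ L d i : ℕ, 1 ≤ d → d < W L → a * lam ^ L ≤
      (((Finset.range (W (L + 7))).filter fun N =>
        tribWord (i + N) ≠ tribWord (i + N + d)).card : ℝ))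
    (hun : ∀ w : List Bool,
      ({u : List Bool | u.length = w.length ∧ Valid u ∧ Unsync u w}.ncard : ℝ)
        ≤ K * lam ^ w.length)
    (n : ℕ) (u u' g : List Bool) (hu : u.length = n + 1) (hu' : u'.length = n + 1)
    (hv : ∀ z, Valid z → Valid (u' ++ z))
    (hlt : SepCount_e u g.length < SepCount_e u' g.length) :
    ∃ H : Finset (List Bool), H ⊆ VW (n + 8) ∧ a * lam / K * lam ^ n ≤ (H.card : ℝ) ∧
      ∀ w ∈ H, ∃ z : List Bool, z.length = g.length ∧ Valid z ∧
        tribWord (value (u ++ z) + value (w ++ g)) ≠
          tribWord (value (u' ++ z) + value (w ++ g)) := by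
  classical
  set l := g.length with hl
  set P : List Bool → List Bool → Prop := fun w z => z.length = l ∧ Valid z ∧
        tribWord (value (u ++ z) + value (w ++ g)) ≠
          tribWord (value (u' ++ z) + value (w ++ g)) with hP
  set H : Finset (List Bool) := (VW (n + 8)).filter fun w => ∃ z, P w z with hH
  have hfin : ({z : List Bool | z.length = l ∧ Valid z ∧ Unsync z g}).Finite :=
    (List.finite_length_eq Bool l).subset fun z hz => hz.1
  set U : Finset (List Bool) := hfin.toFinset with hU
  have hUc : (U.card : ℝ) ≤ K * lam ^ l := by
    have h1 := hun g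
    rwa [Set.ncard_eq_toFinset_card _ hfin] at h1
  set d := SepCount_e u' l - SepCount_e u l with hd
  set i := SepCount_e u l + value g with hi
  have hd1 : 1 ≤ d := by omega
  have hdW : d < W (n + 1 + l) := by
    have h1 : SepCount_e u' l < W (n + 1 + l) := by
      rw [SepCount_e_eq]
      have h2 : Valid (List.replicate l false) := by
        have h3 := Tree_valid_replicate Complexity_valid_nil l
        rwa [List.append_nil] at h3
      have h4 := value_lt (hv _ h2)
      rwa [List.length_append, List.length_replicate, hu'] at h4
    omega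
  have h1 := hdisc (n + 1 + l) d i hd1 hdW
  have h2 : ((Finset.range (W (n + 1 + l + 7))).filter fun N =>
        tribWord (i + N) ≠ tribWord (i + N + d)) ⊆
      (H ×ˢ U).image fun p => value (p.1 ++ p.2) := by
    intro N hN
    rw [Finset.mem_filter, Finset.mem_range] at hN
    obtain ⟨hN1, hN2⟩ := hN
    obtain ⟨x, hxv, hxl, hxN⟩ := exists_rep hN1
    set w := x.take (n + 8) with hw
    set z := x.drop (n + 8) with hz
    have hxwz : w ++ z = x := List.take_append_drop _ _
    have hwl : w.length = n + 8 := by
      rw [hw, List.length_take, hxl]; omega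
    have hzl : z.length = l := by
      rw [hz, List.length_drop, hxl]; omega
    have hwv : Valid w := by
      apply Tree_valid_infix hxv
      rw [← hxwz]
      exact (List.prefix_append w z).isInfix
    have hzv : Valid z := by
      apply Tree_valid_infix hxv
      rw [← hxwz]
      exact (List.suffix_append w z).isInfix
    have e1 : value (u ++ z) + value (w ++ g) = i + N := by
      rw [← hxN, ← hxwz, SepCount_value_append, SepCount_value_append, SepCount_value_append,
        hzl, ← hl, hi]
      ring
    have e2 : value (u' ++ z) + value (w ++ g) = i + N + d := by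
      have e3 : value (u' ++ z) = value (u ++ z) + d := by
        rw [SepCount_value_append, SepCount_value_append, hzl, hd]
        omega
      rw [e3, ← e1]
      ring
    have hne : tribWord (value (u ++ z) + value (w ++ g)) ≠
          tribWord (value (u' ++ z) + value (w ++ g)) := by
      rw [e1, e2]
      exact hN2
    rw [Finset.mem_image]
    refine ⟨(w, z), ?_, ?_⟩
    · rw [Finset.mem_product]
      constructor
      · rw [hH, Finset.mem_filter]
        exact ⟨MeanCount_mem_VW.2 ⟨hwl, hwv⟩, z, hzl, hzv, hne⟩
      · rw [hU, Set.Finite.mem_toFinset]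
        refine ⟨hzl, hzv, ?_⟩
        refine SepCount_unsync (x := List.replicate 7 false ++ u)
          (x' := List.replicate 7 false ++ u') (y := w) ?_ ?_ ?_ ?_
        · rw [List.length_append, List.length_replicate, hu, hwl]; omega
        · rw [List.length_append, List.length_replicate, hu', hwl]; omega
        · rw [hzl]
        · rw [List.append_assoc, List.append_assoc, SepCount_lead, SepCount_lead]
          exact hne
    · change value (w ++ z) = N
      rw [hxwz, hxN]
  have h3 := Finset.card_le_card h2
  have h4 : ((H ×ˢ U).image fun p => value (p.1 ++ p.2)).card ≤ H.card * U.card := by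
    refine Finset.card_image_le.trans ?_
    rw [Finset.card_product]
  have h5 : a * lam ^ (n + 1 + l) ≤ (H.card : ℝ) * (K * lam ^ l) := by
    refine h1.trans ?_
    calc (((Finset.range (W (n + 1 + l + 7))).filter fun N =>
        tribWord (i + N) ≠ tribWord (i + N + d)).card : ℝ) ≤ ((H.card * U.card : ℕ) : ℝ) := by
          exact_mod_cast h3.trans h4
      _ = (H.card : ℝ) * (U.card : ℝ) := by push_cast; ring
      _ ≤ (H.card : ℝ) * (K * lam ^ l) := by gcongr
  refine ⟨H, Finset.filter_subset _ _, ?_, ?_⟩
  · have hll : 0 < lam ^ l := by positivity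
    have h6 : a * lam ^ (n + 1 + l) = (a * lam * lam ^ n) * lam ^ l := by ring
    rw [h6, ← mul_assoc] at h5
    have h7 := le_of_mul_le_mul_right h5 hll
    rw [div_mul_eq_mul_div, div_le_iff₀ hK]
    exact h7
  · intro w hw
    exact (Finset.mem_filter.1 hw).2

theorem sep_count (lam : ℝ) (h0 : 0 < lam) (h : lam ^ 4 = 2 * lam + 1) :
    ∃ a : ℝ, 0 < a ∧ ∀ (n : ℕ) (v v' γ : List Bool), v ∈ VW n → v' ∈ VW n → v ≠ v' → Valid γ →
      ∃ H : Finset (List Bool), H ⊆ VW (n + 8) ∧ a * lam ^ n ≤ (H.card : ℝ) ∧
        ∀ w ∈ H, ∀ α : List Bool, Valid α → Sep (v ++ [false]) (v' ++ [false])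
          (value (α ++ [false, false, false] ++ w ++ [false] ++ γ)) := by
  obtain ⟨a, ha, hdisc⟩ := disc lam h0 h
  obtain ⟨K, hK, hun⟩ := ncard_unsync lam h0 h
  refine ⟨a * lam / K, by positivity, fun n v v' γ hv hv' hne hγ => ?_⟩
  obtain ⟨hvl, hvv⟩ := MeanCount_mem_VW.1 hv
  obtain ⟨hvl', hvv'⟩ := MeanCount_mem_VW.1 hv'
  have hz : ∀ x : List Bool, Valid x → ∀ z, Valid z → Valid ((x ++ [false]) ++ z) := by
    intro x hx z hz
    rw [List.append_assoc]
    exact SepCount_valid hx hz
  -- the transfer to the words with arbitrary `α`
  have key : ∀ (x x' : List Bool), x.length = n → x'.length = n → ∀ w z α : List Bool,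
      w.length = n + 8 → z.length = ([false] ++ γ).length → Valid α →
      tribWord (value ((x ++ [false]) ++ z) + value (w ++ ([false] ++ γ))) ≠
        tribWord (value ((x' ++ [false]) ++ z) + value (w ++ ([false] ++ γ))) →
      tribWord (value ((x ++ [false]) ++ z) +
          value (α ++ [false, false, false] ++ w ++ [false] ++ γ)) ≠
        tribWord (value ((x' ++ [false]) ++ z) +
          value (α ++ [false, false, false] ++ w ++ [false] ++ γ)) := by
    intro x x' hx hx' w z α hw hzl hα hne1
    have e1 : α ++ [false, false, false] ++ w ++ [false] ++ γ =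
        α ++ [false, false, false] ++ (w ++ ([false] ++ γ)) := by
      simp only [List.append_assoc]
    have e2 : ∀ y : List Bool, y.length = n → tribWord (value ((y ++ [false]) ++ z) +
        value (α ++ [false, false, false] ++ (w ++ ([false] ++ γ)))) =
        tribWord (value ((y ++ [false]) ++ z) + value (w ++ ([false] ++ γ))) := by
      intro y hy
      have h1 := SepCount_alpha α (List.replicate 7 false ++ ((y ++ [false]) ++ z))
        (w ++ ([false] ++ γ)) hα (by
          simp only [List.length_append, List.length_replicate, List.length_singleton] at hzl ⊢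
          omega)
      rwa [SepCount_lead] at h1
    rw [e1, e2 x hx, e2 x' hx']
    exact hne1
  have hcase : SepCount_e (v ++ [false]) ([false] ++ γ).length ≠
      SepCount_e (v' ++ [false]) ([false] ++ γ).length := by
    intro he
    rw [SepCount_e_eq, SepCount_e_eq] at he
    have h2 : Valid (List.replicate ([false] ++ γ).length false) := by
      have h3 := Tree_valid_replicate Complexity_valid_nil ([false] ++ γ).length
      rwa [List.append_nil] at h3
    have h3 := value_inj (hz v hvv _ h2) (hz v' hvv' _ h2) (by
      simp only [List.length_append, hvl, hvl']) he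
    exact hne (List.append_cancel_right (List.append_cancel_right h3))
  rcases lt_or_gt_of_ne hcase with hlt | hlt
  · obtain ⟨H, hH1, hH2, hH3⟩ := SepCount_main lam h0 a K ha hK hdisc hun n (v ++ [false])
      (v' ++ [false]) ([false] ++ γ) (by simp [hvl]) (by simp [hvl']) (hz v' hvv') hlt
    refine ⟨H, hH1, hH2, fun w hw α hα => ?_⟩
    obtain ⟨z, hzl, hzv, hzne⟩ := hH3 w hw
    exact ⟨z, hzv, key v v' hvl hvl' w z α (MeanCount_mem_VW.1 (hH1 hw)).1 hzl hα hzne⟩
  · obtain ⟨H, hH1, hH2, hH3⟩ := SepCount_main lam h0 a K ha hK hdisc hun n (v' ++ [false])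
      (v ++ [false]) ([false] ++ γ) (by simp [hvl']) (by simp [hvl]) (hz v hvv) hlt
    refine ⟨H, hH1, hH2, fun w hw α hα => ?_⟩
    obtain ⟨z, hzl, hzv, hzne⟩ := hH3 w hw
    exact ⟨z, hzv, (key v' v hvl' hvl w z α (MeanCount_mem_VW.1 (hH1 hw)).1 hzl hα hzne).symm⟩

end Pool.H99.Trib
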