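import Pool.Agent.H99.Trib.SepCount

/-!
# Few shifts do not separate two given words
-/

namespace Pool.H99.Trib

theorem SepProb_glue {u v : List Bool} (hu : Valid u) (hv : Valid v) :
    Valid (u ++ false :: v) := by
  induction u with
  | nil => exact Greedy_valid_false hv
  | cons b u ih =>
    intro h'
    rw [List.cons_append] at h'
    rcases List.infix_cons_iff.mp h' with h1 | h1
    · match u, hu, h1 with
      | [], _, h1 =>
        have := (List.cons_prefix_cons.mp (List.cons_prefix_cons.mp h1).2).1
        exact absurd this (by decide)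
      | [c], _, h1 =>
        have := (List.cons_prefix_cons.mp (List.cons_prefix_cons.mp
          (List.cons_prefix_cons.mp h1).2).2).1
        exact absurd this (by decide)
      | c :: d :: u, hu, h1 =>
        have e1 := (List.cons_prefix_cons.mp h1).1
        have e2 := (List.cons_prefix_cons.mp (List.cons_prefix_cons.mp h1).2).1
        have e3 := (List.cons_prefix_cons.mp (List.cons_prefix_cons.mp
          (List.cons_prefix_cons.mp h1).2).2).1
        subst e1 e2 e3
        exact Greedy_not_ttt u hu
    · exact ih (Greedy_valid_tail hu) h1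

theorem SepProb_lam_lt (lam : ℝ) (h0 : 0 < lam) (h : lam ^ 4 = 2 * lam + 1) : lam < 1.5 := by
  by_contra hc
  push Not at hc
  have h1 : (1.5 : ℝ) ^ 3 ≤ lam ^ 3 := pow_le_pow_left₀ (by norm_num) hc 3
  have h2 : lam ^ 4 = lam ^ 3 * lam := by ring
  have h3 : (1.5 : ℝ) ^ 3 * lam ≤ lam ^ 3 * lam := mul_le_mul_of_nonneg_right h1 h0.le
  rw [← h2, h] at h3
  norm_num at h3
  linarith

open Classical in
/-- the valid words `x` of length `L` such that `x ++ γ` is valid -/
noncomputable def SepProbE (L : ℕ) (γ : List Bool) : Finset (List Bool) :=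
  (VW L).filter fun x => Valid (x ++ γ)

open Classical in
/-- those which are not separated -/
noncomputable def SepProbB (u u' : List Bool) (L : ℕ) (γ : List Bool) : Finset (List Bool) :=
  (SepProbE L γ).filter fun x => ¬ Sep u u' (value (x ++ γ))

theorem SepProb_mem_E {L : ℕ} {γ x : List Bool} :
    x ∈ SepProbE L γ ↔ x.length = L ∧ Valid (x ++ γ) := by
  classical
  unfold SepProbE
  rw [Finset.mem_filter, MeanCount_mem_VW]
  constructor
  · rintro ⟨⟨h1, -⟩, h2⟩
    exact ⟨h1, h2⟩
  · rintro ⟨h1, h2⟩
    exact ⟨⟨h1, Tree_valid_infix h2 (List.prefix_append _ _).isInfix⟩, h2⟩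

theorem SepProb_mem_B {u u' : List Bool} {L : ℕ} {γ x : List Bool} :
    x ∈ SepProbB u u' L γ ↔ (x.length = L ∧ Valid (x ++ γ)) ∧ ¬ Sep u u' (value (x ++ γ)) := by
  classical
  unfold SepProbB
  rw [Finset.mem_filter, SepProb_mem_E]

theorem SepProb_E_ge (B L : ℕ) (γ : List Bool) (hL : B ≤ L) :
    ∑ y ∈ VW B, (SepProbE (L - B) (y ++ γ)).card ≤ (SepProbE L γ).card := by
  classical
  rw [Finset.card_eq_sum_card_fiberwise (f := fun x : List Bool => x.drop (L - B)) (t := VW B)]
  · apply Finset.sum_le_sum
    intro y hy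
    obtain ⟨hy1, hy2⟩ := MeanCount_mem_VW.1 hy
    apply Finset.card_le_card_of_injOn (fun x => x ++ y)
    · intro x hx
      obtain ⟨hx1, hx2⟩ := SepProb_mem_E.1 (Finset.mem_coe.1 hx)
      rw [Finset.mem_coe, Finset.mem_filter, SepProb_mem_E]
      refine ⟨⟨?_, ?_⟩, ?_⟩
      · rw [List.length_append, hx1, hy1]
        omega
      · rw [List.append_assoc]
        exact hx2
      · rw [← hx1]
        simp
    · intro x _ x' _ hxx
      exact List.append_cancel_right hxx
  · intro x hx
    obtain ⟨hx1, hx2⟩ := SepProb_mem_E.1 (Finset.mem_coe.1 hx)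
    rw [Finset.mem_coe, MeanCount_mem_VW]
    refine ⟨?_, ?_⟩
    · rw [List.length_drop, hx1]
      omega
    · exact Tree_valid_infix hx2
        ((List.drop_suffix _ _).isInfix.trans (List.prefix_append _ _).isInfix)

theorem SepProb_B_le (u u' : List Bool) (B L : ℕ) (γ : List Bool) (hL : B ≤ L)
    (G : Finset (List Bool))
    (hG : ∀ y ∈ G, ∀ x : List Bool, Valid x → Sep u u' (value (x ++ (y ++ γ)))) :
    (SepProbB u u' L γ).card ≤ ∑ y ∈ VW B \ G, (SepProbB u u' (L - B) (y ++ γ)).card := by
  classical
  rw [Finset.card_eq_sum_card_fiberwise (f := fun x : List Bool => x.drop (L - B))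
    (t := VW B \ G)]
  · apply Finset.sum_le_sum
    intro y hy
    apply Finset.card_le_card_of_injOn (fun x => x.take (L - B))
    · intro x hx
      obtain ⟨hx1, hx2⟩ := Finset.mem_filter.1 (Finset.mem_coe.1 hx)
      obtain ⟨⟨hx3, hx4⟩, hx5⟩ := SepProb_mem_B.1 hx1
      have e : x.take (L - B) ++ (y ++ γ) = x ++ γ := by
        rw [← hx2, ← List.append_assoc, List.take_append_drop]
      rw [Finset.mem_coe, SepProb_mem_B, e]
      refine ⟨⟨?_, hx4⟩, hx5⟩
      rw [List.length_take, hx3]
      omega
    · intro x hx x' hx' hxx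
      obtain ⟨-, hx2⟩ := Finset.mem_filter.1 (Finset.mem_coe.1 hx)
      obtain ⟨-, hx2'⟩ := Finset.mem_filter.1 (Finset.mem_coe.1 hx')
      rw [← List.take_append_drop (L - B) x, ← List.take_append_drop (L - B) x']
      simp only at hxx hx2 hx2'
      rw [hxx, hx2, hx2']
  · intro x hx
    obtain ⟨⟨hx3, hx4⟩, hx5⟩ := SepProb_mem_B.1 (Finset.mem_coe.1 hx)
    rw [Finset.mem_coe, Finset.mem_sdiff, MeanCount_mem_VW]
    refine ⟨⟨?_, ?_⟩, ?_⟩
    · rw [List.length_drop, hx3]
      omega
    · exact Tree_valid_infix hx4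
        ((List.drop_suffix _ _).isInfix.trans (List.prefix_append _ _).isInfix)
    · intro hmem
      apply hx5
      have h1 := hG _ hmem (x.take (L - B)) (Tree_valid_infix hx4
        ((List.take_prefix _ _).isInfix.trans (List.prefix_append _ _).isInfix))
      rwa [← List.append_assoc, List.take_append_drop] at h1

open Classical in
theorem bad_count (β lam : ℝ) (hβ : 0 < β) (hβ3 : β ^ 3 = β ^ 2 + β + 1) (h0 : 0 < lam)
    (h : lam ^ 4 = 2 * lam + 1) :
    ∃ a : ℝ, 0 < a ∧ a ≤ 1 ∧ ∀ (n M : ℕ) (v v' : List Bool), v ∈ VW n → v' ∈ VW n → v ≠ v' →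
      (((VW M).filter fun c => ¬ Sep (v ++ [false]) (v' ++ [false]) (value c)).card : ℝ) ≤
        (1 - a * (lam / β) ^ n) ^ (M / (n + 12)) * ((VW M).card : ℝ) := by
  obtain ⟨a, ha, hsep⟩ := sep_count lam h0 h
  have hβ1 := upper_beta_gt β hβ hβ3
  have hlam := SepProb_lam_lt lam h0 h
  have hq0 : 0 < lam / β := by positivity
  have hq1 : lam / β ≤ 1 := by
    rw [div_le_one hβ]
    linarith
  set a' : ℝ := min 1 (a / (2 * β ^ 12)) with ha'
  have ha'0 : 0 < a' := lt_min one_pos (by positivity)
  have ha'1 : a' ≤ 1 := min_le_left _ _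
  refine ⟨a', ha'0, ha'1, ?_⟩
  intro n M v v' hv hv' hne
  set u := v ++ [false] with hu
  set u' := v' ++ [false] with hu'
  set p : ℝ := a' * (lam / β) ^ n with hp
  have hp0 : 0 ≤ p := by positivity
  have hp1 : p ≤ 1 := by
    have : (lam / β) ^ n ≤ 1 := pow_le_one₀ hq0.le hq1
    nlinarith [pow_nonneg hq0.le n]
  have key : ∀ j L : ℕ, ∀ γ : List Bool, Valid γ → j * (n + 12) ≤ L →
      ((SepProbB u u' L γ).card : ℝ) ≤ (1 - p) ^ j * ((SepProbE L γ).card : ℝ) := by
    intro j
    induction j with
    | zero =>
      intro L γ _ _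
      rw [pow_zero, one_mul]
      have : SepProbB u u' L γ ⊆ SepProbE L γ := by
        unfold SepProbB
        exact Finset.filter_subset _ _
      exact_mod_cast Finset.card_le_card this
    | succ j ih =>
      intro L γ hγ hL
      have hBL : n + 12 ≤ L := by
        have : (j + 1) * (n + 12) = j * (n + 12) + (n + 12) := by ring
        omega
      have hL' : j * (n + 12) ≤ L - (n + 12) := by
        have : (j + 1) * (n + 12) = j * (n + 12) + (n + 12) := by ring
        omega
      obtain ⟨H, hH1, hH2, hH3⟩ := hsep n v v' γ hv hv' hne hγ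
      set g : List Bool → List Bool := fun w => [false, false, false] ++ w ++ [false] with hg
      set G : Finset (List Bool) := H.image g with hGdef
      have hginj : Function.Injective g := by
        intro w w' hww
        simp only [hg] at hww
        have h1 := List.append_cancel_right hww
        exact List.append_cancel_left h1
      have hGcard : G.card = H.card := Finset.card_image_of_injective _ hginj
      have hGval : ∀ y ∈ G, y ∈ VW (n + 12) ∧ ∀ x : List Bool, Valid x → Valid (x ++ (y ++ γ)) := by
        intro y hy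
        obtain ⟨w, hw, rfl⟩ := Finset.mem_image.1 hy
        obtain ⟨hw1, hw2⟩ := MeanCount_mem_VW.1 (hH1 hw)
        have key2 : ∀ x z : List Bool, Valid x → Valid z → Valid (x ++ (g w ++ z)) := by
          intro x z hx hz
          have e : x ++ (g w ++ z) = x ++ false :: (false :: false :: (w ++ false :: z)) := by
            simp [hg]
          rw [e]
          exact SepProb_glue hx (Greedy_valid_false (Greedy_valid_false (SepProb_glue hw2 hz)))
        refine ⟨MeanCount_mem_VW.2 ⟨?_, ?_⟩, fun x hx => key2 x γ hx hγ⟩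
        · simp [hg, hw1]
        · have hnil : Valid [] := by
            intro h
            have := List.infix_nil.mp h
            simp at this
          have := key2 [] [] hnil hnil
          simpa using this
      have hGsub : G ⊆ VW (n + 12) := fun y hy => (hGval y hy).1
      have hGsep : ∀ y ∈ G, ∀ x : List Bool, Valid x → Sep u u' (value (x ++ (y ++ γ))) := by
        intro y hy x hx
        obtain ⟨w, hw, rfl⟩ := Finset.mem_image.1 hy
        have := hH3 w hw x hx
        simpa [hg] using this
      have hGE : ∀ y ∈ G, SepProbE (L - (n + 12)) (y ++ γ) = VW (L - (n + 12)) := by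
        intro y hy
        ext x
        rw [SepProb_mem_E, MeanCount_mem_VW]
        constructor
        · rintro ⟨h1, h2⟩
          exact ⟨h1, Tree_valid_infix h2 (List.prefix_append _ _).isInfix⟩
        · rintro ⟨h1, h2⟩
          exact ⟨h1, (hGval y hy).2 x h2⟩
      have h1 := SepProb_B_le u u' (n + 12) L γ hBL G hGsep
      have h2 := SepProb_E_ge (n + 12) L γ hBL
      have h3 : ∑ y ∈ VW (n + 12) \ G, (SepProbE (L - (n + 12)) (y ++ γ)).card +
          G.card * (VW (L - (n + 12))).card ≤ (SepProbE L γ).card := by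
        refine le_trans (le_of_eq ?_) h2
        have e5 : ∑ y ∈ G, (SepProbE (L - (n + 12)) (y ++ γ)).card =
            G.card * (VW (L - (n + 12))).card := by
          rw [Finset.sum_congr (g := fun _ => (VW (L - (n + 12))).card) rfl
            (fun y hy => by rw [hGE y hy]), Finset.sum_const, smul_eq_mul]
        rw [← Finset.sum_sdiff hGsub, e5]
      have h4 : ∀ y ∈ VW (n + 12) \ G, ((SepProbB u u' (L - (n + 12)) (y ++ γ)).card : ℝ) ≤
          (1 - p) ^ j * ((SepProbE (L - (n + 12)) (y ++ γ)).card : ℝ) := by
        intro y _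
        by_cases hyγ : Valid (y ++ γ)
        · exact ih _ _ hyγ hL'
        · have : SepProbB u u' (L - (n + 12)) (y ++ γ) = ∅ := by
            apply Finset.eq_empty_of_forall_notMem
            intro x hx
            obtain ⟨⟨-, hx4⟩, -⟩ := SepProb_mem_B.1 hx
            exact hyγ (Tree_valid_infix hx4 (List.suffix_append _ _).isInfix)
          rw [this, Finset.card_empty, Nat.cast_zero]
          have h0' : (0 : ℝ) ≤ 1 - p := by linarith
          exact mul_nonneg (pow_nonneg h0' _) (Nat.cast_nonneg _)
      have h5 : p * ((SepProbE L γ).card : ℝ) ≤ (G.card : ℝ) * ((VW (L - (n + 12))).card : ℝ) := by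
        have e1 : ((SepProbE L γ).card : ℝ) ≤ 2 * β ^ L := by
          refine le_trans ?_ (Mean_card_VW β hβ hβ3 L)
          unfold SepProbE
          exact_mod_cast Finset.card_filter_le _ _
        have e2 : β ^ (L - (n + 12)) ≤ ((VW (L - (n + 12))).card : ℝ) := by
          rw [card_VW]
          exact (W_bounds β hβ hβ3 _).1
        have e3 : p ≤ a / (2 * β ^ 12) * (lam / β) ^ n := by
          rw [hp]
          gcongr
          exact min_le_right _ _
        calc p * ((SepProbE L γ).card : ℝ) ≤ (a / (2 * β ^ 12) * (lam / β) ^ n) * (2 * β ^ L) := by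
              gcongr
          _ = (a * lam ^ n) * β ^ (L - (n + 12)) := by
              have e4 : β ^ L = β ^ (L - (n + 12)) * β ^ n * β ^ 12 := by
                rw [← pow_add, ← pow_add]
                congr 1
                omega
              rw [e4, div_pow]
              field_simp
          _ ≤ (G.card : ℝ) * ((VW (L - (n + 12))).card : ℝ) := by
              rw [hGcard]
              gcongr
      have h6 : (0 : ℝ) ≤ (1 - p) ^ j := by
        have : (0 : ℝ) ≤ 1 - p := by linarith
        positivity
      calc ((SepProbB u u' L γ).card : ℝ)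
          ≤ ∑ y ∈ VW (n + 12) \ G, ((SepProbB u u' (L - (n + 12)) (y ++ γ)).card : ℝ) := by
            exact_mod_cast h1
        _ ≤ ∑ y ∈ VW (n + 12) \ G, (1 - p) ^ j *
            ((SepProbE (L - (n + 12)) (y ++ γ)).card : ℝ) := Finset.sum_le_sum h4
        _ = (1 - p) ^ j * ((∑ y ∈ VW (n + 12) \ G,
            (SepProbE (L - (n + 12)) (y ++ γ)).card : ℕ) : ℝ) := by
            rw [← Finset.mul_sum]
            push_cast
            rfl
        _ ≤ (1 - p) ^ j * ((1 - p) * ((SepProbE L γ).card : ℝ)) := by
            have h3' : ((∑ y ∈ VW (n + 12) \ G, (SepProbE (L - (n + 12)) (y ++ γ)).card : ℕ) : ℝ) +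
              (G.card : ℝ) * ((VW (L - (n + 12))).card : ℝ) ≤ ((SepProbE L γ).card : ℝ) := by
              exact_mod_cast h3
            apply mul_le_mul_of_nonneg_left _ h6
            linarith
        _ = (1 - p) ^ (j + 1) * ((SepProbE L γ).card : ℝ) := by ring
  have hnil : Valid [] := by
    intro h
    have := List.infix_nil.mp h
    simp at this
  have hfin := key (M / (n + 12)) M [] hnil (Nat.div_mul_le_self _ _)
  have e1 : SepProbE M [] = VW M := by
    ext x
    rw [SepProb_mem_E, MeanCount_mem_VW, List.append_nil]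
  have e2 : SepProbB u u' M [] = (VW M).filter fun c => ¬ Sep u u' (value c) := by
    ext x
    rw [SepProb_mem_B, Finset.mem_filter, MeanCount_mem_VW, List.append_nil]
  rw [e1, e2] at hfin
  exact hfin

end Pool.H99.Trib
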