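import Pool.Agent.H99.Trib.Tree

/-!
# Counting vectors by suffixes with two unresolved entries
-/

namespace Pool.H99.Trib

/-- entry `m` of the vector of `y ++ u` depends on `y` -/
def UR (cs : ℕ → Bool) (m : ℕ) (u : List Bool) : Prop :=
  ∃ y y' : List Bool, Valid (y ++ u) ∧ Valid (y' ++ u) ∧ vec cs (y ++ u) m ≠ vec cs (y' ++ u) m

/-- valid words of length `j` with at least two unresolved entries -/
def PU (cs : ℕ → Bool) (M j : ℕ) : Set (List Bool) :=
  {u | u.length = j ∧ Valid u ∧ ∃ m m' : ℕ, m < m' ∧ m' ≤ M ∧ UR cs m u ∧ UR cs m' u}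

/-- at least two unresolved entries -/
def Tree2Bad (cs : ℕ → Bool) (M : ℕ) (u : List Bool) : Prop :=
  ∃ m m' : ℕ, m < m' ∧ m' ≤ M ∧ UR cs m u ∧ UR cs m' u

theorem Tree2_not_UR (cs : ℕ → Bool) {M m : ℕ} (hm : m ≤ M) {u : List Bool}
    (h : M + 3 ≤ u.length) : ¬ UR cs m u := by
  rintro ⟨y, y', hy, hy', hne⟩
  exact hne (Tree_high cs (by omega) hy hy')

theorem Tree2_not_bad (cs : ℕ → Bool) (M : ℕ) {u : List Bool} (h : M + 3 ≤ u.length) :
    ¬ Tree2Bad cs M u := by
  rintro ⟨m, m', h1, h2, h3, _⟩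
  exact Tree2_not_UR cs (by omega : m ≤ M) h h3

theorem Tree2_suffix (cs : ℕ → Bool) (M : ℕ) (u : List Bool) (h : ¬ Tree2Bad cs M u) :
    ∃ s, s <:+ u ∧ ¬ Tree2Bad cs M s ∧ (s = [] ∨ ∃ b s', s = b :: s' ∧ Tree2Bad cs M s') := by
  induction u with
  | nil => exact ⟨[], List.suffix_rfl, h, Or.inl rfl⟩
  | cons b u ih =>
    by_cases hu : Tree2Bad cs M u
    · exact ⟨b :: u, List.suffix_rfl, h, Or.inr ⟨b, u, rfl, hu⟩⟩
    · obtain ⟨s, hs, h1, h2⟩ := ih hu
      exact ⟨s, hs.trans (List.suffix_cons b u), h1, h2⟩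

/-- The words with at least two unresolved entries. -/
def Tree2All (cs : ℕ → Bool) (M : ℕ) : Set (List Bool) := {u | Valid u ∧ Tree2Bad cs M u}

theorem Tree2_all_sub (cs : ℕ → Bool) (M : ℕ) :
    Tree2All cs M ⊆ ⋃ j ∈ Finset.range (M + 3), PU cs M j := by
  rintro u ⟨hu, hb⟩
  have hl : u.length < M + 3 := by
    by_contra hc
    exact Tree2_not_bad cs M (not_lt.1 hc) hb
  exact Set.mem_biUnion (x := u.length) (by simpa using hl) ⟨rfl, hu, hb⟩

theorem Tree2_PU_finite (cs : ℕ → Bool) (M j : ℕ) : (PU cs M j).Finite :=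
  (List.finite_length_eq Bool j).subset fun _ h => h.1

theorem Tree2_all_ncard (cs : ℕ → Bool) (M : ℕ) :
    (Tree2All cs M).ncard ≤ ∑ j ∈ Finset.range (M + 3), (PU cs M j).ncard := by
  refine (Set.ncard_le_ncard (Tree2_all_sub cs M) ?_).trans (Finset.set_ncard_biUnion_le _ _)
  exact Set.Finite.biUnion (Finset.finite_toSet _) fun j _ => Tree2_PU_finite cs M j

theorem Tree2_all_finite (cs : ℕ → Bool) (M : ℕ) : (Tree2All cs M).Finite :=
  (Set.Finite.biUnion (Finset.finite_toSet _) fun j _ => Tree2_PU_finite cs M j).subset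
    (Tree2_all_sub cs M)

/-- the index of the unresolved entry (if any) -/
noncomputable def Tree2Idx (cs : ℕ → Bool) (M : ℕ) (u : List Bool) : Fin (M + 1) := by
  classical
  exact if h : ∃ m : Fin (M + 1), UR cs m.val u then h.choose else 0

theorem Tree2_idx (cs : ℕ → Bool) (M : ℕ) {u : List Bool} (h : ¬ Tree2Bad cs M u)
    (m : Fin (M + 1)) (hm : UR cs m.val u) : m = Tree2Idx cs M u := by
  have hex : ∃ m : Fin (M + 1), UR cs m.val u := ⟨m, hm⟩
  have h1 : Tree2Idx cs M u = hex.choose := by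
    unfold Tree2Idx
    rw [dif_pos hex]
  have h2 : UR cs (Tree2Idx cs M u).val u := by
    rw [h1]
    exact hex.choose_spec
  by_contra hne
  have hne' : m.val ≠ (Tree2Idx cs M u).val := fun h => hne (Fin.ext h)
  apply h
  rcases Nat.lt_or_ge m.val (Tree2Idx cs M u).val with h3 | h3
  · exact ⟨m.val, _, h3, Nat.lt_succ_iff.1 (Tree2Idx cs M u).isLt, hm, h2⟩
  · exact ⟨_, m.val, lt_of_le_of_ne h3 (Ne.symm hne'), Nat.lt_succ_iff.1 m.isLt, h2, hm⟩

/-- the words used in the cover -/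
def Tree2G (cs : ℕ → Bool) (M : ℕ) : Set (List Bool) :=
  {[]} ∪ (List.cons true '' Tree2All cs M ∪ List.cons false '' Tree2All cs M)

theorem Tree2_cover (cs : ℕ → Bool) (M : ℕ) :
    vecSet cs M ⊆ (fun p : List Bool × Q => Function.update
      (fun m : Fin (M + 1) => vec cs p.1 m.val) (Tree2Idx cs M p.1) p.2) ''
      (Tree2G cs M ×ˢ (Set.univ : Set Q)) := by
  rintro v ⟨x, hx, rfl⟩
  have hx' : Valid (List.replicate (M + 3) false ++ x) := Tree_valid_replicate hx _
  have hr : ¬ Tree2Bad cs M (List.replicate (M + 3) false ++ x) := Tree2_not_bad cs M (by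
    rw [List.length_append, List.length_replicate]
    omega)
  obtain ⟨s, ⟨z, hz⟩, h1, h2⟩ := Tree2_suffix cs M _ hr
  refine ⟨(s, vec cs x (Tree2Idx cs M s).val), ⟨?_, Set.mem_univ _⟩, ?_⟩
  · rcases h2 with h2 | ⟨b, s', h2, h3⟩
    · exact Or.inl h2
    · refine Or.inr ?_
      have hs' : Valid s' := by
        apply Tree_valid_infix hx'
        rw [← hz, h2]
        exact ⟨z ++ [b], [], by simp⟩
      cases b
      · exact Or.inr ⟨s', ⟨hs', h3⟩, h2.symm⟩
      · exact Or.inl ⟨s', ⟨hs', h3⟩, h2.symm⟩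
  · funext m
    have hs : Valid s := Tree_valid_infix hx' ⟨z, [], by simpa using hz⟩
    by_cases hm : m = Tree2Idx cs M s
    · rw [hm]
      simp
    · change Function.update (fun m : Fin (M + 1) => vec cs s m.val) (Tree2Idx cs M s)
        (vec cs x (Tree2Idx cs M s).val) m = vec cs x m.val
      rw [Function.update_of_ne hm]
      by_contra hne
      refine hm (Tree2_idx cs M h1 m ⟨[], z, by simpa using hs, by rw [hz]; exact hx', ?_⟩)
      rw [hz, Tree_vec_replicate, List.nil_append]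
      exact hne

theorem ncard_vecSet_le_pairs (cs : ℕ → Bool) (M : ℕ) :
    (vecSet cs M).ncard ≤ 35 * (1 + 2 * ∑ j ∈ Finset.range (M + 3), (PU cs M j).ncard) := by
  have hf := Tree2_all_finite cs M
  have hG : (Tree2G cs M).Finite :=
    (Set.finite_singleton _).union ((hf.image _).union (hf.image _))
  have hGc : (Tree2G cs M).ncard ≤ 1 + 2 * ∑ j ∈ Finset.range (M + 3), (PU cs M j).ncard := by
    refine (Set.ncard_union_le _ _).trans ?_
    rw [Set.ncard_singleton]
    refine Nat.add_le_add_left ((Set.ncard_union_le _ _).trans ?_) 1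
    rw [two_mul]
    exact Nat.add_le_add ((Set.ncard_image_le hf).trans (Tree2_all_ncard cs M))
      ((Set.ncard_image_le hf).trans (Tree2_all_ncard cs M))
  have hfin : (Tree2G cs M ×ˢ (Set.univ : Set Q)).Finite := hG.prod Set.finite_univ
  refine (Set.ncard_le_ncard (Tree2_cover cs M) (hfin.image _)).trans
    ((Set.ncard_image_le hfin).trans ?_)
  rw [Set.ncard_prod, Set.ncard_univ, Nat.card_eq_fintype_card, Fintype.card_fin, mul_comm]
  exact Nat.mul_le_mul_left _ hGc

/-- description of the unresolved entries -/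
theorem UR_unsync {cs : ℕ → Bool} {m : ℕ} {u : List Bool} (h : UR cs m u) :
    (u.length ≤ m → Unsync u ((List.range u.length).map fun i => cs (m - u.length + i))) ∧
    (m < u.length → u.length ≤ m + 2 ∧ Unsync (u.drop (u.length - m)) (pref cs m)) := by
  obtain ⟨y, y', hy, hy', hne⟩ := h
  refine ⟨fun hj => ?_, fun hj => ?_⟩
  · rw [vec_append_of_le cs y u hj, vec_append_of_le cs y' u hj] at hne
    exact ⟨_, _, hne⟩
  · refine ⟨?_, ?_⟩
    · by_contra hc
      exact hne (Tree_high cs (by omega) hy hy')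
    · rw [vec_append_of_ge cs y u (by omega), vec_append_of_ge cs y' u (by omega)] at hne
      exact ⟨_, _, hne⟩

end Pool.H99.Trib
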