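import Pool.Agent.H99.Trib.Tree2

/-!
# Counting vectors by suffixes with at least `K` unresolved entries
-/

namespace Pool.H99.Trib

/-- valid words of length `j` with at least `K` unresolved entries -/
def KU (cs : ℕ → Bool) (M K j : ℕ) : Set (List Bool) :=
  {u | u.length = j ∧ Valid u ∧ K ≤ {m : ℕ | m ≤ M ∧ UR cs m u}.ncard}

/-- at least `K` unresolved entries -/
def TreeK_Bad (cs : ℕ → Bool) (M K : ℕ) (u : List Bool) : Prop :=
  K ≤ {m : ℕ | m ≤ M ∧ UR cs m u}.ncard

theorem TreeK_not_bad (cs : ℕ → Bool) (M K : ℕ) (hK : 1 ≤ K) {u : List Bool}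
    (h : M + 3 ≤ u.length) : ¬ TreeK_Bad cs M K u := by
  intro hb
  have h0 : {m : ℕ | m ≤ M ∧ UR cs m u} = ∅ := by
    ext m
    simp only [Set.mem_setOf_eq, Set.mem_empty_iff_false, iff_false, not_and]
    intro hm
    exact Tree2_not_UR cs hm h
  unfold TreeK_Bad at hb
  rw [h0, Set.ncard_empty] at hb
  omega

theorem TreeK_suffix (cs : ℕ → Bool) (M K : ℕ) (u : List Bool) (h : ¬ TreeK_Bad cs M K u) :
    ∃ s, s <:+ u ∧ ¬ TreeK_Bad cs M K s ∧
      (s = [] ∨ ∃ b s', s = b :: s' ∧ TreeK_Bad cs M K s') := by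
  induction u with
  | nil => exact ⟨[], List.suffix_rfl, h, Or.inl rfl⟩
  | cons b u ih =>
    by_cases hu : TreeK_Bad cs M K u
    · exact ⟨b :: u, List.suffix_rfl, h, Or.inr ⟨b, u, rfl, hu⟩⟩
    · obtain ⟨s, hs, h1, h2⟩ := ih hu
      exact ⟨s, hs.trans (List.suffix_cons b u), h1, h2⟩

/-- The words with at least `K` unresolved entries. -/
def TreeK_All (cs : ℕ → Bool) (M K : ℕ) : Set (List Bool) := {u | Valid u ∧ TreeK_Bad cs M K u}

theorem TreeK_all_sub (cs : ℕ → Bool) (M K : ℕ) (hK : 1 ≤ K) :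
    TreeK_All cs M K ⊆ ⋃ j ∈ Finset.range (M + 3), KU cs M K j := by
  rintro u ⟨hu, hb⟩
  have hl : u.length < M + 3 := by
    by_contra hc
    exact TreeK_not_bad cs M K hK (not_lt.1 hc) hb
  exact Set.mem_biUnion (x := u.length) (by simpa using hl) ⟨rfl, hu, hb⟩

theorem TreeK_KU_finite (cs : ℕ → Bool) (M K j : ℕ) : (KU cs M K j).Finite :=
  (List.finite_length_eq Bool j).subset fun _ h => h.1

theorem TreeK_all_ncard (cs : ℕ → Bool) (M K : ℕ) (hK : 1 ≤ K) :
    (TreeK_All cs M K).ncard ≤ ∑ j ∈ Finset.range (M + 3), (KU cs M K j).ncard := by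
  refine (Set.ncard_le_ncard (TreeK_all_sub cs M K hK) ?_).trans
    (Finset.set_ncard_biUnion_le _ _)
  exact Set.Finite.biUnion (Finset.finite_toSet _) fun j _ => TreeK_KU_finite cs M K j

theorem TreeK_all_finite (cs : ℕ → Bool) (M K : ℕ) (hK : 1 ≤ K) : (TreeK_All cs M K).Finite :=
  (Set.Finite.biUnion (Finset.finite_toSet _) fun j _ => TreeK_KU_finite cs M K j).subset
    (TreeK_all_sub cs M K hK)

/-- the vectors that agree with the vector of `s` at the resolved entries -/
def TreeK_V (cs : ℕ → Bool) (M K : ℕ) (s : List Bool) : Set (Fin (M + 1) → Q) :=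
  {v | ¬ TreeK_Bad cs M K s ∧ ∀ m : Fin (M + 1), ¬ UR cs m.val s → v m = vec cs s m.val}

theorem TreeK_V_ncard (cs : ℕ → Bool) (M K : ℕ) (s : List Bool) :
    (TreeK_V cs M K s).ncard ≤ 35 ^ K := by
  classical
  by_cases hb : TreeK_Bad cs M K s
  · have h0 : TreeK_V cs M K s = ∅ := by
      ext v
      simp only [TreeK_V, Set.mem_setOf_eq, Set.mem_empty_iff_false, iff_false]
      exact fun h => h.1 hb
    rw [h0, Set.ncard_empty]
    exact Nat.zero_le _
  · set P : Finset (Fin (M + 1) → Q) := Fintype.piFinset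
      (fun m : Fin (M + 1) => if UR cs m.val s then Finset.univ else {vec cs s m.val}) with hP
    have hsub : TreeK_V cs M K s ⊆ (P : Set (Fin (M + 1) → Q)) := by
      rintro v ⟨_, hv⟩
      rw [Finset.mem_coe, hP, Fintype.mem_piFinset]
      intro m
      by_cases hm : UR cs m.val s
      · rw [if_pos hm]
        exact Finset.mem_univ _
      · rw [if_neg hm, Finset.mem_singleton]
        exact hv m hm
    have hc : P.card = 35 ^ (Finset.univ.filter (fun m : Fin (M + 1) => UR cs m.val s)).card := by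
      rw [hP, Fintype.card_piFinset]
      have : ∀ m : Fin (M + 1), (if UR cs m.val s then (Finset.univ : Finset Q)
          else {vec cs s m.val}).card = if UR cs m.val s then 35 else 1 := by
        intro m
        by_cases hm : UR cs m.val s
        · rw [if_pos hm, if_pos hm, Finset.card_univ, Fintype.card_fin]
        · rw [if_neg hm, if_neg hm, Finset.card_singleton]
      rw [Finset.prod_congr rfl fun m _ => this m, Finset.prod_ite, Finset.prod_const,
        Finset.prod_const_one, mul_one]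
    have hle : (Finset.univ.filter (fun m : Fin (M + 1) => UR cs m.val s)).card ≤ K := by
      have h1 : (Finset.univ.filter (fun m : Fin (M + 1) => UR cs m.val s)).card =
          ((Finset.univ.filter (fun m : Fin (M + 1) => UR cs m.val s)).image Fin.val).card :=
        (Finset.card_image_of_injective _ Fin.val_injective).symm
      rw [h1, ← Set.ncard_coe_finset]
      refine le_trans (Set.ncard_le_ncard ?_ ((Set.finite_le_nat M).subset fun m hm => hm.1))
        (not_le.1 hb).le
      intro m hm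
      rw [Finset.mem_coe, Finset.mem_image] at hm
      obtain ⟨i, hi, rfl⟩ := hm
      rw [Finset.mem_filter] at hi
      exact ⟨Nat.lt_succ_iff.1 i.isLt, hi.2⟩
    calc (TreeK_V cs M K s).ncard ≤ (P : Set (Fin (M + 1) → Q)).ncard :=
          Set.ncard_le_ncard hsub (Finset.finite_toSet _)
      _ = P.card := Set.ncard_coe_finset _
      _ = _ := hc
      _ ≤ 35 ^ K := Nat.pow_le_pow_right (by norm_num) hle

/-- the words used in the cover -/
def TreeK_G (cs : ℕ → Bool) (M K : ℕ) : Set (List Bool) :=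
  {[]} ∪ (List.cons true '' TreeK_All cs M K ∪ List.cons false '' TreeK_All cs M K)

theorem TreeK_cover (cs : ℕ → Bool) (M K : ℕ) (hK : 1 ≤ K) {v : Fin (M + 1) → Q}
    (hv : v ∈ vecSet cs M) : ∃ s ∈ TreeK_G cs M K, v ∈ TreeK_V cs M K s := by
  obtain ⟨x, hx, rfl⟩ := hv
  have hx' : Valid (List.replicate (M + 3) false ++ x) := Tree_valid_replicate hx _
  have hr : ¬ TreeK_Bad cs M K (List.replicate (M + 3) false ++ x) := TreeK_not_bad cs M K hK (by
    rw [List.length_append, List.length_replicate]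
    omega)
  obtain ⟨s, ⟨z, hz⟩, h1, h2⟩ := TreeK_suffix cs M K _ hr
  refine ⟨s, ?_, h1, ?_⟩
  · rcases h2 with h2 | ⟨b, s', h2, h3⟩
    · exact Or.inl h2
    · refine Or.inr ?_
      have hs' : Valid s' := by
        apply Tree_valid_infix hx'
        rw [← hz, h2]
        exact ⟨z ++ [b], [], by simp⟩
      cases b
      · exact Or.inr ⟨s', ⟨hs', h3⟩, h2.symm⟩
      · exact Or.inl ⟨s', ⟨hs', h3⟩, h2.symm⟩
  · intro m hm
    have hs : Valid s := Tree_valid_infix hx' ⟨z, [], by simpa using hz⟩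
    by_contra hne
    refine hm ⟨z, [], by rw [hz]; exact hx', by simpa using hs, ?_⟩
    rw [hz, Tree_vec_replicate, List.nil_append]
    exact hne

theorem ncard_vecSet_le_K (cs : ℕ → Bool) (M K : ℕ) (hK : 1 ≤ K) :
    (vecSet cs M).ncard ≤ 35 ^ K * (1 + 2 * ∑ j ∈ Finset.range (M + 3), (KU cs M K j).ncard) := by
  have hf := TreeK_all_finite cs M K hK
  have hG : (TreeK_G cs M K).Finite :=
    (Set.finite_singleton _).union ((hf.image _).union (hf.image _))
  have hGc : (TreeK_G cs M K).ncard ≤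
      1 + 2 * ∑ j ∈ Finset.range (M + 3), (KU cs M K j).ncard := by
    refine (Set.ncard_union_le _ _).trans ?_
    rw [Set.ncard_singleton]
    refine Nat.add_le_add_left ((Set.ncard_union_le _ _).trans ?_) 1
    rw [two_mul]
    exact Nat.add_le_add ((Set.ncard_image_le hf).trans (TreeK_all_ncard cs M K hK))
      ((Set.ncard_image_le hf).trans (TreeK_all_ncard cs M K hK))
  have hsub : vecSet cs M ⊆ ⋃ s ∈ hG.toFinset, TreeK_V cs M K s := by
    intro v hv
    obtain ⟨s, hs, hv'⟩ := TreeK_cover cs M K hK hv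
    exact Set.mem_biUnion (x := s) (by simpa using hs) hv'
  calc (vecSet cs M).ncard ≤ (⋃ s ∈ hG.toFinset, TreeK_V cs M K s).ncard :=
        Set.ncard_le_ncard hsub (Set.toFinite _)
    _ ≤ ∑ s ∈ hG.toFinset, (TreeK_V cs M K s).ncard := Finset.set_ncard_biUnion_le _ _
    _ ≤ ∑ _s ∈ hG.toFinset, 35 ^ K := Finset.sum_le_sum fun s _ => TreeK_V_ncard cs M K s
    _ = (TreeK_G cs M K).ncard * 35 ^ K := by
        rw [Finset.sum_const, smul_eq_mul, Set.ncard_eq_toFinset_card _ hG]
    _ ≤ (1 + 2 * ∑ j ∈ Finset.range (M + 3), (KU cs M K j).ncard) * 35 ^ K :=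
        Nat.mul_le_mul_right _ hGc
    _ = _ := mul_comm _ _

end Pool.H99.Trib
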