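import Pool.Agent.H99.Trib.TripleD
import Pool.Agent.H99.Trib.Chain

/-!
# Three windows
-/

namespace Pool.H99.Trib

theorem Triple_lam : ∃ lam : ℝ, 0 < lam ∧ lam ^ 4 = 2 * lam + 1 := by
  have hc : ContinuousOn (fun x : ℝ => x ^ 4 - 2 * x - 1) (Set.Icc 1 2) := by fun_prop
  have h1 := intermediate_value_Icc (by norm_num : (1 : ℝ) ≤ 2) hc
  have h0 : (0 : ℝ) ∈ Set.Icc ((fun x : ℝ => x ^ 4 - 2 * x - 1) 1)
      ((fun x : ℝ => x ^ 4 - 2 * x - 1) 2) := by
    constructor <;> norm_num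
  obtain ⟨x, hx, hx0⟩ := h1 h0
  refine ⟨x, by linarith [hx.1], ?_⟩
  have hx0' : x ^ 4 - 2 * x - 1 = 0 := hx0
  linarith

theorem Triple_card_VW (β : ℝ) (hβ : 0 < β) (hβ3 : β ^ 3 = β ^ 2 + β + 1) (n : ℕ) :
    ((VW n).card : ℝ) ≤ 2 * β ^ n := by
  have h := ncard_valid β hβ hβ3 n
  have h2 : {w : List Bool | w.length = n ∧ Valid w} = (VW n : Set (List Bool)) := by
    ext w
    simp [MeanCount_mem_VW]
  rw [h2, Set.ncard_coe_finset] at h
  exact h

theorem Triple_unsync_take {u w : List Bool} (h : Unsync u w) (n : ℕ) :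
    Unsync (u.take n) (w.take n) := by
  obtain ⟨p, q, hpq⟩ := h
  have e : zs (u.take n) (w.take n) = (zs u w).take n := by
    simp only [zs]
    rw [List.take_zipWith]
  refine ⟨p, q, fun hc => hpq ?_⟩
  rw [← List.take_append_drop n (zs u w), dls_append, dls_append, ← e, hc]

theorem Triple_VW_split (n m : ℕ) (w : List Bool) (hw : w ∈ VW (n + m)) :
    w.take n ∈ VW n ∧ w.drop n ∈ VW m := by
  rw [MeanCount_mem_VW] at hw
  rw [MeanCount_mem_VW, MeanCount_mem_VW]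
  refine ⟨⟨by simp [hw.1], ?_⟩, by simp [hw.1], ?_⟩
  · exact Tree_valid_infix hw.2 (List.take_prefix _ _).isInfix
  · exact Tree_valid_infix hw.2 (List.drop_suffix _ _).isInfix

/-- block lengths -/
def TripleBl (l k r0 : ℕ) (s : ℕ) : ℕ := if s % k < r0 then l + 1 else l

theorem Triple_bl_sum (l k r0 : ℕ) (h : r0 ≤ k) :
    ∑ s ∈ Finset.range k, TripleBl l k r0 s = k * l + r0 := by
  have h1 : ∀ s ∈ Finset.range k, TripleBl l k r0 s = l + if s < r0 then 1 else 0 := by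
    intro s hs
    rw [Finset.mem_range] at hs
    rw [TripleBl, Nat.mod_eq_of_lt hs]
    split_ifs <;> rfl
  rw [Finset.sum_congr rfl h1, Finset.sum_add_distrib, Finset.sum_const, Finset.card_range,
    smul_eq_mul, Finset.sum_boole]
  congr 1
  have : (Finset.range k).filter (fun s => s < r0) = Finset.range r0 := by
    ext s
    simp only [Finset.mem_filter, Finset.mem_range]
    omega
  rw [this, Finset.card_range]
  rfl

theorem Triple_bl_le (l k r0 s : ℕ) : TripleBl l k r0 s ≤ l + 1 := by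
  rw [TripleBl]
  split_ifs <;> omega

theorem Triple_le_bl (l k r0 s : ℕ) : l ≤ TripleBl l k r0 s := by
  rw [TripleBl]
  split_ifs <;> omega

theorem Triple_bl_per (l k r0 s : ℕ) : TripleBl l k r0 (s + k) = TripleBl l k r0 s := by
  rw [TripleBl, TripleBl, Nat.add_mod_right]

theorem Triple_cut (l k r0 : ℕ) (hl : 1 ≤ l) (n : ℕ) :
    ∃ r ρ, n = ∑ s ∈ Finset.range r, TripleBl l k r0 s + ρ ∧ ρ ≤ l := by
  induction n with
  | zero => exact ⟨0, 0, by simp, by omega⟩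
  | succ n ih =>
    obtain ⟨r, ρ, h1, h2⟩ := ih
    by_cases h3 : ρ + 1 ≤ l
    · exact ⟨r, ρ + 1, by omega, h3⟩
    · have h4 : ρ = l := by omega
      have h5 := Triple_bl_le l k r0 r
      have h6 := Triple_le_bl l k r0 r
      refine ⟨r + 1, l + 1 - TripleBl l k r0 r, ?_, by omega⟩
      rw [Finset.sum_range_succ]
      omega

theorem Triple_le_sum (l k r0 r : ℕ) : l * r ≤ ∑ s ∈ Finset.range r, TripleBl l k r0 s := by
  calc l * r = ∑ s ∈ Finset.range r, l := by simp [mul_comm]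
    _ ≤ _ := Finset.sum_le_sum fun s _ => Triple_le_bl l k r0 s

theorem Triple_set_eq (n h g : ℕ) :
    TripleSet n h g = (Chain.tri Unsync VW n h g : Set (List Bool × List Bool)) := by
  ext x
  simp only [TripleSet, Chain.tri, Set.mem_ofPred_eq, Finset.coe_filter, Finset.mem_product,
    MeanCount_mem_VW]
  tauto

/-- the sum over the last period -/
theorem Triple_sum_shift (bl : ℕ → ℕ) (k g : ℕ) (hper : ∀ t, bl (t + k) = bl t)
    (hg : ∑ s ∈ Finset.range k, bl s = g) (r : ℕ) :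
    ∑ s ∈ Finset.range (r + k), bl s = ∑ s ∈ Finset.range r, bl s + g := by
  rw [add_comm r k, Finset.sum_range_add, hg, add_comm]
  congr 1
  apply Finset.sum_congr rfl
  intro s _
  rw [add_comm k s]
  exact hper s

theorem Triple_prod_pow (K x : ℝ) (bl : ℕ → ℕ) (S : Finset ℕ) :
    ∏ s ∈ S, (K * x ^ bl s) = K ^ S.card * x ^ ∑ s ∈ S, bl s := by
  rw [Finset.prod_mul_distrib, Finset.prod_const, Finset.prod_pow_eq_pow_sum]

theorem Triple_x (β lam : ℝ) (hβ : 0 < β) (hβ3 : β ^ 3 = β ^ 2 + β + 1) (h0 : 0 < lam)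
    (h4 : lam ^ 4 = 2 * lam + 1) (p : ℕ) : lam ^ (3 * p) ≤ β ^ p * (9 / 5 : ℝ) ^ p := by
  have h1 := upper_beta_gt β hβ hβ3
  have h2 := upper_lam_lt lam h0 h4
  rw [pow_mul, ← mul_pow]
  apply pow_le_pow_left₀ (by positivity)
  have h3 : lam ^ 3 ≤ 1.39534 ^ 3 := pow_le_pow_left₀ h0.le h2.le 3
  refine h3.trans ?_
  have h5 : (1.8392 : ℝ) * (9 / 5) ≤ β * (9 / 5) := by linarith
  refine le_trans ?_ h5
  norm_num

open Classical in
theorem Triple_main (β lam K : ℝ) (hβ : 0 < β) (hβ3 : β ^ 3 = β ^ 2 + β + 1) (h0 : 0 < lam)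
    (h4 : lam ^ 4 = 2 * lam + 1) (hK : 1 ≤ K)
    (hP : ∀ U D : List Bool, U.length = D.length →
      ∑ C ∈ (VW U.length).filter (fun C => Unsync U C), (N2 D C : ℝ) ≤
        K * (9 / 5 : ℝ) ^ U.length)
    (ha : ∀ U : List Bool,
      (((VW U.length).filter fun C => Unsync U C).card : ℝ) ≤ K * lam ^ U.length)
    (h g k : ℕ) (bl : ℕ → ℕ) (hper : ∀ t, bl (t + k) = bl t) (hk : 1 ≤ k)
    (hg : ∑ s ∈ Finset.range k, bl s = g) (hlen : ∀ t, bl t ≤ h) (hleng : ∀ t, bl t ≤ g)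
    (r ρ : ℕ) :
    ((TripleSet (∑ s ∈ Finset.range r, bl s + ρ) h g).ncard : ℝ) ≤
      4 * β ^ (h + g) * K ^ (3 * r) * (9 / 5 : ℝ) ^ (∑ s ∈ Finset.range r, bl s) *
        ((VW ρ).card : ℝ) ^ 2 := by
  have hK0 : 0 < K := by linarith
  have hV : ∀ n, ∀ w ∈ VW n, w.length = n := fun n w hw => (MeanCount_mem_VW.1 hw).1
  have h1 := Chain.tri_card_le Unsync VW hV Triple_VW_split
    (fun n u w hl hu => ⟨Triple_unsync_take hu n, unsync_drop hu hl n⟩) h g bl hlen hleng r ρ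
  rw [Triple_set_eq, Set.ncard_coe_finset]
  have h2 : ((Chain.tri Unsync VW (∑ s ∈ Finset.range r, bl s + ρ) h g).card : ℝ) ≤
      (∑ D ∈ VW (h + g), (Chain.cnt Unsync VW h bl r 0 D : ℝ)) * ((VW ρ).card : ℝ) ^ 2 := by
    rw [Finset.sum_mul]
    exact_mod_cast h1
  refine h2.trans (mul_le_mul_of_nonneg_right ?_ (by positivity))
  have h3 : ∀ D ∈ VW (h + g), (Chain.cnt Unsync VW h bl r 0 D : ℝ) ≤
      (∏ s ∈ Finset.range (r - k), (K * (9 / 5 : ℝ) ^ bl s)) *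
      (∏ s ∈ Finset.Ico (r - k) r, (K * lam ^ bl s)) *
        (Chain.om Unsync VW h bl (min k r) 0 D : ℝ) := by
    intro D hD
    have := Chain.cnt_le Unsync VW hV h g k bl hper hk hg hlen (fun n => K * (9 / 5 : ℝ) ^ n)
      (fun n => K * lam ^ n) (fun n => by positivity) (fun n => by positivity)
      (fun U D hl => hP U D hl) (fun U => ha U) r 0 D (hV _ D hD)
    simpa using this
  have hm : ∑ s ∈ Finset.range (min k r), bl s ≤ g := by
    rw [← hg]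
    exact Finset.sum_le_sum_of_subset (Finset.range_subset_range.2 (min_le_left _ _))
  have h5 := Chain.sum_om_le Unsync VW hV Triple_VW_split
    (fun u w hu => unsync_comm.1 hu) h g bl hlen (fun n => K * lam ^ n)
    (fun n => by positivity) (fun U => ha U) (min k r) hm
  have h6 : ∑ D ∈ VW (h + g), (Chain.cnt Unsync VW h bl r 0 D : ℝ) ≤
      (∏ s ∈ Finset.range (r - k), (K * (9 / 5 : ℝ) ^ bl s)) *
      (∏ s ∈ Finset.Ico (r - k) r, (K * lam ^ bl s)) *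
      (((VW h).card : ℝ) * (∏ s ∈ Finset.range (min k r), (K * lam ^ bl s) ^ 2) *
        ((VW (g - ∑ s ∈ Finset.range (min k r), bl s)).card : ℝ)) := by
    refine (Finset.sum_le_sum h3).trans ?_
    rw [← Finset.mul_sum]
    refine mul_le_mul_of_nonneg_left h5 ?_
    have : 0 < lam := h0
    positivity
  refine h6.trans ?_
  have c1 := Triple_card_VW β hβ hβ3 h
  have c2 := Triple_card_VW β hβ hβ3 (g - ∑ s ∈ Finset.range (min k r), bl s)
  rw [Finset.prod_pow, Triple_prod_pow, Triple_prod_pow, Triple_prod_pow, Finset.card_range,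
    Finset.card_range, Nat.card_Ico]
  rcases le_or_gt k r with hkr | hkr
  · obtain ⟨r', rfl⟩ : ∃ r', r = r' + k := ⟨r - k, by omega⟩
    have e1 : r' + k - k = r' := by omega
    have e2 : r' + k - r' = k := by omega
    have e3 : ∑ s ∈ Finset.Ico r' (r' + k), bl s = g := by
      have := Triple_sum_shift bl k g hper hg r'
      rw [← Finset.sum_range_add_sum_Ico _ (by omega : r' ≤ r' + k)] at this
      omega
    rw [min_eq_left hkr, hg] at c2 ⊢
    rw [e1, e2, e3, Triple_sum_shift bl k g hper hg r']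
    rw [Nat.sub_self, pow_zero] at c2
    rw [Nat.sub_self]
    set p := ∑ s ∈ Finset.range r', bl s with hp
    have hx := Triple_x β lam hβ hβ3 h0 h4 g
    have hKK : K ^ (r' + 3 * k) ≤ K ^ (3 * (r' + k)) := pow_le_pow_right₀ hK (by omega)
    calc K ^ r' * (9 / 5 : ℝ) ^ p * (K ^ k * lam ^ g) *
          (((VW h).card : ℝ) * (K ^ k * lam ^ g) ^ 2 * ((VW 0).card : ℝ))
        ≤ K ^ r' * (9 / 5 : ℝ) ^ p * (K ^ k * lam ^ g) *
          ((2 * β ^ h) * (K ^ k * lam ^ g) ^ 2 * (2 * 1)) := by gcongr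
      _ = 4 * β ^ h * K ^ (r' + 3 * k) * (9 / 5 : ℝ) ^ p * lam ^ (3 * g) := by ring
      _ ≤ 4 * β ^ h * K ^ (3 * (r' + k)) * (9 / 5 : ℝ) ^ p * (β ^ g * (9 / 5 : ℝ) ^ g) := by
          gcongr
      _ = 4 * β ^ (h + g) * K ^ (3 * (r' + k)) * (9 / 5 : ℝ) ^ (p + g) := by ring
  · have e1 : r - k = 0 := by omega
    rw [min_eq_right hkr.le] at c2 hm ⊢
    rw [e1, Finset.range_zero, Finset.sum_empty, ← Finset.range_eq_Ico, Nat.sub_zero]
    set p := ∑ s ∈ Finset.range r, bl s with hp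
    have hx := Triple_x β lam hβ hβ3 h0 h4 p
    obtain ⟨g', rfl⟩ : ∃ g', g = p + g' := ⟨g - p, by omega⟩
    rw [Nat.add_sub_cancel_left] at c2 ⊢
    calc K ^ 0 * (9 / 5 : ℝ) ^ 0 * (K ^ r * lam ^ p) *
          (((VW h).card : ℝ) * (K ^ r * lam ^ p) ^ 2 * ((VW g').card : ℝ))
        ≤ K ^ 0 * (9 / 5 : ℝ) ^ 0 * (K ^ r * lam ^ p) *
          ((2 * β ^ h) * (K ^ r * lam ^ p) ^ 2 * (2 * β ^ g')) := by gcongr
      _ = 4 * β ^ h * K ^ (3 * r) * β ^ g' * lam ^ (3 * p) := by ring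
      _ ≤ 4 * β ^ h * K ^ (3 * r) * β ^ g' * (β ^ p * (9 / 5 : ℝ) ^ p) := by gcongr
      _ = 4 * β ^ (h + (p + g')) * K ^ (3 * r) * (9 / 5 : ℝ) ^ p := by ring

/-- overlapping windows, gaps at least `G` -/
theorem triple_overlap (β : ℝ) (hβ : 0 < β) (hβ3 : β ^ 3 = β ^ 2 + β + 1) :
    ∃ (G : ℕ) (K : ℝ), 0 < K ∧ ∀ n h g : ℕ, G ≤ h → G ≤ g →
      ((TripleSet n h g).ncard : ℝ) ≤ K * β ^ (h + g) * (183 / 100 : ℝ) ^ n := by
  classical
  obtain ⟨lam, h0, h4⟩ := Triple_lam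
  obtain ⟨K1, hK1, hd⟩ := deg_bound lam h0 h4
  obtain ⟨K2, hK2, hp⟩ := P_bound
  set K : ℝ := K1 + K2 + 1 with hK
  have hK0 : 1 ≤ K := by linarith
  obtain ⟨l', hl'⟩ := pow_unbounded_of_one_lt (K ^ 3) (by norm_num : (1 : ℝ) < 61 / 60)
  set l := l' + 1 with hl
  have hKl : K ^ 3 ≤ (61 / 60 : ℝ) ^ l :=
    hl'.le.trans (pow_le_pow_right₀ (by norm_num) (by omega))
  refine ⟨(l + 1) ^ 2, 4 * (2 * 2 ^ l) ^ 2, by positivity, ?_⟩
  intro n h g hh hg
  set k := g / l with hk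
  set r0 := g % l with hr0
  have hl1 : 1 ≤ l := by omega
  have hr0l : r0 < l := Nat.mod_lt _ (by omega)
  have hgk : k * l + r0 = g := by rw [mul_comm]; exact Nat.div_add_mod g l
  have hlk : l ≤ k := by
    rw [hk, Nat.le_div_iff_mul_le (by omega)]
    nlinarith
  obtain ⟨r, ρ, hn, hρ⟩ := Triple_cut l k r0 hl1 n
  have hll : l + 1 ≤ (l + 1) ^ 2 := by nlinarith
  have hmain := Triple_main β lam K hβ hβ3 h0 h4 hK0
    (fun U D hl => (hp U D hl).trans (by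
      have : 0 < (9 / 5 : ℝ) ^ U.length := by positivity
      have : K2 ≤ K := by linarith
      gcongr))
    (fun U => (hd U).trans (by
      have : 0 < lam ^ U.length := by positivity
      have : K1 ≤ K := by linarith
      gcongr)) h g k (TripleBl l k r0) (Triple_bl_per l k r0) (by omega)
      (by rw [Triple_bl_sum l k r0 (by omega), hgk])
      (fun t => (Triple_bl_le l k r0 t).trans (hll.trans hh))
      (fun t => (Triple_bl_le l k r0 t).trans (hll.trans hg)) r ρ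
  rw [← hn] at hmain
  set p := ∑ s ∈ Finset.range r, TripleBl l k r0 s with hp
  have hlr : l * r ≤ p := Triple_le_sum l k r0 r
  have hc := Triple_card_VW β hβ hβ3 ρ
  have hβ2 := upper_beta_lt β hβ hβ3
  have hρ2 : (2 : ℝ) * β ^ ρ ≤ 2 * 2 ^ l := by
    have : β ^ ρ ≤ 2 ^ ρ := pow_le_pow_left₀ hβ.le hβ2.le ρ
    have : (2 : ℝ) ^ ρ ≤ 2 ^ l := pow_le_pow_right₀ (by norm_num) hρ
    linarith
  have hKr : K ^ (3 * r) ≤ (61 / 60 : ℝ) ^ p := by
    rw [pow_mul]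
    calc (K ^ 3) ^ r ≤ ((61 / 60 : ℝ) ^ l) ^ r := pow_le_pow_left₀ (by positivity) hKl r
      _ = (61 / 60 : ℝ) ^ (l * r) := by rw [pow_mul]
      _ ≤ (61 / 60 : ℝ) ^ p := pow_le_pow_right₀ (by norm_num) hlr
  have hpn : (183 / 100 : ℝ) ^ p ≤ (183 / 100 : ℝ) ^ n := pow_le_pow_right₀ (by norm_num) (by omega)
  calc ((TripleSet n h g).ncard : ℝ)
      ≤ 4 * β ^ (h + g) * K ^ (3 * r) * (9 / 5 : ℝ) ^ p * ((VW ρ).card : ℝ) ^ 2 := hmain
    _ ≤ 4 * β ^ (h + g) * (61 / 60 : ℝ) ^ p * (9 / 5 : ℝ) ^ p * (2 * 2 ^ l) ^ 2 := by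
        gcongr
        exact hc.trans hρ2
    _ = 4 * (2 * 2 ^ l) ^ 2 * β ^ (h + g) * ((61 / 60 : ℝ) ^ p * (9 / 5 : ℝ) ^ p) := by ring
    _ = 4 * (2 * 2 ^ l) ^ 2 * β ^ (h + g) * (183 / 100 : ℝ) ^ p := by
        rw [← mul_pow]
        norm_num
    _ ≤ 4 * (2 * 2 ^ l) ^ 2 * β ^ (h + g) * (183 / 100 : ℝ) ^ n := by gcongr

end Pool.H99.Trib
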