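import Pool.Agent.H99.Trib.PBound

/-!
# Three disjoint windows
-/

namespace Pool.H99.Trib

/-- pairs `(u, d)` such that three windows of `d` are close to `u` -/
def TripleSet (n h g : ℕ) : Set (List Bool × List Bool) :=
  {x | x.1.length = n ∧ Valid x.1 ∧ x.2.length = h + g + n ∧ Valid x.2 ∧
    Unsync x.1 (x.2.take n) ∧ Unsync x.1 ((x.2.drop h).take n) ∧
    Unsync x.1 ((x.2.drop (h + g)).take n)}

theorem TripleD_card_VW (β : ℝ) (hβ : 0 < β) (hβ3 : β ^ 3 = β ^ 2 + β + 1) (n : ℕ) :
    ((VW n).card : ℝ) ≤ 2 * β ^ n := by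
  have h := ncard_valid β hβ hβ3 n
  have hfin : ({w : List Bool | w.length = n ∧ Valid w}).Finite :=
    (List.finite_length_eq Bool n).subset (fun w (hw : w.length = n ∧ Valid w) => hw.1)
  rw [Set.ncard_eq_toFinset_card _ hfin] at h
  exact h

open Classical in
/-- the words near `u` -/
noncomputable def TripleD_N (u : List Bool) : Finset (List Bool) :=
  (VW u.length).filter fun C => Unsync u C

open Classical in
/-- the target of the cutting map -/
noncomputable def TripleD_T (n h g : ℕ) :
    Finset (Σ _ : List Bool, List Bool × List Bool × List Bool × List Bool × List Bool) :=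
  (VW n).sigma fun u => TripleD_N u ×ˢ (VW (h - n) ×ˢ (TripleD_N u ×ˢ (VW (g - n) ×ˢ TripleD_N u)))

/-- the cutting map -/
def TripleD_f (n h g : ℕ) (x : List Bool × List Bool) :
    (Σ _ : List Bool, List Bool × List Bool × List Bool × List Bool × List Bool) :=
  ⟨x.1, x.2.take n, (x.2.drop n).take (h - n), (x.2.drop h).take n,
    (x.2.drop (h + n)).take (g - n), (x.2.drop (h + g)).take n⟩

theorem TripleD_infix {w : List Bool} (a b : ℕ) : (w.drop a).take b <:+: w :=
  (List.take_prefix _ _).isInfix.trans (List.drop_suffix _ _).isInfix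

theorem TripleD_mem {n h g : ℕ} (hh : n ≤ h) (hg : n ≤ g) {x : List Bool × List Bool}
    (hx : x ∈ TripleSet n h g) : TripleD_f n h g x ∈ TripleD_T n h g := by
  obtain ⟨h1, h2, h3, h4, h5, h6, h7⟩ := hx
  have e1 : (x.2.take n).length = n := by simp; omega
  have e2 : ((x.2.drop n).take (h - n)).length = h - n := by simp; omega
  have e3 : ((x.2.drop h).take n).length = n := by simp; omega
  have e4 : ((x.2.drop (h + n)).take (g - n)).length = g - n := by simp; omega
  have e5 : ((x.2.drop (h + g)).take n).length = n := by simp; omega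
  have v1 : Valid (x.2.take n) := Tree_valid_infix h4 (List.take_prefix _ _).isInfix
  have v2 : Valid ((x.2.drop n).take (h - n)) := Tree_valid_infix h4 (TripleD_infix _ _)
  have v3 : Valid ((x.2.drop h).take n) := Tree_valid_infix h4 (TripleD_infix _ _)
  have v4 : Valid ((x.2.drop (h + n)).take (g - n)) := Tree_valid_infix h4 (TripleD_infix _ _)
  have v5 : Valid ((x.2.drop (h + g)).take n) := Tree_valid_infix h4 (TripleD_infix _ _)
  simp only [TripleD_f, TripleD_T, TripleD_N, Finset.mem_sigma, Finset.mem_product,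
    Finset.mem_filter, MeanCount_mem_VW, h1]
  exact ⟨⟨trivial, h2⟩, ⟨⟨e1, v1⟩, h5⟩, ⟨e2, v2⟩, ⟨⟨e3, v3⟩, h6⟩, ⟨e4, v4⟩, ⟨e5, v5⟩, h7⟩

theorem TripleD_inj {n h g : ℕ} (hh : n ≤ h) (hg : n ≤ g) {x y : List Bool × List Bool}
    (hx : x ∈ TripleSet n h g) (hy : y ∈ TripleSet n h g)
    (hxy : TripleD_f n h g x = TripleD_f n h g y) : x = y := by
  have hxl := hx.2.2.1
  have hyl := hy.2.2.1
  simp only [TripleD_f, Sigma.mk.injEq, heq_eq_eq, Prod.mk.injEq] at hxy
  obtain ⟨h0, h1, h2, h3, h4, h5⟩ := hxy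
  have key : ∀ w : List Bool, w.length = h + g + n →
      w = w.take n ++ ((w.drop n).take (h - n) ++ ((w.drop h).take n ++
        ((w.drop (h + n)).take (g - n) ++ (w.drop (h + g)).take n))) := by
    intro w hw
    have a5 : (w.drop (h + g)).take n = w.drop (h + g) := by
      apply List.take_of_length_le
      simp; omega
    have a4 : (w.drop (h + n)).take (g - n) ++ w.drop (h + g) = w.drop (h + n) := by
      have : w.drop (h + g) = (w.drop (h + n)).drop (g - n) := by
        rw [List.drop_drop]; congr 1; omega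
      rw [this, List.take_append_drop]
    have a3 : (w.drop h).take n ++ w.drop (h + n) = w.drop h := by
      have : w.drop (h + n) = (w.drop h).drop n := by
        rw [List.drop_drop]
      rw [this, List.take_append_drop]
    have a2 : (w.drop n).take (h - n) ++ w.drop h = w.drop n := by
      have : w.drop h = (w.drop n).drop (h - n) := by
        rw [List.drop_drop]; congr 1; omega
      rw [this, List.take_append_drop]
    rw [a5, a4, a3, a2, List.take_append_drop]
  refine Prod.ext h0 ?_
  rw [key x.2 hxl, key y.2 hyl, h1, h2, h3, h4, h5]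

theorem TripleD_ncard_le {n h g : ℕ} (hh : n ≤ h) (hg : n ≤ g) :
    (TripleSet n h g).ncard ≤ (TripleD_T n h g).card := by
  classical
  have h1 : TripleD_f n h g '' (TripleSet n h g) ⊆ (TripleD_T n h g : Set _) := by
    rintro _ ⟨x, hx, rfl⟩
    exact TripleD_mem hh hg hx
  rw [← Set.ncard_image_of_injOn (f := TripleD_f n h g) (s := TripleSet n h g)
    (fun x hx y hy hxy => TripleD_inj hh hg hx hy hxy), ← Set.ncard_coe_finset]
  exact Set.ncard_le_ncard h1 (Finset.finite_toSet _)

theorem TripleD_card_T (n h g : ℕ) : (TripleD_T n h g).card =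
    ∑ u ∈ VW n, (TripleD_N u).card * ((VW (h - n)).card * ((TripleD_N u).card *
      ((VW (g - n)).card * (TripleD_N u).card))) := by
  classical
  unfold TripleD_T
  rw [Finset.card_sigma]
  simp only [Finset.card_product]

/-- disjoint windows -/
theorem triple_disjoint (β lam : ℝ) (hβ : 0 < β) (hβ3 : β ^ 3 = β ^ 2 + β + 1) (h0 : 0 < lam)
    (h4 : lam ^ 4 = 2 * lam + 1) :
    ∃ K : ℝ, 0 < K ∧ ∀ n h g : ℕ, n ≤ h → n ≤ g →
      ((TripleSet n h g).ncard : ℝ) ≤ K * β ^ (h + g) * (lam ^ 3 / β) ^ n := by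
  obtain ⟨K, hK, hd⟩ := deg_bound lam h0 h4
  refine ⟨8 * K ^ 3, by positivity, fun n h g hh hg => ?_⟩
  have hN : ∀ u ∈ VW n, ((TripleD_N u).card : ℝ) ≤ K * lam ^ n := by
    intro u hu
    have := hd u
    rw [(MeanCount_mem_VW.1 hu).1] at this
    simp only [TripleD_N, (MeanCount_mem_VW.1 hu).1]
    exact this
  have b1 := TripleD_card_VW β hβ hβ3 n
  have b2 := TripleD_card_VW β hβ hβ3 (h - n)
  have b3 := TripleD_card_VW β hβ hβ3 (g - n)
  calc ((TripleSet n h g).ncard : ℝ) ≤ ((TripleD_T n h g).card : ℝ) := by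
        exact_mod_cast TripleD_ncard_le hh hg
    _ = ∑ u ∈ VW n, ((TripleD_N u).card : ℝ) * (((VW (h - n)).card : ℝ) *
          (((TripleD_N u).card : ℝ) * (((VW (g - n)).card : ℝ) * ((TripleD_N u).card : ℝ)))) := by
        rw [TripleD_card_T]; push_cast; rfl
    _ ≤ ∑ _u ∈ VW n, (K * lam ^ n) * ((2 * β ^ (h - n)) * ((K * lam ^ n) *
          ((2 * β ^ (g - n)) * (K * lam ^ n)))) := by
        apply Finset.sum_le_sum
        intro u hu
        have := hN u hu
        gcongr
    _ = ((VW n).card : ℝ) * ((K * lam ^ n) * ((2 * β ^ (h - n)) * ((K * lam ^ n) *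
          ((2 * β ^ (g - n)) * (K * lam ^ n))))) := by
        rw [Finset.sum_const, nsmul_eq_mul]
    _ ≤ (2 * β ^ n) * ((K * lam ^ n) * ((2 * β ^ (h - n)) * ((K * lam ^ n) *
          ((2 * β ^ (g - n)) * (K * lam ^ n))))) := by
        gcongr
    _ = 8 * K ^ 3 * β ^ (h + g) * (lam ^ 3 / β) ^ n := by
        have e : β ^ (h + g) = β ^ (h - n) * β ^ (g - n) * β ^ n * β ^ n := by
          rw [← pow_add, ← pow_add, ← pow_add]
          congr 1
          omega
        rw [e, div_pow, ← pow_mul, mul_comm 3 n, pow_mul]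
        field_simp
        ring

end Pool.H99.Trib
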