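import Pool.Agent.H99.Trib.Triple
import Pool.Agent.H99.Trib.TreeK

/-!
# Average number of suffixes with many unresolved entries
-/

namespace Pool.H99.Trib

/-- few elements are close to the minimum -/
theorem TripleMean_gap (T : Finset ℕ) (g : ℕ) (hT : T.Nonempty) :
    ∃ m ∈ T, T.card ≤ (T.filter fun x => m + g ≤ x).card + g := by
  refine ⟨T.min' hT, T.min'_mem hT, ?_⟩
  have h1 := Finset.card_filter_add_card_filter_not (s := T) (fun x => T.min' hT + g ≤ x)
  have h2 : (T.filter fun x => ¬ (T.min' hT + g ≤ x)) ⊆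
      Finset.Ico (T.min' hT) (T.min' hT + g) := by
    intro x hx
    rw [Finset.mem_filter] at hx
    rw [Finset.mem_Ico]
    exact ⟨T.min'_le x hx.1, by omega⟩
  have h3 := Finset.card_le_card h2
  rw [Nat.card_Ico] at h3
  omega

/-- three elements with large gaps -/
theorem TripleMean_three (T : Finset ℕ) (g : ℕ) (hT : 2 * g + 1 ≤ T.card) :
    ∃ m0 ∈ T, ∃ m1 ∈ T, ∃ m2 ∈ T, m0 + g ≤ m1 ∧ m1 + g ≤ m2 := by
  have h0 : T.Nonempty := by
    rw [← Finset.card_pos]
    omega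
  obtain ⟨m0, hm0, e0⟩ := TripleMean_gap T g h0
  have h1 : (T.filter fun x => m0 + g ≤ x).Nonempty := by
    rw [← Finset.card_pos]
    omega
  obtain ⟨m1, hm1, e1⟩ := TripleMean_gap _ g h1
  have h2 : ((T.filter fun x => m0 + g ≤ x).filter fun x => m1 + g ≤ x).Nonempty := by
    rw [← Finset.card_pos]
    omega
  obtain ⟨m2, hm2⟩ := h2
  rw [Finset.mem_filter, Finset.mem_filter] at hm2
  rw [Finset.mem_filter] at hm1
  exact ⟨m0, hm0, m1, hm1.1, m2, hm2.1.1, hm1.2, hm2.2⟩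

/-- valid words `u` of length `j` with the three windows ending at `p.1 < p.2.1 < p.2.2` -/
def TripleMeanB (j : ℕ) (p : ℕ × ℕ × ℕ) (w : List Bool) : Set (List Bool) :=
  {u | (u, (w.take p.2.2).drop (p.1 - j)) ∈ TripleSet j (p.2.1 - p.1) (p.2.2 - p.2.1)}

theorem TripleMean_B_finite (j : ℕ) (p : ℕ × ℕ × ℕ) (w : List Bool) :
    (TripleMeanB j p w).Finite :=
  (List.finite_length_eq Bool j).subset fun _ h => h.1

/-- the triples of positions -/
def TripleMeanP (G M j : ℕ) : Finset (ℕ × ℕ × ℕ) :=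
  (Finset.range (M + 1) ×ˢ (Finset.range (M + 1) ×ˢ Finset.range (M + 1))).filter fun p =>
    j ≤ p.1 ∧ p.1 + G ≤ p.2.1 ∧ p.2.1 + G ≤ p.2.2

theorem TripleMean_sub {G M j : ℕ} {w : List Bool} (hw : w ∈ VW M) :
    KU (csOf w) M (2 * G + 3) j ⊆ ⋃ p ∈ TripleMeanP G M j, TripleMeanB j p w := by
  classical
  rintro u ⟨hl, hv, hK⟩
  obtain ⟨hwl, hwv⟩ := MeanCount_mem_VW.1 hw
  set T : Finset ℕ := (Finset.range (M + 1)).filter fun m => UR (csOf w) m u with hT
  have hTc : {m : ℕ | m ≤ M ∧ UR (csOf w) m u}.ncard = T.card := by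
    rw [← Set.ncard_coe_finset]
    congr 1
    ext m
    simp [hT]
  rw [hTc] at hK
  have hlow : ∀ m ∈ T, j ≤ m + 2 := by
    intro m hm
    rw [hT, Finset.mem_filter, Finset.mem_range] at hm
    have := (MeanCount_unsync (by omega) hm.2 0 (Nat.zero_le _)).1
    omega
  have h1 := Finset.card_filter_add_card_filter_not (s := T) (fun x => j ≤ x)
  have h2 : (T.filter fun x => ¬ (j ≤ x)) ⊆ {j - 2, j - 1} := by
    intro x hx
    rw [Finset.mem_filter] at hx
    have := hlow x hx.1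
    simp only [Finset.mem_insert, Finset.mem_singleton]
    omega
  have h3 := (Finset.card_le_card h2).trans Finset.card_le_two
  obtain ⟨m0, hm0, m1, hm1, m2, hm2, g1, g2⟩ :=
    TripleMean_three (T.filter fun x => j ≤ x) G (by omega)
  rw [Finset.mem_filter, hT, Finset.mem_filter, Finset.mem_range] at hm0 hm1 hm2
  obtain ⟨⟨a0, b0⟩, c0⟩ := hm0
  obtain ⟨⟨a1, b1⟩, c1⟩ := hm1
  obtain ⟨⟨a2, b2⟩, c2⟩ := hm2
  refine Set.mem_biUnion (x := (m0, m1, m2)) ?_ ?_
  · simp only [TripleMeanP, Finset.coe_filter, Finset.mem_product, Finset.mem_range,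
      Set.mem_ofPred_eq]
    omega
  · have u0 := (MeanCount_unsync (by omega) b0 j (by omega)).2
    have u1 := (MeanCount_unsync (by omega) b1 j (by omega)).2
    have u2 := (MeanCount_unsync (by omega) b2 j (by omega)).2
    rw [hl, Nat.sub_self, List.drop_zero] at u0 u1 u2
    simp only [TripleMeanB, TripleSet, Set.mem_ofPred_eq]
    refine ⟨hl, hv, ?_, ?_, ?_, ?_, ?_⟩
    · simp
      omega
    · exact Tree_valid_infix hwv
        ((List.drop_suffix _ _).isInfix.trans (List.take_prefix _ _).isInfix)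
    · rw [List.take_drop, List.take_take, min_eq_left (by omega), Nat.sub_add_cancel c0]
      exact u0
    · rw [List.drop_drop, List.take_drop, List.take_take, min_eq_left (by omega)]
      have e1 : m0 - j + (m1 - m0) + j = m1 := by omega
      have e2 : m0 - j + (m1 - m0) = m1 - j := by omega
      rw [e1, e2]
      exact u1
    · rw [List.drop_drop, List.take_drop, List.take_take, min_eq_left (by omega)]
      have e1 : m0 - j + (m1 - m0 + (m2 - m1)) + j = m2 := by omega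
      have e2 : m0 - j + (m1 - m0 + (m2 - m1)) = m2 - j := by omega
      rw [e1, e2]
      exact u2

theorem TripleMean_finite (n h g : ℕ) : (TripleSet n h g).Finite :=
  ((List.finite_length_eq Bool n).prod (List.finite_length_eq Bool (h + g + n))).subset
    fun x hx => ⟨hx.1, hx.2.2.1⟩

/-- the sum over `w` for fixed positions -/
theorem TripleMean_fix (β : ℝ) (hβ : 0 < β) (hβ3 : β ^ 3 = β ^ 2 + β + 1)
    (G M j : ℕ) (p : ℕ × ℕ × ℕ) (hp : p ∈ TripleMeanP G M j) (A : ℝ) (hA : 0 ≤ A)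
    (hc : ((TripleSet j (p.2.1 - p.1) (p.2.2 - p.2.1)).ncard : ℝ) ≤
      A * β ^ ((p.2.1 - p.1) + (p.2.2 - p.2.1))) :
    ((∑ w ∈ VW M, (TripleMeanB j p w).ncard : ℕ) : ℝ) ≤ 4 * A * (β ^ M / β ^ j) := by
  obtain ⟨m0, m1, m2⟩ := p
  simp only [TripleMeanP, Finset.mem_filter, Finset.mem_product, Finset.mem_range] at hp
  obtain ⟨⟨l0, l1, l2⟩, k0, k1, k2⟩ := hp
  simp only at hc
  set h := m1 - m0 with hh
  set g := m2 - m1 with hg
  set T : Set (List Bool × List Bool × (List Bool × List Bool)) :=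
    {w | w.length = m0 - j ∧ Valid w} ×ˢ ({w | w.length = M - m2 ∧ Valid w} ×ˢ
      TripleSet j h g) with hT
  have hfin : T.Finite := by
    refine Set.Finite.prod ?_ (Set.Finite.prod ?_ (TripleMean_finite _ _ _))
    · exact (List.finite_length_eq Bool (m0 - j)).subset fun _ h => h.1
    · exact (List.finite_length_eq Bool (M - m2)).subset fun _ h => h.1
  have h1 : ∑ w ∈ VW M, (TripleMeanB j (m0, m1, m2) w).ncard ≤ T.ncard := by
    refine MeanCount_sum_le (VW M) (TripleMeanB j (m0, m1, m2))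
      (fun a _ => TripleMean_B_finite j (m0, m1, m2) a) T hfin
      (fun w u => (w.take (m0 - j), w.drop m2, (u, (w.take m2).drop (m0 - j)))) ?_ ?_
    · intro w hw u hu
      obtain ⟨hwl, hwv⟩ := MeanCount_mem_VW.1 hw
      refine ⟨⟨?_, ?_⟩, ⟨?_, ?_⟩, hu⟩
      · simp
        omega
      · exact Tree_valid_infix hwv (List.take_prefix _ _).isInfix
      · simp [hwl]
      · exact Tree_valid_infix hwv (List.drop_suffix _ _).isInfix
    · intro w hw u hu w' hw' u' hu' he
      simp only [Prod.mk.injEq] at he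
      obtain ⟨e1, e2, e3, e4⟩ := he
      refine ⟨?_, e3⟩
      have e6 : w.take m2 = w'.take m2 := by
        rw [← List.take_append_drop (m0 - j) (w.take m2),
          ← List.take_append_drop (m0 - j) (w'.take m2), e4, List.take_take, List.take_take,
          min_eq_left (by omega), e1]
      rw [← List.take_append_drop m2 w, ← List.take_append_drop m2 w', e6, e2]
  have h2 : T.ncard = {w : List Bool | w.length = m0 - j ∧ Valid w}.ncard *
      ({w : List Bool | w.length = M - m2 ∧ Valid w}.ncard * (TripleSet j h g).ncard) := by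
    rw [hT, Set.ncard_prod, Set.ncard_prod]
  have h4 := ncard_valid β hβ hβ3 (m0 - j)
  have h5 := ncard_valid β hβ hβ3 (M - m2)
  have e : β ^ M = β ^ (m0 - j + (M - m2) + (h + g)) * β ^ j := by
    rw [← pow_add]
    congr 1
    omega
  calc ((∑ w ∈ VW M, (TripleMeanB j (m0, m1, m2) w).ncard : ℕ) : ℝ) ≤ (T.ncard : ℝ) := by
        exact_mod_cast h1
    _ = ({w : List Bool | w.length = m0 - j ∧ Valid w}.ncard : ℝ) *
      (({w : List Bool | w.length = M - m2 ∧ Valid w}.ncard : ℝ) *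
        ((TripleSet j h g).ncard : ℝ)) := by
        rw [h2]
        push_cast
        ring
    _ ≤ (2 * β ^ (m0 - j)) * ((2 * β ^ (M - m2)) * (A * β ^ (h + g))) := by
        gcongr
    _ = 4 * A * β ^ (m0 - j + (M - m2) + (h + g)) := by
        rw [pow_add, pow_add]
        ring
    _ = 4 * A * (β ^ M / β ^ j) := by
        rw [e, mul_div_cancel_right₀ _ (pow_ne_zero _ hβ.ne')]

/-- the triples with a small gap -/
def TripleMeanS (M j : ℕ) : Finset (ℕ × ℕ × ℕ) :=
  ((Finset.range (M + 1) ×ˢ (Finset.range (M + 1) ×ˢ Finset.range j)).image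
    fun p => (p.1, p.2.1, p.2.1 + p.2.2)) ∪
  ((Finset.range (M + 1) ×ˢ (Finset.range (M + 1) ×ˢ Finset.range j)).image
    fun p => (p.1, p.1 + p.2.2, p.2.1))

theorem TripleMean_card_S (M j : ℕ) : (TripleMeanS M j).card ≤ 2 * ((M + 1) ^ 2 * j) := by
  refine (Finset.card_union_le _ _).trans ?_
  have h1 : (Finset.range (M + 1) ×ˢ (Finset.range (M + 1) ×ˢ Finset.range j)).card =
      (M + 1) ^ 2 * j := by
    rw [Finset.card_product, Finset.card_product, Finset.card_range, Finset.card_range]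
    ring
  rw [two_mul]
  exact Nat.add_le_add (Finset.card_image_le.trans h1.le) (Finset.card_image_le.trans h1.le)

theorem TripleMean_card_P (G M j : ℕ) : (TripleMeanP G M j).card ≤ (M + 1) ^ 3 := by
  refine (Finset.card_filter_le _ _).trans ?_
  rw [Finset.card_product, Finset.card_product, Finset.card_range]
  apply le_of_eq
  ring

theorem TripleMean_P_small {G M j : ℕ} {p : ℕ × ℕ × ℕ} (hp : p ∈ TripleMeanP G M j)
    (h : ¬ (j ≤ p.2.1 - p.1 ∧ j ≤ p.2.2 - p.2.1)) : p ∈ TripleMeanS M j := by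
  classical
  obtain ⟨m0, m1, m2⟩ := p
  simp only [TripleMeanP, Finset.mem_filter, Finset.mem_product, Finset.mem_range] at hp
  obtain ⟨⟨l0, l1, l2⟩, k0, k1, k2⟩ := hp
  simp only [not_and_or, not_le] at h
  simp only [TripleMeanS, Finset.mem_union, Finset.mem_image, Finset.mem_product,
    Finset.mem_range, Prod.exists, Prod.mk.injEq]
  rcases h with h | h
  · exact Or.inr ⟨m0, m2, m1 - m0, ⟨l0, l2, h⟩, rfl, by omega, rfl⟩
  · exact Or.inl ⟨m0, m1, m2 - m1, ⟨l0, l1, h⟩, rfl, rfl, by omega⟩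

theorem TripleMean_card_VW (β : ℝ) (hβ : 0 < β) (hβ3 : β ^ 3 = β ^ 2 + β + 1) (M : ℕ) :
    ((VW M).card : ℝ) ≤ 2 * β ^ M := by
  have h := ncard_valid β hβ hβ3 M
  have hfin : ({w : List Bool | w.length = M ∧ Valid w}).Finite :=
    (List.finite_length_eq Bool M).subset (fun w (hw : w.length = M ∧ Valid w) => hw.1)
  rw [Set.ncard_eq_toFinset_card _ hfin] at h
  exact h

theorem sum_KU (β lam : ℝ) (hβ : 0 < β) (hβ3 : β ^ 3 = β ^ 2 + β + 1) (h0 : 0 < lam)
    (h : lam ^ 4 = 2 * lam + 1) :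
    ∃ (K : ℕ) (C : ℝ), 1 ≤ K ∧ 0 < C ∧ ∀ M j : ℕ, j < M + 3 →
      ∑ w ∈ VW M, ((KU (csOf w) M K j).ncard : ℝ) ≤ C * β ^ M * β ^ j ∧
      ∑ w ∈ VW M, ((KU (csOf w) M K j).ncard : ℝ) ≤ C * β ^ M *
        (((M : ℝ) + 1) ^ 3 * (lam ^ 3 / β ^ 2) ^ j +
          ((M : ℝ) + 1) ^ 2 * ((j : ℝ) + 1) * (183 / 100 / β) ^ j) := by
  classical
  obtain ⟨G, K2, hK2, ho⟩ := triple_overlap β hβ hβ3
  obtain ⟨K1, hK1, hd⟩ := triple_disjoint β lam hβ hβ3 h0 h
  refine ⟨2 * G + 3, 4 + 4 * K1 + 8 * K2, by omega, by positivity, fun M j _ => ⟨?_, ?_⟩⟩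
  · have h1 : ∀ w ∈ VW M, ((KU (csOf w) M (2 * G + 3) j).ncard : ℝ) ≤ 2 * β ^ j := by
      intro w _
      refine le_trans ?_ (TripleMean_card_VW β hβ hβ3 j)
      have h2 : KU (csOf w) M (2 * G + 3) j ⊆ (VW j : Set (List Bool)) := by
        intro u hu
        exact Finset.mem_coe.2 (MeanCount_mem_VW.2 ⟨hu.1, hu.2.1⟩)
      have h3 := Set.ncard_le_ncard h2 (Finset.finite_toSet _)
      rw [Set.ncard_coe_finset] at h3
      exact_mod_cast h3
    have h4 := TripleMean_card_VW β hβ hβ3 M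
    calc ∑ w ∈ VW M, ((KU (csOf w) M (2 * G + 3) j).ncard : ℝ)
        ≤ ∑ w ∈ VW M, 2 * β ^ j := Finset.sum_le_sum h1
      _ = (VW M).card * (2 * β ^ j) := by rw [Finset.sum_const, nsmul_eq_mul]
      _ ≤ (2 * β ^ M) * (2 * β ^ j) := by gcongr
      _ = 4 * (β ^ M * β ^ j) := by ring
      _ ≤ (4 + 4 * K1 + 8 * K2) * (β ^ M * β ^ j) := by
        gcongr
        linarith
      _ = (4 + 4 * K1 + 8 * K2) * β ^ M * β ^ j := by ring
  · set P := TripleMeanP G M j with hP
    have h1 : ∑ w ∈ VW M, (KU (csOf w) M (2 * G + 3) j).ncard ≤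
        ∑ p ∈ P, ∑ w ∈ VW M, (TripleMeanB j p w).ncard := by
      rw [Finset.sum_comm]
      apply Finset.sum_le_sum
      intro w hw
      refine (Set.ncard_le_ncard (TripleMean_sub hw) ?_).trans
        (MeanCount_ncard_biUnion _ _ fun p _ => TripleMean_B_finite j p w)
      exact Set.Finite.biUnion (Finset.finite_toSet _) fun p _ => TripleMean_B_finite j p w
    set X : ℝ := 4 * (K1 * (lam ^ 3 / β) ^ j) * (β ^ M / β ^ j) with hX
    set Y : ℝ := 4 * (K2 * (183 / 100 : ℝ) ^ j) * (β ^ M / β ^ j) with hY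
    have hX0 : 0 ≤ X := by positivity
    have hY0 : 0 ≤ Y := by positivity
    have h2 : ∀ p ∈ P, ((∑ w ∈ VW M, (TripleMeanB j p w).ncard : ℕ) : ℝ) ≤
        X + if p ∈ TripleMeanS M j then Y else 0 := by
      intro p hp
      have hp' := hp
      rw [hP] at hp'
      by_cases hs : j ≤ p.2.1 - p.1 ∧ j ≤ p.2.2 - p.2.1
      · have h3 := TripleMean_fix β hβ hβ3 G M j p hp (K1 * (lam ^ 3 / β) ^ j) (by positivity) (by
          have := hd j _ _ hs.1 hs.2
          calc _ ≤ _ := this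
            _ = _ := by ring)
        have h4 : 0 ≤ (if p ∈ TripleMeanS M j then Y else 0) := by
          split_ifs
          · exact hY0
          · exact le_refl 0
        linarith
      · rw [if_pos (TripleMean_P_small hp hs)]
        have hp2 := hp'
        simp only [TripleMeanP, Finset.mem_filter, Finset.mem_product, Finset.mem_range] at hp2
        have h3 := TripleMean_fix β hβ hβ3 G M j p hp (K2 * (183 / 100 : ℝ) ^ j) (by positivity) (by
          have := ho j (p.2.1 - p.1) (p.2.2 - p.2.1) (by omega) (by omega)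
          calc _ ≤ _ := this
            _ = _ := by ring)
        linarith
    have h5 : ((P.card : ℕ) : ℝ) ≤ ((M : ℝ) + 1) ^ 3 := by
      exact_mod_cast TripleMean_card_P G M j
    have h6 : ∑ p ∈ P, (if p ∈ TripleMeanS M j then Y else 0) ≤
        2 * (((M : ℝ) + 1) ^ 2 * j) * Y := by
      rw [← Finset.sum_filter, Finset.sum_const, nsmul_eq_mul]
      have h7 : (P.filter fun p => p ∈ TripleMeanS M j).card ≤ 2 * ((M + 1) ^ 2 * j) := by
        refine (Finset.card_le_card ?_).trans (TripleMean_card_S M j)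
        intro p hp
        exact (Finset.mem_filter.1 hp).2
      have h8 : (((P.filter fun p => p ∈ TripleMeanS M j).card : ℕ) : ℝ) ≤
          2 * (((M : ℝ) + 1) ^ 2 * j) := by exact_mod_cast h7
      gcongr
    have eX : X = 4 * K1 * (β ^ M * (lam ^ 3 / β ^ 2) ^ j) := by
      rw [hX, div_pow, div_pow]
      have : (β ^ 2) ^ j = β ^ j * β ^ j := by
        rw [← pow_mul, two_mul, pow_add]
      rw [this]
      field_simp
    have eY : Y = 4 * K2 * (β ^ M * (183 / 100 / β) ^ j) := by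
      rw [hY, div_pow (183 / 100 : ℝ) β j]
      field_simp
    have hM0 : (0 : ℝ) ≤ (M : ℝ) := Nat.cast_nonneg M
    have hj0 : (0 : ℝ) ≤ (j : ℝ) := Nat.cast_nonneg j
    calc ∑ w ∈ VW M, ((KU (csOf w) M (2 * G + 3) j).ncard : ℝ)
        = ((∑ w ∈ VW M, (KU (csOf w) M (2 * G + 3) j).ncard : ℕ) : ℝ) := by push_cast; rfl
      _ ≤ ((∑ p ∈ P, ∑ w ∈ VW M, (TripleMeanB j p w).ncard : ℕ) : ℝ) := by exact_mod_cast h1
      _ = ∑ p ∈ P, ((∑ w ∈ VW M, (TripleMeanB j p w).ncard : ℕ) : ℝ) := by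
          push_cast
          rfl
      _ ≤ ∑ p ∈ P, (X + if p ∈ TripleMeanS M j then Y else 0) := Finset.sum_le_sum h2
      _ = P.card * X + ∑ p ∈ P, (if p ∈ TripleMeanS M j then Y else 0) := by
          rw [Finset.sum_add_distrib, Finset.sum_const, nsmul_eq_mul]
      _ ≤ ((M : ℝ) + 1) ^ 3 * X + 2 * (((M : ℝ) + 1) ^ 2 * j) * Y := by gcongr
      _ ≤ ((M : ℝ) + 1) ^ 3 * X + 2 * (((M : ℝ) + 1) ^ 2 * ((j : ℝ) + 1)) * Y := by
          gcongr
          linarith
      _ = 4 * K1 * (β ^ M * (((M : ℝ) + 1) ^ 3 * (lam ^ 3 / β ^ 2) ^ j)) +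
          8 * K2 * (β ^ M * (((M : ℝ) + 1) ^ 2 * ((j : ℝ) + 1) * (183 / 100 / β) ^ j)) := by
          rw [eX, eY]
          ring
      _ ≤ (4 + 4 * K1 + 8 * K2) * (β ^ M * (((M : ℝ) + 1) ^ 3 * (lam ^ 3 / β ^ 2) ^ j)) +
          (4 + 4 * K1 + 8 * K2) *
            (β ^ M * (((M : ℝ) + 1) ^ 2 * ((j : ℝ) + 1) * (183 / 100 / β) ^ j)) := by
          have k1 : 4 * K1 ≤ 4 + 4 * K1 + 8 * K2 := by linarith
          have k2 : 8 * K2 ≤ 4 + 4 * K1 + 8 * K2 := by linarith
          gcongr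
      _ = (4 + 4 * K1 + 8 * K2) * β ^ M *
        (((M : ℝ) + 1) ^ 3 * (lam ^ 3 / β ^ 2) ^ j +
          ((M : ℝ) + 1) ^ 2 * ((j : ℝ) + 1) * (183 / 100 / β) ^ j) := by ring

end Pool.H99.Trib
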