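import Pool.Agent.H99.Trib.MeanPolylog

/-!
# Upper bound for almost all shifts (Markov's inequality)
-/

namespace Pool.H99.Trib

open Classical in
theorem typical_upper (β lam : ℝ) (hβ : 0 < β) (hβ3 : β ^ 3 = β ^ 2 + β + 1) (h0 : 0 < lam)
    (h : lam ^ 4 = 2 * lam + 1) (ε : ℝ) (hε : 0 < ε) :
    Filter.Tendsto (fun N : ℕ => (((Finset.range N).filter fun c =>
      Real.log N ^ (Real.log β / Real.log (β / lam) + ε) < (s c : ℝ)).card : ℝ) / N)
      Filter.atTop (nhds 0) := by
  obtain ⟨C, hC, hmean⟩ := mean_polylog β lam hβ hβ3 h0 h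
  set θ : ℝ := Real.log β / Real.log (β / lam) with hθ
  have hlog : Filter.Tendsto (fun N : ℕ => Real.log N ^ ε) Filter.atTop Filter.atTop :=
    (tendsto_rpow_atTop hε).comp (Real.tendsto_log_atTop.comp tendsto_natCast_atTop_atTop)
  have hlim : Filter.Tendsto (fun N : ℕ => C / Real.log N ^ ε) Filter.atTop (nhds 0) :=
    tendsto_const_nhds.div_atTop hlog
  refine squeeze_zero' (Filter.Eventually.of_forall fun N => by positivity) ?_ hlim
  filter_upwards [Filter.eventually_ge_atTop 2] with N hN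
  have hN2 : (2 : ℝ) ≤ N := by exact_mod_cast hN
  have hlogN : 0 < Real.log N := Real.log_pos (by linarith)
  have hm := hmean N hN
  set U := (Finset.range N).filter fun c => Real.log N ^ (θ + ε) < (s c : ℝ) with hU
  have h1 : (U.card : ℝ) * Real.log N ^ (θ + ε) ≤ ∑ c ∈ U, (s c : ℝ) := by
    rw [← nsmul_eq_mul]
    refine Finset.card_nsmul_le_sum U _ _ fun c hc => ?_
    rw [hU, Finset.mem_filter] at hc
    exact hc.2.le
  have h2 : ∑ c ∈ U, (s c : ℝ) ≤ ∑ c ∈ Finset.range N, (s c : ℝ) :=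
    Finset.sum_le_sum_of_subset_of_nonneg (Finset.filter_subset _ _) fun c _ _ =>
      Nat.cast_nonneg _
  have h3 := h1.trans (h2.trans hm)
  rw [Real.rpow_add hlogN] at h3
  have hp1 : 0 < Real.log N ^ θ := Real.rpow_pos_of_pos hlogN _
  have hp2 : 0 < Real.log N ^ ε := Real.rpow_pos_of_pos hlogN _
  rw [div_le_div_iff₀ (by linarith) hp2]
  refine le_of_mul_le_mul_right ?_ hp1
  calc (U.card : ℝ) * Real.log N ^ ε * Real.log N ^ θ
      = (U.card : ℝ) * (Real.log N ^ θ * Real.log N ^ ε) := by ring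
    _ ≤ C * N * Real.log N ^ θ := h3

end Pool.H99.Trib
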