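import Pool.Agent.H99.Trib.Delta

namespace Pool.H99.Trib

theorem vec_snoc (cs : ℕ → Bool) (x : List Bool) (a : Bool) :
    vec cs (x ++ [a]) = vecStep cs (vec cs x) a := by
  simp [vec, List.foldl_append]

theorem Vectors_bits_snoc (x : List Bool) (a : Bool) : bits (x ++ [a]) = bits x ++ [a.toNat] := by
  simp [bits]

theorem Vectors_dls_snoc (y : Q) (s : List ℕ) (a : ℕ) : dls y (s ++ [a]) = dl (dls y s) a := by
  rw [dls_append]; rfl

theorem Vectors_pref_succ (cs : ℕ → Bool) (M : ℕ) : pref cs (M + 1) = pref cs M ++ [cs M] := by
  simp [pref, List.range_succ]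

theorem Vectors_vec0 (cs : ℕ → Bool) (m : ℕ) : vec0 cs m = dls 0 (bits (pref cs m)) := by
  simp [vec0, bits, pref, Function.comp_def]

theorem vec_false_cons (cs : ℕ → Bool) (x : List Bool) : vec cs (false :: x) = vec cs x := by
  have h : vecStep cs (vec0 cs) false = vec0 cs := by
    funext m
    cases m with
    | zero =>
      change dl (0 : Q) 0 = 0
      decide +kernel
    | succ m =>
      rw [Vectors_vec0 cs (m + 1), Vectors_pref_succ, Vectors_bits_snoc, Vectors_dls_snoc,
        ← Vectors_vec0]
      change dl (vec0 cs m) (false.toNat + (cs m).toNat) = _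
      simp
  change List.foldl (vecStep cs) (vecStep cs (vec0 cs) false) x = _
  rw [h]
  rfl

theorem vec_zero (cs : ℕ → Bool) (x : List Bool) : vec cs x 0 = dls 0 (bits x) := by
  induction x using List.reverseRecOn with
  | nil => rfl
  | append_singleton x a ih =>
    rw [vec_snoc, Vectors_bits_snoc, Vectors_dls_snoc, ← ih]
    rfl

theorem Vectors_vec_succ (cs : ℕ → Bool) (x : List Bool) (a : Bool) (m : ℕ) :
    vec cs (x ++ [a]) (m + 1) = dl (vec cs x m) (a.toNat + (cs m).toNat) := by
  rw [vec_snoc]; rfl

theorem Vectors_sval_append (t s : List ℕ) :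
    sval (t ++ s) = sval (t ++ List.replicate s.length 0) + sval s := by
  induction t with
  | nil =>
    have h : ∀ n, sval (List.replicate n 0) = 0 := by
      intro n
      induction n with
      | zero => rfl
      | succ n ih => rw [List.replicate_succ, sval, ih, zero_mul]
    simp [h]
  | cons d t ih =>
    simp only [List.cons_append, sval, ih, List.length_append, List.length_replicate]
    ring

theorem Vectors_sval_replicate (n : ℕ) : sval (List.replicate n 0) = 0 := by
  induction n with
  | zero => rfl
  | succ n ih => rw [List.replicate_succ, sval, ih, zero_mul]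

theorem Vectors_sval_snoc (t : List ℕ) (d k : ℕ) :
    sval ((t ++ [d]) ++ List.replicate k 0) =
      sval (t ++ List.replicate (k + 1) 0) + d * W k := by
  rw [List.append_assoc, Vectors_sval_append]
  have h1 : ([d] ++ List.replicate k 0).length = k + 1 := by simp
  rw [h1]
  congr 1
  change d * W (List.replicate k 0).length + sval (List.replicate k 0) = _
  rw [Vectors_sval_replicate, List.length_replicate, add_zero]

theorem Vectors_sval_bits (x : List Bool) : sval (bits x) = value x := by
  induction x with
  | nil => rfl
  | cons a x ih =>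
    change a.toNat * W (bits x).length + sval (bits x) = a.toNat * W x.length + value x
    rw [ih]
    simp [bits]

theorem Vectors_bits_le (x : List Bool) : ∀ d ∈ bits x, d ≤ 2 := by
  intro d hd
  simp only [bits, List.mem_map] at hd
  obtain ⟨a, -, rfl⟩ := hd
  cases a <;> simp

theorem Vectors_word (cs : ℕ → Bool) (x : List Bool) : ∀ M : ℕ, ∃ t : List ℕ,
    (∀ d ∈ t, d ≤ 2) ∧ vec cs x M = dls 0 t ∧ ∀ k, sval (t ++ List.replicate k 0) =
      sval (bits x ++ List.replicate k 0) + sval (bits (pref cs M) ++ List.replicate k 0) := by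
  induction x using List.reverseRecOn with
  | nil =>
    intro M
    refine ⟨bits (pref cs M), Vectors_bits_le _, Vectors_vec0 cs M, fun k => ?_⟩
    change _ = sval ([] ++ List.replicate k 0) + _
    rw [List.nil_append, Vectors_sval_replicate, zero_add]
  | append_singleton x a ih =>
    intro M
    cases M with
    | zero =>
      refine ⟨bits (x ++ [a]), Vectors_bits_le _, vec_zero cs _, fun k => ?_⟩
      change _ = _ + sval ([] ++ List.replicate k 0)
      rw [List.nil_append, Vectors_sval_replicate, add_zero]
    | succ M =>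
      obtain ⟨t, ht, hv, hk⟩ := ih M
      refine ⟨t ++ [a.toNat + (cs M).toNat], ?_, ?_, fun k => ?_⟩
      · intro d hd
        rw [List.mem_append, List.mem_singleton] at hd
        rcases hd with hd | rfl
        · exact ht d hd
        · have h1 : a.toNat ≤ 1 := by cases a <;> simp
          have h2 : (cs M).toNat ≤ 1 := by cases cs M <;> simp
          omega
      · rw [Vectors_vec_succ, hv, Vectors_dls_snoc]
      · rw [Vectors_sval_snoc, hk (k + 1), Vectors_bits_snoc, Vectors_pref_succ,
          Vectors_bits_snoc, Vectors_sval_snoc, Vectors_sval_snoc]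
        ring

theorem ou_vec (cs : ℕ → Bool) (x : List Bool) (M : ℕ) :
    ou (vec cs x M) = tribWord (value x + value (pref cs M)) := by
  obtain ⟨t, ht, hv, hk⟩ := Vectors_word cs x M
  have h0 := hk 0
  simp only [List.replicate_zero, List.append_nil] at h0
  rw [hv, ou_dls t ht, h0, Vectors_sval_bits, Vectors_sval_bits]

theorem vec_append_of_le (cs : ℕ → Bool) (y u : List Bool) {m : ℕ} (h : u.length ≤ m) :
    vec cs (y ++ u) m = dls (vec cs y (m - u.length))
      (zs u ((List.range u.length).map fun i => cs (m - u.length + i))) := by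
  induction u using List.reverseRecOn generalizing m with
  | nil => simp [zs, dls]
  | append_singleton u a ih =>
    rw [List.length_append, List.length_singleton] at h
    obtain ⟨m', rfl⟩ : ∃ m', m = m' + 1 := ⟨m - 1, by omega⟩
    have h' : u.length ≤ m' := by omega
    rw [← List.append_assoc, Vectors_vec_succ, ih h', List.length_append, List.length_singleton]
    have h1 : m' + 1 - (u.length + 1) = m' - u.length := by omega
    rw [h1, List.range_succ, List.map_append]
    have h2 : zs (u ++ [a]) (((List.range u.length).map fun i => cs (m' - u.length + i)) ++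
        ([u.length].map fun i => cs (m' - u.length + i))) =
        zs u ((List.range u.length).map fun i => cs (m' - u.length + i)) ++
          [a.toNat + (cs m').toNat] := by
      unfold zs
      rw [List.zipWith_append (by simp)]
      have h3 : m' - u.length + u.length = m' := by omega
      simp [h3]
    rw [h2, Vectors_dls_snoc]

theorem vec_append_of_ge (cs : ℕ → Bool) (y u : List Bool) {m : ℕ} (h : m ≤ u.length) :
    vec cs (y ++ u) m = dls (dls 0 (bits (y ++ u.take (u.length - m))))
      (zs (u.drop (u.length - m)) (pref cs m)) := by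
  have hl : (u.drop (u.length - m)).length = m := by
    rw [List.length_drop]; omega
  have h1 : y ++ u = (y ++ u.take (u.length - m)) ++ u.drop (u.length - m) := by
    rw [List.append_assoc, List.take_append_drop]
  have h2 := vec_append_of_le cs (y ++ u.take (u.length - m)) (u.drop (u.length - m)) (m := m)
    (le_of_eq hl)
  rw [← h1, hl] at h2
  rw [h2]
  simp only [Nat.sub_self, Nat.zero_add, vec_zero]
  rfl

theorem Vectors_step : ∀ e a b c : Bool, ¬ (e = true ∧ a = true ∧ b = true) →
    ¬ (a = true ∧ b = true ∧ c = true) →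
    dl (dls 0 (bits [e, a, b])) c.toNat = dls 0 (bits [a, b, c]) := by
  decide +kernel

theorem Vectors_valid_infix {x y : List Bool} (h : Valid y) (hx : x <:+: y) : Valid x :=
  fun h1 => h (h1.trans hx)

theorem dls_bits_last_three {x : List Bool} {a b c : Bool} (h : Valid (x ++ [a, b, c])) :
    dls 0 (bits (x ++ [a, b, c])) = dls 0 (bits [a, b, c]) := by
  induction x using List.reverseRecOn generalizing a b c with
  | nil => rfl
  | append_singleton x e ih =>
    have h1 : (x ++ [e]) ++ [a, b, c] = (x ++ [e, a, b]) ++ [c] := by simp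
    have hv1 : Valid (x ++ [e, a, b]) := by
      refine Vectors_valid_infix h ?_
      rw [h1]
      exact (List.prefix_append _ _).isInfix
    have n1 : ¬ (e = true ∧ a = true ∧ b = true) := by
      rintro ⟨rfl, rfl, rfl⟩
      exact hv1 (List.suffix_append _ _).isInfix
    have n2 : ¬ (a = true ∧ b = true ∧ c = true) := by
      rintro ⟨rfl, rfl, rfl⟩
      exact h (List.suffix_append _ _).isInfix
    rw [h1, Vectors_bits_snoc, Vectors_dls_snoc, ih hv1, Vectors_step e a b c n1 n2]

theorem Vectors_cases (x : List Bool) : x = [] ∨ (∃ a, x = [a]) ∨ (∃ a b, x = [a, b]) ∨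
    ∃ y a b c, x = y ++ [a, b, c] := by
  rcases List.eq_nil_or_concat x with rfl | ⟨x1, c, rfl⟩
  · exact Or.inl rfl
  · rcases List.eq_nil_or_concat x1 with rfl | ⟨x2, b, rfl⟩
    · exact Or.inr (Or.inl ⟨c, rfl⟩)
    · rcases List.eq_nil_or_concat x2 with rfl | ⟨x3, a, rfl⟩
      · exact Or.inr (Or.inr (Or.inl ⟨b, c, rfl⟩))
      · exact Or.inr (Or.inr (Or.inr ⟨x3, a, b, c, by simp⟩))

theorem Vectors_four1 : ∀ a : Bool, dls 0 (bits [a]) ≠ 4 := by decide +kernel

theorem Vectors_four2 : ∀ a b : Bool, dls 0 (bits [a, b]) = 4 ↔ (a = true ∧ b = true) := by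
  decide +kernel

theorem Vectors_four3 : ∀ a b c : Bool, ¬ (a = true ∧ b = true ∧ c = true) →
    (dls 0 (bits [a, b, c]) = 4 ↔ (b = true ∧ c = true)) := by decide +kernel

theorem dls_bits_eq_four {x : List Bool} (h : Valid x) :
    dls 0 (bits x) = 4 ↔ [true, true] <:+ x := by
  rcases Vectors_cases x with rfl | ⟨a, rfl⟩ | ⟨a, b, rfl⟩ | ⟨y, a, b, c, rfl⟩
  · constructor
    · intro h1
      exact absurd h1 (by decide)
    · intro h1
      have := h1.length_le
      simp at this
  · constructor
    · intro h1
      exact absurd h1 (Vectors_four1 a)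
    · intro h1
      have := h1.length_le
      simp at this
  · rw [Vectors_four2]
    rw [← List.reverse_prefix]
    simp [and_comm]
  · have n2 : ¬ (a = true ∧ b = true ∧ c = true) := by
      rintro ⟨rfl, rfl, rfl⟩
      exact h (List.suffix_append _ _).isInfix
    rw [dls_bits_last_three h, Vectors_four3 a b c n2, ← List.reverse_prefix]
    simp [and_comm]

end Pool.H99.Trib
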