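import Pool.Agent.H99.Trib.Pair

/-!
# Sums of two words near the boundary, in `ℤ[β]`
-/

namespace Pool.H99.Trib

/-- the translates: pairs (shift, node) -/
def IX (j : ℕ) : List (Z3 × Z3) :=
  TT.flatMap fun x => x.2.flatMap fun f => TT.flatMap fun y => y.2.map fun e =>
    (e.1 - mb^[j] f.1, sz f.2 f.1)

theorem IX_length (j : ℕ) : (IX j).length = (IX 0).length := by
  simp only [IX, List.length_flatMap, List.length_map]

theorem IX_node {j : ℕ} {x : Z3 × Z3} (hx : x ∈ IX j) : x.2 ∈ DD := by
  simp only [IX, List.mem_flatMap, List.mem_map] at hx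
  obtain ⟨a, ha, f, hf, b, hb, e, he, rfl⟩ := hx
  exact (TT_length_le ha).2 f hf

theorem unsync_vz {u w : List Bool} (hl : u.length = w.length) (h : Unsync u w) :
    ∃ x ∈ IX w.length, ∃ b ∈ bp w.length x.2, vz u + vz w = x.1 + vz b := by
  have h1 := Pair_mem_cand (j := w.length) hl rfl h
  simp only [Pair_cand, List.mem_toFinset, List.mem_flatMap, List.mem_map] at h1
  obtain ⟨a, ha, f, hf, b, hb, e, he, w', hw', hv⟩ := h1
  refine ⟨(e.1 - mb^[w.length] f.1, sz f.2 f.1), ?_, w', hw', hv.symm⟩
  simp only [IX, List.mem_flatMap, List.mem_map]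
  exact ⟨a, ha, f, hf, b, hb, e, he, rfl⟩

theorem vz_inj {u v : List Bool} (hu : Valid u) (hv : Valid v) (hl : u.length = v.length)
    (h : vz u = vz v) : u = v := by
  apply value_inj hu hv hl
  have h1 := phi_zero_vz u
  rw [h, phi_zero_vz] at h1
  exact_mod_cast h1.symm

theorem unsync_comm {u w : List Bool} : Unsync u w ↔ Unsync w u := by
  have h : zs u w = zs w u := by
    unfold zs
    rw [List.zipWith_comm]
    simp only [add_comm]
  unfold Unsync
  rw [h]

end Pool.H99.Trib
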